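import Pool.Agent.LKA.Base

/-!
# LKA-Cnt: counting graphs through matchings

Plan. `cnt_le`: `cnt n M B` is the sum over `D ∈ piAntidiag univ (2M)` of the number of graphs `G`
with degree sequence `D` and `B G` (for a graph with `M` edges the degrees sum to `2M`:
`SimpleGraph.sum_degrees_eq_twice_card_edges`; `Finset.card_eq_sum_card_fiberwise` for the map
`G ↦ (v ↦ (G.neighborSet v).ncard)`). For each `D`: by `base_count` and the hypothesis the number is
at most `p D * pm (2M) / ∏ (D v)!` (the type `Stub D` has `2M` elements: `Fintype.card_sigma`), and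
`pm (2M) * (2^M M!) = (2M)!`, `(2M)! = multinomial * ∏ (D v)!` (`Nat.multinomial_spec`).
`sum_multinomial`: `Finset.sum_pow_eq_sum_piAntidiag` with `f = 1`.
`sum_multinomial_low`: `Finset.sum_pow_eq_sum_piAntidiag` with `f v = if v ∈ L then 1 - y else 1`,
sum of `f` is `n - l y`; exchange the two sums.
-/

open scoped Classical
open Finset

namespace LKA

variable {n : ℕ}

private theorem sum_deg {M : ℕ} {G : SimpleGraph (Fin n)} (hG : G.edgeSet.ncard = M) :
    ∑ v, (G.neighborSet v).ncard = 2 * M := by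
  have h1 : ∀ v, (G.neighborSet v).ncard = G.degree v := by
    intro v
    rw [Set.ncard_eq_toFinset_card', Set.toFinset_card, SimpleGraph.card_neighborSet_eq_degree]
  have h2 : G.edgeSet.ncard = G.edgeFinset.card := by
    rw [Set.ncard_eq_toFinset_card']
    rfl
  rw [Finset.sum_congr rfl (fun v _ => h1 v), SimpleGraph.sum_degrees_eq_twice_card_edges, ← h2,
    hG]

private theorem one_D (M : ℕ) (B : SimpleGraph (Fin n) → Prop) (D : Fin n → ℕ) (p : ℝ)
    (hD : ∑ v, D v = 2 * M)
    (h : (((Mat (univ : Finset (Stub D))).filter (fun m => Simp m ∧ B (gr m))).card : ℝ) ≤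
        p * (Mat (univ : Finset (Stub D))).card) :
    ((univ.filter (fun G : SimpleGraph (Fin n) =>
      (∀ v, (G.neighborSet v).ncard = D v) ∧ B G)).card : ℝ) * (2 ^ M * M.factorial) ≤
      (Nat.multinomial univ D : ℝ) * p := by
  have h1 : (((univ.filter (fun G : SimpleGraph (Fin n) =>
      (∀ v, (G.neighborSet v).ncard = D v) ∧ B G)).card * ∏ v, (D v).factorial : ℕ) : ℝ) ≤
      (((Mat (univ : Finset (Stub D))).filter (fun m => Simp m ∧ B (gr m))).card : ℝ) := by
    exact_mod_cast base_count D B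
  have h2 : (Mat (univ : Finset (Stub D))).card = pm (2 * M) := by
    rw [card_Mat]
    congr 1
    rw [Finset.card_univ, Fintype.card_sigma]
    simp only [Fintype.card_fin]
    exact hD
  have h3 : (pm (2 * M) : ℝ) * (2 ^ M * M.factorial) =
      (∏ v, ((D v).factorial : ℝ)) * Nat.multinomial univ D := by
    have e1 := pm_two_mul M
    have e2 := Nat.multinomial_spec (univ : Finset (Fin n)) D
    rw [hD] at e2
    rw [← e2] at e1
    exact_mod_cast e1
  have hP : (0 : ℝ) < ∏ v, ((D v).factorial : ℝ) :=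
    Finset.prod_pos (fun v _ => by exact_mod_cast Nat.factorial_pos (D v))
  have hF : (0 : ℝ) < 2 ^ M * M.factorial := by
    have : (0 : ℝ) < M.factorial := by exact_mod_cast Nat.factorial_pos M
    positivity
  push_cast at h1
  rw [h2] at h
  have h4 := mul_le_mul_of_nonneg_right (h1.trans h) hF.le
  have h5 : p * (pm (2 * M) : ℝ) * (2 ^ M * M.factorial) =
      ((Nat.multinomial univ D : ℝ) * p) * ∏ v, ((D v).factorial : ℝ) := by
    rw [mul_assoc, h3]
    ring
  rw [h5] at h4
  refine le_of_mul_le_mul_right ?_ hP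
  calc _ = ((univ.filter (fun G : SimpleGraph (Fin n) =>
      (∀ v, (G.neighborSet v).ncard = D v) ∧ B G)).card : ℝ) *
        (∏ v, ((D v).factorial : ℝ)) * (2 ^ M * M.factorial) := by ring
    _ ≤ _ := h4

theorem cnt_le (M : ℕ) (B : SimpleGraph (Fin n) → Prop) (p : (Fin n → ℕ) → ℝ)
    (h : ∀ D : Fin n → ℕ, ∑ v, D v = 2 * M →
      (((Mat (univ : Finset (Stub D))).filter (fun m => Simp m ∧ B (gr m))).card : ℝ) ≤
        p D * (Mat (univ : Finset (Stub D))).card) :
    (cnt n M B : ℝ) * (2 ^ M * M.factorial) ≤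
      ∑ D ∈ (univ : Finset (Fin n)).piAntidiag (2 * M),
        (Nat.multinomial univ D : ℝ) * p D := by
  have hmaps : ∀ G ∈ univ.filter (fun G : SimpleGraph (Fin n) => G.edgeSet.ncard = M ∧ B G),
      (fun v => (G.neighborSet v).ncard) ∈ (univ : Finset (Fin n)).piAntidiag (2 * M) := by
    intro G hG
    rw [Finset.mem_filter] at hG
    rw [Finset.mem_piAntidiag]
    exact ⟨sum_deg hG.2.1, fun i _ => Finset.mem_univ i⟩
  have h1 : cnt n M B = ∑ D ∈ (univ : Finset (Fin n)).piAntidiag (2 * M),
      ((univ.filter (fun G : SimpleGraph (Fin n) => G.edgeSet.ncard = M ∧ B G)).filter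
        (fun G => (fun v => (G.neighborSet v).ncard) = D)).card := by
    unfold cnt
    exact Finset.card_eq_sum_card_fiberwise hmaps
  rw [h1, Nat.cast_sum, Finset.sum_mul]
  apply Finset.sum_le_sum
  intro D hD
  rw [Finset.mem_piAntidiag] at hD
  have hD1 : ∑ v, D v = 2 * M := hD.1
  have h2 : ((univ.filter (fun G : SimpleGraph (Fin n) => G.edgeSet.ncard = M ∧ B G)).filter
        (fun G => (fun v => (G.neighborSet v).ncard) = D)).card ≤
      (univ.filter (fun G : SimpleGraph (Fin n) =>
      (∀ v, (G.neighborSet v).ncard = D v) ∧ B G)).card := by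
    apply Finset.card_le_card
    intro G hG
    rw [Finset.mem_filter, Finset.mem_filter] at hG
    rw [Finset.mem_filter]
    exact ⟨Finset.mem_univ G, fun v => congrFun hG.2 v, hG.1.2.2⟩
  have hF : (0 : ℝ) ≤ 2 ^ M * M.factorial := by positivity
  exact (mul_le_mul_of_nonneg_right (by exact_mod_cast h2) hF).trans
    (one_D M B D (p D) hD1 (h D hD1))

theorem sum_multinomial (M : ℕ) :
    ∑ D ∈ (univ : Finset (Fin n)).piAntidiag (2 * M), (Nat.multinomial univ D : ℝ) =
      (n : ℝ) ^ (2 * M) := by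
  have h := Finset.sum_pow_eq_sum_piAntidiag (univ : Finset (Fin n)) (fun _ => (1 : ℝ)) (2 * M)
  simp only [one_pow, Finset.prod_const_one, mul_one, Finset.sum_const, Finset.card_univ,
    Fintype.card_fin, nsmul_eq_mul] at h
  exact h.symm

theorem sum_multinomial_low (M l : ℕ) (y : ℝ) :
    ∑ D ∈ (univ : Finset (Fin n)).piAntidiag (2 * M), (Nat.multinomial univ D : ℝ) *
        ∑ L ∈ (univ : Finset (Fin n)).powersetCard l, (1 - y) ^ (∑ v ∈ L, D v) =
      (n.choose l : ℝ) * ((n : ℝ) - l * y) ^ (2 * M) := by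
  have key : ∀ L ∈ (univ : Finset (Fin n)).powersetCard l,
      ∑ D ∈ (univ : Finset (Fin n)).piAntidiag (2 * M), (Nat.multinomial univ D : ℝ) *
        (1 - y) ^ (∑ v ∈ L, D v) = ((n : ℝ) - l * y) ^ (2 * M) := by
    intro L hL
    rw [Finset.mem_powersetCard] at hL
    have h := Finset.sum_pow_eq_sum_piAntidiag (univ : Finset (Fin n))
      (fun v => if v ∈ L then (1 - y) else (1 : ℝ)) (2 * M)
    have h1 : ∑ v : Fin n, (if v ∈ L then (1 - y) else (1 : ℝ)) = (n : ℝ) - l * y := by
      have e1 : ∀ v : Fin n, (if v ∈ L then (1 - y) else (1 : ℝ)) =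
          1 - (if v ∈ L then y else 0) := by
        intro v
        split_ifs <;> ring
      rw [Finset.sum_congr rfl (fun v _ => e1 v), Finset.sum_sub_distrib, Finset.sum_ite_mem,
        Finset.univ_inter, Finset.sum_const, Finset.sum_const, hL.2, Finset.card_univ,
        Fintype.card_fin]
      simp
    rw [h1] at h
    rw [h]
    apply Finset.sum_congr rfl
    intro D _
    congr 1
    have e2 : ∀ v : Fin n, (if v ∈ L then (1 - y) else (1 : ℝ)) ^ D v =
        if v ∈ L then (1 - y) ^ D v else 1 := by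
      intro v
      split_ifs
      · rfl
      · exact one_pow _
    rw [Finset.prod_congr rfl (fun v _ => e2 v), Finset.prod_ite_mem, Finset.univ_inter,
      Finset.prod_pow_eq_pow_sum]
  simp only [Finset.mul_sum]
  rw [Finset.sum_comm, Finset.sum_congr rfl key, Finset.sum_const, Finset.card_powersetCard,
    Finset.card_univ, Fintype.card_fin, nsmul_eq_mul]

theorem cnt_le_const (M : ℕ) (B : SimpleGraph (Fin n) → Prop) (p : ℝ)
    (h : ∀ D : Fin n → ℕ, ∑ v, D v = 2 * M →
      (((Mat (univ : Finset (Stub D))).filter (fun m => Simp m ∧ B (gr m))).card : ℝ) ≤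
        p * (Mat (univ : Finset (Stub D))).card) :
    (cnt n M B : ℝ) * (2 ^ M * M.factorial) ≤ p * (n : ℝ) ^ (2 * M) := by
  refine (cnt_le M B (fun _ => p) h).trans ?_
  rw [← Finset.sum_mul, sum_multinomial, mul_comm]

end LKA
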