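import Pool.Agent.LKA.Mat

/-!
# LKA-Hit: two static estimates for uniform perfect matchings

Plan for `hit_bound`: induction on `T1.card` (generalising `X`). `T1 = ∅`: the bound is `1 * card`.
Otherwise pick `a ∈ T1`. Write the number as `∑ m ∈ Mat X, if .. then 1 else 0` and use `sum_Mat`.
For `b ∈ T1 ∪ T2` the inner sum vanishes. For the other `b` the inner sum is at most the number for
`X' = X \ {a, b}`, `T1' = T1.erase a`, `T2`: at most `exp (-(t1-1) t2 / (N-2)) * pm (N-2)` with
`N = X.card`, which is `≤ exp (-(t1-1) t2 / N) * pm (N-2)`. The number of such `b` is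
`N - t1 - t2 ≤ (N-1) - t2` and `(N - 1 - t2) ≤ (N-1) * exp (-t2/(N-1)) ≤ (N-1) * exp (-t2/N)`.
Also `pm N = (N-1) * pm (N-2)`. (If `N = 1` then `Mat X = ∅`; if `N = 2` then `X' = ∅`, fine: the
division by zero gives `exp 0 = 1` and `t1 - 1 = 0`.)

Plan for `ind_bound`: the same with `b ∉ T`: `N - t` choices, `(N-t) ≤ (N-1) exp (-(t-1)/N)`, and
`(t-1) + (t-1)(t-2)/2 = t(t-1)/2`.
-/

open scoped Classical
open Finset

namespace LKA

variable {α : Type} [Fintype α]

private lemma mat_step {X : Finset α} {a : α} (ha : a ∈ X) (P : Equiv.Perm α → Prop)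
    (Bad : Finset α) (hBX : Bad ⊆ X) (haB : a ∈ Bad) (c : ℝ)
    (hbad : ∀ b ∈ Bad, b ≠ a → ∀ m ∈ Mat ((X.erase a).erase b), ¬ P (Equiv.swap a b * m))
    (hgood : ∀ b ∈ X, b ∉ Bad → ∀ F : Finset (Equiv.Perm α),
      (∀ m ∈ F, m ∈ Mat ((X.erase a).erase b) ∧ P (Equiv.swap a b * m)) → (F.card : ℝ) ≤ c)
    (F : Finset (Equiv.Perm α)) (hF : ∀ m, m ∈ F ↔ m ∈ Mat X ∧ P m) :
    (F.card : ℝ) ≤ ((X.card : ℝ) - Bad.card) * c := by
  have hFe : F = (Mat X).filter P := by
    ext m
    rw [hF, mem_filter]
  have h1 : (F.card : ℝ) = ∑ m ∈ Mat X, (if P m then (1 : ℝ) else 0) := by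
    rw [hFe, card_filter]
    push_cast
    rfl
  rw [h1, sum_Mat ha]
  have hsub : X \ Bad ⊆ X.erase a := by
    intro b hb
    rw [mem_sdiff] at hb
    exact mem_erase.2 ⟨fun h => hb.2 (h ▸ haB), hb.1⟩
  rw [← sum_subset hsub]
  · have h2 : ((X.card : ℝ) - Bad.card) = ((X \ Bad).card : ℝ) := by
      have := card_sdiff_add_card_eq_card hBX
      have h3 : ((X \ Bad).card : ℝ) + Bad.card = X.card := by exact_mod_cast this
      linarith
    rw [h2, ← nsmul_eq_mul]
    refine sum_le_card_nsmul _ _ _ fun b hb => ?_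
    rw [mem_sdiff] at hb
    refine le_trans (le_of_eq ?_) (hgood b hb.1 hb.2
      ((Mat ((X.erase a).erase b)).filter (fun m => P (Equiv.swap a b * m)))
      fun m hm => mem_filter.1 hm)
    rw [card_filter]
    push_cast
    rfl
  · intro b hb hb2
    rw [mem_erase] at hb
    have hbB : b ∈ Bad := by
      by_contra h
      exact hb2 (mem_sdiff.2 ⟨hb.2, h⟩)
    refine sum_eq_zero fun m hm => ?_
    rw [if_neg (hbad b hbB hb.1 m hm)]

private lemma mat_fix {X : Finset α} {m : Equiv.Perm α} (hm : m ∈ Mat X) {x : α} (hx : x ∉ X) :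
    m x = x := by
  by_contra h
  exact hx (((mem_Mat.1 hm).2 x).1 h)

private lemma swap_at {X : Finset α} {a b : α} {m : Equiv.Perm α}
    (hm : m ∈ Mat ((X.erase a).erase b)) : (Equiv.swap a b * m) a = b := by
  have h : m a = a := mat_fix hm (by simp)
  rw [Equiv.Perm.mul_apply, h, Equiv.swap_apply_left]

private lemma swap_other {X : Finset α} {a b : α} {m : Equiv.Perm α}
    (hm : m ∈ Mat ((X.erase a).erase b)) {x : α} (hxa : x ≠ a) (hxb : x ≠ b) :
    (Equiv.swap a b * m) x = m x := by
  have ha : m a = a := mat_fix hm (by simp)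
  have hb : m b = b := mat_fix hm (by simp)
  rw [Equiv.Perm.mul_apply, Equiv.swap_apply_of_ne_of_ne]
  · intro h
    apply hxa
    rw [← (mem_Mat.1 hm).1 x, h, ha]
  · intro h
    apply hxb
    rw [← (mem_Mat.1 hm).1 x, h, hb]

omit [Fintype α] in
private lemma card_two {X : Finset α} {a b : α} (ha : a ∈ X) (hb : b ∈ X) (hab : b ≠ a) :
    ((X.erase a).erase b).card = X.card - 2 := by
  rw [card_erase_of_mem (mem_erase.2 ⟨hab, hb⟩), card_erase_of_mem ha]
  omega

private lemma pm_step {N : ℕ} (h : 2 ≤ N) : (pm N : ℝ) = ((N : ℝ) - 1) * pm (N - 2) := by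
  obtain ⟨k, rfl⟩ := Nat.exists_eq_add_of_le h
  have h1 : 2 + k = k + 2 := by ring
  rw [h1, pm, Nat.add_sub_cancel]
  push_cast
  ring

private lemma num_step {N : ℕ} (h : 2 ≤ N) (u v w : ℝ) (hv : 0 ≤ v) (hw : 0 ≤ w)
    (hu : u ≤ (N : ℝ) - 1 - v) (hw2 : N = 2 → w = 0) :
    u * Real.exp (-(w / ((N : ℝ) - 2))) ≤ ((N : ℝ) - 1) * Real.exp (-((v + w) / N)) := by
  have hN : (2 : ℝ) ≤ N := by exact_mod_cast h
  have h1 : w / (N : ℝ) ≤ w / ((N : ℝ) - 2) := by
    rcases eq_or_lt_of_le hN with h2 | h2
    · have h3 : w = 0 := hw2 (by exact_mod_cast h2.symm)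
      rw [h3]
      simp
    · exact div_le_div_of_nonneg_left hw (by linarith) (by linarith)
  have h2 : u ≤ ((N : ℝ) - 1) * Real.exp (-(v / N)) := by
    have h3 : 1 - v / ((N : ℝ) - 1) ≤ Real.exp (-(v / ((N : ℝ) - 1))) := by
      have := Real.add_one_le_exp (-(v / ((N : ℝ) - 1)))
      linarith
    have h4 : Real.exp (-(v / ((N : ℝ) - 1))) ≤ Real.exp (-(v / N)) := by
      apply Real.exp_le_exp.2
      have : v / (N : ℝ) ≤ v / ((N : ℝ) - 1) :=
        div_le_div_of_nonneg_left hv (by linarith) (by linarith)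
      linarith
    have h5 : (N : ℝ) - 1 - v = ((N : ℝ) - 1) * (1 - v / ((N : ℝ) - 1)) := by
      have : ((N : ℝ) - 1) ≠ 0 := by linarith
      field_simp
    rw [h5] at hu
    exact hu.trans (mul_le_mul_of_nonneg_left (h3.trans h4) (by linarith))
  have h6 : Real.exp (-(w / ((N : ℝ) - 2))) ≤ Real.exp (-(w / N)) :=
    Real.exp_le_exp.2 (by linarith)
  calc u * Real.exp (-(w / ((N : ℝ) - 2)))
      ≤ (((N : ℝ) - 1) * Real.exp (-(v / N))) * Real.exp (-(w / ((N : ℝ) - 2))) :=
        mul_le_mul_of_nonneg_right h2 (Real.exp_pos _).le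
    _ ≤ (((N : ℝ) - 1) * Real.exp (-(v / N))) * Real.exp (-(w / N)) :=
        mul_le_mul_of_nonneg_left h6 (mul_nonneg (by linarith) (Real.exp_pos _).le)
    _ = ((N : ℝ) - 1) * Real.exp (-((v + w) / N)) := by
        rw [mul_assoc, ← Real.exp_add]
        congr 2
        ring

private lemma card_one_zero {X : Finset α} (h : X.card < 2) (h0 : X.Nonempty) :
    (Mat X).card = 0 := by
  have h1 : X.card = 1 := by
    have := card_pos.2 h0
    omega
  rw [card_Mat, h1]
  rfl

theorem hit_bound {X T1 T2 : Finset α} (h1 : T1 ⊆ X) (h2 : T2 ⊆ X) (hd : Disjoint T1 T2) :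
    (((Mat X).filter (fun m => ∀ x ∈ T1, m x ∉ T1 ∧ m x ∉ T2)).card : ℝ) ≤
      Real.exp (-((T1.card : ℝ) * T2.card / X.card)) * (Mat X).card := by
  induction ht : T1.card generalizing X T1 with
  | zero =>
    have h0 : ((Mat X).filter (fun m => ∀ x ∈ T1, m x ∉ T1 ∧ m x ∉ T2)).card ≤ (Mat X).card :=
      card_filter_le _ _
    simp only [Nat.cast_zero, zero_mul, zero_div, neg_zero, Real.exp_zero, one_mul]
    exact_mod_cast h0
  | succ t ih =>
    obtain ⟨a, ha⟩ : T1.Nonempty := card_pos.1 (by omega)
    have haX := h1 ha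
    have haT2 : a ∉ T2 := fun h => (Finset.disjoint_left.1 hd) ha h
    rcases Nat.lt_or_ge X.card 2 with hN | hN
    · have h0 := card_one_zero hN ⟨a, haX⟩
      have h3 : ((Mat X).filter (fun m => ∀ x ∈ T1, m x ∉ T1 ∧ m x ∉ T2)).card = 0 :=
        Nat.le_zero.1 (h0 ▸ card_filter_le _ _)
      rw [h3, h0]
      simp
    · have hte : (T1.erase a).card = t := by
        rw [card_erase_of_mem ha]
        omega
      have hstep := mat_step haX (fun m => ∀ x ∈ T1, m x ∉ T1 ∧ m x ∉ T2) (T1 ∪ T2)
        (union_subset h1 h2) (mem_union_left _ ha)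
        (Real.exp (-((t : ℝ) * T2.card / ((X.card : ℝ) - 2))) * (pm (X.card - 2) : ℝ)) ?_ ?_
        ((Mat X).filter (fun m => ∀ x ∈ T1, m x ∉ T1 ∧ m x ∉ T2)) (fun m => mem_filter)
      · refine hstep.trans ?_
        have hcu : ((T1 ∪ T2).card : ℝ) = (t : ℝ) + 1 + T2.card := by
          rw [card_union_of_disjoint hd, ht]
          push_cast
          ring
        rw [hcu, card_Mat, pm_step hN]
        have hnum := num_step hN ((X.card : ℝ) - ((t : ℝ) + 1 + T2.card)) (T2.card : ℝ)
          ((t : ℝ) * T2.card) (by positivity) (by positivity)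
          (by
            have : (0 : ℝ) ≤ t := by positivity
            linarith)
          (by
            intro h
            have h3 : T1.card + T2.card ≤ X.card := by
              rw [← card_union_of_disjoint hd]
              exact card_le_card (union_subset h1 h2)
            rcases Nat.eq_zero_or_pos t with h4 | h4
            · rw [h4]; simp
            · have h5 : T2.card = 0 := by omega
              rw [h5]; simp)
        have hpm : (0 : ℝ) ≤ (pm (X.card - 2) : ℝ) := by positivity
        calc ((X.card : ℝ) - ((t : ℝ) + 1 + T2.card)) *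
              (Real.exp (-((t : ℝ) * T2.card / ((X.card : ℝ) - 2))) * (pm (X.card - 2) : ℝ))
            = (((X.card : ℝ) - ((t : ℝ) + 1 + T2.card)) *
              Real.exp (-((t : ℝ) * T2.card / ((X.card : ℝ) - 2)))) * (pm (X.card - 2) : ℝ) := by
              ring
          _ ≤ (((X.card : ℝ) - 1) * Real.exp (-(((T2.card : ℝ) + (t : ℝ) * T2.card) / X.card))) *
              (pm (X.card - 2) : ℝ) := mul_le_mul_of_nonneg_right hnum hpm
          _ = Real.exp (-(((t + 1 : ℕ) : ℝ) * T2.card / X.card)) *
              (((X.card : ℝ) - 1) * (pm (X.card - 2) : ℝ)) := by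
              have : (T2.card : ℝ) + (t : ℝ) * T2.card = ((t + 1 : ℕ) : ℝ) * T2.card := by
                push_cast; ring
              rw [this]
              ring
      · intro b hb hba m hm hP
        have h3 := hP a ha
        rw [swap_at hm] at h3
        rcases mem_union.1 hb with h4 | h4
        · exact h3.1 h4
        · exact h3.2 h4
      · intro b hb hbT F hF
        rw [mem_union, not_or] at hbT
        have hba : b ≠ a := fun h => hbT.1 (h ▸ ha)
        have hX2 : ((((X.erase a).erase b).card : ℕ) : ℝ) = (X.card : ℝ) - 2 := by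
          rw [card_two haX hb hba, Nat.cast_sub hN]
          norm_num
        have h3 := ih (X := (X.erase a).erase b) (T1 := T1.erase a)
          (by
            intro x hx
            rw [mem_erase] at hx
            exact mem_erase.2 ⟨fun h => hbT.1 (h ▸ hx.2), mem_erase.2 ⟨hx.1, h1 hx.2⟩⟩)
          (by
            intro x hx
            exact mem_erase.2 ⟨fun h => hbT.2 (h ▸ hx),
              mem_erase.2 ⟨fun h => haT2 (h ▸ hx), h2 hx⟩⟩)
          (hd.mono_left (erase_subset _ _)) hte
        rw [hX2, card_Mat, card_two haX hb hba] at h3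
        refine le_trans ?_ h3
        have h4 : F.card ≤
            ((Mat ((X.erase a).erase b)).filter
            (fun m => ∀ x ∈ T1.erase a, m x ∉ T1.erase a ∧ m x ∉ T2)).card := by
          refine card_le_card fun m hm0 => ?_
          have hm := hF m hm0
          rw [mem_filter]
          refine ⟨hm.1, fun x hx => ?_⟩
          rw [mem_erase] at hx
          have h5 := hm.2 x hx.2
          rw [swap_other hm.1 hx.1 (fun h => hbT.1 (h ▸ hx.2))] at h5
          exact ⟨fun h => h5.1 (mem_of_mem_erase h), h5.2⟩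
        exact_mod_cast h4

theorem ind_bound {X T : Finset α} (h : T ⊆ X) :
    (((Mat X).filter (fun m => ∀ x ∈ T, m x ∉ T)).card : ℝ) ≤
      Real.exp (-((T.card : ℝ) * ((T.card : ℝ) - 1) / (2 * X.card))) * (Mat X).card := by
  induction ht : T.card generalizing X T with
  | zero =>
    have h0 : ((Mat X).filter (fun m => ∀ x ∈ T, m x ∉ T)).card ≤ (Mat X).card :=
      card_filter_le _ _
    simp only [Nat.cast_zero, zero_mul, zero_div, neg_zero, Real.exp_zero, one_mul]
    exact_mod_cast h0
  | succ t ih =>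
    obtain ⟨a, ha⟩ : T.Nonempty := card_pos.1 (by omega)
    have haX := h ha
    rcases Nat.lt_or_ge X.card 2 with hN | hN
    · have h0 := card_one_zero hN ⟨a, haX⟩
      have h3 : ((Mat X).filter (fun m => ∀ x ∈ T, m x ∉ T)).card = 0 :=
        Nat.le_zero.1 (h0 ▸ card_filter_le _ _)
      rw [h3, h0]
      simp
    · have hte : (T.erase a).card = t := by
        rw [card_erase_of_mem ha]
        omega
      have hnn : (0 : ℝ) ≤ (t : ℝ) * ((t : ℝ) - 1) := by
        rcases Nat.eq_zero_or_pos t with h4 | h4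
        · rw [h4]; simp
        · have : (1 : ℝ) ≤ t := by exact_mod_cast h4
          exact mul_nonneg (by linarith) (by linarith)
      have hstep := mat_step haX (fun m => ∀ x ∈ T, m x ∉ T) T h ha
        (Real.exp (-((t : ℝ) * ((t : ℝ) - 1) / 2 / ((X.card : ℝ) - 2))) *
          (pm (X.card - 2) : ℝ)) ?_ ?_
        ((Mat X).filter (fun m => ∀ x ∈ T, m x ∉ T)) (fun m => mem_filter)
      · refine hstep.trans ?_
        rw [ht, card_Mat, pm_step hN]
        have hnum := num_step hN ((X.card : ℝ) - ((t + 1 : ℕ) : ℝ)) (t : ℝ)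
          ((t : ℝ) * ((t : ℝ) - 1) / 2) (by positivity) (by linarith)
          (by push_cast; linarith)
          (by
            intro h2
            have h3 : T.card ≤ X.card := card_le_card h
            have h4 : t = 0 ∨ t = 1 := by omega
            rcases h4 with h4 | h4
            · rw [h4]; simp
            · rw [h4]; simp)
        have hpm : (0 : ℝ) ≤ (pm (X.card - 2) : ℝ) := by positivity
        calc ((X.card : ℝ) - ((t + 1 : ℕ) : ℝ)) *
              (Real.exp (-((t : ℝ) * ((t : ℝ) - 1) / 2 / ((X.card : ℝ) - 2))) *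
                (pm (X.card - 2) : ℝ))
            = (((X.card : ℝ) - ((t + 1 : ℕ) : ℝ)) *
              Real.exp (-((t : ℝ) * ((t : ℝ) - 1) / 2 / ((X.card : ℝ) - 2)))) *
                (pm (X.card - 2) : ℝ) := by ring
          _ ≤ (((X.card : ℝ) - 1) *
              Real.exp (-(((t : ℝ) + (t : ℝ) * ((t : ℝ) - 1) / 2) / X.card))) *
              (pm (X.card - 2) : ℝ) := mul_le_mul_of_nonneg_right hnum hpm
          _ = Real.exp (-(((t + 1 : ℕ) : ℝ) * (((t + 1 : ℕ) : ℝ) - 1) / (2 * X.card))) *
              (((X.card : ℝ) - 1) * (pm (X.card - 2) : ℝ)) := by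
              have h5 : ((t : ℝ) + (t : ℝ) * ((t : ℝ) - 1) / 2) / X.card =
                  ((t + 1 : ℕ) : ℝ) * (((t + 1 : ℕ) : ℝ) - 1) / (2 * X.card) := by
                have hX0 : (X.card : ℝ) ≠ 0 := by
                  have : (2 : ℝ) ≤ X.card := by exact_mod_cast hN
                  linarith
                push_cast
                field_simp
                ring
              rw [h5]
              ring
      · intro b hb hba m hm hP
        have h3 := hP a ha
        rw [swap_at hm] at h3
        exact h3 hb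
      · intro b hb hbT F hF
        have hba : b ≠ a := fun h => hbT (h ▸ ha)
        have hX2 : ((((X.erase a).erase b).card : ℕ) : ℝ) = (X.card : ℝ) - 2 := by
          rw [card_two haX hb hba, Nat.cast_sub hN]
          norm_num
        have h3 := ih (X := (X.erase a).erase b) (T := T.erase a)
          (by
            intro x hx
            rw [mem_erase] at hx
            exact mem_erase.2 ⟨fun h => hbT (h ▸ hx.2), mem_erase.2 ⟨hx.1, h hx.2⟩⟩) hte
        rw [hX2, card_Mat, card_two haX hb hba, ← div_div] at h3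
        refine le_trans ?_ h3
        have h4 : F.card ≤
            ((Mat ((X.erase a).erase b)).filter
            (fun m => ∀ x ∈ T.erase a, m x ∉ T.erase a)).card := by
          refine card_le_card fun m hm0 => ?_
          have hm := hF m hm0
          rw [mem_filter]
          refine ⟨hm.1, fun x hx => ?_⟩
          rw [mem_erase] at hx
          have h5 := hm.2 x hx.2
          rw [swap_other hm.1 hx.1 (fun h => hbT (h ▸ hx.2))] at h5
          exact fun h => h5 (mem_of_mem_erase h)
        exact_mod_cast h4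

end LKA
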