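import Pool.Agent.LKA.Ext
import Pool.Agent.LKA.Hit

/-!
# LKA-StatP: static estimates in a class, in terms of sets of vertices

Setting: `st` from `exists_strat`, `m0` a simple matching with revealed set `R = E.rv (gr m0) s`
(`= st.R s m0` by `strat_R`), `G0 = gr m0`, `X = st.X s m0` (the stubs outside `R` matched outside
`R`), `μ = mu M G0 R > 0`, `low` = vertices outside `R` with `res ≤ (1-η) μ`, fewer than `l` of them.

Plan for `pair_bound`. For `w ∉ R` the number of stubs `x ∈ X` with `x.1 = w` is `res G0 R w`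
(`res_gr`) and `X.card = stubs G0 R =: N` (`stubs_gr`), `μ² = 2 M N/n²`. Put
`T1 = X.filter (x.1 ∈ J \ low)`, `T2 = X.filter (x.1 ∈ S \ low)`: disjoint;
`T1.card = ∑_{w ∈ J \ low} res ≥ (J.card - l) (1-η) μ`, similarly `T2`. A simple `m` in the class with
`J` stable and no edge between `J` and `S` satisfies `m x ∉ T1`, `m x ∉ T2` for `x ∈ T1` (`gr_adj`).
The number of `m ∈ cls` with the latter property equals the number of `m ∈ Mat X` with it
(`MStrat.sum_cls`; the property depends only on `m` on `X`), at most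
`exp (-T1.card T2.card/N) (Mat X).card` (`hit_bound`), and `(Mat X).card = (cls).card` (`sum_cls` for
the constant `1`). If `S.card < l`: the exponent `-((J.card - l)(S.card - l) ..)` is `≥ 0` and the
bound is trivial. Otherwise `T1.card T2.card/N ≥ (J.card - l)(S.card - l)(1-η)² μ²/N`.
Plan for `stable_bound`: the same with `ind_bound`, `T = X.filter (x.1 ∈ K \ low)`,
`t = T.card ≥ t0 := (K.card - l)(1-η) μ ≥ 0`, `t ≤ N`, `N > 0`:
`t (t-1)/(2N) ≥ t0²/(2N) - 1/2 = (1-η)² (K.card - l)² M/n² - 1/2`.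
-/

open scoped Classical
open Finset

namespace LKA

variable {n : ℕ}

private lemma card_inst {β : Type} (s : Finset β) (p : β → Prop) (i1 i2 : DecidablePred p) :
    (@Finset.filter β p i1 s).card = (@Finset.filter β p i2 s).card := by
  rw [Subsingleton.elim i1 i2]

private lemma mem_X' {α V : Type} [Fintype α] {o : α → V} (st : MStrat α V o) (s : ℕ)
    (m : Equiv.Perm α) (x : α) :
    x ∈ st.X s m ↔ o x ∉ st.R s m ∧ o (m x) ∉ st.R s m := by
  simp [MStrat.X]

private lemma cls_mat {α V : Type} [Fintype α] {o : α → V} (st : MStrat α V o) {s : ℕ}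
    {m0 m : Equiv.Perm α} (h : m ∈ st.cls s m0) : m ∈ Mat (univ : Finset α) :=
  (Finset.mem_filter.1 h).1

private lemma cls_count {α V : Type} [Fintype α] {o : α → V} (st : MStrat α V o) {s : ℕ}
    {m0 : Equiv.Perm α} (hm0 : m0 ∈ Mat (univ : Finset α))
    (Q : Equiv.Perm α → Prop)
    (hQ : ∀ m m' : Equiv.Perm α, (∀ x ∈ st.X s m0, m x = m' x) → (Q m ↔ Q m')) :
    (((st.cls s m0).filter Q).card : ℝ) = (((Mat (st.X s m0)).filter Q).card : ℝ) := by
  have h := st.sum_cls hm0 (fun m => if Q m then (1 : ℝ) else 0) (by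
    intro m m' hmm
    have := hQ m m' hmm
    simp only [this])
  rw [Finset.sum_boole, Finset.sum_boole] at h
  exact_mod_cast h

private lemma cls_card {α V : Type} [Fintype α] {o : α → V} (st : MStrat α V o) {s : ℕ}
    {m0 : Equiv.Perm α} (hm0 : m0 ∈ Mat (univ : Finset α)) :
    ((st.cls s m0).card : ℝ) = ((Mat (st.X s m0)).card : ℝ) := by
  have h := cls_count st (s := s) hm0 (fun _ => True) (fun _ _ _ => Iff.rfl)
  simpa using h

private lemma gen_hit {α V : Type} [Fintype α] {o : α → V} (st : MStrat α V o) {s : ℕ}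
    {m0 : Equiv.Perm α} (hm0 : m0 ∈ Mat (univ : Finset α)) {T1 T2 : Finset α}
    (h1 : T1 ⊆ st.X s m0) (h2 : T2 ⊆ st.X s m0) (hd : Disjoint T1 T2)
    (F : Finset (Equiv.Perm α)) (hF : ∀ m ∈ F, m ∈ st.cls s m0)
    (hF2 : ∀ m ∈ F, ∀ x ∈ T1, m x ∉ T1 ∧ m x ∉ T2) :
    (F.card : ℝ) ≤ Real.exp (-((T1.card : ℝ) * T2.card / (st.X s m0).card)) *
      (st.cls s m0).card := by
  have hcount := cls_count st (s := s) hm0 (fun m => ∀ x ∈ T1, m x ∉ T1 ∧ m x ∉ T2) (by
      intro m m' hmm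
      constructor
      · intro h x hx
        rw [← hmm x (h1 hx)]
        exact h x hx
      · intro h x hx
        rw [hmm x (h1 hx)]
        exact h x hx)
  rw [cls_card st hm0]
  have hs : F ⊆ (st.cls s m0).filter (fun m => ∀ x ∈ T1, m x ∉ T1 ∧ m x ∉ T2) := by
    intro m hm
    exact Finset.mem_filter.2 ⟨hF m hm, hF2 m hm⟩
  refine le_trans (Nat.cast_le.2 (Finset.card_le_card hs)) ?_
  refine le_trans (le_of_eq ?_) (hit_bound h1 h2 hd)
  exact (congrArg Nat.cast (card_inst _ _ _ _)).trans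
    (hcount.trans (congrArg Nat.cast (card_inst _ _ _ _)))

private lemma gen_ind {α V : Type} [Fintype α] {o : α → V} (st : MStrat α V o) {s : ℕ}
    {m0 : Equiv.Perm α} (hm0 : m0 ∈ Mat (univ : Finset α)) {T : Finset α}
    (h1 : T ⊆ st.X s m0)
    (F : Finset (Equiv.Perm α)) (hF : ∀ m ∈ F, m ∈ st.cls s m0)
    (hF2 : ∀ m ∈ F, ∀ x ∈ T, m x ∉ T) :
    (F.card : ℝ) ≤ Real.exp (-((T.card : ℝ) * ((T.card : ℝ) - 1) / (2 * (st.X s m0).card))) *
      (st.cls s m0).card := by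
  have hcount := cls_count st (s := s) hm0 (fun m => ∀ x ∈ T, m x ∉ T) (by
      intro m m' hmm
      constructor
      · intro h x hx
        rw [← hmm x (h1 hx)]
        exact h x hx
      · intro h x hx
        rw [hmm x (h1 hx)]
        exact h x hx)
  rw [cls_card st hm0]
  have hs : F ⊆ (st.cls s m0).filter (fun m => ∀ x ∈ T, m x ∉ T) := by
    intro m hm
    exact Finset.mem_filter.2 ⟨hF m hm, hF2 m hm⟩
  refine le_trans (Nat.cast_le.2 (Finset.card_le_card hs)) ?_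
  refine le_trans (le_of_eq ?_) (ind_bound h1)
  exact (congrArg Nat.cast (card_inst _ _ _ _)).trans
    (hcount.trans (congrArg Nat.cast (card_inst _ _ _ _)))

private lemma cardX (E : Explorer n) (s : ℕ) {D : Fin n → ℕ}
    (st : MStrat (Stub D) (Fin n) (fun x => x.1))
    (hst : ∀ m ∈ Mat (univ : Finset (Stub D)), Simp m → ∀ i < n, st.v i m = E.next (gr m) i)
    {m0 : Equiv.Perm (Stub D)} (hm0 : m0 ∈ Mat (univ : Finset (Stub D))) (hs0 : Simp m0)
    (hsn : s ≤ n) : (st.X s m0).card = stubs (gr m0) (E.rv (gr m0) s) := by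
  rw [stubs_gr hm0 hs0]
  congr 1
  ext x
  rw [mem_X', strat_R E st hst hm0 hs0 hsn]
  simp

private lemma T_card (E : Explorer n) (M : ℕ) (η : ℝ) (l s : ℕ) {D : Fin n → ℕ}
    (st : MStrat (Stub D) (Fin n) (fun x => x.1))
    (hst : ∀ m ∈ Mat (univ : Finset (Stub D)), Simp m → ∀ i < n, st.v i m = E.next (gr m) i)
    {m0 : Equiv.Perm (Stub D)} (hm0 : m0 ∈ Mat (univ : Finset (Stub D))) (hs0 : Simp m0)
    (hsn : s ≤ n) (hη1 : η ≤ 1 / 4)
    (hμ : 0 < mu M (gr m0) (E.rv (gr m0) s))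
    (hlow : (low M η (gr m0) (E.rv (gr m0) s)).card < l)
    {P : Finset (Fin n)} (hP : P ⊆ (E.rv (gr m0) s)ᶜ) :
    ∃ T : Finset (Stub D), T ⊆ st.X s m0 ∧ (∀ x ∈ T, x.1 ∈ P) ∧
      ((P.card : ℝ) - l) * ((1 - η) * mu M (gr m0) (E.rv (gr m0) s)) ≤ (T.card : ℝ) := by
  set R := E.rv (gr m0) s with hR
  set L := low M η (gr m0) R with hL
  set μ := mu M (gr m0) R with hμdef
  have hXmem : ∀ x : Stub D, x ∈ st.X s m0 ↔ x.1 ∉ R ∧ (m0 x).1 ∉ R := by
    intro x
    rw [mem_X', strat_R E st hst hm0 hs0 hsn]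
  have hPL : ∀ w ∈ P.filter (fun w => w ∉ L), w ∈ P ∧ w ∉ L := fun w hw => Finset.mem_filter.1 hw
  refine ⟨(st.X s m0).filter (fun x => x.1 ∈ P.filter (fun w => w ∉ L)),
    Finset.filter_subset _ _, fun x hx => (hPL _ (Finset.mem_filter.1 hx).2).1, ?_⟩
  have hcard : ((st.X s m0).filter (fun x => x.1 ∈ P.filter (fun w => w ∉ L))).card =
      ∑ w ∈ P.filter (fun w => w ∉ L), res (gr m0) R w := by
    rw [Finset.card_eq_sum_card_fiberwise (f := fun x : Stub D => x.1)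
      (t := P.filter (fun w => w ∉ L))]
    · refine Finset.sum_congr rfl (fun w hw => ?_)
      rw [res_gr hm0 hs0]
      have hwR : w ∉ R := by
        have := hP (hPL w hw).1
        exact Finset.mem_compl.1 this
      congr 1
      ext x
      constructor
      · intro h
        obtain ⟨h0, h4⟩ := Finset.mem_filter.1 h
        obtain ⟨h1, h3⟩ := Finset.mem_filter.1 h0
        obtain ⟨_, h2⟩ := (hXmem x).1 h1
        exact Finset.mem_filter.2 ⟨Finset.mem_univ _, h4, h2⟩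
      · intro h
        obtain ⟨_, h1, h2⟩ := Finset.mem_filter.1 h
        refine Finset.mem_filter.2 ⟨Finset.mem_filter.2 ⟨(hXmem x).2 ⟨?_, h2⟩, ?_⟩, h1⟩
        · rw [h1]; exact hwR
        · rw [h1]; exact hw
    · intro x hx
      have := (Finset.mem_filter.1 (Finset.mem_coe.1 hx)).2
      exact Finset.mem_coe.2 this
  rw [hcard]
  push_cast
  have hpos : 0 < (1 - η) * μ := mul_pos (by linarith) hμ
  have h1 : ∑ w ∈ P.filter (fun w => w ∉ L), ((1 - η) * μ) ≤
      ∑ w ∈ P.filter (fun w => w ∉ L), (res (gr m0) R w : ℝ) := by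
    refine Finset.sum_le_sum (fun w hw => ?_)
    have hw' := hPL w hw
    have h2 : ¬ ((res (gr m0) R w : ℝ) ≤ (1 - η) * μ) := by
      intro h3
      apply hw'.2
      rw [hL, low, Finset.mem_filter]
      exact ⟨hP hw'.1, h3⟩
    linarith [not_le.1 h2]
  refine le_trans ?_ h1
  rw [Finset.sum_const, nsmul_eq_mul]
  refine mul_le_mul_of_nonneg_right ?_ hpos.le
  have h4 : P.card ≤ (P.filter (fun w => w ∉ L)).card + L.card := by
    have h7 := Finset.card_filter_add_card_filter_not (s := P) (fun w => w ∈ L)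
    have h8 : (P.filter (fun w => w ∈ L)).card ≤ L.card :=
      Finset.card_le_card (fun w hw => (Finset.mem_filter.1 hw).2)
    omega
  have h5 : (P.card : ℝ) ≤ (P.filter (fun w => w ∉ L)).card + L.card := by exact_mod_cast h4
  have h6 : (L.card : ℝ) ≤ l := by exact_mod_cast hlow.le
  linarith

private lemma mu_sq (M : ℕ) (G : SimpleGraph (Fin n)) (R : Finset (Fin n)) :
    mu M G R ^ 2 = 2 * M * stubs G R / (n : ℝ) ^ 2 := by
  rw [mu, div_pow, Real.sq_sqrt (by positivity)]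

private lemma stubs_pos (M : ℕ) (G : SimpleGraph (Fin n)) (R : Finset (Fin n))
    (h : 0 < mu M G R) : (0 : ℝ) < stubs G R := by
  rcases Nat.eq_zero_or_pos (stubs G R) with h0 | h0
  · exfalso
    rw [mu, h0] at h
    simp at h
  · exact_mod_cast h0

theorem pair_bound (E : Explorer n) (M : ℕ) (η : ℝ) (l s : ℕ) {D : Fin n → ℕ}
    (st : MStrat (Stub D) (Fin n) (fun x => x.1))
    (hst : ∀ m ∈ Mat (univ : Finset (Stub D)), Simp m → ∀ i < n, st.v i m = E.next (gr m) i)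
    {m0 : Equiv.Perm (Stub D)} (hm0 : m0 ∈ Mat (univ : Finset (Stub D))) (hs0 : Simp m0)
    (hsn : s ≤ n) (hn : 0 < n) (hη : 0 < η) (hη1 : η ≤ 1 / 4)
    (hμ : 0 < mu M (gr m0) (E.rv (gr m0) s))
    (hlow : (low M η (gr m0) (E.rv (gr m0) s)).card < l)
    {J S : Finset (Fin n)} (hJ : J ⊆ (E.rv (gr m0) s)ᶜ) (hS : S ⊆ (E.rv (gr m0) s)ᶜ)
    (hJS : Disjoint J S) (hlJ : l ≤ J.card) :
    (((st.cls s m0).filter (fun m => Simp m ∧ Ind (gr m) J ∧
        ∀ u ∈ J, ∀ v ∈ S, ¬ (gr m).Adj u v)).card : ℝ) ≤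
      Real.exp (-((1 - η) ^ 2 * ((J.card : ℝ) - l) * ((S.card : ℝ) - l) * (2 * M) /
        (n : ℝ) ^ 2)) * (st.cls s m0).card := by
  have hnR : (0 : ℝ) < n := by exact_mod_cast hn
  have hlJ' : (0 : ℝ) ≤ (J.card : ℝ) - l := by
    have : (l : ℝ) ≤ J.card := by exact_mod_cast hlJ
    linarith
  by_cases hSl : (S.card : ℝ) - l < 0
  · have h1 : (1 : ℝ) ≤ Real.exp (-((1 - η) ^ 2 * ((J.card : ℝ) - l) * ((S.card : ℝ) - l) *
        (2 * M) / (n : ℝ) ^ 2)) := by
      rw [Real.one_le_exp_iff, neg_nonneg]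
      apply div_nonpos_of_nonpos_of_nonneg _ (by positivity)
      apply mul_nonpos_of_nonpos_of_nonneg _ (by positivity)
      apply mul_nonpos_of_nonneg_of_nonpos _ hSl.le
      positivity
    calc (((st.cls s m0).filter (fun m => Simp m ∧ Ind (gr m) J ∧
        ∀ u ∈ J, ∀ v ∈ S, ¬ (gr m).Adj u v)).card : ℝ) ≤ (st.cls s m0).card := by
          exact_mod_cast Finset.card_filter_le _ _
      _ = 1 * (st.cls s m0).card := (one_mul _).symm
      _ ≤ _ := mul_le_mul_of_nonneg_right h1 (Nat.cast_nonneg _)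
  · rw [not_lt] at hSl
    set R := E.rv (gr m0) s with hR
    set L := low M η (gr m0) R with hL
    set μ := mu M (gr m0) R with hμdef
    obtain ⟨T1, hT1X, hT1J, hc1⟩ := T_card E M η l s st hst hm0 hs0 hsn hη1 hμ hlow hJ
    obtain ⟨T2, hT2X, hT2S, hc2⟩ := T_card E M η l s st hst hm0 hs0 hsn hη1 hμ hlow hS
    have hdis : Disjoint T1 T2 := by
      rw [Finset.disjoint_left]
      intro x hx1 hx2
      exact (Finset.disjoint_left.1 hJS) (hT1J x hx1) (hT2S x hx2)
    have hhit := gen_hit st (s := s) hm0 hT1X hT2X hdis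
      ((st.cls s m0).filter (fun m => Simp m ∧ Ind (gr m) J ∧
        ∀ u ∈ J, ∀ v ∈ S, ¬ (gr m).Adj u v)) (fun m hm => (Finset.mem_filter.1 hm).1) (by
      intro m hm
      rw [Finset.mem_filter] at hm
      obtain ⟨hmc, hsm, hind, hno⟩ := hm
      have hmM : m ∈ Mat (univ : Finset (Stub D)) := cls_mat st hmc
      intro x hx
      have hadj : (gr m).Adj x.1 (m x).1 := (gr_adj hmM hsm).2 ⟨x, rfl, rfl⟩
      exact ⟨fun h => hind _ (hT1J x hx) _ (hT1J _ h) hadj,
        fun h => hno _ (hT1J x hx) _ (hT2S _ h) hadj⟩)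
    have hN : ((st.X s m0).card : ℝ) = stubs (gr m0) R := by
      rw [cardX E s st hst hm0 hs0 hsn]
    have hNpos : (0 : ℝ) < stubs (gr m0) R := stubs_pos M _ _ hμ
    have hμ2 : μ ^ 2 = 2 * M * stubs (gr m0) R / (n : ℝ) ^ 2 := mu_sq M _ _
    have hpos : 0 < (1 - η) * μ := mul_pos (by linarith) hμ
    refine le_trans hhit ?_
    refine mul_le_mul_of_nonneg_right ?_ (Nat.cast_nonneg _)
    rw [Real.exp_le_exp, neg_le_neg_iff, hN]
    have h1 : (((J.card : ℝ) - l) * ((1 - η) * μ)) * (((S.card : ℝ) - l) * ((1 - η) * μ)) ≤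
        (T1.card : ℝ) * T2.card :=
      mul_le_mul hc1 hc2 (mul_nonneg hSl hpos.le) (Nat.cast_nonneg _)
    have h2 : (1 - η) ^ 2 * ((J.card : ℝ) - l) * ((S.card : ℝ) - l) * (2 * M) /
        (n : ℝ) ^ 2 = (((J.card : ℝ) - l) * ((1 - η) * μ)) *
          (((S.card : ℝ) - l) * ((1 - η) * μ)) / stubs (gr m0) R := by
      have h3 : (((J.card : ℝ) - l) * ((1 - η) * μ)) * (((S.card : ℝ) - l) * ((1 - η) * μ)) =
          (1 - η) ^ 2 * ((J.card : ℝ) - l) * ((S.card : ℝ) - l) * μ ^ 2 := by ring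
      rw [h3, hμ2]
      field_simp
    rw [h2]
    exact div_le_div_of_nonneg_right h1 hNpos.le

theorem stable_bound (E : Explorer n) (M : ℕ) (η : ℝ) (l s : ℕ) {D : Fin n → ℕ}
    (st : MStrat (Stub D) (Fin n) (fun x => x.1))
    (hst : ∀ m ∈ Mat (univ : Finset (Stub D)), Simp m → ∀ i < n, st.v i m = E.next (gr m) i)
    {m0 : Equiv.Perm (Stub D)} (hm0 : m0 ∈ Mat (univ : Finset (Stub D))) (hs0 : Simp m0)
    (hsn : s ≤ n) (hn : 0 < n) (hη : 0 < η) (hη1 : η ≤ 1 / 4)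
    (hμ : 0 < mu M (gr m0) (E.rv (gr m0) s))
    (hlow : (low M η (gr m0) (E.rv (gr m0) s)).card < l)
    {K : Finset (Fin n)} (hK : K ⊆ (E.rv (gr m0) s)ᶜ) (hlK : l ≤ K.card) :
    (((st.cls s m0).filter (fun m => Simp m ∧ Ind (gr m) K)).card : ℝ) ≤
      Real.exp (1 / 2 - (1 - η) ^ 2 * ((K.card : ℝ) - l) ^ 2 * M / (n : ℝ) ^ 2) *
        (st.cls s m0).card := by
  have hnR : (0 : ℝ) < n := by exact_mod_cast hn
  have hlK' : (0 : ℝ) ≤ (K.card : ℝ) - l := by
    have : (l : ℝ) ≤ K.card := by exact_mod_cast hlK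
    linarith
  set R := E.rv (gr m0) s with hR
  set L := low M η (gr m0) R with hL
  set μ := mu M (gr m0) R with hμdef
  obtain ⟨T, hTX, hTK, hc⟩ := T_card E M η l s st hst hm0 hs0 hsn hη1 hμ hlow hK
  have hind := gen_ind st (s := s) hm0 hTX
    ((st.cls s m0).filter (fun m => Simp m ∧ Ind (gr m) K))
    (fun m hm => (Finset.mem_filter.1 hm).1) (by
    intro m hm
    rw [Finset.mem_filter] at hm
    obtain ⟨hmc, hsm, hind⟩ := hm
    have hmM : m ∈ Mat (univ : Finset (Stub D)) := cls_mat st hmc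
    intro x hx h
    have hadj : (gr m).Adj x.1 (m x).1 := (gr_adj hmM hsm).2 ⟨x, rfl, rfl⟩
    exact hind _ (hTK x hx) _ (hTK _ h) hadj)
  have hN : ((st.X s m0).card : ℝ) = stubs (gr m0) R := by
    rw [cardX E s st hst hm0 hs0 hsn]
  have hNpos : (0 : ℝ) < stubs (gr m0) R := stubs_pos M _ _ hμ
  have hμ2 : μ ^ 2 = 2 * M * stubs (gr m0) R / (n : ℝ) ^ 2 := mu_sq M _ _
  have hpos : 0 < (1 - η) * μ := mul_pos (by linarith) hμ
  have hTN : (T.card : ℝ) ≤ stubs (gr m0) R := by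
    rw [← hN]
    exact_mod_cast Finset.card_le_card hTX
  refine le_trans hind ?_
  refine mul_le_mul_of_nonneg_right ?_ (Nat.cast_nonneg _)
  rw [Real.exp_le_exp, hN]
  have h1 : (((K.card : ℝ) - l) * ((1 - η) * μ)) ^ 2 ≤ (T.card : ℝ) ^ 2 :=
    pow_le_pow_left₀ (mul_nonneg hlK' hpos.le) hc 2
  have h2 : (1 - η) ^ 2 * ((K.card : ℝ) - l) ^ 2 * M / (n : ℝ) ^ 2 =
      (((K.card : ℝ) - l) * ((1 - η) * μ)) ^ 2 / (2 * stubs (gr m0) R) := by
    have h3 : (((K.card : ℝ) - l) * ((1 - η) * μ)) ^ 2 =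
        (1 - η) ^ 2 * ((K.card : ℝ) - l) ^ 2 * μ ^ 2 := by ring
    rw [h3, hμ2]
    field_simp
  have h4 : (T.card : ℝ) * ((T.card : ℝ) - 1) / (2 * stubs (gr m0) R) =
      (T.card : ℝ) ^ 2 / (2 * stubs (gr m0) R) - (T.card : ℝ) / (2 * stubs (gr m0) R) := by
    ring
  have h5 : (T.card : ℝ) / (2 * stubs (gr m0) R) ≤ 1 / 2 := by
    rw [div_le_div_iff₀ (by positivity) (by norm_num)]
    linarith
  have h6 : (((K.card : ℝ) - l) * ((1 - η) * μ)) ^ 2 / (2 * stubs (gr m0) R) ≤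
      (T.card : ℝ) ^ 2 / (2 * stubs (gr m0) R) :=
    div_le_div_of_nonneg_right h1 (by positivity)
  rw [h2, h4]
  linarith

end LKA
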