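import Pool.Agent.LKA.StatC
import Pool.Agent.LKA.StatP
import Pool.Agent.LKA.Cnt

/-!
# LKA-B2: the second bad event

Plan. `cnt_le_const`: fix `D` with `∑ D = 2M`, `st` from `exists_strat`, and show
`#{m ∈ Mat univ : Simp m ∧ Bad2 .. (gr m)} ≤ p * (Mat univ).card` by `MStrat.count_le` at time `s`:
fix `m0 ∈ Mat univ`. If no `m ∈ cls s m0` is simple with `Bad2` the count is `0`
(`p ≥ 0` follows from `hnum`? use `hp`). Otherwise replace `m0` by such an `m` (`cls_eq`), so `m0` is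
simple with `Reg` for `gr m0`. Let `G0 = gr m0`, `R = E.rv G0 s`, `U = E.und G0 s ∩ R`. By
`class_const`, for every simple `m` in the class with `Bad2` there are `H ∈ inds G0 U`,
`W := live G0 R (E.known G0 s H)` with `N0 ≤ W.card`, `J ⊆ Rᶜ`, `J.card = j`, and `S ⊆ W` with
`ρ W.card ≤ S.card`; shrink `S` to a set with exactly `q = ⌈ρ W.card⌉₊` elements
(`Finset.exists_subset_card_eq`). Union bound over `H` (at most `Hm`), `J ∈ powersetCard j univ`
(`C(n, j)`), `S ∈ powersetCard q W` (`C(W.card, q)`), each term by `pair_bound` (terms with `J`, `S`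
not disjoint or `J ⊄ Rᶜ` are not needed). Each `H` contributes at most `p / Hm * (cls).card` by
`hnum` with `N = W.card` (`Hm ≥ 1` because `∅ ∈ inds`).
-/

open scoped Classical
open Finset

namespace LKA

variable {n : ℕ}

/-- triple union bound -/
private theorem card_union3 {β ι1 ι2 ι3 : Type*} (A : Finset β) (I1 : Finset ι1)
    (I2 : Finset ι2) (I3 : ι1 → Finset ι3) (F : ι2 → ι3 → Finset β)
    (h : ∀ m ∈ A, ∃ a ∈ I1, ∃ b ∈ I2, ∃ c ∈ I3 a, m ∈ F b c) :
    (A.card : ℝ) ≤ ∑ a ∈ I1, ∑ b ∈ I2, ∑ c ∈ I3 a, ((F b c).card : ℝ) := by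
  have h1 : A ⊆ I1.biUnion (fun a => I2.biUnion (fun b => (I3 a).biUnion (fun c => F b c))) := by
    intro m hm
    obtain ⟨a, ha, b, hb, c, hc, hmF⟩ := h m hm
    simp only [Finset.mem_biUnion]
    exact ⟨a, ha, b, hb, c, hc, hmF⟩
  have h2 : A.card ≤ ∑ a ∈ I1, ∑ b ∈ I2, ∑ c ∈ I3 a, (F b c).card := by
    refine (Finset.card_le_card h1).trans (Finset.card_biUnion_le.trans ?_)
    refine Finset.sum_le_sum fun a _ => Finset.card_biUnion_le.trans ?_
    exact Finset.sum_le_sum fun b _ => Finset.card_biUnion_le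
  exact_mod_cast h2

theorem bad2_count (E : Explorer n) (M : ℕ) (η μ0 : ℝ) (l Hm j : ℕ) (ρ : ℝ) (N0 s : ℕ)
    (hn : 0 < n) (hη : 0 < η) (hη1 : η ≤ 1 / 4) (hμ0 : 0 < μ0) (hρ : 0 < ρ) (hρ1 : ρ ≤ 1)
    (hs : s ≤ n) (hlj : l ≤ j) (p : ℝ) (hp : 0 ≤ p)
    (hnum : ∀ N q : ℕ, N0 ≤ N → N ≤ n → ρ * N ≤ q → (q : ℝ) < ρ * N + 1 →
      (Hm : ℝ) * n.choose j * N.choose q *
        Real.exp (-((1 - η) ^ 2 * ((j : ℝ) - l) * ((q : ℝ) - l) * (2 * M) / (n : ℝ) ^ 2)) ≤ p) :
    (cnt n M (Bad2 M η μ0 l Hm j ρ N0 E s) : ℝ) * (2 ^ M * M.factorial) ≤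
      p * (n : ℝ) ^ (2 * M) := by
  refine cnt_le_const M _ p fun D _ => ?_
  obtain ⟨st, hst⟩ := exists_strat E D hn
  refine le_trans (le_of_eq ?_)
    (st.count_le s (fun m => Simp m ∧ Bad2 M η μ0 l Hm j ρ N0 E s (gr m)) p ?_)
  · refine congrArg (fun x : Finset (Equiv.Perm (Stub D)) => (x.card : ℝ)) ?_
    ext m
    simp only [Finset.mem_filter]
  intro m0 hm0
  by_cases hex : ∃ m ∈ st.cls s m0, Simp m ∧ Bad2 M η μ0 l Hm j ρ N0 E s (gr m)
  swap
  · refine le_of_eq_of_le (b := (0 : ℝ)) ?_ (by positivity)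
    rw [Nat.cast_eq_zero, Finset.card_eq_zero, Finset.eq_empty_iff_forall_notMem]
    intro m hm
    simp only [Finset.mem_filter] at hm
    exact hex ⟨m, hm.1, hm.2⟩
  obtain ⟨m1, hm1, hs1, hB1⟩ := hex
  have hm1M : m1 ∈ Mat (univ : Finset (Stub D)) := by
    have h1 := hm1
    simp only [MStrat.cls, Finset.mem_filter] at h1
    exact h1.1
  rw [← st.cls_eq hm0 hm1]
  obtain ⟨⟨hmu1, hlow1, hind1⟩, H1, hH1, -⟩ := hB1
  set G0 := gr m1 with hG0
  set R := E.rv G0 s with hR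
  set U := E.und G0 s ∩ R with hU
  have hHm : 0 < Hm := lt_of_lt_of_le (Finset.card_pos.2 ⟨H1, hH1⟩) hind1
  have hHmR : (0 : ℝ) < Hm := by exact_mod_cast hHm
  have hmu : 0 < mu M G0 R := lt_of_lt_of_le hμ0 hmu1
  set W : Finset (Fin n) → Finset (Fin n) := fun H => live G0 R (E.known G0 s H) with hW
  have hWR : ∀ H, W H ⊆ Rᶜ := fun H => Finset.filter_subset _ _
  set q : Finset (Fin n) → ℕ := fun H => ⌈ρ * ((W H).card : ℝ)⌉₊ with hq
  set C := st.cls s m1 with hC
  set F : Finset (Fin n) → Finset (Fin n) → Finset (Equiv.Perm (Stub D)) := fun J S =>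
    if J ⊆ Rᶜ ∧ Disjoint J S then
      C.filter (fun m => Simp m ∧ Ind (gr m) J ∧ ∀ u ∈ J, ∀ v ∈ S, ¬ (gr m).Adj u v)
    else ∅ with hF
  set I1 := (inds G0 U).filter (fun H => N0 ≤ (W H).card) with hI1
  have hUR : U ⊆ R := Finset.inter_subset_right
  -- the union bound
  have hunion : ∀ m, m ∈ C ∧ Simp m ∧ Bad2 M η μ0 l Hm j ρ N0 E s (gr m) →
      ∃ H ∈ I1, ∃ J ∈ (univ : Finset (Fin n)).powersetCard j,
        ∃ S ∈ (W H).powersetCard (q H), m ∈ F J S := by
    rintro m ⟨hmC, hsm, hBm⟩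
    obtain ⟨c1, -, -, c4, c5, c6, c7⟩ := class_const E M η s st hst hm1M hs1 hs hmC hsm
    obtain ⟨-, H, hH, hN, J, S, hJ, hJc, hJI, hSW, hρS, hJS, hno⟩ := hBm
    rw [← hG0, ← hR] at c1
    rw [← hG0] at c4 c5
    rw [← hG0, ← hR] at c6 c7
    rw [c1] at c7
    rw [c1, c4] at hH
    rw [← hU, c6 U hUR] at hH
    have hHU : H ⊆ U := Finset.mem_powerset.1 (Finset.mem_filter.1 hH).1
    have hkn : E.known (gr m) s H = E.known G0 s H := by
      unfold Explorer.known
      rw [c5, c1]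
    have hknR : E.known G0 s H ⊆ R := by
      unfold Explorer.known
      exact Finset.union_subset Finset.inter_subset_right (hHU.trans hUR)
    have hlive : live (gr m) (E.rv (gr m) s) (E.known (gr m) s H) = W H := by
      rw [c1, hkn, c7 _ hknR]
    rw [hlive] at hN hSW hρS
    rw [c1] at hJ
    have hqS : q H ≤ S.card := Nat.ceil_le.2 hρS
    obtain ⟨S', hS'S, hS'c⟩ := Finset.exists_subset_card_eq hqS
    refine ⟨H, Finset.mem_filter.2 ⟨hH, hN⟩, J, Finset.mem_powersetCard.2 ⟨Finset.subset_univ _, hJc⟩,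
      S', Finset.mem_powersetCard.2 ⟨hS'S.trans hSW, hS'c⟩, ?_⟩
    have hdis : Disjoint J S' := Finset.disjoint_of_subset_right hS'S hJS
    rw [hF]
    simp only
    rw [if_pos ⟨hJ, hdis⟩]
    exact Finset.mem_filter.2 ⟨hmC, hsm, hJI, fun u hu v hv => hno u hu v (hS'S hv)⟩
  -- each term
  have hterm : ∀ H ∈ I1, ∀ J ∈ (univ : Finset (Fin n)).powersetCard j,
      ∀ S ∈ (W H).powersetCard (q H), ((F J S).card : ℝ) ≤
        Real.exp (-((1 - η) ^ 2 * ((j : ℝ) - l) * ((q H : ℝ) - l) * (2 * M) / (n : ℝ) ^ 2)) *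
          C.card := by
    intro H _ J hJ S hS
    obtain ⟨-, hJc⟩ := Finset.mem_powersetCard.1 hJ
    obtain ⟨hSW, hSc⟩ := Finset.mem_powersetCard.1 hS
    by_cases hc : J ⊆ Rᶜ ∧ Disjoint J S
    · have h1 := pair_bound E M η l s st hst hm1M hs1 hs hn hη hη1 hmu hlow1 hc.1
        (hSW.trans (hWR H)) hc.2 (by rw [hJc]; exact hlj)
      rw [hJc, hSc] at h1
      rw [hF]
      simp only
      rw [if_pos hc]
      exact h1
    · rw [hF]
      simp only
      rw [if_neg hc, Finset.card_empty, Nat.cast_zero]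
      positivity
  have hH : ∀ H ∈ I1, (Hm : ℝ) * (∑ J ∈ (univ : Finset (Fin n)).powersetCard j,
        ∑ S ∈ (W H).powersetCard (q H), ((F J S).card : ℝ)) ≤ p * C.card := by
    intro H hHI
    have hN : N0 ≤ (W H).card := (Finset.mem_filter.1 hHI).2
    have hNn : (W H).card ≤ n := by
      have := Finset.card_le_univ (W H)
      rwa [Fintype.card_fin] at this
    have hx0 : 0 ≤ ρ * ((W H).card : ℝ) := by positivity
    have h1 := hnum (W H).card (q H) hN hNn (Nat.le_ceil _) (Nat.ceil_lt_add_one hx0)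
    have h2 : (∑ J ∈ (univ : Finset (Fin n)).powersetCard j,
        ∑ S ∈ (W H).powersetCard (q H), ((F J S).card : ℝ)) ≤
        n.choose j * ((W H).card.choose (q H) *
          (Real.exp (-((1 - η) ^ 2 * ((j : ℝ) - l) * ((q H : ℝ) - l) * (2 * M) / (n : ℝ) ^ 2)) *
            C.card)) := by
      calc (∑ J ∈ (univ : Finset (Fin n)).powersetCard j,
          ∑ S ∈ (W H).powersetCard (q H), ((F J S).card : ℝ))
          ≤ ∑ J ∈ (univ : Finset (Fin n)).powersetCard j, ∑ S ∈ (W H).powersetCard (q H),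
            (Real.exp (-((1 - η) ^ 2 * ((j : ℝ) - l) * ((q H : ℝ) - l) * (2 * M) /
              (n : ℝ) ^ 2)) * C.card) :=
            Finset.sum_le_sum fun J hJ => Finset.sum_le_sum fun S hS => hterm H hHI J hJ S hS
        _ = _ := by
            simp only [Finset.sum_const, Finset.card_powersetCard, Finset.card_univ,
              Fintype.card_fin, nsmul_eq_mul]
    calc (Hm : ℝ) * (∑ J ∈ (univ : Finset (Fin n)).powersetCard j,
        ∑ S ∈ (W H).powersetCard (q H), ((F J S).card : ℝ))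
        ≤ Hm * (n.choose j * ((W H).card.choose (q H) *
          (Real.exp (-((1 - η) ^ 2 * ((j : ℝ) - l) * ((q H : ℝ) - l) * (2 * M) / (n : ℝ) ^ 2)) *
            C.card))) := mul_le_mul_of_nonneg_left h2 hHmR.le
      _ = (Hm * n.choose j * (W H).card.choose (q H) *
          Real.exp (-((1 - η) ^ 2 * ((j : ℝ) - l) * ((q H : ℝ) - l) * (2 * M) / (n : ℝ) ^ 2))) *
            C.card := by ring
      _ ≤ p * C.card := mul_le_mul_of_nonneg_right h1 (Nat.cast_nonneg _)
  have hI1c : (I1.card : ℝ) ≤ Hm := by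
    have : I1.card ≤ Hm := (Finset.card_le_card (Finset.filter_subset _ _)).trans hind1
    exact_mod_cast this
  have hpC : 0 ≤ p * (C.card : ℝ) := by positivity
  have hsum : (Hm : ℝ) * (∑ H ∈ I1, ∑ J ∈ (univ : Finset (Fin n)).powersetCard j,
        ∑ S ∈ (W H).powersetCard (q H), ((F J S).card : ℝ)) ≤ Hm * (p * C.card) := by
    rw [Finset.mul_sum]
    calc ∑ H ∈ I1, (Hm : ℝ) * (∑ J ∈ (univ : Finset (Fin n)).powersetCard j,
        ∑ S ∈ (W H).powersetCard (q H), ((F J S).card : ℝ)) ≤ ∑ _H ∈ I1, p * C.card :=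
          Finset.sum_le_sum hH
      _ = I1.card * (p * C.card) := by rw [Finset.sum_const, nsmul_eq_mul]
      _ ≤ Hm * (p * C.card) := mul_le_mul_of_nonneg_right hI1c hpC
  refine le_trans (card_union3 _ I1 ((univ : Finset (Fin n)).powersetCard j)
    (fun H => (W H).powersetCard (q H)) F fun m hm => ?_) (le_of_mul_le_mul_left hsum hHmR)
  simp only [Finset.mem_filter] at hm
  exact hunion m hm

end LKA
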