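import Pool.Agent.LKA.StatC
import Pool.Agent.LKA.StatP
import Pool.Agent.LKA.Cnt

/-!
# LKA-B3: the third bad event

Plan. As in `bad2_count`: `cnt_le_const`, `exists_strat`, `MStrat.count_le`; replace `m0` by a simple
matching of its class with `Bad3`; union bound over `H ∈ inds G0 U` (at most `Hm`) and
`K ∈ powersetCard κ W`, `W = live G0 R (E.known G0 s H)`, `W.card < N0` (at most `C(N0, κ)`:
`Nat.choose_le_choose`), each term by `stable_bound`, constants by `class_const`.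
-/

open scoped Classical
open Finset

namespace LKA

variable {n : ℕ}

/-- double union bound -/
private theorem card_union2 {β ι1 ι2 : Type*} (A : Finset β) (I1 : Finset ι1)
    (I2 : ι1 → Finset ι2) (F : ι2 → Finset β)
    (h : ∀ m ∈ A, ∃ a ∈ I1, ∃ b ∈ I2 a, m ∈ F b) :
    (A.card : ℝ) ≤ ∑ a ∈ I1, ∑ b ∈ I2 a, ((F b).card : ℝ) := by
  have h1 : A ⊆ I1.biUnion (fun a => (I2 a).biUnion (fun b => F b)) := by
    intro m hm
    obtain ⟨a, ha, b, hb, hmF⟩ := h m hm
    simp only [Finset.mem_biUnion]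
    exact ⟨a, ha, b, hb, hmF⟩
  have h2 : A.card ≤ ∑ a ∈ I1, ∑ b ∈ I2 a, (F b).card := by
    refine (Finset.card_le_card h1).trans (Finset.card_biUnion_le.trans ?_)
    exact Finset.sum_le_sum fun a _ => Finset.card_biUnion_le
  exact_mod_cast h2

theorem bad3_count (E : Explorer n) (M : ℕ) (η μ0 : ℝ) (l Hm N0 κ s : ℕ)
    (hn : 0 < n) (hη : 0 < η) (hη1 : η ≤ 1 / 4) (hμ0 : 0 < μ0)
    (hs : s ≤ n) (hlκ : l ≤ κ) :
    (cnt n M (Bad3 M η μ0 l Hm N0 κ E s) : ℝ) * (2 ^ M * M.factorial) ≤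
      (Hm * N0.choose κ *
        Real.exp (1 / 2 - (1 - η) ^ 2 * ((κ : ℝ) - l) ^ 2 * M / (n : ℝ) ^ 2)) *
        (n : ℝ) ^ (2 * M) := by
  refine cnt_le_const M _ _ fun D _ => ?_
  set p : ℝ := Hm * N0.choose κ *
        Real.exp (1 / 2 - (1 - η) ^ 2 * ((κ : ℝ) - l) ^ 2 * M / (n : ℝ) ^ 2) with hp
  have hp0 : 0 ≤ p := by positivity
  obtain ⟨st, hst⟩ := exists_strat E D hn
  refine le_trans (le_of_eq ?_)
    (st.count_le s (fun m => Simp m ∧ Bad3 M η μ0 l Hm N0 κ E s (gr m)) p ?_)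
  · refine congrArg (fun x : Finset (Equiv.Perm (Stub D)) => (x.card : ℝ)) ?_
    ext m
    simp only [Finset.mem_filter]
  intro m0 hm0
  by_cases hex : ∃ m ∈ st.cls s m0, Simp m ∧ Bad3 M η μ0 l Hm N0 κ E s (gr m)
  swap
  · refine le_of_eq_of_le (b := (0 : ℝ)) ?_ (by positivity)
    rw [Nat.cast_eq_zero, Finset.card_eq_zero, Finset.eq_empty_iff_forall_notMem]
    intro m hm
    simp only [Finset.mem_filter] at hm
    exact hex ⟨m, hm.1, hm.2⟩
  obtain ⟨m1, hm1, hs1, hB1⟩ := hex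
  have hm1M : m1 ∈ Mat (univ : Finset (Stub D)) := by
    have h1 := hm1
    simp only [MStrat.cls, Finset.mem_filter] at h1
    exact h1.1
  rw [← st.cls_eq hm0 hm1]
  obtain ⟨⟨hmu1, hlow1, hind1⟩, -⟩ := hB1
  set G0 := gr m1 with hG0
  set R := E.rv G0 s with hR
  set U := E.und G0 s ∩ R with hU
  have hmu : 0 < mu M G0 R := lt_of_lt_of_le hμ0 hmu1
  set W : Finset (Fin n) → Finset (Fin n) := fun H => live G0 R (E.known G0 s H) with hW
  have hWR : ∀ H, W H ⊆ Rᶜ := fun H => Finset.filter_subset _ _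
  set C := st.cls s m1 with hC
  set F : Finset (Fin n) → Finset (Equiv.Perm (Stub D)) := fun K =>
    C.filter (fun m => Simp m ∧ Ind (gr m) K) with hF
  set I1 := (inds G0 U).filter (fun H => (W H).card < N0) with hI1
  have hUR : U ⊆ R := Finset.inter_subset_right
  set e : ℝ := Real.exp (1 / 2 - (1 - η) ^ 2 * ((κ : ℝ) - l) ^ 2 * M / (n : ℝ) ^ 2) with he
  have he0 : 0 ≤ e := (Real.exp_pos _).le
  -- the union bound
  have hunion : ∀ m, m ∈ C ∧ Simp m ∧ Bad3 M η μ0 l Hm N0 κ E s (gr m) →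
      ∃ H ∈ I1, ∃ K ∈ (W H).powersetCard κ, m ∈ F K := by
    rintro m ⟨hmC, hsm, hBm⟩
    obtain ⟨c1, -, -, c4, c5, c6, c7⟩ := class_const E M η s st hst hm1M hs1 hs hmC hsm
    obtain ⟨-, H, hH, hN, K, hKW, hKc, hKI⟩ := hBm
    rw [← hG0, ← hR] at c1
    rw [← hG0] at c4 c5
    rw [← hG0, ← hR] at c6 c7
    rw [c1] at c7
    rw [c1, c4] at hH
    rw [← hU, c6 U hUR] at hH
    have hHU : H ⊆ U := Finset.mem_powerset.1 (Finset.mem_filter.1 hH).1
    have hkn : E.known (gr m) s H = E.known G0 s H := by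
      unfold Explorer.known
      rw [c5, c1]
    have hknR : E.known G0 s H ⊆ R := by
      unfold Explorer.known
      exact Finset.union_subset Finset.inter_subset_right (hHU.trans hUR)
    have hlive : live (gr m) (E.rv (gr m) s) (E.known (gr m) s H) = W H := by
      rw [c1, hkn, c7 _ hknR]
    rw [hlive] at hN hKW
    refine ⟨H, Finset.mem_filter.2 ⟨hH, hN⟩, K, Finset.mem_powersetCard.2 ⟨hKW, hKc⟩, ?_⟩
    rw [hF]
    exact Finset.mem_filter.2 ⟨hmC, hsm, hKI⟩
  -- each term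
  have hterm : ∀ H ∈ I1, ∀ K ∈ (W H).powersetCard κ, ((F K).card : ℝ) ≤ e * C.card := by
    intro H _ K hK
    obtain ⟨hKW, hKc⟩ := Finset.mem_powersetCard.1 hK
    have h1 := stable_bound E M η l s st hst hm1M hs1 hs hn hη hη1 hmu hlow1
      (hKW.trans (hWR H)) (by rw [hKc]; exact hlκ)
    rw [hKc] at h1
    exact h1
  have heC : 0 ≤ e * (C.card : ℝ) := by positivity
  have hH : ∀ H ∈ I1, (∑ K ∈ (W H).powersetCard κ, ((F K).card : ℝ)) ≤
      N0.choose κ * (e * C.card) := by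
    intro H hHI
    have hN : (W H).card < N0 := (Finset.mem_filter.1 hHI).2
    have hch : (((W H).card.choose κ : ℕ) : ℝ) ≤ N0.choose κ := by
      exact_mod_cast Nat.choose_le_choose κ hN.le
    calc (∑ K ∈ (W H).powersetCard κ, ((F K).card : ℝ))
        ≤ ∑ _K ∈ (W H).powersetCard κ, e * C.card :=
          Finset.sum_le_sum fun K hK => hterm H hHI K hK
      _ = ((W H).card.choose κ : ℝ) * (e * C.card) := by
          rw [Finset.sum_const, Finset.card_powersetCard, nsmul_eq_mul]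
      _ ≤ N0.choose κ * (e * C.card) := mul_le_mul_of_nonneg_right hch heC
  have hI1c : (I1.card : ℝ) ≤ Hm := by
    have : I1.card ≤ Hm := (Finset.card_le_card (Finset.filter_subset _ _)).trans hind1
    exact_mod_cast this
  refine le_trans (card_union2 _ I1 (fun H => (W H).powersetCard κ) F fun m hm => ?_) ?_
  · simp only [Finset.mem_filter] at hm
    exact hunion m hm
  · calc (∑ H ∈ I1, ∑ K ∈ (W H).powersetCard κ, ((F K).card : ℝ))
        ≤ ∑ _H ∈ I1, (N0.choose κ * (e * C.card) : ℝ) := Finset.sum_le_sum hH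
      _ = I1.card * (N0.choose κ * (e * C.card)) := by rw [Finset.sum_const, nsmul_eq_mul]
      _ ≤ Hm * (N0.choose κ * (e * C.card)) :=
          mul_le_mul_of_nonneg_right hI1c (by positivity)
      _ = p * C.card := by rw [hp]; ring

end LKA
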