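import Pool.Agent.LKA.Gr

/-!
# LKA-Base: every graph comes from at least `∏ (D v)!` matchings

Plan. Fix `D`. For a graph `G` with degrees `D` choose for every `v` a bijection
`e v : G.neighborSet v ≃ Fin (D v)` (`Set.ncard` / `Fintype.card` equality, `Fintype.equivFin` and a
cast, or `Finite.equivFin`). Define `m_G : Perm (Stub D)` by `m_G ⟨v, i⟩ = ⟨u, e u ⟨v, _⟩⟩` where
`u = (e v).symm i` (a neighbour of `v`). It is an involution without fixed points, `Simp m_G`, and
`gr m_G = G`.
For `π : (v : Fin n) → Equiv.Perm (Fin (D v))` let `P = Equiv.sigmaCongrRight π`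
and `m_{G,π} = P * m_G * P⁻¹`. Again `m_{G,π} ∈ Mat univ`, `Simp`, `gr m_{G,π} = G` (`P` does not
change the first component). The map `(G, π) ↦ m_{G,π}` is injective: `G = gr m_{G,π}`; and if
`P m_G P⁻¹ = P' m_G P'⁻¹` then `Q = P'⁻¹ P` commutes with `m_G` and preserves the first components;
for a stub `x`, `(m_G (Q x)).1 = (Q (m_G x)).1 = (m_G x).1` and `(Q x).1 = x.1`, so `Q x = x` by
`Simp m_G`. Hence the number of graphs times the number `∏ (D v)!` of families `π`
(`Fintype.card_pi`, `Fintype.card_perm`, `Fintype.card_fin`) is at most the number of matchings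
(`Finset.card_le_card_of_injOn` from the product finset `filter ×ˢ univ`).
-/

open scoped Classical
open Finset

namespace LKA

variable {n : ℕ}

section aux

variable {D : Fin n → ℕ}

/-- the chosen numbering of the neighbours -/
private noncomputable def eqv (G : SimpleGraph (Fin n))
    (hG : ∀ v, (G.neighborSet v).ncard = D v) (v : Fin n) : G.neighborSet v ≃ Fin (D v) :=
  Fintype.equivFinOfCardEq (by
    rw [← hG v, Set.ncard_eq_toFinset_card', Set.toFinset_card])

private noncomputable def nb (G : SimpleGraph (Fin n))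
    (hG : ∀ v, (G.neighborSet v).ncard = D v) (x : Stub D) : Fin n :=
  ((eqv G hG x.1).symm x.2 : G.neighborSet x.1)

private theorem nb_adj (G : SimpleGraph (Fin n))
    (hG : ∀ v, (G.neighborSet v).ncard = D v) (x : Stub D) : G.Adj x.1 (nb G hG x) :=
  ((eqv G hG x.1).symm x.2 : G.neighborSet x.1).2

/-- the partner of a stub -/
private noncomputable def mt (G : SimpleGraph (Fin n))
    (hG : ∀ v, (G.neighborSet v).ncard = D v) (x : Stub D) : Stub D :=
  ⟨nb G hG x, eqv G hG (nb G hG x) ⟨x.1, (nb_adj G hG x).symm⟩⟩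

private theorem nb_mt (G : SimpleGraph (Fin n))
    (hG : ∀ v, (G.neighborSet v).ncard = D v) (x : Stub D) : nb G hG (mt G hG x) = x.1 := by
  show (((eqv G hG (nb G hG x)).symm (eqv G hG (nb G hG x) ⟨x.1, (nb_adj G hG x).symm⟩) :
    G.neighborSet (nb G hG x)) : Fin n) = x.1
  rw [Equiv.symm_apply_apply]

/-- a stub is determined by its vertex and neighbour -/
private theorem stub_ext (G : SimpleGraph (Fin n))
    (hG : ∀ v, (G.neighborSet v).ncard = D v) {x y : Stub D} (h1 : x.1 = y.1)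
    (h2 : nb G hG x = nb G hG y) : x = y := by
  obtain ⟨v, i⟩ := x
  obtain ⟨w, j⟩ := y
  dsimp only at h1
  subst h1
  have h3 : (eqv G hG v).symm i = (eqv G hG v).symm j := Subtype.ext h2
  rw [(eqv G hG v).symm.injective h3]

private theorem mt_mt (G : SimpleGraph (Fin n))
    (hG : ∀ v, (G.neighborSet v).ncard = D v) (x : Stub D) : mt G hG (mt G hG x) = x := by
  apply stub_ext G hG
  · exact nb_mt G hG x
  · rw [nb_mt]
    rfl

private noncomputable def mm (G : SimpleGraph (Fin n))
    (hG : ∀ v, (G.neighborSet v).ncard = D v) : Equiv.Perm (Stub D) where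
  toFun := mt G hG
  invFun := mt G hG
  left_inv := mt_mt G hG
  right_inv := mt_mt G hG

private theorem mm_fst (G : SimpleGraph (Fin n))
    (hG : ∀ v, (G.neighborSet v).ncard = D v) (x : Stub D) : (mm G hG x).1 = nb G hG x := rfl

private theorem exists_stub (G : SimpleGraph (Fin n))
    (hG : ∀ v, (G.neighborSet v).ncard = D v) {u v : Fin n} (h : G.Adj u v) :
    ∃ x : Stub D, x.1 = u ∧ nb G hG x = v := by
  refine ⟨⟨u, eqv G hG u ⟨v, h⟩⟩, rfl, ?_⟩
  show (((eqv G hG u).symm (eqv G hG u ⟨v, h⟩) : G.neighborSet u) : Fin n) = v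
  rw [Equiv.symm_apply_apply]

private theorem a_inv {α : Type*} (e : Equiv.Perm α) (x : α) : e (e⁻¹ x) = x :=
  Equiv.apply_symm_apply e x

private theorem inv_a {α : Type*} (e : Equiv.Perm α) (x : α) : e⁻¹ (e x) = x :=
  Equiv.symm_apply_apply e x

/-- the fibrewise permutation -/
private def PP (π : (v : Fin n) → Equiv.Perm (Fin (D v))) : Equiv.Perm (Stub D) :=
  Equiv.sigmaCongrRight π

private theorem PP_fst (π : (v : Fin n) → Equiv.Perm (Fin (D v))) (x : Stub D) :
    (PP π x).1 = x.1 := rfl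

private theorem PP_inv_fst (π : (v : Fin n) → Equiv.Perm (Fin (D v))) (x : Stub D) :
    ((PP π)⁻¹ x).1 = x.1 := by
  have h := PP_fst π ((PP π)⁻¹ x)
  rw [a_inv] at h
  exact h.symm

private noncomputable def mp (G : SimpleGraph (Fin n))
    (hG : ∀ v, (G.neighborSet v).ncard = D v) (π : (v : Fin n) → Equiv.Perm (Fin (D v))) :
    Equiv.Perm (Stub D) := PP π * mm G hG * (PP π)⁻¹

private theorem mp_fst (G : SimpleGraph (Fin n))
    (hG : ∀ v, (G.neighborSet v).ncard = D v) (π : (v : Fin n) → Equiv.Perm (Fin (D v)))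
    (x : Stub D) : (mp G hG π x).1 = nb G hG ((PP π)⁻¹ x) := rfl

private theorem mp_mem (G : SimpleGraph (Fin n))
    (hG : ∀ v, (G.neighborSet v).ncard = D v) (π : (v : Fin n) → Equiv.Perm (Fin (D v))) :
    mp G hG π ∈ Mat (univ : Finset (Stub D)) := by
  rw [mem_Mat]
  refine ⟨fun x => ?_, fun x => ?_⟩
  · show PP π (mt G hG ((PP π)⁻¹ (PP π (mt G hG ((PP π)⁻¹ x))))) = x
    rw [inv_a, mt_mt, a_inv]
  · refine ⟨fun _ => mem_univ _, fun _ h => ?_⟩
    have h1 := congrArg Sigma.fst h
    rw [mp_fst] at h1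
    have h2 := nb_adj G hG ((PP π)⁻¹ x)
    rw [h1, PP_inv_fst] at h2
    exact G.irrefl h2

private theorem mp_simp (G : SimpleGraph (Fin n))
    (hG : ∀ v, (G.neighborSet v).ncard = D v) (π : (v : Fin n) → Equiv.Perm (Fin (D v))) :
    Simp (mp G hG π) := by
  refine ⟨fun x h => ?_, fun x y h1 h2 => ?_⟩
  · rw [mp_fst] at h
    have h2 := nb_adj G hG ((PP π)⁻¹ x)
    rw [h, PP_inv_fst] at h2
    exact G.irrefl h2
  · rw [mp_fst, mp_fst] at h2
    have h3 : (PP π)⁻¹ x = (PP π)⁻¹ y := by
      apply stub_ext G hG _ h2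
      rw [PP_inv_fst, PP_inv_fst, h1]
    exact (PP π)⁻¹.injective h3

private theorem mp_gr (G : SimpleGraph (Fin n))
    (hG : ∀ v, (G.neighborSet v).ncard = D v) (π : (v : Fin n) → Equiv.Perm (Fin (D v))) :
    gr (mp G hG π) = G := by
  ext u v
  rw [gr_adj (mp_mem G hG π) (mp_simp G hG π)]
  constructor
  · rintro ⟨x, h1, h2⟩
    rw [mp_fst] at h2
    have h3 := nb_adj G hG ((PP π)⁻¹ x)
    rw [h2, PP_inv_fst, h1] at h3
    exact h3
  · intro h
    obtain ⟨x, h1, h2⟩ := exists_stub G hG h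
    refine ⟨PP π x, ?_, ?_⟩
    · rw [PP_fst, h1]
    · rw [mp_fst, inv_a, h2]

private theorem mp_inj (G : SimpleGraph (Fin n))
    (hG : ∀ v, (G.neighborSet v).ncard = D v) (π ρ : (v : Fin n) → Equiv.Perm (Fin (D v)))
    (h : mp G hG π = mp G hG ρ) : π = ρ := by
  have key : ∀ x : Stub D, (PP ρ)⁻¹ (PP π x) = x := by
    intro x
    have h1 : mp G hG π (PP π x) = mp G hG ρ (PP π x) := by rw [h]
    have h2 := congrArg Sigma.fst h1
    rw [mp_fst, mp_fst, inv_a] at h2
    apply stub_ext G hG _ h2.symm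
    rw [PP_inv_fst, PP_fst]
  have key2 : ∀ x : Stub D, PP π x = PP ρ x := by
    intro x
    have := congrArg (PP ρ) (key x)
    rwa [a_inv] at this
  funext v
  ext i
  have h3 : (⟨v, π v i⟩ : Stub D) = ⟨v, ρ v i⟩ := key2 ⟨v, i⟩
  have h4 : π v i = ρ v i := eq_of_heq (Sigma.mk.inj h3).2
  rw [h4]

end aux

theorem base_count (D : Fin n → ℕ) (B : SimpleGraph (Fin n) → Prop) :
    (univ.filter (fun G : SimpleGraph (Fin n) =>
      (∀ v, (G.neighborSet v).ncard = D v) ∧ B G)).card * ∏ v, (D v).factorial ≤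
    ((Mat (univ : Finset (Stub D))).filter (fun m => Simp m ∧ B (gr m))).card := by
  set A := univ.filter (fun G : SimpleGraph (Fin n) =>
      (∀ v, (G.neighborSet v).ncard = D v) ∧ B G) with hA
  have hc : ∏ v, (D v).factorial =
      (univ : Finset ((v : Fin n) → Equiv.Perm (Fin (D v)))).card := by
    rw [card_univ, Fintype.card_pi]
    refine prod_congr rfl fun v _ => ?_
    rw [Fintype.card_perm, Fintype.card_fin]
  rw [hc, ← card_product]
  set F : SimpleGraph (Fin n) × ((v : Fin n) → Equiv.Perm (Fin (D v))) → Equiv.Perm (Stub D) :=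
    fun q => if hq : ∀ v, (q.1.neighborSet v).ncard = D v then mp q.1 hq q.2 else 1 with hF
  refine card_le_card_of_injOn F ?_ ?_
  · rintro ⟨G, π⟩ hq
    have hG : (∀ v, (G.neighborSet v).ncard = D v) ∧ B G := by
      have := (mem_product.1 (mem_coe.1 hq)).1
      rw [hA, mem_filter] at this
      exact this.2
    have e : F (G, π) = mp G hG.1 π := dif_pos hG.1
    rw [mem_coe, mem_filter, e]
    exact ⟨mp_mem G hG.1 π, mp_simp G hG.1 π, by rw [mp_gr]; exact hG.2⟩
  · rintro ⟨G, π⟩ hq ⟨G2, ρ⟩ hq2 h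
    have hG : (∀ v, (G.neighborSet v).ncard = D v) ∧ B G := by
      have := (mem_product.1 (mem_coe.1 hq)).1
      rw [hA, mem_filter] at this
      exact this.2
    have hG2 : (∀ v, (G2.neighborSet v).ncard = D v) ∧ B G2 := by
      have := (mem_product.1 (mem_coe.1 hq2)).1
      rw [hA, mem_filter] at this
      exact this.2
    have e : F (G, π) = mp G hG.1 π := dif_pos hG.1
    have e2 : F (G2, ρ) = mp G2 hG2.1 ρ := dif_pos hG2.1
    rw [e, e2] at h
    have h1 : G = G2 := by
      have := congrArg gr h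
      rwa [mp_gr, mp_gr] at this
    subst h1
    have h2 : π = ρ := mp_inj G hG.1 π ρ h
    rw [h2]

end LKA
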