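import Pool.Agent.LKA.Mat

/-!
# LKA-ClassM: matchings with a prescribed part

Plan. The map `m ↦ m'`, `m' x = if x ∈ Y then x else m x`, is a bijection from the matchings of `X`
which agree with `m0` on `Y` to `Mat (X \ Y)`; the inverse is `m' ↦ m`, `m x = if x ∈ Y then m0 x
else m' x`. Convenient form: let `p : Perm α` be the permutation `x ↦ if x ∈ Y then m0 x else x`
(it is an involution since `m0` maps `Y` to `Y` and `m0 (m0 x) = x`); the map is `m ↦ p * m` in both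
directions (`p * (p * m) = m`). If `m` agrees with `m0` on `Y` then `m y ∈ Y` for `y ∈ Y`, and
`m x ∉ Y` for `x ∉ Y` (involution), so `(p * m) x = m x` for `x ∉ Y`, `(p * m) y = y` for `y ∈ Y`.
Use `Finset.sum_bij'`; the summands agree by `hg`.
-/

open scoped Classical
open Finset

namespace LKA

variable {α : Type} [Fintype α]

private noncomputable def fY (Y : Finset α) (m0 : Equiv.Perm α) (x : α) : α := if x ∈ Y then m0 x else x

omit [Fintype α] in
private theorem fY_inv {Y : Finset α} {m0 : Equiv.Perm α} (hi : ∀ x, m0 (m0 x) = x) (hc : ∀ y ∈ Y, m0 y ∈ Y) :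
    Function.Involutive (fY Y m0) := by
  intro x
  unfold fY
  by_cases hx : x ∈ Y
  · rw [if_pos hx, if_pos (hc x hx), hi]
  · rw [if_neg hx, if_neg hx]

theorem sum_class {X Y : Finset α} {m0 : Equiv.Perm α} (hm : m0 ∈ Mat X) (hY : Y ⊆ X)
    (hc : ∀ y ∈ Y, m0 y ∈ Y) (g : Equiv.Perm α → ℝ)
    (hg : ∀ m m' : Equiv.Perm α, (∀ x, x ∉ Y → m x = m' x) → g m = g m') :
    ∑ m ∈ (Mat X).filter (fun m => ∀ y ∈ Y, m y = m0 y), g m = ∑ m ∈ Mat (X \ Y), g m := by
  rw [mem_Mat] at hm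
  obtain ⟨hi, hs⟩ := hm
  let p : Equiv.Perm α := (fY_inv hi hc).toPerm
  have hpY : ∀ y ∈ Y, p y = m0 y := fun y hy => if_pos hy
  have hpN : ∀ x, x ∉ Y → p x = x := fun x hx => if_neg hx
  have hpp : ∀ m : Equiv.Perm α, p * (p * m) = m := by
    intro m
    ext x
    exact fY_inv hi hc (m x)
  have hA : ∀ m ∈ (Mat X).filter (fun m => ∀ y ∈ Y, m y = m0 y),
      (∀ y ∈ Y, (p * m) y = y) ∧ ∀ x, x ∉ Y → m x ∉ Y ∧ (p * m) x = m x := by
    intro m hm
    rw [mem_filter, mem_Mat] at hm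
    obtain ⟨⟨h1, h2⟩, h3⟩ := hm
    refine ⟨fun y hy => ?_, fun x hx => ?_⟩
    · rw [Equiv.Perm.mul_apply, h3 y hy, hpY _ (hc y hy), hi]
    · have h4 : m x ∉ Y := by
        intro h
        have h5 := h3 _ h
        rw [h1] at h5
        exact hx (h5 ▸ hc _ h)
      exact ⟨h4, by rw [Equiv.Perm.mul_apply, hpN _ h4]⟩
  have hB : ∀ m ∈ Mat (X \ Y), (∀ y ∈ Y, (p * m) y = m0 y) ∧
      ∀ x, x ∉ Y → m x ∉ Y ∧ (p * m) x = m x := by
    intro m hm
    rw [mem_Mat] at hm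
    obtain ⟨h1, h2⟩ := hm
    have h3 : ∀ y ∈ Y, m y = y := by
      intro y hy
      by_contra h
      exact (mem_sdiff.mp ((h2 y).mp h)).2 hy
    refine ⟨fun y hy => ?_, fun x hx => ?_⟩
    · rw [Equiv.Perm.mul_apply, h3 y hy, hpY _ hy]
    · have h4 : m x ∉ Y := by
        intro h
        have h5 := h3 _ h
        rw [h1] at h5
        exact hx (h5 ▸ h)
      exact ⟨h4, by rw [Equiv.Perm.mul_apply, hpN _ h4]⟩
  refine Finset.sum_bij' (fun m _ => p * m) (fun m _ => p * m) ?_ ?_ (fun m _ => hpp m)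
    (fun m _ => hpp m) ?_
  · intro m hm
    obtain ⟨h4, h5⟩ := hA m hm
    rw [mem_filter, mem_Mat] at hm
    obtain ⟨⟨h1, h2⟩, h3⟩ := hm
    rw [mem_Mat]
    refine ⟨fun x => ?_, fun x => ?_⟩
    · by_cases hx : x ∈ Y
      · rw [h4 x hx, h4 x hx]
      · rw [(h5 x hx).2, (h5 _ (h5 x hx).1).2, h1]
    · by_cases hx : x ∈ Y
      · rw [h4 x hx, mem_sdiff]
        exact ⟨fun h => absurd rfl h, fun h => absurd hx h.2⟩
      · rw [(h5 x hx).2, mem_sdiff, h2]
        exact ⟨fun h => ⟨h, hx⟩, fun h => h.1⟩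
  · intro m hm
    obtain ⟨h4, h5⟩ := hB m hm
    rw [mem_Mat] at hm
    obtain ⟨h1, h2⟩ := hm
    rw [mem_filter, mem_Mat]
    refine ⟨⟨fun x => ?_, fun x => ?_⟩, h4⟩
    · by_cases hx : x ∈ Y
      · rw [h4 x hx, h4 _ (hc x hx), hi]
      · rw [(h5 x hx).2, (h5 _ (h5 x hx).1).2, h1]
    · by_cases hx : x ∈ Y
      · rw [h4 x hx]
        exact hs x
      · rw [(h5 x hx).2, h2, mem_sdiff]
        exact ⟨fun h => h.1, fun h => ⟨h, hx⟩⟩
  · intro m hm
    exact hg _ _ (fun x hx => ((hA m hm).2 x hx).2.symm)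

end LKA
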