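import Pool.Agent.LKA.ClassM

/-!
# LKA-Cls: classes of matchings with the same information at time `s`

Plan. Let `m0 ∈ Mat univ`, `m ∈ st.cls s m0`.
(1) `cls_v`: `st.causal s m0 m` gives `st.v i m = st.v i m0` for all `i ≤ s` (the hypothesis: if
`o x = st.v i m0` with `i < s` then `o x ∈ st.R s m0`). Hence `cls_R`: `st.R s m = st.R s m0`.
(2) `cls_X`: `o (m x) ∈ R ↔ o (m0 x) ∈ R` (`R = st.R s m0`): if `o (m x) ∈ R` then
`m (m x) = m0 (m x)`, so `x = m0 (m x)`, `m0 x = m x`, so `o (m0 x) ∈ R`; and symmetrically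
(if `o (m0 x) ∈ R` then `m (m0 x) = m0 (m0 x) = x`, so `m x = m0 x`).
(3) `sum_cls`: `sum_class` with `X = univ`, `Y = (st.X s m0)ᶜ` (closed under `m0`); the two filters
agree: `m = m0` on `{o x ∈ R}` iff `m = m0` on `Y = {o x ∈ R ∨ o (m0 x) ∈ R}` (for the second kind
use the involutions as in (2)). `univ \ Y = st.X s m0`.
(4) `class_sum_le`: the classes `cls s m0`, `m0 ∈ Mat univ`, form a partition of `Mat univ`
(`m ∈ cls s m0 ↔ cls s m = cls s m0` for `m, m0 ∈ Mat univ`, by (1)): use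
`Finset.sum_fiberwise_of_maps_to` for the map `m ↦ st.cls s m` into `(Mat univ).image (st.cls s)`.
(5) `count_le`: `class_sum_le` for the functions `if B m then 1 else 0` and `p`.
-/

open scoped Classical
open Finset

namespace LKA

namespace MStrat

variable {α V : Type} [Fintype α] {o : α → V}

theorem self_mem_cls (st : MStrat α V o) (s : ℕ) {m : Equiv.Perm α}
    (hm : m ∈ Mat (univ : Finset α)) : m ∈ st.cls s m := by
  unfold cls
  rw [mem_filter]
  exact ⟨hm, fun x _ => rfl⟩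

theorem cls_v (st : MStrat α V o) {s : ℕ} {m0 m : Equiv.Perm α}
    (hm0 : m0 ∈ Mat (univ : Finset α)) (hm : m ∈ st.cls s m0) {i : ℕ} (hi : i ≤ s) :
    st.v i m = st.v i m0 := by
  unfold cls at hm
  rw [mem_filter] at hm
  refine st.causal s m0 m hm0 hm.1 ?_ i hi
  rintro x ⟨j, hj, hx⟩
  refine hm.2 x ?_
  unfold R
  rw [mem_image]
  exact ⟨j, mem_range.2 hj, hx.symm⟩

theorem cls_R (st : MStrat α V o) {s : ℕ} {m0 m : Equiv.Perm α}
    (hm0 : m0 ∈ Mat (univ : Finset α)) (hm : m ∈ st.cls s m0) : st.R s m = st.R s m0 := by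
  unfold R
  refine image_congr ?_
  intro i hi
  have hi' : i < s := by simpa using hi
  exact st.cls_v hm0 hm hi'.le

private theorem mat_inv {X : Finset α} {m : Equiv.Perm α} (hm : m ∈ Mat X) (x : α) :
    m (m x) = x := (mem_Mat.1 hm).1 x

private theorem cls_mem (st : MStrat α V o) {s : ℕ} {m0 m : Equiv.Perm α}
    (hm : m ∈ st.cls s m0) : m ∈ Mat (univ : Finset α) ∧ ∀ x, o x ∈ st.R s m0 → m x = m0 x := by
  unfold cls at hm
  rwa [mem_filter] at hm

private theorem cls_o_iff (st : MStrat α V o) {s : ℕ} {m0 m : Equiv.Perm α}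
    (hm0 : m0 ∈ Mat (univ : Finset α)) (hm : m ∈ st.cls s m0) (x : α) :
    o (m x) ∈ st.R s m0 ↔ o (m0 x) ∈ st.R s m0 := by
  obtain ⟨hm1, hm2⟩ := st.cls_mem hm
  constructor
  · intro h
    have h1 := hm2 _ h
    rw [mat_inv hm1] at h1
    have h2 : m0 x = m x := by
      rw [h1, mat_inv hm0, ← h1]
    rw [h2]
    exact h
  · intro h
    have h1 := hm2 _ h
    rw [mat_inv hm0] at h1
    have h2 : m x = m0 x := by
      have h3 := mat_inv hm1 (m0 x)
      rw [h1] at h3
      exact h3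
    rw [h2]
    exact h

theorem cls_X (st : MStrat α V o) {s : ℕ} {m0 m : Equiv.Perm α}
    (hm0 : m0 ∈ Mat (univ : Finset α)) (hm : m ∈ st.cls s m0) : st.X s m = st.X s m0 := by
  unfold X
  rw [st.cls_R hm0 hm]
  refine filter_congr ?_
  intro x _
  rw [st.cls_o_iff hm0 hm x]

theorem cls_eq (st : MStrat α V o) {s : ℕ} {m0 m : Equiv.Perm α}
    (hm0 : m0 ∈ Mat (univ : Finset α)) (hm : m ∈ st.cls s m0) : st.cls s m = st.cls s m0 := by
  have hR := st.cls_R hm0 hm
  obtain ⟨hm1, hm2⟩ := st.cls_mem hm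
  unfold cls
  rw [hR]
  refine filter_congr ?_
  intro m' _
  constructor
  · intro h x hx
    rw [h x hx, hm2 x hx]
  · intro h x hx
    rw [h x hx, hm2 x hx]

theorem sum_cls (st : MStrat α V o) {s : ℕ} {m0 : Equiv.Perm α}
    (hm0 : m0 ∈ Mat (univ : Finset α)) (g : Equiv.Perm α → ℝ)
    (hg : ∀ m m' : Equiv.Perm α, (∀ x ∈ st.X s m0, m x = m' x) → g m = g m') :
    ∑ m ∈ st.cls s m0, g m = ∑ m ∈ Mat (st.X s m0), g m := by
  have hmemX : ∀ x, x ∈ st.X s m0 ↔ o x ∉ st.R s m0 ∧ o (m0 x) ∉ st.R s m0 := by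
    intro x
    unfold X
    rw [mem_filter]
    simp
  have key := sum_class (X := (univ : Finset α)) (Y := (st.X s m0)ᶜ) (m0 := m0) hm0
    (subset_univ _) (by
      intro y hy
      rw [mem_compl, hmemX] at hy ⊢
      rw [mat_inv hm0]
      tauto) g (by
      intro m m' h
      refine hg m m' ?_
      intro x hx
      refine h x ?_
      rw [mem_compl, not_not]
      exact hx)
  have h1 : (univ : Finset α) \ (st.X s m0)ᶜ = st.X s m0 := by
    ext x
    simp
  rw [h1] at key
  rw [← key]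
  refine sum_congr ?_ (fun _ _ => rfl)
  unfold cls
  refine filter_congr ?_
  intro m hm
  constructor
  · intro h y hy
    rw [mem_compl, hmemX] at hy
    by_cases hy1 : o y ∈ st.R s m0
    · exact h y hy1
    · have hy2 : o (m0 y) ∈ st.R s m0 := by
        by_contra hc
        exact hy ⟨hy1, hc⟩
      have h2 := h _ hy2
      rw [mat_inv hm0] at h2
      have h3 := mat_inv hm (m0 y)
      rw [h2] at h3
      exact h3
  · intro h x hx
    refine h x ?_
    rw [mem_compl, hmemX]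
    intro hc
    exact hc.1 hx

theorem class_sum_le (st : MStrat α V o) (s : ℕ) (g1 g2 : Equiv.Perm α → ℝ)
    (h : ∀ m0 ∈ Mat (univ : Finset α), ∑ m ∈ st.cls s m0, g1 m ≤ ∑ m ∈ st.cls s m0, g2 m) :
    ∑ m ∈ Mat (univ : Finset α), g1 m ≤ ∑ m ∈ Mat (univ : Finset α), g2 m := by
  have hmaps : ∀ m ∈ Mat (univ : Finset α), st.cls s m ∈ (Mat (univ : Finset α)).image (st.cls s) :=
    fun m hm => mem_image_of_mem _ hm
  rw [← sum_fiberwise_of_maps_to hmaps g1, ← sum_fiberwise_of_maps_to hmaps g2]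
  refine sum_le_sum ?_
  intro c hc
  rw [mem_image] at hc
  obtain ⟨m0, hm0, rfl⟩ := hc
  have hfil : (Mat (univ : Finset α)).filter (fun m => st.cls s m = st.cls s m0) =
      st.cls s m0 := by
    ext m
    rw [mem_filter]
    constructor
    · rintro ⟨hm, he⟩
      rw [← he]
      exact st.self_mem_cls s hm
    · intro hm
      exact ⟨(st.cls_mem hm).1, st.cls_eq hm0 hm⟩
  rw [hfil]
  exact h m0 hm0

theorem count_le (st : MStrat α V o) (s : ℕ) (B : Equiv.Perm α → Prop) (p : ℝ)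
    (h : ∀ m0 ∈ Mat (univ : Finset α),
      (((st.cls s m0).filter B).card : ℝ) ≤ p * (st.cls s m0).card) :
    (((Mat (univ : Finset α)).filter B).card : ℝ) ≤ p * (Mat (univ : Finset α)).card := by
  have h1 := st.class_sum_le s (fun m => if B m then (1 : ℝ) else 0) (fun _ => p) (by
    intro m0 hm0
    have h2 := h m0 hm0
    rw [sum_const, nsmul_eq_mul, sum_boole]
    rw [mul_comm p] at h2
    exact h2)
  rw [sum_const, nsmul_eq_mul, sum_boole] at h1
  rw [mul_comm p]
  exact h1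

end MStrat

end LKA
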