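import Pool.Agent.LKA.Cnt

/-!
# LKA-DMax: no vertex of very large degree

Plan. `cnt_le` with `p D = ∑ v, exp (D v - Δ)`: if some vertex of `gr m` has degree `≥ Δ` then, by
`deg_gr`, `D v ≥ Δ` and `p D ≥ 1`; otherwise the number is `0 ≤ p D * ..`. Then for every `v`:
`∑ D, multinomial * exp (D v) = (n - 1 + e)^(2M)` (`Finset.sum_pow_eq_sum_piAntidiag` with
`f u = if u = v then e else 1`), and `(n - 1 + e)^(2M) = n^(2M) (1 + (e-1)/n)^(2M)
≤ n^(2M) exp ((e-1) 2M/n) ≤ n^(2M) exp (4M/n)` as `e ≤ 3`.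
-/

open scoped Classical
open Finset

namespace LKA

variable {n : ℕ}

private theorem dmax_aux1 (D : Fin n → ℕ) (B : SimpleGraph (Fin n) → Prop) (p : ℝ) (hp1 : 1 ≤ p) :
    (((Mat (univ : Finset (Stub D))).filter (fun m => Simp m ∧ B (gr m))).card : ℝ) ≤
      p * (Mat (univ : Finset (Stub D))).card := by
  have h4 : (((Mat (univ : Finset (Stub D))).filter (fun m => Simp m ∧ B (gr m))).card : ℝ) ≤
      (Mat (univ : Finset (Stub D))).card := by
    exact_mod_cast Finset.card_filter_le _ _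
  have h5 : (0 : ℝ) ≤ (Mat (univ : Finset (Stub D))).card := Nat.cast_nonneg _
  nlinarith

private theorem dmax_aux2 (D : Fin n → ℕ) (B : SimpleGraph (Fin n) → Prop) (p : ℝ) (hp : 0 ≤ p)
    (h : ∀ m ∈ Mat (univ : Finset (Stub D)), Simp m → ¬ B (gr m)) :
    (((Mat (univ : Finset (Stub D))).filter (fun m => Simp m ∧ B (gr m))).card : ℝ) ≤
      p * (Mat (univ : Finset (Stub D))).card := by
  have h2 : ((Mat (univ : Finset (Stub D))).filter (fun m => Simp m ∧ B (gr m))) = ∅ := by
    apply Finset.filter_eq_empty_iff.2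
    rintro m hm ⟨hs, hB⟩
    exact h m hm hs hB
  rw [h2, Finset.card_empty, Nat.cast_zero]
  exact mul_nonneg hp (Nat.cast_nonneg _)

theorem dmax_count (hn : 0 < n) (M Δ : ℕ) :
    (cnt n M (fun G => ∃ v, Δ ≤ (G.neighborSet v).ncard) : ℝ) * (2 ^ M * M.factorial) ≤
      n * Real.exp (4 * M / n - Δ) * (n : ℝ) ^ (2 * M) := by
  classical
  set p : (Fin n → ℕ) → ℝ := fun D => ∑ v, Real.exp ((D v : ℝ) - Δ) with hp
  have hpn : ∀ D, 0 ≤ p D := fun D => Finset.sum_nonneg (fun v _ => (Real.exp_pos _).le)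
  have h1 := cnt_le (n := n) M (fun G => ∃ v, Δ ≤ (G.neighborSet v).ncard) p (by
    intro D _
    by_cases hD : ∃ v, Δ ≤ D v
    · obtain ⟨v, hv⟩ := hD
      have hp1 : 1 ≤ p D := by
        have h2 : Real.exp ((D v : ℝ) - Δ) ≤ p D :=
          Finset.single_le_sum (f := fun v => Real.exp ((D v : ℝ) - Δ))
            (fun u _ => (Real.exp_pos _).le) (mem_univ v)
        have h3 : (1 : ℝ) ≤ Real.exp ((D v : ℝ) - Δ) := by
          apply Real.one_le_exp
          have : (Δ : ℝ) ≤ D v := by exact_mod_cast hv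
          linarith
        linarith
      exact dmax_aux1 D (fun G => ∃ v, Δ ≤ (G.neighborSet v).ncard) (p D) hp1
    · refine dmax_aux2 D (fun G => ∃ v, Δ ≤ (G.neighborSet v).ncard) (p D) (hpn D) ?_
      rintro m hm hs ⟨v, hv⟩
      rw [deg_gr hm hs v] at hv
      exact hD ⟨v, hv⟩)
  refine h1.trans ?_
  have hn' : (0 : ℝ) < n := by exact_mod_cast hn
  have key : ∀ v : Fin n, ∑ D ∈ (univ : Finset (Fin n)).piAntidiag (2 * M),
      (Nat.multinomial univ D : ℝ) * Real.exp ((D v : ℝ) - Δ) ≤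
        Real.exp (4 * M / n - Δ) * (n : ℝ) ^ (2 * M) := by
    intro v
    have e1 : ∀ D : Fin n → ℕ, (Nat.multinomial univ D : ℝ) * Real.exp ((D v : ℝ) - Δ) =
        Real.exp (-(Δ : ℝ)) * ((Nat.multinomial univ D : ℝ) *
          ∏ i : Fin n, (if i = v then Real.exp 1 else 1) ^ (D i)) := by
      intro D
      have e2 : ∏ i : Fin n, (if i = v then Real.exp 1 else 1) ^ (D i) = Real.exp (D v) := by
        rw [Finset.prod_eq_single v]
        · rw [if_pos rfl, ← Real.exp_nat_mul, mul_one]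
        · intro i _ hi
          rw [if_neg hi, one_pow]
        · intro h
          exact absurd (mem_univ v) h
      rw [e2, sub_eq_add_neg, Real.exp_add]
      ring
    rw [Finset.sum_congr rfl (fun D _ => e1 D), ← Finset.mul_sum,
      ← Finset.sum_pow_eq_sum_piAntidiag]
    have e3 : ∑ i : Fin n, (if i = v then Real.exp 1 else (1 : ℝ)) = n + (Real.exp 1 - 1) := by
      have e4 : ∀ i : Fin n, (if i = v then Real.exp 1 else (1 : ℝ)) =
          1 + (if i = v then Real.exp 1 - 1 else 0) := by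
        intro i
        by_cases hi : i = v
        · rw [if_pos hi, if_pos hi]; ring
        · rw [if_neg hi, if_neg hi]; ring
      rw [Finset.sum_congr rfl (fun i _ => e4 i), Finset.sum_add_distrib, Finset.sum_ite_eq']
      simp
    rw [e3]
    have e5 : (n : ℝ) + (Real.exp 1 - 1) ≤ n * Real.exp (2 / n) := by
      have e6 : (2 : ℝ) / n + 1 ≤ Real.exp (2 / n) := Real.add_one_le_exp _
      have e7 : Real.exp 1 < 3 := by
        have := Real.exp_one_lt_d9
        linarith
      have e8 : (n : ℝ) * (2 / n + 1) = 2 + n := by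
        field_simp
      nlinarith
    have e9 : (0 : ℝ) ≤ (n : ℝ) + (Real.exp 1 - 1) := by
      have := Real.add_one_le_exp (1 : ℝ)
      linarith
    have e10 : ((n : ℝ) + (Real.exp 1 - 1)) ^ (2 * M) ≤
        (n : ℝ) ^ (2 * M) * Real.exp (4 * M / n) := by
      refine (pow_le_pow_left₀ e9 e5 _).trans ?_
      rw [mul_pow, ← Real.exp_nat_mul]
      have e11 : ((2 * M : ℕ) : ℝ) * (2 / n) = 4 * M / n := by
        push_cast
        ring
      rw [e11]
    have e12 : Real.exp (4 * M / n - Δ) = Real.exp (-(Δ : ℝ)) * Real.exp (4 * M / n) := by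
      rw [← Real.exp_add]
      congr 1
      ring
    rw [e12]
    have e13 := mul_le_mul_of_nonneg_left e10 (Real.exp_pos (-(Δ : ℝ))).le
    linarith [e13]
  have h6 : ∑ D ∈ (univ : Finset (Fin n)).piAntidiag (2 * M),
      (Nat.multinomial univ D : ℝ) * p D =
      ∑ v : Fin n, ∑ D ∈ (univ : Finset (Fin n)).piAntidiag (2 * M),
        (Nat.multinomial univ D : ℝ) * Real.exp ((D v : ℝ) - Δ) := by
    rw [Finset.sum_comm]
    apply Finset.sum_congr rfl
    intro D _
    rw [hp, Finset.mul_sum]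
  rw [h6]
  refine (Finset.sum_le_sum (fun v _ => key v)).trans ?_
  rw [Finset.sum_const, Finset.card_univ, Fintype.card_fin, nsmul_eq_mul]
  linarith

end LKA
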