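import Mathlib

/-!
# Project LKA (MP_f583e4_lc): lookahead does not help in sparse random graphs

Definitions at the level of graphs.
-/

open scoped Classical
open Finset

namespace LKA

/-- Two graphs on `Fin n` look the same, to an exploration with rule `next`, after `t` steps:
they have the same degree sequence, the same first `t` revealed vertices, and these vertices have
the same neighbourhoods. -/
def SameInfo {n : ℕ} (next : SimpleGraph (Fin n) → ℕ → Fin n) (t : ℕ)
    (G G' : SimpleGraph (Fin n)) : Prop :=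
  (∀ v, (G.neighborSet v).ncard = (G'.neighborSet v).ncard) ∧
    ∀ s < t, next G s = next G' s ∧ G.neighborSet (next G s) = G'.neighborSet (next G s)

/-- An exploration algorithm (of unbounded computational power). It knows the degree sequence,
reveals the vertices one by one together with their complete neighbourhoods, in an adaptive order
`next`. At time `t` (when `t` vertices are revealed) the vertices in `acc` are known to belong to
the output, and every revealed vertex which is neither in `acc` nor in `und` is known not to belong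
to the output; the vertices in `und` are undecided. -/
structure Explorer (n : ℕ) where
  next : SimpleGraph (Fin n) → ℕ → Fin n
  acc : SimpleGraph (Fin n) → ℕ → Finset (Fin n)
  und : SimpleGraph (Fin n) → ℕ → Finset (Fin n)
  out : SimpleGraph (Fin n) → Finset (Fin n)
  next_inj : ∀ G i j, i < n → j < n → next G i = next G j → i = j
  causal_next : ∀ G G' t, t < n → SameInfo next t G G' → next G t = next G' t
  causal_acc : ∀ G G' t, t ≤ n → SameInfo next t G G' → acc G t = acc G' t
  causal_und : ∀ G G' t, t ≤ n → SameInfo next t G G' → und G t = und G' t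
  acc_out : ∀ G t, t ≤ n → acc G t ⊆ out G
  out_rev : ∀ G t, t ≤ n → ∀ s < t, next G s ∈ out G → next G s ∈ acc G t ∪ und G t

variable {n : ℕ}

/-- the revealed vertices after `s` steps -/
noncomputable def Explorer.rv (E : Explorer n) (G : SimpleGraph (Fin n)) (s : ℕ) :
    Finset (Fin n) :=
  (range s).image (E.next G)

/-- number of neighbours of `w` outside `R` -/
noncomputable def res (G : SimpleGraph (Fin n)) (R : Finset (Fin n)) (w : Fin n) : ℕ :=
  (univ.filter (fun u => u ∉ R ∧ G.Adj w u)).card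

/-- twice the number of edges outside `R` -/
noncomputable def stubs (G : SimpleGraph (Fin n)) (R : Finset (Fin n)) : ℕ :=
  ∑ w ∈ Rᶜ, res G R w

/-- the typical degree outside `R` -/
noncomputable def mu (M : ℕ) (G : SimpleGraph (Fin n)) (R : Finset (Fin n)) : ℝ :=
  Real.sqrt (2 * M * stubs G R) / n

/-- the vertices outside `R` of low degree outside `R` -/
noncomputable def low (M : ℕ) (η : ℝ) (G : SimpleGraph (Fin n)) (R : Finset (Fin n)) :
    Finset (Fin n) :=
  Rᶜ.filter (fun w => (res G R w : ℝ) ≤ (1 - η) * mu M G R)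

/-- stable sets -/
def Ind (G : SimpleGraph (Fin n)) (A : Finset (Fin n)) : Prop := ∀ u ∈ A, ∀ v ∈ A, ¬ G.Adj u v

/-- the stable subsets of `P` -/
noncomputable def inds (G : SimpleGraph (Fin n)) (P : Finset (Fin n)) : Finset (Finset (Fin n)) :=
  P.powerset.filter (Ind G)

/-- the vertices outside `R` without a neighbour in `A` -/
noncomputable def live (G : SimpleGraph (Fin n)) (R A : Finset (Fin n)) : Finset (Fin n) :=
  Rᶜ.filter (fun w => ∀ a ∈ A, ¬ G.Adj a w)

/-- too many vertices of low degree at time `s` -/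
def Bad1 (M : ℕ) (η μ0 : ℝ) (l : ℕ) (E : Explorer n) (s : ℕ) (G : SimpleGraph (Fin n)) : Prop :=
  μ0 ≤ mu M G (E.rv G s) ∧ l ≤ (low M η G (E.rv G s)).card

/-- regular situation at time `s` -/
def Reg (M : ℕ) (η μ0 : ℝ) (l Hm : ℕ) (E : Explorer n) (s : ℕ) (G : SimpleGraph (Fin n)) :
    Prop :=
  μ0 ≤ mu M G (E.rv G s) ∧ (low M η G (E.rv G s)).card < l ∧
    (inds G (E.und G s ∩ E.rv G s)).card ≤ Hm

/-- the vertices known (after the guess `H`) to be in the output at time `s` -/
noncomputable def Explorer.known (E : Explorer n) (G : SimpleGraph (Fin n)) (s : ℕ)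
    (H : Finset (Fin n)) : Finset (Fin n) :=
  (E.acc G s ∩ E.rv G s) ∪ H

def Bad2 (M : ℕ) (η μ0 : ℝ) (l Hm j : ℕ) (ρ : ℝ) (N0 : ℕ) (E : Explorer n) (s : ℕ)
    (G : SimpleGraph (Fin n)) : Prop :=
  Reg M η μ0 l Hm E s G ∧ ∃ H ∈ inds G (E.und G s ∩ E.rv G s),
    N0 ≤ (live G (E.rv G s) (E.known G s H)).card ∧
    ∃ J S : Finset (Fin n), J ⊆ (E.rv G s)ᶜ ∧ J.card = j ∧ Ind G J ∧
      S ⊆ live G (E.rv G s) (E.known G s H) ∧
      ρ * (live G (E.rv G s) (E.known G s H)).card ≤ S.card ∧
      Disjoint J S ∧ ∀ u ∈ J, ∀ v ∈ S, ¬ G.Adj u v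

def Bad3 (M : ℕ) (η μ0 : ℝ) (l Hm N0 κ : ℕ) (E : Explorer n) (s : ℕ)
    (G : SimpleGraph (Fin n)) : Prop :=
  Reg M η μ0 l Hm E s G ∧ ∃ H ∈ inds G (E.und G s ∩ E.rv G s),
    (live G (E.rv G s) (E.known G s H)).card < N0 ∧
    ∃ K ⊆ live G (E.rv G s) (E.known G s H), K.card = κ ∧ Ind G K

/-- number of graphs with `M` edges and the property `B` -/
noncomputable def cnt (n M : ℕ) (B : SimpleGraph (Fin n) → Prop) : ℕ :=
  (univ.filter (fun G : SimpleGraph (Fin n) => G.edgeSet.ncard = M ∧ B G)).card

/-- number of perfect matchings of `k` points -/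
def pm : ℕ → ℕ
  | 0 => 1
  | 1 => 0
  | (k + 2) => (k + 1) * pm k

/-- perfect matchings of the set `X` -/
noncomputable def Mat {α : Type} [Fintype α] (X : Finset α) : Finset (Equiv.Perm α) :=
  univ.filter (fun m => (∀ x, m (m x) = x) ∧ ∀ x, m x ≠ x ↔ x ∈ X)

/-- stubs (half-edges) of a degree sequence -/
abbrev Stub {n : ℕ} (D : Fin n → ℕ) := Σ v : Fin n, Fin (D v)

/-- the graph of a matching of the stubs -/
def gr {n : ℕ} {D : Fin n → ℕ} (m : Equiv.Perm (Stub D)) : SimpleGraph (Fin n) :=
  SimpleGraph.fromRel (fun u v => ∃ x : Stub D, x.1 = u ∧ (m x).1 = v)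

/-- no loops, no multiple edges -/
def Simp {n : ℕ} {D : Fin n → ℕ} (m : Equiv.Perm (Stub D)) : Prop :=
  (∀ x, (m x).1 ≠ x.1) ∧ ∀ x y : Stub D, x.1 = y.1 → (m x).1 = (m y).1 → x = y

/-- the potential -/
noncomputable def Zp (κ : ℝ) (S0 S r : ℕ) : ℝ :=
  if S0 ≤ S then (1 - κ / Real.sqrt ((S : ℝ) - 1)) ^ r else 0

/-- adaptive exploration of a matching -/
structure MStrat (α V : Type) [Fintype α] (o : α → V) where
  v : ℕ → Equiv.Perm α → V
  causal : ∀ s m m', m ∈ Mat (univ : Finset α) → m' ∈ Mat (univ : Finset α) →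
    (∀ x, (∃ i < s, o x = v i m) → m' x = m x) → ∀ i ≤ s, v i m' = v i m

namespace MStrat

variable {α V : Type} [Fintype α] {o : α → V}

noncomputable def R (st : MStrat α V o) (s : ℕ) (m : Equiv.Perm α) : Finset V :=
  (range s).image (fun i => st.v i m)

noncomputable def X (st : MStrat α V o) (s : ℕ) (m : Equiv.Perm α) : Finset α :=
  univ.filter (fun x => o x ∉ st.R s m ∧ o (m x) ∉ st.R s m)

noncomputable def cls (st : MStrat α V o) (s : ℕ) (m0 : Equiv.Perm α) :
    Finset (Equiv.Perm α) :=
  (Mat (univ : Finset α)).filter (fun m => ∀ x, o x ∈ st.R s m0 → m x = m0 x)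

end MStrat

end LKA
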