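import Mathlib

/-!
# LKA-Hyper: moment generating function for sampling without replacement

Plan. Put `f M = ∑ E ∈ powersetCard M Ω, z ^ (E ∩ A).card`, `N = Ω.card`, `a = A.card`. Induction on
`M`; `M = 0`: `f 0 = 1`. Step (`M + 1`): double counting of the pairs `(E, e)`, `e ∉ E`:
`(M+1) f (M+1) = ∑ E ∈ powersetCard M Ω, ∑ e ∈ Ω \ E, z ^ ((insert e E) ∩ A).card`
`= ∑ E, z^x ((N - M) - (1-z)(a - x))` with `x = (E ∩ A).card` (there are `a - x` elements `e` of
`A \ E` and `N - M - (a - x)` other ones). Chebyshev: `∑_E z^x (a - x) ≥ (1/C) (∑_E z^x) (∑_E (a-x))`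
with `C = C(N, M)` the number of `E` (both `z^x` and `a - x` are antitone in `x`; proof:
`∑_E ∑_E' (z^x - z^x') (x' - x) ≥ 0`, or Mathlib's `MonovaryOn.sum_mul_sum_le_card_mul_sum`), and
`∑_E (a - x) = C (a - a M/N) = C a (N-M)/N` (double counting: every element of `Ω` lies in
`C(N-1, M-1) = C M/N` sets `E`). Hence `(M+1) f (M+1) ≤ f M (N-M) (1 - (1-z) a/N)` and
`(M+1) C(N, M+1) = (N-M) C(N, M)`. If `N ≤ M` then `powersetCard (M+1) Ω = ∅`.
-/

open scoped Classical
open Finset

namespace LKA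

private lemma dc {β : Type} (Ω : Finset β) (M : ℕ) (h : Finset β → β → ℝ) :
    ∑ E ∈ Ω.powersetCard (M + 1), ∑ e ∈ E, h E e =
      ∑ E ∈ Ω.powersetCard M, ∑ e ∈ Ω \ E, h (insert e E) e := by
  rw [Finset.sum_sigma', Finset.sum_sigma']
  refine Finset.sum_bij' (fun p _ => ⟨p.1.erase p.2, p.2⟩) (fun p _ => ⟨insert p.2 p.1, p.2⟩)
    ?_ ?_ ?_ ?_ ?_
  · rintro ⟨E, e⟩ hp
    simp only [mem_sigma, mem_powersetCard, mem_sdiff] at hp ⊢
    obtain ⟨⟨h1, h2⟩, h3⟩ := hp
    refine ⟨⟨(erase_subset _ _).trans h1, ?_⟩, h1 h3, notMem_erase _ _⟩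
    rw [card_erase_of_mem h3, h2]; rfl
  · rintro ⟨E, e⟩ hp
    simp only [mem_sigma, mem_powersetCard, mem_sdiff] at hp ⊢
    obtain ⟨⟨h1, h2⟩, h3, h4⟩ := hp
    refine ⟨⟨insert_subset h3 h1, ?_⟩, mem_insert_self _ _⟩
    rw [card_insert_of_notMem h4, h2]
  · rintro ⟨E, e⟩ hp
    simp only [mem_sigma, mem_powersetCard] at hp
    simp only [insert_erase hp.2]
  · rintro ⟨E, e⟩ hp
    simp only [mem_sigma, mem_powersetCard, mem_sdiff] at hp
    simp only [erase_insert hp.2.2]
  · rintro ⟨E, e⟩ hp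
    simp only [mem_sigma, mem_powersetCard] at hp
    simp only [insert_erase hp.2]

private lemma card_diff_real {β : Type} (Ω E : Finset β) (h : E ⊆ Ω) :
    ((Ω \ E).card : ℝ) = Ω.card - E.card := by
  rw [card_sdiff_of_subset h, Nat.cast_sub (card_le_card h)]

private lemma card_A_diff {β : Type} (A E : Finset β) :
    ((A \ E).card : ℝ) = A.card - (E ∩ A).card := by
  have h := card_sdiff_add_card_inter A E
  rw [inter_comm] at h
  have h' : ((A \ E).card : ℝ) + ((E ∩ A).card : ℝ) = A.card := by exact_mod_cast h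
  linarith

private lemma sumx {β : Type} (Ω A : Finset β) (hA : A ⊆ Ω) (M : ℕ) :
    (Ω.card : ℝ) * ∑ E ∈ Ω.powersetCard M, ((E ∩ A).card : ℝ) =
      A.card * M * (Ω.card.choose M : ℝ) := by
  induction M with
  | zero => simp
  | succ M ih =>
    have h1 : ∑ E ∈ Ω.powersetCard (M + 1), ((E ∩ A).card : ℝ) =
        ∑ E ∈ Ω.powersetCard (M + 1), ∑ e ∈ E, (if e ∈ A then (1 : ℝ) else 0) := by
      refine sum_congr rfl fun E _ => ?_
      rw [← sum_filter, sum_const, nsmul_eq_mul, mul_one, filter_mem_eq_inter]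
    have h2 := dc Ω M (fun _ e => if e ∈ A then (1 : ℝ) else 0)
    have h3 : ∀ E ∈ Ω.powersetCard M, ∑ e ∈ Ω \ E, (if e ∈ A then (1 : ℝ) else 0) =
        A.card - ((E ∩ A).card : ℝ) := by
      intro E hE
      rw [← sum_filter, sum_const, nsmul_eq_mul, mul_one, filter_mem_eq_inter, ← card_A_diff]
      congr 2
      ext e
      simp only [mem_inter, mem_sdiff]
      constructor
      · rintro ⟨⟨-, h4⟩, h5⟩; exact ⟨h5, h4⟩
      · rintro ⟨h4, h5⟩; exact ⟨⟨hA h4, h5⟩, h4⟩
    rw [h1, h2, sum_congr rfl h3, sum_sub_distrib, sum_const, card_powersetCard, nsmul_eq_mul,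
      mul_sub, ih]
    have h6 : ((M : ℝ) + 1) * (Ω.card.choose (M + 1) : ℝ) =
        ((Ω.card : ℝ) - M) * (Ω.card.choose M : ℝ) := by
      rcases le_or_gt M Ω.card with h | h
      · have h7 := Nat.choose_succ_right_eq Ω.card M
        have h8 : (Ω.card.choose (M + 1) : ℝ) * ((M : ℝ) + 1) =
            (Ω.card.choose M : ℝ) * ((Ω.card - M : ℕ) : ℝ) := by exact_mod_cast h7
        rw [Nat.cast_sub h] at h8
        linarith
      · rw [Nat.choose_eq_zero_of_lt h, Nat.choose_eq_zero_of_lt (by omega)]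
        simp
    push_cast
    linear_combination (-(A.card : ℝ)) * h6

theorem hyper_mgf {β : Type} (Ω A : Finset β) (hA : A ⊆ Ω) (z : ℝ) (hz0 : 0 ≤ z) (hz1 : z ≤ 1)
    (M : ℕ) :
    ∑ E ∈ Ω.powersetCard M, z ^ (E ∩ A).card ≤
      (Ω.card.choose M : ℝ) * (1 - (1 - z) * A.card / Ω.card) ^ M := by
  have hm : 0 ≤ 1 - (1 - z) * A.card / Ω.card := by
    have h1 : (A.card : ℝ) / Ω.card ≤ 1 := by
      apply div_le_one_of_le₀ _ (by positivity)
      exact_mod_cast card_le_card hA
    have h2 : (1 - z) * A.card / Ω.card ≤ 1 := by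
      rw [mul_div_assoc]
      exact mul_le_one₀ (by linarith) (by positivity) h1
    linarith
  induction M with
  | zero => simp
  | succ M ih =>
    rcases le_or_gt Ω.card M with hM | hM
    · rw [powersetCard_eq_empty.mpr (by omega), sum_empty, Nat.choose_eq_zero_of_lt (by omega)]
      simp
    · have hN : (0 : ℝ) < Ω.card := by exact_mod_cast (by omega : 0 < Ω.card)
      have hC : (0 : ℝ) < (Ω.card.choose M : ℝ) := by exact_mod_cast Nat.choose_pos hM.le
      have h1 : ((M : ℝ) + 1) * ∑ E ∈ Ω.powersetCard (M + 1), z ^ (E ∩ A).card =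
          ∑ E ∈ Ω.powersetCard (M + 1), ∑ e ∈ E, z ^ (E ∩ A).card := by
        rw [mul_sum]
        refine sum_congr rfl fun E hE => ?_
        rw [sum_const, (mem_powersetCard.mp hE).2, nsmul_eq_mul]
        push_cast; ring
      have h2 := dc Ω M (fun E _ => z ^ (E ∩ A).card)
      have h3 : ∀ E ∈ Ω.powersetCard M, ∑ e ∈ Ω \ E, z ^ ((insert e E) ∩ A).card =
          ((Ω.card : ℝ) - M) * z ^ (E ∩ A).card -
            (1 - z) * (z ^ (E ∩ A).card * ((A.card : ℝ) - (E ∩ A).card)) := by
        intro E hE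
        obtain ⟨hE1, hE2⟩ := mem_powersetCard.mp hE
        have h4 : ∀ e ∈ Ω \ E, z ^ ((insert e E) ∩ A).card =
            z ^ (E ∩ A).card - (1 - z) * z ^ (E ∩ A).card * (if e ∈ A then (1 : ℝ) else 0) := by
          intro e he
          have he' : e ∉ E := (mem_sdiff.mp he).2
          by_cases h5 : e ∈ A
          · rw [insert_inter_of_mem h5, card_insert_of_notMem (fun h => he' (mem_inter.mp h).1),
              if_pos h5]
            ring
          · rw [insert_inter_of_notMem h5, if_neg h5]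
            ring
        rw [sum_congr rfl h4, sum_sub_distrib, sum_const, nsmul_eq_mul, card_diff_real Ω E hE1, hE2,
          ← mul_sum, ← sum_filter, sum_const, nsmul_eq_mul, mul_one, filter_mem_eq_inter]
        have h6 : (Ω \ E) ∩ A = A \ E := by
          ext e
          simp only [mem_inter, mem_sdiff]
          constructor
          · rintro ⟨⟨-, h4⟩, h5⟩; exact ⟨h5, h4⟩
          · rintro ⟨h4, h5⟩; exact ⟨⟨hA h4, h5⟩, h4⟩
        rw [h6, card_A_diff]
        ring
      rw [sum_congr rfl h3, sum_sub_distrib, ← mul_sum, ← mul_sum] at h2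
      have hmono : MonovaryOn (fun E : Finset β => z ^ (E ∩ A).card)
          (fun E : Finset β => (A.card : ℝ) - (E ∩ A).card)
          ((Ω.powersetCard M : Finset (Finset β)) : Set (Finset β)) := by
        intro E _ E' _ hlt
        have h7 : ((E' ∩ A).card : ℝ) < (E ∩ A).card := by linarith
        have h8 : (E' ∩ A).card ≤ (E ∩ A).card := by exact_mod_cast h7.le
        exact pow_le_pow_of_le_one hz0 hz1 h8
      have hch := hmono.sum_mul_sum_le_card_mul_sum
      rw [card_powersetCard, sum_sub_distrib, sum_const, card_powersetCard, nsmul_eq_mul] at hch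
      have hsx := sumx Ω A hA M
      set f := ∑ E ∈ Ω.powersetCard M, z ^ (E ∩ A).card with hf
      set S := ∑ E ∈ Ω.powersetCard M, ((E ∩ A).card : ℝ) with hS
      set T := ∑ E ∈ Ω.powersetCard M, z ^ (E ∩ A).card * ((A.card : ℝ) - (E ∩ A).card) with hT
      set C := (Ω.card.choose M : ℝ) with hCdef
      have hf0 : 0 ≤ f := sum_nonneg fun E _ => pow_nonneg hz0 _
      have h9 : S = A.card * M * C / Ω.card := by
        rw [eq_div_iff hN.ne']; linarith
      have h10 : f * (A.card * (Ω.card - M) / Ω.card) ≤ T := by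
        have h11 : C * A.card - S = C * (A.card * (Ω.card - M) / Ω.card) := by
          rw [h9]; field_simp
        rw [h11] at hch
        have h12 : C * (f * (A.card * (Ω.card - M) / Ω.card)) ≤ C * T := by linarith
        exact le_of_mul_le_mul_left h12 hC
      have h13 : ((M : ℝ) + 1) * ∑ E ∈ Ω.powersetCard (M + 1), z ^ (E ∩ A).card ≤
          ((Ω.card : ℝ) - M) * (f * (1 - (1 - z) * A.card / Ω.card)) := by
        rw [h1, h2]
        have h14 := mul_le_mul_of_nonneg_left h10 (by linarith : 0 ≤ 1 - z)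
        have h15 : ((Ω.card : ℝ) - M) * (f * (1 - (1 - z) * A.card / Ω.card)) =
            ((Ω.card : ℝ) - M) * f - (1 - z) * (f * (A.card * (Ω.card - M) / Ω.card)) := by
          field_simp
        rw [h15]
        linarith
      have h16 : ((M : ℝ) + 1) * (Ω.card.choose (M + 1) : ℝ) = ((Ω.card : ℝ) - M) * C := by
        have h7 := Nat.choose_succ_right_eq Ω.card M
        have h8 : (Ω.card.choose (M + 1) : ℝ) * ((M : ℝ) + 1) =
            (Ω.card.choose M : ℝ) * ((Ω.card - M : ℕ) : ℝ) := by exact_mod_cast h7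
        rw [Nat.cast_sub hM.le] at h8
        rw [hCdef]; linarith
      have hNM : (0 : ℝ) < (Ω.card : ℝ) - M := by
        have : (M : ℝ) < Ω.card := by exact_mod_cast hM
        linarith
      have h17 : f * (1 - (1 - z) * A.card / Ω.card) ≤
          C * (1 - (1 - z) * A.card / Ω.card) ^ M * (1 - (1 - z) * A.card / Ω.card) :=
        mul_le_mul_of_nonneg_right ih hm
      have h18 : ((M : ℝ) + 1) * ∑ E ∈ Ω.powersetCard (M + 1), z ^ (E ∩ A).card ≤
          ((M : ℝ) + 1) * ((Ω.card.choose (M + 1) : ℝ) *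
            (1 - (1 - z) * A.card / Ω.card) ^ (M + 1)) := by
        calc _ ≤ ((Ω.card : ℝ) - M) * (f * (1 - (1 - z) * A.card / Ω.card)) := h13
          _ ≤ ((Ω.card : ℝ) - M) * (C * (1 - (1 - z) * A.card / Ω.card) ^ M *
              (1 - (1 - z) * A.card / Ω.card)) := mul_le_mul_of_nonneg_left h17 hNM.le
          _ = (((M : ℝ) + 1) * (Ω.card.choose (M + 1) : ℝ)) *
              (1 - (1 - z) * A.card / Ω.card) ^ (M + 1) := by rw [h16]; ring
          _ = _ := by ring
      exact le_of_mul_le_mul_left h18 (by positivity)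

end LKA
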