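import Pool.Agent.LKA.EdgeSets
import Pool.Agent.LKA.Hyper

/-!
# LKA-Dens: every large set of vertices has the right density

Plan. Let `M ≥ 1`, `n ≥ 2` (otherwise trivial: if `M = 0` then `β = 0` and the event is impossible;
if `n ≤ 1` then `M ≥ 1` is impossible or no ...). Put `z = 1 - γ`, `β = (1 - 3γ) 2M/n²`. If the event
holds for `G` with the set `P`, `s = P.card ≥ R0`, then
`2 e(P) = ∑_{v ∈ P} (number of neighbours of v in P) < β s²`. For a fixed set `P`, with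
`A` = the pairs inside `P` (`A.card = s(s-1)/2`), `Ω = ⊤.edgeFinset` (`n(n-1)/2` elements):
the number of edge sets `E` with `M` elements and `(E ∩ A).card < β s²/2` is at most
`z^(-β s²/2) ∑_E z^((E ∩ A).card) ≤ z^(-β s²/2) C(N,M) (1 - γ s(s-1)/(n(n-1)))^M` (`hyper_mgf`)
`≤ C(N,M) exp ((γ + γ²) β s²/2 - γ M s(s-1)/n²)` (`-log (1-γ) ≤ γ + γ²` for `γ ≤ 1/2`,
`1 - x ≤ exp (-x)`), and
`(γ+γ²)(1-3γ) M s²/n² - γ M s²/n² + γ M s/n² ≤ (M/n²)(-2γ² s² + γ s) ≤ - γ² M s²/n²` as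
`s ≥ R0 ≥ 1/γ`. Sum over `P` (`C(n, s)` sets of size `s`) and over `s ∈ Icc R0 n`.
-/

open scoped Classical
open Finset

namespace LKA

private def restr {n : ℕ} (G : SimpleGraph (Fin n)) (P : Finset (Fin n)) :
    SimpleGraph (Fin n) where
  Adj u v := G.Adj u v ∧ u ∈ P ∧ v ∈ P
  symm := ⟨fun _ _ h => ⟨h.1.symm, h.2.2, h.2.1⟩⟩
  loopless := ⟨fun _ h => h.1.ne rfl⟩

/-- the pairs inside `P` -/
private noncomputable def ins {n : ℕ} (P : Finset (Fin n)) : Finset (Sym2 (Fin n)) :=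
  (⊤ : SimpleGraph (Fin n)).edgeFinset.filter (fun e => ∀ v ∈ e, v ∈ P)

private lemma hs {n : ℕ} (G : SimpleGraph (Fin n)) (P : Finset (Fin n)) :
    ∑ v ∈ P, (P.filter (fun w => G.Adj v w)).card = 2 * (G.edgeFinset ∩ ins P).card := by
  have h1 := (restr G P).sum_degrees_eq_twice_card_edges
  have h2 : (restr G P).edgeFinset = G.edgeFinset ∩ ins P := by
    ext e
    induction e using Sym2.ind with
    | _ u v =>
      simp only [SimpleGraph.mem_edgeFinset, SimpleGraph.mem_edgeSet, mem_inter, ins, mem_filter,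
        SimpleGraph.top_adj, Sym2.mem_iff, forall_eq_or_imp, forall_eq]
      exact ⟨fun h => ⟨h.1, h.1.ne, h.2⟩, fun h => ⟨h.1, h.2.2⟩⟩
  rw [← h2, ← h1, ← Finset.sum_subset (Finset.subset_univ P)]
  · refine Finset.sum_congr rfl fun v hv => ?_
    rw [← SimpleGraph.card_neighborFinset_eq_degree]
    congr 1
    ext w
    simp only [mem_filter, SimpleGraph.mem_neighborFinset, restr]
    exact ⟨fun h => ⟨h.2, hv, h.1⟩, fun h => ⟨h.2.2, h.1⟩⟩
  · intro v _ hv
    rw [← SimpleGraph.card_neighborFinset_eq_degree, Finset.card_eq_zero]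
    ext w
    simp only [SimpleGraph.mem_neighborFinset, restr, Finset.notMem_empty, iff_false]
    exact fun h => hv h.2.1

private lemma card_ins_aux {n : ℕ} (G : SimpleGraph (Fin n)) (hG : ∀ u v, G.Adj u v ↔ u ≠ v)
    (P : Finset (Fin n)) : 2 * (ins P).card = P.card * (P.card - 1) := by
  have h := hs G P
  have key : G.edgeFinset ∩ ins P = ins P := by
    refine Finset.inter_eq_right.2 fun e he => ?_
    have h1 := (Finset.mem_filter.1 he).1
    rw [SimpleGraph.mem_edgeFinset] at h1 ⊢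
    induction e using Sym2.ind with
    | _ u v =>
      rw [SimpleGraph.mem_edgeSet] at h1 ⊢
      exact (hG u v).2 h1
  rw [key] at h
  rw [← h]
  have h3 : ∀ v ∈ P, (P.filter (fun w => G.Adj v w)).card = P.card - 1 := by
    intro v hv
    have : P.filter (fun w => G.Adj v w) = P.erase v := by
      ext w
      simp only [mem_filter, hG, mem_erase]
      exact ⟨fun h => ⟨h.2.symm, h.1⟩, fun h => ⟨h.2, h.1.symm⟩⟩
    rw [this, Finset.card_erase_of_mem hv]
  rw [Finset.sum_congr rfl h3, Finset.sum_const, smul_eq_mul]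

private lemma card_ins {n : ℕ} (P : Finset (Fin n)) : 2 * (ins P).card = P.card * (P.card - 1) :=
  card_ins_aux ⊤ (fun _ _ => Iff.rfl) P

private lemma per_set (n M : ℕ) (γ : ℝ) (hγ : 0 < γ) (hγ1 : γ ≤ 1 / 4) (P : Finset (Fin n))
    (hP : 1 ≤ γ * P.card) :
    (cnt n M (fun G => 2 * ((G.edgeFinset ∩ ins P).card : ℝ) <
      (1 - 3 * γ) * (2 * M / (n : ℝ) ^ 2) * (P.card : ℝ) ^ 2) : ℝ) ≤
      Real.exp (-(γ ^ 2 * M * (P.card : ℝ) ^ 2 / (n : ℝ) ^ 2)) * cnt n M (fun _ => True) := by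
  set s : ℝ := (P.card : ℝ) with hs'
  set Ω := (⊤ : SimpleGraph (Fin n)).edgeFinset with hΩ
  set t : ℝ := (1 - 3 * γ) * (2 * M / (n : ℝ) ^ 2) * s ^ 2 with ht
  have hs4 : 4 ≤ s := by
    by_contra hcon
    push Not at hcon
    nlinarith
  have hsn : s ≤ n := by
    have := Finset.card_le_univ P
    rw [Fintype.card_fin] at this
    rw [hs']
    exact_mod_cast this
  have hn4 : (4 : ℝ) ≤ n := hs4.trans hsn
  have hn0 : (0 : ℝ) < n := by linarith
  have e1 := cnt_edge n M (fun E => 2 * ((E ∩ ins P).card : ℝ) < t)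
  have eΩ : Ω.card = n.choose 2 := by
    rw [hΩ, SimpleGraph.card_edgeFinset_top_eq_card_choose_two, Fintype.card_fin]
  have e2 : (cnt n M (fun _ => True) : ℝ) = (Ω.card.choose M : ℝ) := by
    rw [cnt_true, eΩ]
  rw [e1, e2]
  have hz : 0 < 1 - γ := by linarith
  have hz1 : 1 - γ ≤ 1 := by linarith
  have hm : ∑ E ∈ Ω.powersetCard M, (1 - γ) ^ (E ∩ ins P).card ≤
      (Ω.card.choose M : ℝ) * (1 - (1 - (1 - γ)) * (ins P).card / Ω.card) ^ M := by
    have hm' := hyper_mgf Ω (ins P) (Finset.filter_subset _ _) (1 - γ) hz.le hz1 M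
    refine le_trans (le_of_eq (Finset.sum_congr rfl fun E _ => ?_)) hm'
    congr 2
    ext e
    simp only [Finset.mem_inter]
  -- Markov
  have h1 : ((1 - γ) ^ (t / 2) : ℝ) *
      (((Ω.powersetCard M).filter (fun E => 2 * ((E ∩ ins P).card : ℝ) < t)).card : ℝ) ≤
      ∑ E ∈ Ω.powersetCard M, (1 - γ) ^ (E ∩ ins P).card := by
    calc _ = ∑ E ∈ (Ω.powersetCard M).filter (fun E => 2 * ((E ∩ ins P).card : ℝ) < t),
          ((1 - γ) ^ (t / 2) : ℝ) := by
          rw [Finset.sum_const, nsmul_eq_mul, mul_comm]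
      _ ≤ ∑ E ∈ (Ω.powersetCard M).filter (fun E => 2 * ((E ∩ ins P).card : ℝ) < t),
          (1 - γ) ^ (E ∩ ins P).card := by
          refine Finset.sum_le_sum fun E hE => ?_
          have h2 := (Finset.mem_filter.1 hE).2
          rw [← Real.rpow_natCast]
          exact Real.rpow_le_rpow_of_exponent_ge hz hz1 (by linarith)
      _ ≤ _ := Finset.sum_le_sum_of_subset_of_nonneg (Finset.filter_subset _ _)
          fun E _ _ => pow_nonneg hz.le _
  -- the two exponential estimates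
  have hC : (0 : ℝ) ≤ (Ω.card.choose M : ℝ) := Nat.cast_nonneg _
  have ht0 : 0 ≤ t := by
    have : 0 ≤ 1 - 3 * γ := by linarith
    positivity
  have h3 : Real.exp (-(γ * (1 - 2 * γ) * M * s ^ 2 / (n : ℝ) ^ 2)) ≤ (1 - γ) ^ (t / 2) := by
    rw [Real.rpow_def_of_pos hz]
    refine Real.exp_le_exp.2 ?_
    have hl := Real.one_sub_inv_le_log_of_pos hz
    have h4 : (1 - (1 - γ)⁻¹) * (t / 2) ≤ Real.log (1 - γ) * (t / 2) :=
      mul_le_mul_of_nonneg_right hl (by linarith)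
    refine le_trans ?_ h4
    have h5 : 1 - (1 - γ)⁻¹ = -(γ / (1 - γ)) := by field_simp; ring
    have h6 : t / 2 = (1 - 3 * γ) * (M * s ^ 2 / (n : ℝ) ^ 2) := by rw [ht]; ring
    have h7 : 0 ≤ M * s ^ 2 / (n : ℝ) ^ 2 := by positivity
    rw [h5, h6]
    have h8 : γ / (1 - γ) * (1 - 3 * γ) ≤ γ * (1 - 2 * γ) := by
      rw [div_mul_eq_mul_div, div_le_iff₀ hz]
      nlinarith [mul_pos hγ hγ, mul_pos (mul_pos hγ hγ) hγ]
    have h9 := mul_le_mul_of_nonneg_right h8 h7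
    calc -(γ * (1 - 2 * γ) * M * s ^ 2 / (n : ℝ) ^ 2) =
        -(γ * (1 - 2 * γ) * (M * s ^ 2 / (n : ℝ) ^ 2)) := by ring
      _ ≤ -(γ / (1 - γ) * (1 - 3 * γ) * (M * s ^ 2 / (n : ℝ) ^ 2)) := neg_le_neg h9
      _ = _ := by ring
  have hN : (Ω.card : ℝ) = n * (n - 1) / 2 := by
    rw [eΩ, Nat.cast_choose_two]
  have hA : ((ins P).card : ℝ) = s * (s - 1) / 2 := by
    have h := card_ins P
    have hc : 1 ≤ P.card := by
      have : (1 : ℝ) ≤ P.card := by rw [← hs']; linarith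
      exact_mod_cast this
    have h' : (2 * (ins P).card : ℝ) = P.card * ((P.card : ℝ) - 1) := by
      have h2 : ((2 * (ins P).card : ℕ) : ℝ) = ((P.card * (P.card - 1) : ℕ) : ℝ) := by rw [h]
      push_cast [Nat.cast_sub hc] at h2
      exact h2
    rw [← hs'] at h'
    linarith
  have hrat : s * (s - 1) / (n : ℝ) ^ 2 ≤ ((ins P).card : ℝ) / Ω.card := by
    rw [hN, hA]
    rw [div_le_div_iff₀ (by positivity) (by nlinarith)]
    nlinarith [mul_nonneg (mul_nonneg (by linarith : (0:ℝ) ≤ s) (by linarith : (0:ℝ) ≤ s - 1)) hn0.le]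
  have hrat1 : ((ins P).card : ℝ) / Ω.card ≤ 1 := by
    rw [hN, hA, div_le_one (by nlinarith)]
    nlinarith
  have hr0 : 0 ≤ ((ins P).card : ℝ) / Ω.card := by positivity
  have h10 : (1 - (1 - (1 - γ)) * ((ins P).card : ℝ) / Ω.card) ^ M ≤
      Real.exp (-(γ * M * (s * (s - 1)) / (n : ℝ) ^ 2)) := by
    have h11 : (1 - (1 - (1 - γ)) * ((ins P).card : ℝ) / Ω.card) =
        1 - γ * (((ins P).card : ℝ) / Ω.card) := by ring
    rw [h11]
    have h12 : 0 ≤ 1 - γ * (((ins P).card : ℝ) / Ω.card) := by nlinarith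
    have h13 : 1 - γ * (((ins P).card : ℝ) / Ω.card) ≤
        Real.exp (-(γ * (s * (s - 1) / (n : ℝ) ^ 2))) := by
      refine le_trans ?_ (Real.add_one_le_exp _)
      have := mul_le_mul_of_nonneg_left hrat hγ.le
      linarith
    refine (pow_le_pow_left₀ h12 h13 M).trans (le_of_eq ?_)
    rw [← Real.exp_nat_mul]
    congr 1
    ring
  have h14 : Real.exp (-(γ * (1 - 2 * γ) * M * s ^ 2 / (n : ℝ) ^ 2)) *
      (((Ω.powersetCard M).filter (fun E => 2 * ((E ∩ ins P).card : ℝ) < t)).card : ℝ) ≤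
      (Ω.card.choose M : ℝ) * Real.exp (-(γ * M * (s * (s - 1)) / (n : ℝ) ^ 2)) :=
    (mul_le_mul_of_nonneg_right h3 (Nat.cast_nonneg _)).trans (h1.trans (hm.trans
      (mul_le_mul_of_nonneg_left h10 hC)))
  have h15 : (((Ω.powersetCard M).filter (fun E => 2 * ((E ∩ ins P).card : ℝ) < t)).card : ℝ) =
      Real.exp (γ * (1 - 2 * γ) * M * s ^ 2 / (n : ℝ) ^ 2) *
      (Real.exp (-(γ * (1 - 2 * γ) * M * s ^ 2 / (n : ℝ) ^ 2)) *
      (((Ω.powersetCard M).filter (fun E => 2 * ((E ∩ ins P).card : ℝ) < t)).card : ℝ)) := by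
    rw [← mul_assoc, ← Real.exp_add, add_neg_cancel, Real.exp_zero, one_mul]
  rw [h15]
  refine (mul_le_mul_of_nonneg_left h14 (Real.exp_pos _).le).trans ?_
  rw [mul_comm (Ω.card.choose M : ℝ), ← mul_assoc, ← Real.exp_add]
  refine mul_le_mul_of_nonneg_right (Real.exp_le_exp.2 ?_) hC
  have h16 : 0 ≤ (M : ℝ) / (n : ℝ) ^ 2 := by positivity
  have h17 : γ * s ≤ γ ^ 2 * s ^ 2 := by
    have : γ * s * 1 ≤ γ * s * (γ * s) := mul_le_mul_of_nonneg_left hP (mul_nonneg hγ.le (by linarith))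
    nlinarith
  have h18 := mul_le_mul_of_nonneg_left h17 h16
  have h19 : γ * (1 - 2 * γ) * M * s ^ 2 / (n : ℝ) ^ 2 + -(γ * M * (s * (s - 1)) / (n : ℝ) ^ 2) =
      (M : ℝ) / (n : ℝ) ^ 2 * (γ * s) - 2 * ((M : ℝ) / (n : ℝ) ^ 2 * (γ ^ 2 * s ^ 2)) := by ring
  have h20 : -(γ ^ 2 * M * s ^ 2 / (n : ℝ) ^ 2) = - ((M : ℝ) / (n : ℝ) ^ 2 * (γ ^ 2 * s ^ 2)) := by
    ring
  rw [h19, h20]
  linarith

theorem dens_count (n M R0 : ℕ) (γ : ℝ) (hγ : 0 < γ) (hγ1 : γ ≤ 1 / 4) (hn : 0 < n)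
    (hR : 1 / γ ≤ R0) :
    (cnt n M (fun G => ∃ P : Finset (Fin n), R0 ≤ P.card ∧ ∀ v ∈ P,
        ((P.filter (fun w => G.Adj v w)).card : ℝ) < (1 - 3 * γ) * (2 * M / (n : ℝ) ^ 2) *
          P.card) : ℝ) ≤
      (∑ s ∈ Icc R0 n, (n.choose s : ℝ) * Real.exp (-(γ ^ 2 * M * (s : ℝ) ^ 2 / (n : ℝ) ^ 2))) *
        cnt n M (fun _ => True) := by
  set β : ℝ := (1 - 3 * γ) * (2 * M / (n : ℝ) ^ 2) with hβ
  have hβ0 : 0 ≤ β := by
    have : 0 ≤ 1 - 3 * γ := by linarith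
    positivity
  have hcard : ∀ P : Finset (Fin n), R0 ≤ P.card → 1 ≤ γ * P.card := by
    intro P hP
    have h1 : (R0 : ℝ) ≤ P.card := by exact_mod_cast hP
    have h2 : 1 / γ ≤ P.card := hR.trans h1
    rw [div_le_iff₀ hγ] at h2
    linarith
  -- the event is contained in a union
  have hsub : (cnt n M (fun G => ∃ P : Finset (Fin n), R0 ≤ P.card ∧ ∀ v ∈ P,
      ((P.filter (fun w => G.Adj v w)).card : ℝ) < β * P.card) : ℝ) ≤
      ∑ P ∈ (univ : Finset (Finset (Fin n))).filter (fun P => R0 ≤ P.card),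
        (cnt n M (fun G => 2 * ((G.edgeFinset ∩ ins P).card : ℝ) < β * (P.card : ℝ) ^ 2) : ℝ) := by
    rw [← Nat.cast_sum, Nat.cast_le]
    refine le_trans (Finset.card_le_card ?_) Finset.card_biUnion_le
    intro G hG
    simp only [mem_filter, mem_univ, true_and] at hG
    obtain ⟨hM, P, hP, hP2⟩ := hG
    simp only [mem_biUnion, mem_filter, mem_univ, true_and]
    refine ⟨P, hP, hM, ?_⟩
    have h1 : (2 * ((G.edgeFinset ∩ ins P).card : ℝ)) =
        ∑ v ∈ P, ((P.filter (fun w => G.Adj v w)).card : ℝ) := by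
      have := hs G P
      rw [← Nat.cast_sum, this]
      push_cast
      ring
    rw [h1]
    have hne : P.Nonempty := by
      rw [Finset.nonempty_iff_ne_empty]
      rintro rfl
      have := hcard ∅ hP
      simp at this
      linarith
    calc _ < ∑ v ∈ P, β * (P.card : ℝ) := Finset.sum_lt_sum_of_nonempty hne hP2
      _ = β * (P.card : ℝ) ^ 2 := by
        rw [Finset.sum_const, nsmul_eq_mul]; ring
  refine hsub.trans ?_
  have hper : ∑ P ∈ (univ : Finset (Finset (Fin n))).filter (fun P => R0 ≤ P.card),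
      (cnt n M (fun G => 2 * ((G.edgeFinset ∩ ins P).card : ℝ) < β * (P.card : ℝ) ^ 2) : ℝ) ≤
      ∑ P ∈ (univ : Finset (Finset (Fin n))).filter (fun P => R0 ≤ P.card),
        Real.exp (-(γ ^ 2 * M * (P.card : ℝ) ^ 2 / (n : ℝ) ^ 2)) * cnt n M (fun _ => True) :=
    Finset.sum_le_sum fun P hP => per_set n M γ hγ hγ1 P (hcard P (mem_filter.1 hP).2)
  refine hper.trans (le_of_eq ?_)
  rw [← Finset.sum_mul]
  congr 1
  rw [Finset.sum_filter, ← Finset.powerset_univ, Finset.sum_powerset_apply_card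
    (fun s : ℕ => if R0 ≤ s then Real.exp (-(γ ^ 2 * M * (s : ℝ) ^ 2 / (n : ℝ) ^ 2)) else 0)]
  rw [Finset.card_univ, Fintype.card_fin]
  have hIcc : Icc R0 n = (range (n + 1)).filter (fun s => R0 ≤ s) := by
    ext s
    simp only [mem_Icc, mem_filter, mem_range]
    omega
  rw [hIcc, Finset.sum_filter]
  refine Finset.sum_congr rfl fun s _ => ?_
  split_ifs <;> simp

end LKA
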