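import Pool.Agent.LKA.Defs

/-!
# LKA-EdgeSets: graphs with `M` edges as sets of edges; the total number

Plan. `cnt_edge`: `G ↦ G.edgeFinset` is a bijection from the graphs with `M` edges to
`powersetCard M (⊤ : SimpleGraph (Fin n)).edgeFinset`; the inverse is `s ↦ SimpleGraph.fromEdgeSet s`
(`SimpleGraph.edgeSet_fromEdgeSet`, elements of `⊤.edgeFinset` are not diagonal).
`cnt_true`: the number of subsets, `SimpleGraph.card_edgeFinset_top_eq_card_choose_two`.
`total_ge`: with `N = n(n-1)/2 = n.choose 2`: `M! * C(N, M) = ∏_{i<M} (N - i)` (`Nat.descFactorial`),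
so `2^M * M! * C(N,M) = ∏_{i<M} (n(n-1) - 2i)`, each factor is
`≥ n^2 (1 - 1/n - 2M/n^2) ≥ n^2 exp (-2 (1/n + 2M/n^2))` because `1 - x ≥ exp (-2x)` for
`0 ≤ x ≤ 1/2`. (All factors are positive, so `M ≤ N` is automatic.)
-/

open scoped Classical
open Finset

namespace LKA

private theorem edgeSet_of (n : ℕ) (s : Finset (Sym2 (Fin n)))
    (hs : s ⊆ (⊤ : SimpleGraph (Fin n)).edgeFinset) :
    (SimpleGraph.fromEdgeSet (s : Set (Sym2 (Fin n)))).edgeSet = (s : Set (Sym2 (Fin n))) := by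
  rw [SimpleGraph.edgeSet_fromEdgeSet]
  ext e
  constructor
  · intro h
    exact h.1
  · intro h
    refine ⟨h, ?_⟩
    have h2 : e ∈ (⊤ : SimpleGraph (Fin n)).edgeSet := by
      have := hs (Finset.mem_coe.1 h)
      simpa using this
    exact SimpleGraph.not_isDiag_of_mem_edgeSet _ h2

private theorem edgeFinset_of (n : ℕ) (s : Finset (Sym2 (Fin n)))
    (hs : s ⊆ (⊤ : SimpleGraph (Fin n)).edgeFinset)
    (I : Fintype (SimpleGraph.fromEdgeSet (s : Set (Sym2 (Fin n)))).edgeSet) :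
    @SimpleGraph.edgeFinset (Fin n) (SimpleGraph.fromEdgeSet (s : Set (Sym2 (Fin n)))) I = s := by
  apply Finset.coe_injective
  rw [SimpleGraph.coe_edgeFinset, edgeSet_of n s hs]

private theorem ncard_edge (n : ℕ) (G : SimpleGraph (Fin n)) [Fintype G.edgeSet] :
    G.edgeSet.ncard = G.edgeFinset.card := by
  rw [← SimpleGraph.coe_edgeFinset, Set.ncard_coe_finset]

theorem cnt_edge (n M : ℕ) (B : Finset (Sym2 (Fin n)) → Prop) :
    cnt n M (fun G => B G.edgeFinset) =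
      (((⊤ : SimpleGraph (Fin n)).edgeFinset.powersetCard M).filter B).card := by
  unfold cnt
  refine Finset.card_bij' (fun G _ => G.edgeFinset)
    (fun s _ => SimpleGraph.fromEdgeSet (s : Set (Sym2 (Fin n)))) ?_ ?_ ?_ ?_
  · intro G hG
    have h := (Finset.mem_filter.1 hG).2
    refine Finset.mem_filter.2 ⟨Finset.mem_powersetCard.2 ⟨?_, ?_⟩, h.2⟩
    · exact SimpleGraph.edgeFinset_mono le_top
    · rw [← ncard_edge]
      exact h.1
  · intro s hs
    have h := Finset.mem_filter.1 hs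
    have h1 := Finset.mem_powersetCard.1 h.1
    refine Finset.mem_filter.2 ⟨Finset.mem_univ _, ?_, ?_⟩
    · rw [ncard_edge, edgeFinset_of n s h1.1 _]
      exact h1.2
    · beta_reduce
      rw [edgeFinset_of n s h1.1 _]
      exact h.2
  · intro G hG
    simp only [SimpleGraph.coe_edgeFinset, SimpleGraph.fromEdgeSet_edgeSet]
  · intro s hs
    have h := Finset.mem_filter.1 hs
    have h1 := Finset.mem_powersetCard.1 h.1
    exact edgeFinset_of n s h1.1 _

theorem cnt_true (n M : ℕ) : cnt n M (fun _ => True) = (n.choose 2).choose M := by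
  refine (cnt_edge n M (fun _ => True)).trans ?_
  have h : (((⊤ : SimpleGraph (Fin n)).edgeFinset.powersetCard M)).card =
      (n.choose 2).choose M := by
    rw [Finset.card_powersetCard, SimpleGraph.card_edgeFinset_top_eq_card_choose_two,
      Fintype.card_fin]
  rw [← h]
  congr 1
  ext s
  simp only [Finset.mem_filter, and_true]

private theorem exp_le (x : ℝ) (h0 : 0 ≤ x) (h : x ≤ 1 / 2) :
    Real.exp (-(2 * x)) ≤ 1 - x := by
  have h1 : 1 + 2 * x + (2 * x) ^ 2 / 2 ≤ Real.exp (2 * x) :=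
    Real.quadratic_le_exp_of_nonneg (by linarith)
  rw [Real.exp_neg]
  have h2 : 0 < 1 + 2 * x + (2 * x) ^ 2 / 2 := by positivity
  have h3 : (Real.exp (2 * x))⁻¹ ≤ (1 + 2 * x + (2 * x) ^ 2 / 2)⁻¹ :=
    inv_anti₀ h2 h1
  refine h3.trans ?_
  rw [inv_le_iff_one_le_mul₀ h2]
  nlinarith [mul_nonneg h0 h0, mul_nonneg (mul_nonneg h0 h0) h0, mul_nonneg h0 (sub_nonneg.2 h)]

theorem total_ge (n M : ℕ) (hn : 0 < n) (h : 1 / (n : ℝ) + 2 * M / (n : ℝ) ^ 2 ≤ 1 / 2) :
    (n : ℝ) ^ (2 * M) ≤ Real.exp (2 * M / n + 4 * (M : ℝ) ^ 2 / (n : ℝ) ^ 2) *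
      (2 ^ M * M.factorial) * cnt n M (fun _ => True) := by
  have hn' : (0 : ℝ) < n := by exact_mod_cast hn
  have hn2 : (0 : ℝ) < (n : ℝ) ^ 2 := by positivity
  set x : ℝ := 1 / (n : ℝ) + 2 * M / (n : ℝ) ^ 2 with hx
  have hx0 : 0 ≤ x := by positivity
  have hN : ((n.choose 2 : ℕ) : ℝ) = (n : ℝ) * (n - 1) / 2 := by
    rw [Nat.cast_choose_two]
  -- bound of one factor
  have hfac : ∀ i ∈ Finset.range M,
      (n : ℝ) ^ 2 * Real.exp (-(2 * x)) ≤ 2 * (((n.choose 2 : ℕ) : ℝ) - i) := by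
    intro i hi
    have hi' : (i : ℝ) ≤ M := by
      exact_mod_cast (Finset.mem_range.1 hi).le
    have h1 : (n : ℝ) ^ 2 * (1 - x) = (n : ℝ) * (n - 1) - 2 * M := by
      rw [hx]
      field_simp
      ring
    have h2 : (n : ℝ) ^ 2 * (1 - x) ≤ 2 * (((n.choose 2 : ℕ) : ℝ) - i) := by
      rw [h1, hN]
      linarith
    have h3 : Real.exp (-(2 * x)) ≤ 1 - x := by
      exact exp_le x hx0 h
    exact (mul_le_mul_of_nonneg_left h3 hn2.le).trans h2
  have hprod : ((n : ℝ) ^ 2 * Real.exp (-(2 * x))) ^ M ≤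
      ∏ i ∈ Finset.range M, (2 * (((n.choose 2 : ℕ) : ℝ) - i)) := by
    have := Finset.prod_le_prod (s := Finset.range M)
      (f := fun _ : ℕ => (n : ℝ) ^ 2 * Real.exp (-(2 * x)))
      (g := fun i : ℕ => 2 * (((n.choose 2 : ℕ) : ℝ) - i))
      (fun i _ => by positivity) hfac
    rwa [Finset.prod_const, Finset.card_range] at this
  -- `M ≤ N`
  have hMN : ∀ i ∈ Finset.range M, i ≤ n.choose 2 := by
    intro i hi
    have h1 := hfac i hi
    have h2 : 0 < (n : ℝ) ^ 2 * Real.exp (-(2 * x)) := by positivity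
    have h3 : (i : ℝ) < ((n.choose 2 : ℕ) : ℝ) := by linarith
    exact_mod_cast h3.le
  have hdesc : ∏ i ∈ Finset.range M, (((n.choose 2 : ℕ) : ℝ) - i) =
      ((M.factorial * (n.choose 2).choose M : ℕ) : ℝ) := by
    rw [← Nat.descFactorial_eq_factorial_mul_choose, Nat.descFactorial_eq_prod_range,
      Nat.cast_prod]
    refine Finset.prod_congr rfl ?_
    intro i hi
    rw [Nat.cast_sub (hMN i hi)]
  rw [Finset.prod_mul_distrib, Finset.prod_const, Finset.card_range, hdesc] at hprod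
  rw [cnt_true]
  have hexp : Real.exp (2 * M / n + 4 * (M : ℝ) ^ 2 / (n : ℝ) ^ 2) * Real.exp (-(2 * x)) ^ M = 1 := by
    rw [← Real.exp_nat_mul, ← Real.exp_add, Real.exp_eq_one_iff, hx]
    field_simp
    ring
  have e1 : (n : ℝ) ^ (2 * M) = Real.exp (2 * M / n + 4 * (M : ℝ) ^ 2 / (n : ℝ) ^ 2) *
      ((n : ℝ) ^ 2 * Real.exp (-(2 * x))) ^ M := by
    rw [mul_pow, ← pow_mul]
    calc (n : ℝ) ^ (2 * M) = (n : ℝ) ^ (2 * M) * 1 := by ring
      _ = _ := by rw [← hexp]; ring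
  rw [e1]
  have h5 := mul_le_mul_of_nonneg_left hprod
    (Real.exp_pos (2 * M / n + 4 * (M : ℝ) ^ 2 / (n : ℝ) ^ 2)).le
  refine h5.trans (le_of_eq ?_)
  push_cast
  ring

end LKA
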