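import Pool.Agent.LKA.Gr
import Pool.Agent.LKA.Cls

/-!
# LKA-Ext: an explorer gives an adaptive exploration of matchings

Plan. `E.next (gr m) i` is only causal on simple matchings, so define by strong recursion on `i`
(for fixed `E`): `v i m = ` if `i < n` and there is `m0 ∈ Mat univ` with `Simp m0`,
`∀ k < i, E.next (gr m0) k = v k m` and `∀ x, (∃ k < i, x.1 = v k m) → m0 x = m x`, then
`E.next (gr m0) i` for the chosen (`Classical.choose`) such `m0`, and otherwise the fixed vertex
`⟨0, hn⟩`.
Causality (by induction on `i ≤ s`): if `m'` agrees with `m` on the stubs at `v k m`, `k < s`, then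
`v k m' = v k m` for `k < i` makes the two existence statements (as predicates of `m0`) equal,
so the chosen `m0` are equal (rewrite the predicates: `funext`/`propext`) and `v i m' = v i m`.
Agreement: for `m ∈ Mat univ`, `Simp m`, `i < n`, by strong induction on `i`: `m` itself is a
witness, so the chosen `m0` exists; `SameInfo E.next i (gr m0) (gr m)` holds: degrees are `D`
(`deg_gr`), `E.next (gr m0) k = v k m = E.next (gr m) k` for `k < i`, and the neighbourhoods of
these vertices agree by `gr_adj` because `m0 x = m x` for their stubs. Then `E.causal_next`.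
-/

open scoped Classical
open Finset

namespace LKA

variable {n : ℕ}

private def Wit (E : Explorer n) {D : Fin n → ℕ} (m : Equiv.Perm (Stub D)) (i : ℕ)
    (f : ℕ → Fin n) (m0 : Equiv.Perm (Stub D)) : Prop :=
  m0 ∈ Mat (univ : Finset (Stub D)) ∧ Simp m0 ∧ (∀ k < i, E.next (gr m0) k = f k) ∧
    ∀ x : Stub D, (∃ k < i, x.1 = f k) → m0 x = m x

private noncomputable def sel (E : Explorer n) {D : Fin n → ℕ} (hn : 0 < n) (i : ℕ)
    (P : Equiv.Perm (Stub D) → Prop) : Fin n :=
  if h : i < n ∧ ∃ m0, P m0 then E.next (gr (Classical.choose h.2)) i else ⟨0, hn⟩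

private theorem wit_congr (E : Explorer n) {D : Fin n → ℕ}
    {m m' : Equiv.Perm (Stub D)} {i : ℕ} {f g : ℕ → Fin n} (hf : ∀ k < i, g k = f k)
    (hm : ∀ x : Stub D, (∃ k < i, x.1 = f k) → m' x = m x) :
    Wit E m' i g = Wit E m i f := by
  funext m0
  apply propext
  unfold Wit
  constructor
  · rintro ⟨h1, h2, h3, h4⟩
    refine ⟨h1, h2, fun k hk => (h3 k hk).trans (hf k hk), ?_⟩
    rintro x ⟨k, hk, hxk⟩
    rw [h4 x ⟨k, hk, hxk.trans (hf k hk).symm⟩]
    exact hm x ⟨k, hk, hxk⟩
  · rintro ⟨h1, h2, h3, h4⟩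
    refine ⟨h1, h2, fun k hk => (h3 k hk).trans (hf k hk).symm, ?_⟩
    rintro x ⟨k, hk, hxk⟩
    rw [h4 x ⟨k, hk, hxk.trans (hf k hk)⟩]
    exact (hm x ⟨k, hk, hxk.trans (hf k hk)⟩).symm

private noncomputable def FF (E : Explorer n) {D : Fin n → ℕ} (hn : 0 < n)
    (m : Equiv.Perm (Stub D)) : ℕ → ℕ → Fin n
  | 0 => fun _ => ⟨0, hn⟩
  | (i + 1) => Function.update (FF E hn m i) i (sel E hn i (Wit E m i (FF E hn m i)))

private noncomputable def vv (E : Explorer n) {D : Fin n → ℕ} (hn : 0 < n) (i : ℕ)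
    (m : Equiv.Perm (Stub D)) : Fin n :=
  sel E hn i (Wit E m i (FF E hn m i))

private theorem FF_lt (E : Explorer n) {D : Fin n → ℕ} (hn : 0 < n)
    (m : Equiv.Perm (Stub D)) (i k : ℕ) (hk : k < i) : FF E hn m i k = vv E hn k m := by
  induction i with
  | zero => omega
  | succ i ih =>
    by_cases h : k = i
    · subst h
      simp [FF, vv]
    · have : FF E hn m (i + 1) k = FF E hn m i k := by
        simp [FF, Function.update, h]
      rw [this]
      exact ih (by omega)

private theorem vv_eq (E : Explorer n) {D : Fin n → ℕ} (hn : 0 < n) (i : ℕ)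
    (m : Equiv.Perm (Stub D)) :
    vv E hn i m = sel E hn i (Wit E m i (fun k => vv E hn k m)) := by
  have h : Wit E m i (fun k => vv E hn k m) = Wit E m i (FF E hn m i) :=
    wit_congr E (fun k hk => (FF_lt E hn m i k hk).symm) (fun x _ => rfl)
  rw [h]
  rfl

private theorem nbr_eq {D : Fin n → ℕ} {m m' : Equiv.Perm (Stub D)}
    (hm : m ∈ Mat (univ : Finset (Stub D))) (hs : Simp m)
    (hm' : m' ∈ Mat (univ : Finset (Stub D))) (hs' : Simp m') {w : Fin n}
    (h : ∀ x : Stub D, x.1 = w → m x = m' x) :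
    (gr m).neighborSet w = (gr m').neighborSet w := by
  ext v
  rw [SimpleGraph.mem_neighborSet, SimpleGraph.mem_neighborSet, gr_adj hm hs, gr_adj hm' hs']
  constructor
  · rintro ⟨x, hx, hv⟩
    exact ⟨x, hx, by rw [← h x hx]; exact hv⟩
  · rintro ⟨x, hx, hv⟩
    exact ⟨x, hx, by rw [h x hx]; exact hv⟩

theorem exists_strat (E : Explorer n) (D : Fin n → ℕ) (hn : 0 < n) :
    ∃ st : MStrat (Stub D) (Fin n) (fun x => x.1),
      ∀ m ∈ Mat (univ : Finset (Stub D)), Simp m → ∀ i < n, st.v i m = E.next (gr m) i := by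
  refine ⟨⟨fun i m => vv E hn i m, ?_⟩, ?_⟩
  · intro s m m' _ _ h i
    induction i using Nat.strong_induction_on with
    | _ i ih =>
      intro hi
      show vv E hn i m' = vv E hn i m
      rw [vv_eq E hn i m', vv_eq E hn i m]
      rw [wit_congr E (m := m) (m' := m') (f := fun k => vv E hn k m)
        (g := fun k => vv E hn k m') (fun k hk => ih k hk (by omega)) ?_]
      rintro x ⟨k, hk, hxk⟩
      exact h x ⟨k, by omega, hxk⟩
  · intro m hm hs i
    induction i using Nat.strong_induction_on with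
    | _ i ih =>
      intro hi
      show vv E hn i m = E.next (gr m) i
      rw [vv_eq E hn i m]
      have hex : i < n ∧ ∃ m0, Wit E m i (fun k => vv E hn k m) m0 :=
        ⟨hi, m, hm, hs, fun k hk => (ih k hk (by omega)).symm, fun x _ => rfl⟩
      unfold sel
      rw [dif_pos hex]
      obtain ⟨a, b, c, d⟩ := Classical.choose_spec hex.2
      apply E.causal_next _ _ i hi
      refine ⟨fun v => ?_, fun k hk => ?_⟩
      · rw [deg_gr a b, deg_gr hm hs]
      · have h1 : E.next (gr (Classical.choose hex.2)) k = vv E hn k m := c k hk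
        have h2 : vv E hn k m = E.next (gr m) k := ih k hk (by omega)
        refine ⟨h1.trans h2, ?_⟩
        rw [h1]
        exact nbr_eq a b hm hs (fun x hx => d x ⟨k, hk, hx⟩)

/-- for simple matchings `R` is the revealed set -/
theorem strat_R (E : Explorer n) {D : Fin n → ℕ}
    (st : MStrat (Stub D) (Fin n) (fun x => x.1))
    (hst : ∀ m ∈ Mat (univ : Finset (Stub D)), Simp m → ∀ i < n, st.v i m = E.next (gr m) i)
    {m : Equiv.Perm (Stub D)} (hm : m ∈ Mat (univ : Finset (Stub D))) (hs : Simp m) {s : ℕ}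
    (hsn : s ≤ n) : st.R s m = E.rv (gr m) s := by
  ext w
  unfold MStrat.R Explorer.rv
  simp only [Finset.mem_image, Finset.mem_range]
  constructor
  · rintro ⟨i, hi, rfl⟩
    exact ⟨i, hi, (hst m hm hs i (by omega)).symm⟩
  · rintro ⟨i, hi, rfl⟩
    exact ⟨i, hi, hst m hm hs i (by omega)⟩

/-- two simple matchings in the same class have the same information -/
theorem strat_same (E : Explorer n) {D : Fin n → ℕ}
    (st : MStrat (Stub D) (Fin n) (fun x => x.1))
    (hst : ∀ m ∈ Mat (univ : Finset (Stub D)), Simp m → ∀ i < n, st.v i m = E.next (gr m) i)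
    {m m' : Equiv.Perm (Stub D)} (hm : m ∈ Mat (univ : Finset (Stub D))) (hs : Simp m)
    (hs' : Simp m') {s : ℕ} (hsn : s ≤ n) (hm' : m' ∈ st.cls s m) :
    SameInfo E.next s (gr m) (gr m') := by
  have hmm : m' ∈ Mat (univ : Finset (Stub D)) ∧
      ∀ x : Stub D, x.1 ∈ st.R s m → m' x = m x := by
    simpa [MStrat.cls] using hm'
  refine ⟨fun v => ?_, fun i hi => ?_⟩
  · rw [deg_gr hm hs, deg_gr hmm.1 hs']
  · have h1 : st.v i m' = st.v i m := st.cls_v hm hm' hi.le
    have h2 : st.v i m = E.next (gr m) i := hst m hm hs i (by omega)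
    have h3 : st.v i m' = E.next (gr m') i := hst m' hmm.1 hs' i (by omega)
    refine ⟨by rw [← h2, ← h1, h3], ?_⟩
    rw [← h2]
    apply nbr_eq hm hs hmm.1 hs'
    intro x hx
    refine (hmm.2 x ?_).symm
    rw [hx]
    unfold MStrat.R
    simp only [Finset.mem_image, Finset.mem_range]
    exact ⟨i, hi, rfl⟩

end LKA
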