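import Pool.Agent.LKA.Main

/-!
# LKA-Fam: counting for a family of explorers
-/

open scoped Classical
open Finset

namespace LKA

variable {n : ℕ}

theorem cnt_mono {M : ℕ} {B C : SimpleGraph (Fin n) → Prop}
    (h : ∀ G, G.edgeSet.ncard = M → B G → C G) : cnt n M B ≤ cnt n M C := by
  unfold cnt
  refine Finset.card_le_card ?_
  intro G hG
  simp only [mem_filter, mem_univ, true_and] at hG ⊢
  exact ⟨hG.1, h G hG.1 hG.2⟩

theorem cnt_or {M : ℕ} (B C : SimpleGraph (Fin n) → Prop) :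
    cnt n M (fun G => B G ∨ C G) ≤ cnt n M B + cnt n M C := by
  unfold cnt
  refine le_trans (Finset.card_le_card ?_) (Finset.card_union_le _ _)
  intro G hG
  simp only [mem_filter, mem_univ, true_and, mem_union] at hG ⊢
  rcases hG with ⟨h1, h2 | h2⟩
  · exact Or.inl ⟨h1, h2⟩
  · exact Or.inr ⟨h1, h2⟩

theorem cnt_exists {M : ℕ} {κ : Type} (s : Finset κ) (B : κ → SimpleGraph (Fin n) → Prop) :
    cnt n M (fun G => ∃ i ∈ s, B i G) ≤ ∑ i ∈ s, cnt n M (B i) := by
  unfold cnt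
  refine le_trans (Finset.card_le_card ?_) (Finset.card_biUnion_le (s := s)
    (t := fun i => univ.filter (fun G : SimpleGraph (Fin n) => G.edgeSet.ncard = M ∧ B i G)))
  intro G hG
  simp only [mem_filter, mem_univ, true_and, mem_biUnion] at hG ⊢
  obtain ⟨h1, i, hi, h2⟩ := hG
  exact ⟨i, hi, h1, h2⟩

theorem transfer {X K T C p N : ℝ} (hK : 0 < K) (hp : 0 ≤ p) (hX : X * K ≤ p * N)
    (hT : N ≤ C * K * T) : X ≤ p * (C * T) := by
  have h1 : p * N ≤ p * (C * K * T) := mul_le_mul_of_nonneg_left hT hp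
  have h2 : X * K ≤ (p * (C * T)) * K := by linarith [h1, hX]
  exact le_of_mul_le_mul_right h2 hK

theorem family (M k : ℕ) (hn : 0 < n) (hM : 0 < M)
    (η c : ℝ) (hη : 0 < η) (hη1 : η ≤ 1 / 12) (b : ℝ) (u L d : ℝ)
    (hd : d = 2 * M / n)
    (hu : u = n / d) (hL : L = Real.log d) (hLpos : 0 < L)
    (h1 : (n.choose (pl η u) : ℝ) * Real.exp (-(η ^ 2 * pmu η L * pl η u / 12)) ≤
        Real.exp (-(η * L ^ 2 * u)))
    (h2 : ∀ N q : ℕ, pN η u L ≤ N → prho η * N ≤ q →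
        (pH η c u L : ℝ) * n.choose (pj η u) * N.choose q *
          Real.exp (-((1 - η) ^ 2 * ((pj η u : ℝ) - pl η u) *
            ((q : ℝ) - pl η u) / u)) ≤ Real.exp (-(L ^ 2 * u)))
    (h3 : (pH η c u L : ℝ) * (pN η u L).choose (pk η c u L) *
        Real.exp (1 / 2 - (1 - η) ^ 2 * ((pk η c u L : ℝ) - pl η u) ^ 2 / (2 * u)) ≤
        Real.exp (-(η * L ^ 2 * u)))
    (h4 : ∑ s ∈ Finset.Icc (pR η u L) n, (n.choose s : ℝ) *
        Real.exp (-((η / 10) ^ 2 * (s : ℝ) ^ 2 / (2 * u))) ≤ Real.exp (-(L ^ 2 * u)))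
    (h5 : ∀ Ep : ℕ, (∀ e < Ep, (pR η u L : ℝ) < b * (1 - η / 10) ^ e) →
        (2 : ℝ) ^ (pR η u L) *
          ∏ e ∈ Finset.range Ep, ∑ t ∈ Finset.range (pi0 η u + 1),
            ((⌊b * (1 - η / 10) ^ e⌋₊).choose t : ℝ) ≤
          Real.exp ((c ^ 2 / 2 + η) * L ^ 2 * u))
    (h6 : (((pQ η L + 1) * pj η u + 1 + pk η c u L : ℕ) : ℝ) ≤ (n : ℝ) / k)
    (h7 : pmu η L ≤ d ∧
      2 * pmu η L ≤ (1 - η) * ((pN η u L : ℝ) - pl η u) / u ∧
      2 * (pD η u L : ℝ) / u ≤ 3 * pmu η L ^ 2 ∧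
      pN η u L ≤ n ∧ pl η u ≤ pN η u L ∧ pl η u ≤ pj η u ∧ pl η u ≤ pk η c u L ∧
      1 ≤ pj η u ∧ 1 ≤ pN η u L ∧ 20 / η ≤ pmu η L ^ 2 * u ∧
      1 / (n : ℝ) + 1 / u ≤ 1 / 2 ∧
      prho η ^ (pQ η L + 1) * n < pN η u L ∧ 1 / (η / 10) ≤ pR η u L)
    (h8 : 10 * ((n : ℝ) + 1) * Real.exp (d + d ^ 2) ≤ Real.exp (η / 2 * L ^ 2 * u) ∧
      Real.exp (2 * d - pD η u L) ≤ Real.exp (-(η * L ^ 2 * u)))
    (ι : Type) [Fintype ι] (E : ι → Explorer n)
    (hund : ∀ i G, ∀ s ≤ n, (((E i).und G s).card : ℝ) ≤ b) :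
    (cnt n M (fun G => ∃ i, Succeeds (E i) k G) : ℝ) ≤
      Fintype.card ι * Real.exp (-(η / 2 * L ^ 2 * u)) * cnt n M (fun _ => True) := by
  have hn' : (0 : ℝ) < n := by exact_mod_cast hn
  have hM' : (0 : ℝ) < M := by exact_mod_cast hM
  have hdpos : 0 < d := by rw [hd]; positivity
  have hupos : 0 < u := by rw [hu]; positivity
  have hinv : 2 * (M : ℝ) / (n : ℝ) ^ 2 = 1 / u := by
    rw [hu, hd]; field_simp
  have hinv2 : (M : ℝ) / (n : ℝ) ^ 2 = 1 / (2 * u) := by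
    have : (M : ℝ) / (n : ℝ) ^ 2 = (2 * (M : ℝ) / (n : ℝ) ^ 2) / 2 := by ring
    rw [this, hinv]; field_simp
  obtain ⟨ha, hb, hc', hdn, he, hf, hg, hj, hN, h20, hi, hQ, hR⟩ := id h7
  -- the empty family
  rcases isEmpty_or_nonempty ι with hemp | hne
  · have h00 : cnt n M (fun G => ∃ i, Succeeds (E i) k G) ≤ cnt n M (fun _ => False) :=
      cnt_mono (fun G _ hex => by
        obtain ⟨i, _⟩ := hex
        exact hemp.elim i)
    have h01 : cnt n M (fun _ => False) = 0 := by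
      unfold cnt
      simp
    have h0 : cnt n M (fun G => ∃ i, Succeeds (E i) k G) = 0 := by omega
    rw [h0]
    simp
  have hcard : (1 : ℝ) ≤ Fintype.card ι := by
    exact_mod_cast Fintype.card_pos
  set T : ℝ := (cnt n M (fun _ => True) : ℝ) with hT
  have hT0 : 0 ≤ T := by rw [hT]; positivity
  set K : ℝ := 2 ^ M * (M.factorial : ℝ) with hK
  have hKpos : 0 < K := by rw [hK]; positivity
  set C : ℝ := Real.exp (d + d ^ 2) with hC
  have hCpos : 0 < C := Real.exp_pos _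
  have hC1 : 1 ≤ C := by
    rw [hC]; exact Real.one_le_exp (by positivity)
  have htot : (n : ℝ) ^ (2 * M) ≤ C * K * T := by
    have h9 : 1 / (n : ℝ) + 2 * M / (n : ℝ) ^ 2 ≤ 1 / 2 := by
      rw [hinv]; exact hi
    have h10 := total_ge n M hn h9
    have h11 : 2 * (M : ℝ) / n + 4 * (M : ℝ) ^ 2 / (n : ℝ) ^ 2 = d + d ^ 2 := by
      rw [hd]; ring
    rw [h11] at h10
    exact h10
  -- counts
  have hμ : 0 < pmu η L := by unfold pmu; positivity
  have hρ : 0 < prho η := Real.exp_pos _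
  have hρ1 : prho η < 1 := by
    rw [prho, Real.exp_lt_one_iff]
    have : 0 < 1 / η := by positivity
    linarith
  set x : ℝ := Real.exp (-(η * L ^ 2 * u)) with hx
  have hx0 : 0 < x := Real.exp_pos _
  have hx1 : Real.exp (-(L ^ 2 * u)) ≤ x := by
    rw [hx]
    apply Real.exp_le_exp.mpr
    have : 0 ≤ L ^ 2 * u := by positivity
    nlinarith
  have hA1 : ∀ i, ∀ s ≤ n, (cnt n M (Bad1 M η (pmu η L) (pl η u) (E i) s) : ℝ) ≤
      x * (C * T) := by
    intro i s hs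
    refine transfer hKpos hx0.le ?_ htot
    have h9 := bad1_count (E i) M η (pmu η L) (pl η u) s hn hM hη (by linarith) hμ
      (by rw [← hd]; exact ha) (by
        have : (pmu η L * n) ^ 2 / (2 * M) = pmu η L ^ 2 * u := by
          rw [hu, hd]; field_simp
        rw [this]; exact h20) hs
    refine h9.trans ?_
    exact mul_le_mul_of_nonneg_right h1 (by positivity)
  have hA2 : ∀ i, ∀ s ≤ n, (cnt n M (Bad2 M η (pmu η L) (pl η u) (pH η c u L) (pj η u)
      (prho η) (pN η u L) (E i) s) : ℝ) ≤ x * (C * T) := by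
    intro i s hs
    refine transfer hKpos hx0.le ?_ htot
    refine bad2_count (E i) M η (pmu η L) (pl η u) (pH η c u L) (pj η u) (prho η) (pN η u L) s
      hn hη (by linarith) hμ hρ hρ1.le hs hf x hx0.le ?_
    intro N q hN1 _ hq1 _
    refine le_trans (le_of_eq ?_) ((h2 N q hN1 hq1).trans hx1)
    congr 2
    have : (1 - η) ^ 2 * ((pj η u : ℝ) - pl η u) * ((q : ℝ) - pl η u) * (2 * M) / (n : ℝ) ^ 2 =
      (1 - η) ^ 2 * ((pj η u : ℝ) - pl η u) * ((q : ℝ) - pl η u) * (2 * M / (n : ℝ) ^ 2) := by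
      ring
    rw [this, hinv]; ring
  have hA3 : ∀ i, ∀ s ≤ n, (cnt n M (Bad3 M η (pmu η L) (pl η u) (pH η c u L) (pN η u L)
      (pk η c u L) (E i) s) : ℝ) ≤ x * (C * T) := by
    intro i s hs
    refine transfer hKpos hx0.le ?_ htot
    have h9 := bad3_count (E i) M η (pmu η L) (pl η u) (pH η c u L) (pN η u L) (pk η c u L) s
      hn hη (by linarith) hμ hs hg
    refine h9.trans (mul_le_mul_of_nonneg_right (le_trans (le_of_eq ?_) h3) (by positivity))
    congr 2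
    have : (1 - η) ^ 2 * ((pk η c u L : ℝ) - pl η u) ^ 2 * M / (n : ℝ) ^ 2 =
      (1 - η) ^ 2 * ((pk η c u L : ℝ) - pl η u) ^ 2 * (M / (n : ℝ) ^ 2) := by ring
    rw [this, hinv2]; ring
  have hA4 : (cnt n M (fun G => ∃ v, pD η u L ≤ (G.neighborSet v).ncard) : ℝ) ≤
      (n * x) * (C * T) := by
    refine transfer hKpos (by positivity) ?_ htot
    have h9 := dmax_count hn M (pD η u L)
    refine h9.trans (mul_le_mul_of_nonneg_right ?_ (by positivity))
    refine mul_le_mul_of_nonneg_left ?_ hn'.le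
    have : (4 * (M : ℝ) / n - pD η u L) = 2 * d - pD η u L := by rw [hd]; ring
    rw [this]; exact h8.2
  have hA5 : (cnt n M (BadDens n M (pR η u L) (η / 10)) : ℝ) ≤ x * (C * T) := by
    have h9 := dens_count n M (pR η u L) (η / 10) (by positivity) (by linarith) hn hR
    have h10 : (∑ s ∈ Icc (pR η u L) n, (n.choose s : ℝ) *
        Real.exp (-((η / 10) ^ 2 * M * (s : ℝ) ^ 2 / (n : ℝ) ^ 2))) ≤ x := by
      refine le_trans (le_of_eq ?_) (h4.trans hx1)
      refine Finset.sum_congr rfl fun s _ => ?_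
      congr 2
      have : (η / 10) ^ 2 * M * (s : ℝ) ^ 2 / (n : ℝ) ^ 2 =
        (η / 10) ^ 2 * (s : ℝ) ^ 2 * (M / (n : ℝ) ^ 2) := by ring
      rw [this, hinv2]; ring
    calc (cnt n M (BadDens n M (pR η u L) (η / 10)) : ℝ)
        ≤ (∑ s ∈ Icc (pR η u L) n, (n.choose s : ℝ) *
          Real.exp (-((η / 10) ^ 2 * M * (s : ℝ) ^ 2 / (n : ℝ) ^ 2))) * T := h9
      _ ≤ x * T := mul_le_mul_of_nonneg_right h10 hT0
      _ ≤ x * (C * T) := by
          refine mul_le_mul_of_nonneg_left ?_ hx0.le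
          nlinarith
  -- containment
  have hsub : ∀ G : SimpleGraph (Fin n), G.edgeSet.ncard = M → (∃ i, Succeeds (E i) k G) →
      ((∃ v, pD η u L ≤ (G.neighborSet v).ncard) ∨ BadDens n M (pR η u L) (η / 10) G) ∨
      ∃ p ∈ (univ : Finset ι) ×ˢ range (n + 1),
        (Bad1 M η (pmu η L) (pl η u) (E p.1) p.2 G ∨
        Bad2 M η (pmu η L) (pl η u) (pH η c u L) (pj η u) (prho η) (pN η u L) (E p.1) p.2 G) ∨
        Bad3 M η (pmu η L) (pl η u) (pH η c u L) (pN η u L) (pk η c u L) (E p.1) p.2 G := by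
    intro G hG hex
    obtain ⟨i, hind, hsize⟩ := hex
    by_contra hcon
    push Not at hcon
    obtain ⟨⟨hD1, hD2⟩, hB⟩ := hcon
    have hmem : ∀ s ≤ n, (i, s) ∈ (univ : Finset ι) ×ˢ range (n + 1) := by
      intro s hs
      simp only [mem_product, mem_univ, mem_range, true_and]
      omega
    have hlt := contain (E i) G M hn hM η c hη hη1 b u L (by rw [hu, hd]) (by rw [hL, hd]) hLpos
      ⟨by rw [← hd]; exact ha, hb, hc', hdn, he, hf, hg, hj, hN, h20, hi, hQ, hR⟩ h5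
      (hund i G) hG hind (by push Not; exact hD1) hD2
      (fun s hs => (hB (i, s) (hmem s hs)).1.1)
      (fun s hs => (hB (i, s) (hmem s hs)).1.2)
      (fun s hs => (hB (i, s) (hmem s hs)).2)
    have h9 : (((E i).out G).card : ℝ) <
        (((pQ η L + 1) * pj η u + 1 + pk η c u L : ℕ) : ℝ) := by exact_mod_cast hlt
    linarith
  have hcnt : (cnt n M (fun G => ∃ i, Succeeds (E i) k G) : ℝ) ≤
      ((cnt n M (fun G => ∃ v, pD η u L ≤ (G.neighborSet v).ncard) : ℝ) +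
        cnt n M (BadDens n M (pR η u L) (η / 10))) +
      ∑ p ∈ (univ : Finset ι) ×ˢ range (n + 1),
        ((cnt n M (Bad1 M η (pmu η L) (pl η u) (E p.1) p.2) : ℝ) +
        cnt n M (Bad2 M η (pmu η L) (pl η u) (pH η c u L) (pj η u) (prho η) (pN η u L)
          (E p.1) p.2) +
        cnt n M (Bad3 M η (pmu η L) (pl η u) (pH η c u L) (pN η u L) (pk η c u L)
          (E p.1) p.2)) := by
    have h9 := cnt_mono hsub
    have h10 := cnt_or (n := n) (M := M)
      (fun G => (∃ v, pD η u L ≤ (G.neighborSet v).ncard) ∨ BadDens n M (pR η u L) (η / 10) G)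
      (fun G => ∃ p ∈ (univ : Finset ι) ×ˢ range (n + 1),
        (Bad1 M η (pmu η L) (pl η u) (E p.1) p.2 G ∨
        Bad2 M η (pmu η L) (pl η u) (pH η c u L) (pj η u) (prho η) (pN η u L) (E p.1) p.2 G) ∨
        Bad3 M η (pmu η L) (pl η u) (pH η c u L) (pN η u L) (pk η c u L) (E p.1) p.2 G)
    have h11 := cnt_or (n := n) (M := M) (fun G => ∃ v, pD η u L ≤ (G.neighborSet v).ncard)
      (BadDens n M (pR η u L) (η / 10))
    have h12 := cnt_exists (n := n) (M := M) ((univ : Finset ι) ×ˢ range (n + 1))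
      (fun p G => (Bad1 M η (pmu η L) (pl η u) (E p.1) p.2 G ∨
        Bad2 M η (pmu η L) (pl η u) (pH η c u L) (pj η u) (prho η) (pN η u L) (E p.1) p.2 G) ∨
        Bad3 M η (pmu η L) (pl η u) (pH η c u L) (pN η u L) (pk η c u L) (E p.1) p.2 G)
    have h13 : ∑ p ∈ (univ : Finset ι) ×ˢ range (n + 1),
        cnt n M (fun G => (Bad1 M η (pmu η L) (pl η u) (E p.1) p.2 G ∨
        Bad2 M η (pmu η L) (pl η u) (pH η c u L) (pj η u) (prho η) (pN η u L) (E p.1) p.2 G) ∨
        Bad3 M η (pmu η L) (pl η u) (pH η c u L) (pN η u L) (pk η c u L) (E p.1) p.2 G) ≤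
        ∑ p ∈ (univ : Finset ι) ×ˢ range (n + 1),
        (cnt n M (Bad1 M η (pmu η L) (pl η u) (E p.1) p.2) +
        cnt n M (Bad2 M η (pmu η L) (pl η u) (pH η c u L) (pj η u) (prho η) (pN η u L)
          (E p.1) p.2) +
        cnt n M (Bad3 M η (pmu η L) (pl η u) (pH η c u L) (pN η u L) (pk η c u L)
          (E p.1) p.2)) := by
      refine Finset.sum_le_sum fun p _ => ?_
      refine (cnt_or _ _).trans ?_
      have := cnt_or (n := n) (M := M) (Bad1 M η (pmu η L) (pl η u) (E p.1) p.2)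
        (Bad2 M η (pmu η L) (pl η u) (pH η c u L) (pj η u) (prho η) (pN η u L) (E p.1) p.2)
      omega
    have h14 := (h9.trans h10).trans (add_le_add h11 (h12.trans h13))
    exact_mod_cast h14
  have hsum : ∑ p ∈ (univ : Finset ι) ×ˢ range (n + 1),
        ((cnt n M (Bad1 M η (pmu η L) (pl η u) (E p.1) p.2) : ℝ) +
        cnt n M (Bad2 M η (pmu η L) (pl η u) (pH η c u L) (pj η u) (prho η) (pN η u L)
          (E p.1) p.2) +
        cnt n M (Bad3 M η (pmu η L) (pl η u) (pH η c u L) (pN η u L) (pk η c u L)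
          (E p.1) p.2)) ≤ (Fintype.card ι * ((n : ℝ) + 1)) * (3 * (x * (C * T))) := by
    have h9 : ∀ p ∈ (univ : Finset ι) ×ˢ range (n + 1),
        ((cnt n M (Bad1 M η (pmu η L) (pl η u) (E p.1) p.2) : ℝ) +
        cnt n M (Bad2 M η (pmu η L) (pl η u) (pH η c u L) (pj η u) (prho η) (pN η u L)
          (E p.1) p.2) +
        cnt n M (Bad3 M η (pmu η L) (pl η u) (pH η c u L) (pN η u L) (pk η c u L)
          (E p.1) p.2)) ≤ 3 * (x * (C * T)) := by
      intro p hp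
      simp only [mem_product, mem_univ, mem_range, true_and] at hp
      have hs : p.2 ≤ n := by omega
      have e1 := hA1 p.1 p.2 hs
      have e2 := hA2 p.1 p.2 hs
      have e3 := hA3 p.1 p.2 hs
      linarith
    refine (Finset.sum_le_card_nsmul _ _ _ h9).trans (le_of_eq ?_)
    rw [Finset.card_product, Finset.card_univ, Finset.card_range, nsmul_eq_mul]
    push_cast
    ring
  have hxCT : 0 ≤ x * (C * T) := by positivity
  have hfin : (cnt n M (fun G => ∃ i, Succeeds (E i) k G) : ℝ) ≤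
      (Fintype.card ι : ℝ) * (10 * ((n : ℝ) + 1) * C) * x * T := by
    have e1 : (n * x) * (C * T) ≤ (Fintype.card ι * ((n : ℝ) + 1)) * (x * (C * T)) := by
      have : (n : ℝ) ≤ Fintype.card ι * ((n : ℝ) + 1) := by nlinarith
      calc (n * x) * (C * T) = n * (x * (C * T)) := by ring
        _ ≤ _ := mul_le_mul_of_nonneg_right this hxCT
    have e2 : x * (C * T) ≤ (Fintype.card ι * ((n : ℝ) + 1)) * (x * (C * T)) := by
      have : (1 : ℝ) ≤ Fintype.card ι * ((n : ℝ) + 1) := by nlinarith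
      exact le_mul_of_one_le_left hxCT this
    have e3 : 0 ≤ (Fintype.card ι * ((n : ℝ) + 1)) * (x * (C * T)) := by positivity
    have e4 : (Fintype.card ι : ℝ) * (10 * ((n : ℝ) + 1) * C) * x * T =
        10 * ((Fintype.card ι * ((n : ℝ) + 1)) * (x * (C * T))) := by ring
    rw [e4]
    linarith [hcnt, hsum, hA4, hA5]
  refine hfin.trans ?_
  have e5 : Real.exp (η / 2 * L ^ 2 * u) * x = Real.exp (-(η / 2 * L ^ 2 * u)) := by
    rw [hx, ← Real.exp_add]; congr 1; ring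
  calc (Fintype.card ι : ℝ) * (10 * ((n : ℝ) + 1) * C) * x * T
      ≤ (Fintype.card ι : ℝ) * Real.exp (η / 2 * L ^ 2 * u) * x * T := by
        gcongr
        exact h8.1
    _ = Fintype.card ι * Real.exp (-(η / 2 * L ^ 2 * u)) * T := by
        rw [← e5]; ring

end LKA
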