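import Pool.Agent.LKA.Fam

/-!
# LKA-Fin: the theorem
-/

open scoped Classical
open Finset

namespace LKA

theorem lookahead (ε c : ℝ) (hε : 0 < ε) (hc : 0 ≤ c) (hc1 : c < 1) (hce : c < 2 * ε) :
    ∃ δ : ℝ, 0 < δ ∧ ∃ k0 : ℕ, ∀ k : ℕ, k0 ≤ k → ∃ n0 : ℕ, ∀ n : ℕ, n0 ≤ n →
      ∀ (ι : Type) (_ : Fintype ι) (E : ι → Explorer n),
        (Fintype.card ι : ℝ) ≤ Real.exp (δ * (n * Real.log k / k)) →
        (∀ i G, ∀ t ≤ n, (((E i).und G t).card : ℝ) ≤ (n : ℝ) / (k : ℝ) ^ (1 - c)) →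
        (cnt n ⌊(1 / 2 + ε) * k * Real.log k * n⌋₊ (fun G => ∃ i, Succeeds (E i) k G) : ℝ) ≤
          Real.exp (-(δ * (n * Real.log k / k))) *
            cnt n ⌊(1 / 2 + ε) * k * Real.log k * n⌋₊ (fun _ => True) := by
  set η : ℝ := min (1 / 12) (((2 * ε - c) / 14) ^ 2) with hηdef
  have hgap : 0 < 2 * ε - c := by linarith
  have hη : 0 < η := by rw [hηdef]; positivity
  have hη1 : η ≤ 1 / 12 := min_le_left _ _
  have hsq : Real.sqrt η ≤ (2 * ε - c) / 14 := by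
    rw [Real.sqrt_le_left (by positivity)]
    exact min_le_right _ _
  have hτ : 0 < 7 * Real.sqrt η := by
    have := Real.sqrt_pos.mpr hη
    positivity
  have hcτ : c + 7 * Real.sqrt η < 2 * ε := by linarith
  obtain ⟨d1, hd1, H1⟩ := num1 η hη hη1
  obtain ⟨d2, hd2, H2⟩ := num2 η c hη hη1 hc hc1
  obtain ⟨d3, hd3, H3⟩ := num3 η c hη hη1 hc hc1
  obtain ⟨d4, hd4, H4⟩ := num4 η hη hη1
  obtain ⟨d5, hd5, H5⟩ := num5 η c (1 + 2 * ε) hη hη1 hc hc1 (by linarith)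
  obtain ⟨d6, hd6, H6⟩ := num6 η c hη hη1 hc hc1
  obtain ⟨d7, hd7, H7⟩ := num7 η c hη hη1 hc hc1
  obtain ⟨d8, hd8, H8⟩ := num8 η hη hη1
  set d0 : ℝ := max d1 (max d2 (max d3 (max d4 (max d5 (max d6 (max d7 d8)))))) with hd0
  have e1 : d1 ≤ d0 := le_max_left _ _
  have e1' : max d2 (max d3 (max d4 (max d5 (max d6 (max d7 d8))))) ≤ d0 := le_max_right _ _
  have e2 : d2 ≤ d0 := (le_max_left _ _).trans e1'
  have e2' : max d3 (max d4 (max d5 (max d6 (max d7 d8)))) ≤ d0 := (le_max_right _ _).trans e1'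
  have e3 : d3 ≤ d0 := (le_max_left _ _).trans e2'
  have e3' : max d4 (max d5 (max d6 (max d7 d8))) ≤ d0 := (le_max_right _ _).trans e2'
  have e4 : d4 ≤ d0 := (le_max_left _ _).trans e3'
  have e4' : max d5 (max d6 (max d7 d8)) ≤ d0 := (le_max_right _ _).trans e3'
  have e5 : d5 ≤ d0 := (le_max_left _ _).trans e4'
  have e5' : max d6 (max d7 d8) ≤ d0 := (le_max_right _ _).trans e4'
  have e6 : d6 ≤ d0 := (le_max_left _ _).trans e5'
  have e6' : max d7 d8 ≤ d0 := (le_max_right _ _).trans e5'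
  have e7 : d7 ≤ d0 := (le_max_left _ _).trans e6'
  have e8 : d8 ≤ d0 := (le_max_right _ _).trans e6'
  obtain ⟨k0, hk03, H9⟩ := num9 ε c (7 * Real.sqrt η) hε hc hc1 hτ hcτ d0
  refine ⟨η / (8 * (1 + 2 * ε)), by positivity, k0, ?_⟩
  intro k hk
  set D : ℝ := (1 + 2 * ε) * k * Real.log k with hD
  obtain ⟨n2, K2⟩ := H2 D
  obtain ⟨n3, K3⟩ := H3 D
  obtain ⟨n4, K4⟩ := H4 D
  obtain ⟨n5, K5⟩ := H5 D
  obtain ⟨n6, K6⟩ := H6 D
  obtain ⟨n7, _, K7⟩ := H7 D
  obtain ⟨n8, K8⟩ := H8 D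
  refine ⟨n2 + n3 + n4 + n5 + n6 + n7 + n8 + 1, ?_⟩
  intro n hn ι _ E hι hund
  have hn1 : 1 ≤ n := by omega
  set M : ℕ := ⌊(1 / 2 + ε) * k * Real.log k * n⌋₊ with hMdef
  obtain ⟨f1, f2, f3, f4, f5⟩ := H9 k hk n hn1 M hMdef
  set d : ℝ := 2 * (M : ℝ) / n with hd
  set u : ℝ := n / d with hu
  set L : ℝ := Real.log d with hL
  have hd1' : 1 < d := by linarith
  have hLpos : 0 < L := Real.log_pos hd1'
  have hnpos : (0 : ℝ) < n := by exact_mod_cast (show 0 < n by omega)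
  have hM : 0 < M := by
    by_contra h
    have : M = 0 := by omega
    rw [hd, this] at hd1'
    simp at hd1'
    linarith
  have hupos : 0 < u := by rw [hu]; positivity
  have hfam := family M k (show 0 < n by omega) hM η c hη hη1 ((n : ℝ) / (k : ℝ) ^ (1 - c)) u L d
    hd hu hL hLpos (H1 n d (by omega) (by linarith))
    (K2 n (by omega) d (by linarith) f2)
    (K3 n (by omega) d (by linarith) f2)
    (K4 n (by omega) d (by linarith) f2)
    (fun Ep hEp => K5 n (by omega) d (by linarith) f2 _ Ep f4 hEp)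
    ((K6 n (by omega) d (by linarith) f2).trans (by
      have : Real.log d * (n / d) * (1 + c + 7 * Real.sqrt η) ≤ (n : ℝ) / k := f3
      exact this))
    (K7 n (by omega) d (by linarith) f2)
    (K8 n (by omega) d (by linarith) f2)
    ι E hund
  refine hfam.trans ?_
  refine mul_le_mul_of_nonneg_right ?_ (by positivity)
  set z : ℝ := η / (8 * (1 + 2 * ε)) * (n * Real.log k / k) with hz
  have hz1 : z ≤ η / 8 * L ^ 2 * u := by
    have h1 : (n : ℝ) * Real.log k / k ≤ (1 + 2 * ε) * L ^ 2 * u := f5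
    calc z ≤ η / (8 * (1 + 2 * ε)) * ((1 + 2 * ε) * L ^ 2 * u) :=
          mul_le_mul_of_nonneg_left h1 (by positivity)
      _ = η / 8 * L ^ 2 * u := by
          have : (1 + 2 * ε) ≠ 0 := by positivity
          field_simp
  have hLu : 0 ≤ L ^ 2 * u := by positivity
  calc (Fintype.card ι : ℝ) * Real.exp (-(η / 2 * L ^ 2 * u))
      ≤ Real.exp z * Real.exp (-(η / 2 * L ^ 2 * u)) :=
        mul_le_mul_of_nonneg_right hι (Real.exp_pos _).le
    _ = Real.exp (z - η / 2 * L ^ 2 * u) := by rw [← Real.exp_add]; congr 1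
    _ ≤ Real.exp (-z) := by
        apply Real.exp_le_exp.mpr
        nlinarith

end LKA
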