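import Pool.Agent.LKA.Mat

/-!
# LKA-Gr: the graph of a simple matching of the stubs

Plan. For `m ∈ Mat univ` we have `m (m x) = x`. `gr_adj`: `SimpleGraph.fromRel_adj`; if
`x.1 = u`, `(m x).1 = v` then `u ≠ v` by `Simp`, and the symmetric alternative is witnessed by `m x`.
`gr_adj_stub`: for a stub `x`: `(gr m).Adj x.1 (m x).1`.
`res_gr`: the map `x ↦ (m x).1` is a bijection from the stubs `x` with `x.1 = w`, `(m x).1 ∉ R` to the
vertices `u ∉ R` adjacent to `w` (injective by `Simp`): `Finset.card_bij`.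
`deg_gr`: `res_gr` with `R = ∅` style argument, and the number of stubs with `x.1 = v` is `D v`.
`stubs_gr`: sum of `res_gr` over `w ∉ R` (`Finset.card_eq_sum_card_fiberwise` for `x ↦ x.1`).
-/

open scoped Classical
open Finset

namespace LKA

variable {n : ℕ} {D : Fin n → ℕ} {m : Equiv.Perm (Stub D)}

theorem gr_adj (hm : m ∈ Mat (univ : Finset (Stub D))) (hs : Simp m) {u v : Fin n} :
    (gr m).Adj u v ↔ ∃ x : Stub D, x.1 = u ∧ (m x).1 = v := by
  have hinv := (mem_Mat.1 hm).1
  unfold gr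
  rw [SimpleGraph.fromRel_adj]
  constructor
  · rintro ⟨-, h | ⟨x, h1, h2⟩⟩
    · exact h
    · exact ⟨m x, h2, by rw [hinv x]; exact h1⟩
  · rintro ⟨x, h1, h2⟩
    refine ⟨?_, Or.inl ⟨x, h1, h2⟩⟩
    rintro rfl
    exact hs.1 x (h2.trans h1.symm)

theorem res_gr (hm : m ∈ Mat (univ : Finset (Stub D))) (hs : Simp m) (R : Finset (Fin n))
    (w : Fin n) :
    res (gr m) R w = (univ.filter (fun x : Stub D => x.1 = w ∧ (m x).1 ∉ R)).card := by
  unfold res
  symm
  apply Finset.card_bij (fun x _ => (m x).1)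
  · intro x hx
    rw [mem_filter] at hx ⊢
    exact ⟨mem_univ _, hx.2.2, (gr_adj hm hs).2 ⟨x, hx.2.1, rfl⟩⟩
  · intro x hx y hy h
    rw [mem_filter] at hx hy
    exact hs.2 x y (hx.2.1.trans hy.2.1.symm) h
  · intro u hu
    rw [mem_filter] at hu
    obtain ⟨x, h1, h2⟩ := (gr_adj hm hs).1 hu.2.2
    exact ⟨x, by rw [mem_filter]; exact ⟨mem_univ _, h1, by rw [h2]; exact hu.2.1⟩, h2⟩

theorem stubs_gr (hm : m ∈ Mat (univ : Finset (Stub D))) (hs : Simp m) (R : Finset (Fin n)) :
    stubs (gr m) R = (univ.filter (fun x : Stub D => x.1 ∉ R ∧ (m x).1 ∉ R)).card := by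
  unfold stubs
  rw [Finset.card_eq_sum_card_fiberwise (f := fun x : Stub D => x.1) (t := Rᶜ)]
  · apply sum_congr rfl
    intro w hw
    rw [res_gr hm hs]
    congr 1
    ext x
    simp only [mem_filter, mem_univ, true_and]
    rw [mem_compl] at hw
    constructor
    · rintro ⟨h1, h2⟩
      exact ⟨⟨by rw [h1]; exact hw, h2⟩, h1⟩
    · rintro ⟨⟨h1, h2⟩, h3⟩
      exact ⟨h3, h2⟩
  · intro x hx
    have hx' : x.1 ∉ R ∧ (m x).1 ∉ R := (mem_filter.1 (Finset.mem_coe.1 hx)).2
    exact Finset.mem_coe.2 (mem_compl.2 hx'.1)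

theorem deg_gr (hm : m ∈ Mat (univ : Finset (Stub D))) (hs : Simp m) (v : Fin n) :
    ((gr m).neighborSet v).ncard = D v := by
  have h := res_gr hm hs ∅ v
  have h1 : res (gr m) ∅ v = ((gr m).neighborSet v).ncard := by
    unfold res
    rw [← Set.ncard_coe_finset]
    congr 1
    ext u
    simp
  rw [← h1, h]
  have h2 : (univ.filter (fun x : Stub D => x.1 = v ∧ (m x).1 ∉ (∅ : Finset (Fin n)))) =
      (univ : Finset (Fin (D v))).image (fun i => (⟨v, i⟩ : Stub D)) := by
    ext x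
    simp only [mem_filter, mem_univ, true_and, Finset.notMem_empty, not_false_eq_true, and_true,
      mem_image]
    constructor
    · intro hx
      subst hx
      exact ⟨x.2, rfl⟩
    · rintro ⟨i, hi⟩
      rw [← hi]
  rw [h2, card_image_of_injective, card_univ, Fintype.card_fin]
  intro i j hij
  simpa using hij

end LKA
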