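import Pool.Agent.LKA.Defs

/-!
# LKA-KW: counting stable sets (Kleitman - Winston), deterministic

Plan. Write `I P = (inds G P).card`, `Ch a i = ∑ t ∈ range (i+1), a.choose t`.
(0) `I P ≤ 2 ^ P.card`; `I` is monotone in `P`; for `v ∈ P`:
`I P ≤ I (P.erase v) + I ((P.erase v).filter (¬ G.Adj v ·))` (stable sets without / with `v`).
(1) Epoch. Let `A : ℝ`, `F : ℕ` with `F ≥ 2 ^ R0` and `I P ≤ F` for all `P` with `P.card ≤ (1-γ) A`.
Let `γ ≤ i0 * (β * (1-γ))`. Claim: for all `q i : ℕ` and all `P` with `P.card ≤ q`, `(q : ℝ) ≤ A` and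
`q ≤ (1-γ) A + i β (1-γ) A`: `I P ≤ Ch q i * F`. Induction on `q` (for all `i`). If
`P.card ≤ (1-γ) A` or `P.card < R0` (then `I P ≤ 2^P.card ≤ 2^R0 ≤ F`) the claim is clear
(`Ch q i ≥ 1`). Otherwise `i ≥ 1`, and `hdeg` gives `v ∈ P` with at least
`β P.card ≥ β (1-γ) A` neighbours in `P`. First term: `P.erase v` has at most `q - 1` elements:
`≤ Ch (q-1) i * F`. Second term: a set with at most `q - 1` and at most `q - β (1-γ) A`
elements: apply the claim with `q' = min` of these (floor) and `i - 1`: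
`≤ Ch (q-1) (i-1) * F`. Finally `Ch (q-1) i + Ch (q-1) (i-1) = Ch q i` (Pascal).
With `q = ⌊A⌋`, `i = i0`: `I P ≤ Ch ⌊A⌋ i0 * F` for all `P` with `P.card ≤ A`.
(2) Iterate: by downward induction on `e ≤ Ep`, for `P.card ≤ b (1-γ)^e`:
`I P ≤ 2^R0 * ∏_{e ≤ f < Ep} Ch ⌊b (1-γ)^f⌋ i0`. At `e = Ep`: `P.card ≤ R0`.
-/

open scoped Classical
open Finset

namespace LKA

variable {n : ℕ}

private theorem KW_le_pow (G : SimpleGraph (Fin n)) (P : Finset (Fin n)) :
    (inds G P).card ≤ 2 ^ P.card := by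
  unfold inds
  exact (card_filter_le _ _).trans (card_powerset P).le

private theorem KW_split (G : SimpleGraph (Fin n)) (P : Finset (Fin n)) {v : Fin n} (hv : v ∈ P) :
    (inds G P).card ≤ (inds G (P.erase v)).card +
      (inds G ((P.erase v).filter (fun w => ¬ G.Adj v w))).card := by
  have hsub : inds G P ⊆ inds G (P.erase v) ∪
      (inds G ((P.erase v).filter (fun w => ¬ G.Adj v w))).image (fun A => insert v A) := by
    intro A hA
    unfold inds at hA
    rw [mem_filter, mem_powerset] at hA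
    obtain ⟨hAP, hAI⟩ := hA
    rw [mem_union]
    by_cases hvA : v ∈ A
    · right
      rw [mem_image]
      refine ⟨A.erase v, ?_, insert_erase hvA⟩
      unfold inds
      rw [mem_filter, mem_powerset]
      refine ⟨?_, ?_⟩
      · intro w hw
        rw [mem_filter]
        exact ⟨erase_subset_erase v hAP hw, hAI v hvA w (mem_of_mem_erase hw)⟩
      · intro x hx y hy
        exact hAI x (mem_of_mem_erase hx) y (mem_of_mem_erase hy)
    · left
      unfold inds
      rw [mem_filter, mem_powerset]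
      exact ⟨subset_erase.2 ⟨hAP, hvA⟩, hAI⟩
  refine (card_le_card hsub).trans ((card_union_le _ _).trans ?_)
  exact Nat.add_le_add_left card_image_le _

private def KW_Ch (q i : ℕ) : ℕ := ∑ t ∈ range (i + 1), q.choose t

private theorem KW_Ch_pos (q i : ℕ) : 1 ≤ KW_Ch q i := by
  unfold KW_Ch
  have h : q.choose 0 ≤ ∑ t ∈ range (i + 1), q.choose t :=
    single_le_sum (f := fun t => q.choose t) (fun _ _ => Nat.zero_le _)
      (mem_range.2 (Nat.succ_pos i))
  rwa [Nat.choose_zero_right] at h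

private theorem KW_Ch_mono {q q' : ℕ} (h : q' ≤ q) (i : ℕ) : KW_Ch q' i ≤ KW_Ch q i := by
  unfold KW_Ch
  exact sum_le_sum fun t _ => Nat.choose_le_choose t h

private theorem KW_Ch_pascal (q i : ℕ) : KW_Ch q (i + 1) + KW_Ch q i = KW_Ch (q + 1) (i + 1) := by
  unfold KW_Ch
  rw [sum_range_succ' (fun t => q.choose t) (i + 1),
    sum_range_succ' (fun t => (q + 1).choose t) (i + 1)]
  have h : ∑ t ∈ range (i + 1), (q + 1).choose (t + 1) =
      ∑ t ∈ range (i + 1), q.choose t + ∑ t ∈ range (i + 1), q.choose (t + 1) := by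
    rw [← sum_add_distrib]
    exact sum_congr rfl fun t _ => Nat.choose_succ_succ q t
  rw [h]
  simp only [Nat.choose_zero_right]
  omega

private theorem KW_epoch (G : SimpleGraph (Fin n)) (R0 F : ℕ) (A β γ : ℝ) (hβ : 0 < β)
    (hdeg : ∀ P : Finset (Fin n), R0 ≤ P.card → ∃ v ∈ P,
      β * P.card ≤ (P.filter (fun w => G.Adj v w)).card)
    (hF : 2 ^ R0 ≤ F)
    (hF2 : ∀ P : Finset (Fin n), (P.card : ℝ) ≤ (1 - γ) * A → (inds G P).card ≤ F) (q : ℕ) :
    ∀ (i : ℕ) (P : Finset (Fin n)), P.card ≤ q → (q : ℝ) ≤ A →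
      (q : ℝ) ≤ (1 - γ) * A + i * (β * ((1 - γ) * A)) → (inds G P).card ≤ KW_Ch q i * F := by
  induction q using Nat.strong_induction_on with
  | _ q ih =>
    intro i P hPq hqA hq
    have hF1 : F ≤ KW_Ch q i * F := Nat.le_mul_of_pos_left F (KW_Ch_pos q i)
    by_cases h1 : (P.card : ℝ) ≤ (1 - γ) * A
    · exact (hF2 P h1).trans hF1
    by_cases h2 : P.card < R0
    · refine ((KW_le_pow G P).trans ?_).trans hF1
      exact (Nat.pow_le_pow_right (by norm_num) h2.le).trans hF
    rw [not_le] at h1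
    rw [not_lt] at h2
    obtain ⟨v, hvP, hv⟩ := hdeg P h2
    have hPq' : (P.card : ℝ) ≤ q := by exact_mod_cast hPq
    have hcard : 0 < P.card := card_pos.2 ⟨v, hvP⟩
    have hi0 : i ≠ 0 := by
      rintro rfl
      rw [Nat.cast_zero, zero_mul, add_zero] at hq
      linarith
    obtain ⟨i', rfl⟩ := Nat.exists_eq_succ_of_ne_zero hi0
    obtain ⟨q1, rfl⟩ : ∃ q1, q = q1 + 1 := ⟨q - 1, by omega⟩
    have he : (P.erase v).card = P.card - 1 := card_erase_of_mem hvP
    have hI1 : (inds G (P.erase v)).card ≤ KW_Ch q1 (i' + 1) * F := by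
      refine ih q1 (Nat.lt_succ_self q1) (i' + 1) (P.erase v) (by omega) ?_ ?_
      · push_cast at hqA
        linarith
      · push_cast at hq ⊢
        linarith
    have hcard2 : ((P.erase v).filter (fun w => ¬ G.Adj v w)).card +
        (P.filter (fun w => G.Adj v w)).card = (P.erase v).card := by
      have h3 : P.filter (fun w => G.Adj v w) = (P.erase v).filter (fun w => G.Adj v w) := by
        ext w
        rw [mem_filter, mem_filter, mem_erase]
        constructor
        · rintro ⟨hw, hvw⟩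
          exact ⟨⟨hvw.ne', hw⟩, hvw⟩
        · rintro ⟨⟨_, hw⟩, hvw⟩
          exact ⟨hw, hvw⟩
      rw [h3, add_comm]
      exact card_filter_add_card_filter_not _
    have hq'le : ((P.erase v).filter (fun w => ¬ G.Adj v w)).card ≤ q1 := by omega
    have hcast : (((P.erase v).filter (fun w => ¬ G.Adj v w)).card : ℝ) +
        ((P.filter (fun w => G.Adj v w)).card : ℝ) + 1 = P.card := by
      have h4 : ((P.erase v).filter (fun w => ¬ G.Adj v w)).card +
        (P.filter (fun w => G.Adj v w)).card + 1 = P.card := by omega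
      exact_mod_cast h4
    have hI2 : (inds G ((P.erase v).filter (fun w => ¬ G.Adj v w))).card ≤
        KW_Ch q1 i' * F := by
      refine (ih ((P.erase v).filter (fun w => ¬ G.Adj v w)).card (by omega) i' _ le_rfl ?_ ?_).trans
        (Nat.mul_le_mul_right F (KW_Ch_mono hq'le i'))
      · have h5 : (((P.erase v).filter (fun w => ¬ G.Adj v w)).card : ℝ) ≤ q1 := by
          exact_mod_cast hq'le
        push_cast at hqA
        linarith
      · have h6 : β * ((1 - γ) * A) ≤ β * P.card := mul_le_mul_of_nonneg_left h1.le hβ.le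
        push_cast at hq hPq'
        linarith
    calc (inds G P).card ≤ (inds G (P.erase v)).card +
          (inds G ((P.erase v).filter (fun w => ¬ G.Adj v w))).card := KW_split G P hvP
      _ ≤ KW_Ch q1 (i' + 1) * F + KW_Ch q1 i' * F := Nat.add_le_add hI1 hI2
      _ = KW_Ch (q1 + 1) (i' + 1) * F := by rw [← Nat.add_mul, KW_Ch_pascal]

theorem kw_count (G : SimpleGraph (Fin n)) (R0 i0 Ep : ℕ) (b β γ : ℝ) (hβ : 0 < β)
    (hγ : 0 < γ) (hγ1 : γ < 1)
    (hdeg : ∀ P : Finset (Fin n), R0 ≤ P.card → ∃ v ∈ P,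
      β * P.card ≤ (P.filter (fun w => G.Adj v w)).card)
    (hi : γ ≤ i0 * (β * (1 - γ))) (hE : b * (1 - γ) ^ Ep ≤ R0)
    (P : Finset (Fin n)) (hP : (P.card : ℝ) ≤ b) :
    ((inds G P).card : ℝ) ≤
      2 ^ R0 * ∏ e ∈ range Ep, ∑ t ∈ range (i0 + 1), ((⌊b * (1 - γ) ^ e⌋₊).choose t : ℝ) := by
  have key : ∀ (k e : ℕ), e + k = Ep → ∀ P : Finset (Fin n), (P.card : ℝ) ≤ b * (1 - γ) ^ e →
      (inds G P).card ≤ 2 ^ R0 * ∏ f ∈ range k, KW_Ch ⌊b * (1 - γ) ^ (e + f)⌋₊ i0 := by
    intro k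
    induction k with
    | zero =>
      intro e he P hP
      rw [add_zero] at he
      rw [he] at hP
      have h1 : P.card ≤ R0 := by
        have := hP.trans hE
        exact_mod_cast this
      rw [range_zero, prod_empty, mul_one]
      exact (KW_le_pow G P).trans (Nat.pow_le_pow_right (by norm_num) h1)
    | succ k ih =>
      intro e he P hP
      set F := 2 ^ R0 * ∏ f ∈ range k, KW_Ch ⌊b * (1 - γ) ^ (e + 1 + f)⌋₊ i0 with hFdef
      have hA0 : 0 ≤ b * (1 - γ) ^ e := (Nat.cast_nonneg _).trans hP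
      have hprod : 1 ≤ ∏ f ∈ range k, KW_Ch ⌊b * (1 - γ) ^ (e + 1 + f)⌋₊ i0 :=
        Nat.one_le_iff_ne_zero.2 (prod_ne_zero_iff.2 fun f _ =>
          Nat.one_le_iff_ne_zero.1 (KW_Ch_pos _ _))
      have hF : 2 ^ R0 ≤ F := Nat.le_mul_of_pos_right _ hprod
      have hF2 : ∀ P : Finset (Fin n), (P.card : ℝ) ≤ (1 - γ) * (b * (1 - γ) ^ e) →
          (inds G P).card ≤ F := by
        intro P' hP'
        refine ih (e + 1) (by omega) P' ?_
        calc (P'.card : ℝ) ≤ (1 - γ) * (b * (1 - γ) ^ e) := hP'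
          _ = b * (1 - γ) ^ (e + 1) := by rw [pow_succ]; ring
      have h2 := KW_epoch G R0 F (b * (1 - γ) ^ e) β γ hβ hdeg hF hF2 ⌊b * (1 - γ) ^ e⌋₊ i0 P
        (Nat.le_floor hP) (Nat.floor_le hA0) (by
          refine (Nat.floor_le hA0).trans ?_
          have h3 : γ * (b * (1 - γ) ^ e) ≤ i0 * (β * (1 - γ)) * (b * (1 - γ) ^ e) :=
            mul_le_mul_of_nonneg_right hi hA0
          nlinarith [h3])
      refine h2.trans (le_of_eq ?_)
      rw [prod_range_succ', hFdef]
      have h4 : ∏ f ∈ range k, KW_Ch ⌊b * (1 - γ) ^ (e + 1 + f)⌋₊ i0 =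
          ∏ f ∈ range k, KW_Ch ⌊b * (1 - γ) ^ (e + (f + 1))⌋₊ i0 :=
        prod_congr rfl fun f _ => by rw [show e + 1 + f = e + (f + 1) by omega]
      rw [h4, add_zero]
      ring
  have h := key Ep 0 (zero_add Ep) P (by rw [pow_zero, mul_one]; exact hP)
  unfold KW_Ch at h
  simp only [zero_add] at h
  exact_mod_cast h

end LKA
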