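import Mathlib

/-!
# LKA-LowNum: the real inequality behind the bound for vertices of low degree

Notation: `d = 2M/n`, `y = η μ0 n/(6M) = η μ0/(3d)`, `κ = y √(2M-1)`, `S0 = ⌈(μ0 n)²/(2M)⌉₊`.
Plan. `h20`: `S0 ≥ (μ0 n)²/(2M) ≥ 20/η ≥ 80`. For `S ≥ (μ0 n)²/(2M)` (real inequality) we have
`√S ≥ μ0 n/√(2M)`, so `y √(2M)/√S ≤ y 2M/(μ0 n) = η/3`, and
`t := κ/√(S-1) ≤ (η/3) √(S/(S-1)) ≤ 0.36 η ≤ 0.09` as `S ≥ 80`.
`(1-t)^r ≥ exp (- r t/(1-t))` (`Real.one_sub_inv_le_log_of_pos` for `1 - t`: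
`log (1-t) ≥ 1 - 1/(1-t) = -t/(1-t)`), `1/(1-t) ≤ 1 + 0.4 η`,
`r t ≤ l (1-η) (√(2MS)/n) y √(2M-1)/√(S-1) ≤ l (1-η) y (2M/n) √(S/(S-1))`,
`√(S/(S-1)) ≤ 1 + 1/(S-1) ≤ 1 + η/19`, and `(1-η)(1+0.4η)(1+η/19) ≤ 1 - η/4`.
For `low_num2` use `S = S0` in `t ≤ 0.09 < 1`.
-/

namespace LKA

/-- the bound `κ ≤ 0.36 η √(S-1)`. -/
private theorem kappa_le (n M : ℕ) (S η μ0 : ℝ) (hM : 0 < M) (hη : 0 < η)
    (hμ0 : 0 < μ0) (h80 : 80 ≤ S) (hS : (μ0 * n) ^ 2 / (2 * M) ≤ S) :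
    η * μ0 * n / (6 * M) * Real.sqrt (2 * M - 1) ≤ 9 / 25 * η * Real.sqrt (S - 1) := by
  have hM' : (1 : ℝ) ≤ M := by exact_mod_cast hM
  have hM0 : (0 : ℝ) < M := by linarith
  have hn0 : (0 : ℝ) ≤ n := Nat.cast_nonneg n
  have h1 : (μ0 * n) ^ 2 ≤ S * (2 * M) := by
    rw [div_le_iff₀ (by positivity)] at hS
    exact hS
  have ha : Real.sqrt (2 * M - 1) ^ 2 = 2 * M - 1 := Real.sq_sqrt (by linarith)
  have hb : Real.sqrt (S - 1) ^ 2 = S - 1 := Real.sq_sqrt (by linarith)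
  rw [← pow_le_pow_iff_left₀ (by positivity) (by positivity) (two_ne_zero)]
  rw [mul_pow, ha, mul_pow, hb]
  have h2 : (η * μ0 * n / (6 * M)) ^ 2 * (2 * M - 1) ≤ η ^ 2 * S / 9 := by
    have h3 : (η * μ0 * n / (6 * M)) ^ 2 = η ^ 2 * (μ0 * n) ^ 2 / (36 * M ^ 2) := by
      field_simp
      ring
    rw [h3, div_mul_eq_mul_div, div_le_iff₀ (by positivity)]
    have h4 : η ^ 2 * (μ0 * n) ^ 2 * (2 * M - 1) ≤ η ^ 2 * (S * (2 * M)) * (2 * M) := by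
      apply mul_le_mul
      · exact mul_le_mul_of_nonneg_left h1 (by positivity)
      · linarith
      · linarith
      · positivity
    calc η ^ 2 * (μ0 * n) ^ 2 * (2 * M - 1) ≤ η ^ 2 * (S * (2 * M)) * (2 * M) := h4
      _ = η ^ 2 * S / 9 * (36 * M ^ 2) := by ring
  refine h2.trans ?_
  have h5 : 0 < η ^ 2 := by positivity
  have h6 : S / 9 ≤ (9 / 25) ^ 2 * (S - 1) := by linarith
  calc η ^ 2 * S / 9 = η ^ 2 * (S / 9) := by ring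
    _ ≤ η ^ 2 * ((9 / 25) ^ 2 * (S - 1)) := mul_le_mul_of_nonneg_left h6 h5.le
    _ = (9 / 25 * η) ^ 2 * (S - 1) := by ring

private theorem eighty_le (η Q : ℝ) (hη : 0 < η) (hη1 : η ≤ 1 / 4) (h20 : 20 / η ≤ Q) : 80 ≤ Q := by
  refine le_trans ?_ h20
  rw [le_div_iff₀ hη]
  linarith

theorem low_num (n M S r l : ℕ) (η μ0 : ℝ) (hn : 0 < n) (hM : 0 < M) (hη : 0 < η)
    (hη1 : η ≤ 1 / 4) (hμ0 : 0 < μ0) (h20 : 20 / η ≤ (μ0 * n) ^ 2 / (2 * M))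
    (hS : (μ0 * n) ^ 2 / (2 * M) ≤ S)
    (hr : (r : ℝ) ≤ l * ((1 - η) * (Real.sqrt (2 * M * S) / n))) :
    Real.exp (-((1 - η / 4) * (η * μ0 * n / (6 * M) * l * (2 * M / n)))) ≤
      (1 - η * μ0 * n / (6 * M) * Real.sqrt (2 * M - 1) / Real.sqrt ((S : ℝ) - 1)) ^ r := by
  have hM' : (1 : ℝ) ≤ M := by exact_mod_cast hM
  have hM0 : (0 : ℝ) < M := by linarith
  have hn0 : (0 : ℝ) < n := by exact_mod_cast hn
  have hl0 : (0 : ℝ) ≤ l := Nat.cast_nonneg l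
  have hr0 : (0 : ℝ) ≤ r := Nat.cast_nonneg r
  have h80 : (80 : ℝ) ≤ S := (eighty_le η _ hη hη1 h20).trans hS
  have hkap := kappa_le n M S η μ0 hM hη hμ0 h80 hS
  have hb0 : 0 < Real.sqrt ((S : ℝ) - 1) := Real.sqrt_pos.2 (by linarith)
  have hb : Real.sqrt ((S : ℝ) - 1) ^ 2 = S - 1 := Real.sq_sqrt (by linarith)
  have ha : Real.sqrt (2 * M - 1) ^ 2 = 2 * (M : ℝ) - 1 := Real.sq_sqrt (by linarith)
  have ha0 : 0 ≤ Real.sqrt (2 * (M : ℝ) - 1) := Real.sqrt_nonneg _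
  set a := Real.sqrt (2 * (M : ℝ) - 1) with ha_def
  set b := Real.sqrt ((S : ℝ) - 1) with hb_def
  set t := η * μ0 * n / (6 * M) * a / b with ht_def
  have ht0 : 0 ≤ t := by positivity
  have ht1 : t ≤ 9 / 25 * η := by
    rw [ht_def, div_le_iff₀ hb0]
    exact hkap
  have ht2 : t < 1 := by linarith
  have h1t : 0 < 1 - t := by linarith
  -- the product of the square roots
  have hS1 : 19 / η ≤ (S : ℝ) - 1 := by
    have h1 : 20 / η ≤ (S : ℝ) := h20.trans hS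
    have h2 : 1 ≤ 1 / η := by
      rw [le_div_iff₀ hη]; linarith
    have h3 : 20 / η = 19 / η + 1 / η := by ring
    linarith
  have hS2 : (S : ℝ) ≤ (1 + η / 19) ^ 2 * (S - 1) := by
    have h1 : 19 ≤ ((S : ℝ) - 1) * η := by
      rwa [div_le_iff₀ hη] at hS1
    nlinarith [mul_nonneg (sq_nonneg (η / 19)) (show (0 : ℝ) ≤ (S : ℝ) - 1 by linarith)]
  have hprod : Real.sqrt (2 * M * S) * a ≤ 2 * M * (1 + η / 19) * b := by
    rw [← pow_le_pow_iff_left₀ (by positivity) (by positivity) (two_ne_zero)]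
    rw [mul_pow, ha, mul_pow, hb, Real.sq_sqrt (by positivity)]
    have h1 : (2 * (M : ℝ) * S) * (2 * M - 1) ≤ (2 * M * S) * (2 * M) :=
      mul_le_mul_of_nonneg_left (by linarith) (by positivity)
    refine h1.trans ?_
    calc (2 * (M : ℝ) * S) * (2 * M) = (2 * M) ^ 2 * S := by ring
      _ ≤ (2 * M) ^ 2 * ((1 + η / 19) ^ 2 * (S - 1)) := mul_le_mul_of_nonneg_left hS2 (by positivity)
      _ = (2 * M * (1 + η / 19)) ^ 2 * (S - 1) := by ring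
  have hrt : (r : ℝ) * t ≤ l * ((1 - η) * (η * μ0 / 3 * (1 + η / 19))) := by
    have h1 : (r : ℝ) * t ≤ l * ((1 - η) * (Real.sqrt (2 * M * S) / n)) * t :=
      mul_le_mul_of_nonneg_right hr ht0
    refine h1.trans ?_
    have h2 : l * ((1 - η) * (Real.sqrt (2 * M * S) / n)) * t =
        l * ((1 - η) * (η * μ0 / (6 * M * b) * (Real.sqrt (2 * M * S) * a))) := by
      rw [ht_def]
      field_simp
    rw [h2]
    have h3 : η * μ0 / (6 * M * b) * (Real.sqrt (2 * M * S) * a) ≤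
        η * μ0 / (6 * M * b) * (2 * M * (1 + η / 19) * b) :=
      mul_le_mul_of_nonneg_left hprod (by positivity)
    have h4 : η * μ0 / (6 * M * b) * (2 * M * (1 + η / 19) * b) = η * μ0 / 3 * (1 + η / 19) := by
      field_simp
      ring
    rw [h4] at h3
    exact mul_le_mul_of_nonneg_left (mul_le_mul_of_nonneg_left h3 (by linarith)) hl0
  have hfin : (r : ℝ) * (t / (1 - t)) ≤ (1 - η / 4) * (η * μ0 * n / (6 * M) * l * (2 * M / n)) := by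
    have h1 : η * μ0 * n / (6 * M) * l * (2 * M / n) = l * (η * μ0 / 3) := by
      field_simp
      ring
    rw [h1, mul_div_assoc', div_le_iff₀ h1t]
    refine hrt.trans ?_
    have h2 : (1 - η) * (1 + η / 19) ≤ (1 - η / 4) * (1 - t) := by
      have h3 : (1 - η / 4) * (1 - 9 / 25 * η) ≤ (1 - η / 4) * (1 - t) :=
        mul_le_mul_of_nonneg_left (by linarith) (by linarith)
      refine le_trans ?_ h3
      nlinarith [sq_nonneg η]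
    have h5 : 0 ≤ (l : ℝ) * (η * μ0 / 3) := by positivity
    calc (l : ℝ) * ((1 - η) * (η * μ0 / 3 * (1 + η / 19))) =
        (l * (η * μ0 / 3)) * ((1 - η) * (1 + η / 19)) := by ring
      _ ≤ (l * (η * μ0 / 3)) * ((1 - η / 4) * (1 - t)) := mul_le_mul_of_nonneg_left h2 h5
      _ = (1 - η / 4) * (l * (η * μ0 / 3)) * (1 - t) := by ring
  have hlog : -(t / (1 - t)) ≤ Real.log (1 - t) := by
    have h1 := Real.one_sub_inv_le_log_of_pos h1t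
    refine le_trans (le_of_eq ?_) h1
    field_simp
    ring
  have hpow : (1 - t) ^ r = Real.exp (r * Real.log (1 - t)) := by
    rw [mul_comm, Real.exp_mul, Real.exp_log h1t, Real.rpow_natCast]
  rw [hpow]
  apply Real.exp_le_exp.2
  have h1 : (r : ℝ) * -(t / (1 - t)) ≤ r * Real.log (1 - t) := mul_le_mul_of_nonneg_left hlog hr0
  rw [mul_neg] at h1
  linarith

theorem low_num2 (n M : ℕ) (η μ0 : ℝ) (hn : 0 < n) (hM : 0 < M) (hη : 0 < η)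
    (hη1 : η ≤ 1 / 4) (hμ0 : 0 < μ0) (h20 : 20 / η ≤ (μ0 * n) ^ 2 / (2 * M)) :
    4 ≤ ⌈(μ0 * n) ^ 2 / (2 * M)⌉₊ ∧
    η * μ0 * n / (6 * M) * Real.sqrt (2 * M - 1) <
      Real.sqrt ((⌈(μ0 * n) ^ 2 / (2 * M)⌉₊ : ℝ) - 1) := by
  have h1 : (80 : ℝ) ≤ (⌈(μ0 * n) ^ 2 / (2 * M)⌉₊ : ℝ) :=
    (eighty_le η _ hη hη1 h20).trans (Nat.le_ceil _)
  have h2 : 80 ≤ ⌈(μ0 * n) ^ 2 / (2 * M)⌉₊ := by exact_mod_cast h1
  refine ⟨by omega, ?_⟩
  have hkap := kappa_le n M (⌈(μ0 * n) ^ 2 / (2 * M)⌉₊ : ℝ) η μ0 hM hη hμ0 h1 (Nat.le_ceil _)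
  have hb0 : 0 < Real.sqrt ((⌈(μ0 * n) ^ 2 / (2 * M)⌉₊ : ℝ) - 1) := Real.sqrt_pos.2 (by linarith)
  refine lt_of_le_of_lt hkap ?_
  have h3 : 9 / 25 * η < 1 := by linarith
  calc 9 / 25 * η * Real.sqrt ((⌈(μ0 * n) ^ 2 / (2 * M)⌉₊ : ℝ) - 1) <
      1 * Real.sqrt ((⌈(μ0 * n) ^ 2 / (2 * M)⌉₊ : ℝ) - 1) := mul_lt_mul_of_pos_right h3 hb0
    _ = _ := one_mul _

end LKA
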