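import Pool.Agent.LKA.Mat

/-!
# LKA-Pot: the potential and the exposure of one vertex

Plan for `Zp_step`. If `S < S0 + 2` the left side is `0` (as `S - 2 < S0`) and the right side is
`≥ 0` (`0 ≤ 1 - κ / √(S-1)` if `S0 ≤ S`). Otherwise put `z = 1 - κ/√(S-1)`, `z' = 1 - κ/√(S-3)`,
`0 < z' ≤ z ≤ 1`. For `r = 0` equality. For `r ≥ 1`:
`r z'^(r-1) + (S-1-r) z'^r = z'^r ((S-1) + r (1/z' - 1)) = (S-1) z'^r (1 + r t)` with
`t = (1/z' - 1)/(S-1) ≥ 0`, and `1 + r t ≤ (1+t)^r` (`one_add_mul_le_pow`), so the left side is at most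
`(S-1) (z' (1+t))^r`, `z' (1+t) = z' + (1-z')/(S-1) = 1 - y' (S-2)/(S-1)` where `y' = κ/√(S-3)`.
Finally `y' (S-2)/(S-1) ≥ y = κ/√(S-1)`, i.e. `(S-2) √(S-1) ≥ (S-1) √(S-3)`, i.e.
`(S-2)^2 ≥ (S-1)(S-3)`.

Plan for `pot_vertex`. Induction on `A.card` (generalising `X, A, L`). `A = ∅`: equality. Otherwise
pick `a ∈ A`, use `sum_Mat` with `a`. For `b ∈ X.erase a`, `X' = (X.erase a).erase b`,
`A' = (A.erase a).erase b`, `L' = L.erase b`, and for `m' ∈ Mat X'`, `m = swap a b * m'`:
`X \ (A ∪ A.image m) = X' \ (A' ∪ A'.image m')` and `L \ A.image m = L' \ A'.image m'` (`a ∉ L`).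
Induction hypothesis: the inner sum is at most `(Mat X').card * Zp κ S0 (S-2) (L.erase b).card`,
`S = X.card`. There are `r = L.card` elements `b ∈ L` (there `(L.erase b).card = r - 1`) and
`S - 1 - r` others; apply `Zp_step` and `card_Mat` (`pm S = (S-1) pm (S-2)`; `S ≥ 2` or else
`X.erase a = ∅` and the sum is `0`).
-/

open scoped Classical
open Finset

namespace LKA

variable {α : Type} [Fintype α]

theorem Zp_nonneg {κ : ℝ} {S0 : ℕ} (hS0 : 4 ≤ S0) (hκ1 : κ < Real.sqrt ((S0 : ℝ) - 1)) (S r : ℕ) :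
    0 ≤ Zp κ S0 S r := by
  unfold Zp
  split_ifs with h
  · apply pow_nonneg
    have h1 : (S0 : ℝ) ≤ S := by exact_mod_cast h
    have h2 : (4 : ℝ) ≤ S0 := by exact_mod_cast hS0
    have h3 : Real.sqrt ((S0 : ℝ) - 1) ≤ Real.sqrt ((S : ℝ) - 1) :=
      Real.sqrt_le_sqrt (by linarith)
    have h4 : 0 < Real.sqrt ((S : ℝ) - 1) := Real.sqrt_pos.2 (by linarith)
    have h5 : κ / Real.sqrt ((S : ℝ) - 1) ≤ 1 := by
      rw [div_le_one h4]
      linarith
    linarith
  · exact le_rfl

private theorem Pot_pow {a s : ℝ} (ha : 0 ≤ a) (hs : 0 ≤ s) (k : ℕ) :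
    a ^ k * (a + (k + 1) * s) ≤ (a + s) ^ (k + 1) := by
  induction k with
  | zero => simp
  | succ k ih =>
    have h1 : a ^ k * (a + (k + 1) * s) * (a + s) ≤ (a + s) ^ (k + 1) * (a + s) :=
      mul_le_mul_of_nonneg_right ih (by linarith)
    have h2 : 0 ≤ a ^ k * ((k + 1) * s ^ 2) := by positivity
    rw [pow_succ (a + s) (k + 1)]
    refine le_trans ?_ h1
    push_cast
    rw [pow_succ a k]
    nlinarith

theorem Zp_step {κ : ℝ} {S0 S r : ℕ} (hκ : 0 ≤ κ) (hS0 : 4 ≤ S0)
    (hκ1 : κ < Real.sqrt ((S0 : ℝ) - 1)) (hS : 2 ≤ S) (hr : r + 1 ≤ S) :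
    (r : ℝ) * Zp κ S0 (S - 2) (r - 1) + ((S : ℝ) - 1 - r) * Zp κ S0 (S - 2) r ≤
      ((S : ℝ) - 1) * Zp κ S0 S r := by
  have hSR : (2 : ℝ) ≤ S := by exact_mod_cast hS
  by_cases hcase : S0 ≤ S - 2
  · have hcase2 : S0 ≤ S := by omega
    have h0 : (4 : ℝ) ≤ S0 := by exact_mod_cast hS0
    have h1 : (S0 : ℝ) + 2 ≤ S := by exact_mod_cast (by omega : S0 + 2 ≤ S)
    have hcast : ((S - 2 : ℕ) : ℝ) - 1 = S - 3 := by
      rw [Nat.cast_sub hS]
      push_cast
      ring
    unfold Zp
    rw [if_pos hcase, if_pos hcase, if_pos hcase2, hcast]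
    obtain ⟨z, hz⟩ : ∃ z, z = 1 - κ / Real.sqrt ((S : ℝ) - 3) := ⟨_, rfl⟩
    have hq : 0 < Real.sqrt ((S : ℝ) - 3) := Real.sqrt_pos.2 (by linarith)
    have hq1 : 0 < Real.sqrt ((S : ℝ) - 1) := Real.sqrt_pos.2 (by linarith)
    have hz0 : 0 ≤ z := by
      have h3 : Real.sqrt ((S0 : ℝ) - 1) ≤ Real.sqrt ((S : ℝ) - 3) :=
        Real.sqrt_le_sqrt (by linarith)
      have h5 : κ / Real.sqrt ((S : ℝ) - 3) ≤ 1 := by
        rw [div_le_one hq]
        linarith
      rw [hz]
      linarith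
    have hz1 : z ≤ 1 := by
      have : 0 ≤ κ / Real.sqrt ((S : ℝ) - 3) := by positivity
      rw [hz]
      linarith
    rw [← hz]
    rcases Nat.eq_zero_or_pos r with rfl | hr0
    · simp
    · obtain ⟨k, rfl⟩ := Nat.exists_eq_succ_of_ne_zero hr0.ne'
      have hN : (0 : ℝ) < (S : ℝ) - 1 := by linarith
      have e0 : k.succ - 1 = k := rfl
      rw [e0, Nat.succ_eq_add_one]
      obtain ⟨s, hs⟩ : ∃ s, s = (1 - z) / ((S : ℝ) - 1) := ⟨_, rfl⟩
      have hs0 : 0 ≤ s := by
        rw [hs]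
        exact div_nonneg (by linarith) hN.le
      have hs1 : s * ((S : ℝ) - 1) = 1 - z := by
        rw [hs, div_mul_cancel₀ _ hN.ne']
      have e1 : ((k + 1 : ℕ) : ℝ) * z ^ k + ((S : ℝ) - 1 - ((k + 1 : ℕ) : ℝ)) * z ^ (k + 1) =
          ((S : ℝ) - 1) * (z ^ k * (z + (k + 1) * s)) := by
        push_cast
        rw [pow_succ]
        linear_combination (-(z ^ k * (k + 1))) * hs1
      rw [e1]
      refine mul_le_mul_of_nonneg_left ?_ hN.le
      refine (Pot_pow hz0 hs0 k).trans ?_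
      refine pow_le_pow_left₀ (by linarith) ?_ (k + 1)
      -- `z + s ≤ 1 - κ / √(S - 1)`
      have h6 : κ / Real.sqrt ((S : ℝ) - 1) ≤
          κ / Real.sqrt ((S : ℝ) - 3) * (((S : ℝ) - 2) / ((S : ℝ) - 1)) := by
        rw [div_mul_div_comm, div_le_div_iff₀ hq1 (by positivity)]
        have h7 : Real.sqrt ((S : ℝ) - 3) * ((S : ℝ) - 1) ≤
            ((S : ℝ) - 2) * Real.sqrt ((S : ℝ) - 1) := by
          have h8 : 0 ≤ ((S : ℝ) - 2) * Real.sqrt ((S : ℝ) - 1) :=
            mul_nonneg (by linarith) hq1.le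
          refine abs_le_of_sq_le_sq' ?_ h8 |>.2
          rw [mul_pow, mul_pow, Real.sq_sqrt (by linarith), Real.sq_sqrt (by linarith)]
          nlinarith
        calc κ * (Real.sqrt ((S : ℝ) - 3) * ((S : ℝ) - 1))
            ≤ κ * (((S : ℝ) - 2) * Real.sqrt ((S : ℝ) - 1)) := mul_le_mul_of_nonneg_left h7 hκ
          _ = _ := by ring
      have h9 : z + s = 1 - κ / Real.sqrt ((S : ℝ) - 3) * (((S : ℝ) - 2) / ((S : ℝ) - 1)) := by
        have e2 : κ / Real.sqrt ((S : ℝ) - 3) = 1 - z := by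
          rw [hz]
          ring
        rw [e2, hs]
        field_simp
        ring
      rw [h9]
      linarith
  · have e1 : ∀ r, Zp κ S0 (S - 2) r = 0 := by
      intro r
      unfold Zp
      rw [if_neg hcase]
    rw [e1, e1, mul_zero, mul_zero, add_zero]
    exact mul_nonneg (by linarith) (Zp_nonneg hS0 hκ1 S r)

private theorem Pot_img {X A : Finset α} {a b : α} (hA : A ⊆ X) (ha : a ∈ A)
    (hb : b ∈ X.erase a) {m' : Equiv.Perm α} (hm : m' ∈ Mat ((X.erase a).erase b)) :
    b ∈ A.image (Equiv.swap a b * m') ∧ ∀ x ∈ (X.erase a).erase b,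
      (x ∈ A.image (Equiv.swap a b * m') ↔ x ∈ ((A.erase a).erase b).image m') := by
  obtain ⟨h1, h2⟩ := mem_Mat.1 hm
  have hba : b ≠ a := (mem_erase.1 hb).1
  have ma : m' a = a := by
    by_contra h
    have := (h2 a).1 h
    simp at this
  have mb : m' b = b := by
    by_contra h
    have := (h2 b).1 h
    simp at this
  have hin : ∀ y ∈ (X.erase a).erase b, m' y ∈ (X.erase a).erase b := by
    intro y hy
    have h3 := (h2 y).2 hy
    refine (h2 (m' y)).1 ?_
    rw [h1]
    exact fun h => h3 h.symm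
  have hsw : ∀ y ∈ (X.erase a).erase b, (Equiv.swap a b * m') y = m' y := by
    intro y hy
    have h3 := hin y hy
    rw [Equiv.Perm.mul_apply]
    rw [mem_erase, mem_erase] at h3
    exact Equiv.swap_apply_of_ne_of_ne h3.2.1 h3.1
  have hswa : (Equiv.swap a b * m') a = b := by
    rw [Equiv.Perm.mul_apply, ma, Equiv.swap_apply_left]
  have hswb : (Equiv.swap a b * m') b = a := by
    rw [Equiv.Perm.mul_apply, mb, Equiv.swap_apply_right]
  refine ⟨mem_image.2 ⟨a, ha, hswa⟩, fun x hx => ?_⟩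
  have hx2 := hx
  rw [mem_erase, mem_erase] at hx2
  constructor
  · intro h
    obtain ⟨y, hy, hyx⟩ := mem_image.1 h
    have hya : y ≠ a := by
      rintro rfl
      rw [hswa] at hyx
      exact hx2.1 hyx.symm
    have hyb : y ≠ b := by
      rintro rfl
      rw [hswb] at hyx
      exact hx2.2.1 hyx.symm
    refine mem_image.2 ⟨y, mem_erase.2 ⟨hyb, mem_erase.2 ⟨hya, hy⟩⟩, ?_⟩
    rw [← hyx, hsw]
    exact mem_erase.2 ⟨hyb, mem_erase.2 ⟨hya, hA hy⟩⟩
  · intro h
    obtain ⟨y, hy, hyx⟩ := mem_image.1 h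
    rw [mem_erase, mem_erase] at hy
    refine mem_image.2 ⟨y, hy.2.2, ?_⟩
    rw [hsw, hyx]
    exact mem_erase.2 ⟨hy.1, mem_erase.2 ⟨hy.2.1, hA hy.2.2⟩⟩

private theorem Pot_aux {κ : ℝ} {S0 : ℕ} (hκ : 0 ≤ κ) (hS0 : 4 ≤ S0)
    (hκ1 : κ < Real.sqrt ((S0 : ℝ) - 1)) (n : ℕ) :
    ∀ (X A L : Finset α), A.card ≤ n → A ⊆ X → L ⊆ X → Disjoint A L →
      ∑ m ∈ Mat X, Zp κ S0 (X \ (A ∪ A.image m)).card (L \ A.image m).card ≤
        (Mat X).card * Zp κ S0 X.card L.card := by
  induction n with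
  | zero =>
    intro X A L hn hA hL hd
    have hA0 : A = ∅ := by
      rw [← card_eq_zero]
      omega
    subst hA0
    simp
  | succ n ih =>
    intro X A L hn hA hL hd
    rcases A.eq_empty_or_nonempty with rfl | ⟨a, ha⟩
    · simp
    have haX := hA ha
    have haL : a ∉ L := fun h => (disjoint_left.1 hd) ha h
    rw [sum_Mat haX]
    have hnn : 0 ≤ ((Mat X).card : ℝ) * Zp κ S0 X.card L.card :=
      mul_nonneg (Nat.cast_nonneg _) (Zp_nonneg hS0 hκ1 _ _)
    by_cases hS : 2 ≤ X.card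
    swap
    · have h1 : X.card = 1 := by
        have : 0 < X.card := card_pos.2 ⟨a, haX⟩
        omega
      have h2 : X.erase a = ∅ := by
        rw [← card_eq_zero, card_erase_of_mem haX, h1]
      rw [h2, sum_empty]
      exact hnn
    have hinner : ∀ b ∈ X.erase a, ∑ m ∈ Mat ((X.erase a).erase b),
        Zp κ S0 (X \ (A ∪ A.image (Equiv.swap a b * m))).card
          (L \ A.image (Equiv.swap a b * m)).card ≤
        (pm (X.card - 2) : ℝ) * Zp κ S0 (X.card - 2) (L.erase b).card := by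
      intro b hb
      have hcard : ((X.erase a).erase b).card = X.card - 2 := by
        rw [card_erase_of_mem hb, card_erase_of_mem haX]
        omega
      have h1 := ih ((X.erase a).erase b) ((A.erase a).erase b) (L.erase b) (by
          have h2 := card_erase_le (s := A.erase a) (a := b)
          have h3 := card_erase_of_mem ha
          omega)
        (erase_subset_erase _ (erase_subset_erase _ hA))
        (by
          intro x hx
          rw [mem_erase] at hx
          refine mem_erase.2 ⟨hx.1, mem_erase.2 ⟨?_, hL hx.2⟩⟩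
          rintro rfl
          exact haL hx.2)
        (by
          rw [disjoint_left]
          intro x hx hx2
          rw [mem_erase, mem_erase] at hx
          rw [mem_erase] at hx2
          exact (disjoint_left.1 hd) hx.2.2 hx2.2)
      rw [card_Mat, hcard] at h1
      refine le_trans (le_of_eq ?_) h1
      refine sum_congr rfl fun m hm => ?_
      obtain ⟨hb1, himg⟩ := Pot_img hA ha hb hm
      have e1 : X \ (A ∪ A.image (Equiv.swap a b * m)) =
          (X.erase a).erase b \ ((A.erase a).erase b ∪ ((A.erase a).erase b).image m) := by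
        ext x
        rw [mem_sdiff, mem_sdiff, mem_union, mem_union]
        constructor
        · rintro ⟨hx, hx2⟩
          rw [not_or] at hx2
          have hxa : x ≠ a := by
            rintro rfl
            exact hx2.1 ha
          have hxb : x ≠ b := by
            rintro rfl
            exact hx2.2 hb1
          have hx' : x ∈ (X.erase a).erase b := mem_erase.2 ⟨hxb, mem_erase.2 ⟨hxa, hx⟩⟩
          refine ⟨hx', ?_⟩
          rw [not_or, ← himg x hx']
          refine ⟨fun h => hx2.1 ?_, hx2.2⟩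
          rw [mem_erase, mem_erase] at h
          exact h.2.2
        · rintro ⟨hx, hx2⟩
          rw [not_or, ← himg x hx] at hx2
          rw [mem_erase, mem_erase] at hx
          refine ⟨hx.2.2, ?_⟩
          rw [not_or]
          exact ⟨fun h => hx2.1 (mem_erase.2 ⟨hx.1, mem_erase.2 ⟨hx.2.1, h⟩⟩), hx2.2⟩
      have e2 : L \ A.image (Equiv.swap a b * m) =
          L.erase b \ ((A.erase a).erase b).image m := by
        ext x
        rw [mem_sdiff, mem_sdiff, mem_erase]
        constructor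
        · rintro ⟨hx, hx2⟩
          have hxa : x ≠ a := by
            rintro rfl
            exact haL hx
          have hxb : x ≠ b := by
            rintro rfl
            exact hx2 hb1
          have hx' : x ∈ (X.erase a).erase b := mem_erase.2 ⟨hxb, mem_erase.2 ⟨hxa, hL hx⟩⟩
          refine ⟨⟨hxb, hx⟩, ?_⟩
          rw [← himg x hx']
          exact hx2
        · rintro ⟨⟨hxb, hx⟩, hx2⟩
          have hxa : x ≠ a := by
            rintro rfl
            exact haL hx
          have hx' : x ∈ (X.erase a).erase b := mem_erase.2 ⟨hxb, mem_erase.2 ⟨hxa, hL hx⟩⟩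
          rw [← himg x hx'] at hx2
          exact ⟨hx, hx2⟩
      rw [e1, e2]
    refine (sum_le_sum hinner).trans ?_
    rw [← mul_sum]
    -- count
    have hLX : L ⊆ X.erase a := by
      intro x hx
      refine mem_erase.2 ⟨?_, hL hx⟩
      rintro rfl
      exact haL hx
    have hsplit : ∑ b ∈ X.erase a, Zp κ S0 (X.card - 2) (L.erase b).card =
        (L.card : ℝ) * Zp κ S0 (X.card - 2) (L.card - 1) +
          ((X.card : ℝ) - 1 - L.card) * Zp κ S0 (X.card - 2) L.card := by
      rw [← sum_sdiff hLX]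
      have h3 : ∑ b ∈ (X.erase a) \ L, Zp κ S0 (X.card - 2) (L.erase b).card =
          ((X.card : ℝ) - 1 - L.card) * Zp κ S0 (X.card - 2) L.card := by
        rw [sum_congr rfl (g := fun _ => Zp κ S0 (X.card - 2) L.card)]
        · rw [sum_const, nsmul_eq_mul, card_sdiff_of_subset hLX, card_erase_of_mem haX]
          have h4 := card_le_card hLX
          rw [card_erase_of_mem haX] at h4
          rw [Nat.cast_sub h4, Nat.cast_sub (by omega)]
          push_cast
          ring
        · intro b hb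
          rw [erase_eq_of_notMem (mem_sdiff.1 hb).2]
      have h5 : ∑ b ∈ L, Zp κ S0 (X.card - 2) (L.erase b).card =
          (L.card : ℝ) * Zp κ S0 (X.card - 2) (L.card - 1) := by
        rw [sum_congr rfl (g := fun _ => Zp κ S0 (X.card - 2) (L.card - 1))]
        · rw [sum_const, nsmul_eq_mul]
        · intro b hb
          rw [card_erase_of_mem hb]
      rw [h3, h5]
      ring
    rw [hsplit, card_Mat]
    have hLc : L.card + 1 ≤ X.card := by
      have h4 := card_le_card hLX
      rw [card_erase_of_mem haX] at h4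
      omega
    have hst := Zp_step (r := L.card) hκ hS0 hκ1 hS hLc
    have hpm : (pm X.card : ℝ) = ((X.card : ℝ) - 1) * pm (X.card - 2) := by
      obtain ⟨k, hk⟩ : ∃ k, X.card = k + 2 := ⟨X.card - 2, by omega⟩
      rw [hk, Nat.add_sub_cancel]
      have : pm (k + 2) = (k + 1) * pm k := rfl
      rw [this]
      push_cast
      ring
    rw [hpm]
    calc (pm (X.card - 2) : ℝ) * ((L.card : ℝ) * Zp κ S0 (X.card - 2) (L.card - 1) +
          ((X.card : ℝ) - 1 - L.card) * Zp κ S0 (X.card - 2) L.card)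
        ≤ (pm (X.card - 2) : ℝ) * (((X.card : ℝ) - 1) * Zp κ S0 X.card L.card) :=
          mul_le_mul_of_nonneg_left hst (Nat.cast_nonneg _)
      _ = _ := by ring

theorem pot_vertex {κ : ℝ} {S0 : ℕ} (hκ : 0 ≤ κ) (hS0 : 4 ≤ S0)
    (hκ1 : κ < Real.sqrt ((S0 : ℝ) - 1)) {X A L : Finset α} (hA : A ⊆ X) (hL : L ⊆ X)
    (hd : Disjoint A L) :
    ∑ m ∈ Mat X, Zp κ S0 (X \ (A ∪ A.image m)).card (L \ A.image m).card ≤
      (Mat X).card * Zp κ S0 X.card L.card :=
  Pot_aux hκ hS0 hκ1 A.card X A L le_rfl hA hL hd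

end LKA
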