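import Pool.Agent.LKA.Cls
import Pool.Agent.LKA.Pot

/-!
# LKA-Proc: the potential along the exploration

Plan. Induction on `s`. `s = 0`: `R = ∅`, `X = univ`, every term equals
`Zp κ S0 (card α) (univ.filter (o x ∈ L)).card`. Step: by `class_sum_le` (at time `s`) it is enough
to compare `∑ Phi (s+1)` and `∑ Phi s` on `st.cls s m0`. On the class `R s`, `v s`, `X s` are constant
(`cls_R`, `cls_v`, `cls_X`), `R (s+1) m = insert (v s m0) (R s m0)` (`range_succ`).
If `L` meets `R s m0` or `v s m0 ∈ L` then `Phi (s+1) = 0` on the class and `Phi s ≥ 0`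
(`Zp_nonneg`). Otherwise, with `X = st.X s m0`, `A = X.filter (o x = v s m0)`,
`L' = X.filter (o x ∈ L)`: for `m` in the class
`st.X (s+1) m = X \ (A ∪ A.image m)` and its elements with `o x ∈ L` form `L' \ A.image m`
(use `m (m x) = x`; for `x ∈ X`: `o (m x) = v s m0 ↔ m x ∈ A ↔ x ∈ A.image m`).
`sum_cls` (the function depends only on `m` on `X`, as `A ⊆ X`) and `pot_vertex` give
`∑ Phi (s+1) ≤ (Mat X).card * Zp κ S0 X.card L'.card = ∑ Phi s` over the class (`sum_cls` for the
constant function gives `(Mat X).card = (cls s m0).card`).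
-/

open scoped Classical
open Finset

namespace LKA

namespace MStrat

variable {α V : Type} [Fintype α] {o : α → V}

noncomputable def Phi (st : MStrat α V o) (κ : ℝ) (S0 : ℕ) (L : Finset V) (s : ℕ)
    (m : Equiv.Perm α) : ℝ :=
  if Disjoint L (st.R s m) then
    Zp κ S0 (st.X s m).card ((st.X s m).filter (fun x => o x ∈ L)).card
  else 0

private theorem mem_X (st : MStrat α V o) (s : ℕ) (m : Equiv.Perm α) (x : α) :
    x ∈ st.X s m ↔ o x ∉ st.R s m ∧ o (m x) ∉ st.R s m := by
  unfold X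
  rw [Finset.mem_filter]
  exact ⟨fun h => h.2, fun h => ⟨Finset.mem_univ _, h⟩⟩

private theorem R_succ (st : MStrat α V o) (s : ℕ) (m : Equiv.Perm α) :
    st.R (s + 1) m = insert (st.v s m) (st.R s m) := by
  unfold R
  rw [Finset.range_add_one, Finset.image_insert]

private theorem step_X (st : MStrat α V o) {s : ℕ} {m0 m : Equiv.Perm α}
    (hm0 : m0 ∈ Mat (univ : Finset α)) (hm : m ∈ st.cls s m0) :
    st.X (s + 1) m = st.X s m0 \ ((st.X s m0).filter (fun x => o x = st.v s m0) ∪
      ((st.X s m0).filter (fun x => o x = st.v s m0)).image m) := by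
  have hmM : m ∈ Mat (univ : Finset α) := by
    unfold cls at hm
    exact (Finset.mem_filter.1 hm).1
  have hinv := (mem_Mat.1 hmM).1
  have hv : st.v s m = st.v s m0 := st.cls_v hm0 hm le_rfl
  have hX : st.X s m = st.X s m0 := st.cls_X hm0 hm
  rw [← hX, ← hv]
  ext x
  rw [mem_X, R_succ, Finset.mem_sdiff, Finset.mem_union, Finset.mem_filter, Finset.mem_image,
    mem_X]
  constructor
  · rintro ⟨h1, h2⟩
    rw [Finset.mem_insert, not_or] at h1 h2
    refine ⟨⟨h1.2, h2.2⟩, ?_⟩
    rintro (h3 | ⟨y, hy, hyx⟩)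
    · exact h1.1 h3.2
    · rw [Finset.mem_filter] at hy
      apply h2.1
      rw [← hyx, hinv]
      exact hy.2
  · rintro ⟨⟨h1, h2⟩, h3⟩
    rw [not_or] at h3
    rw [Finset.mem_insert, not_or, Finset.mem_insert, not_or]
    refine ⟨⟨fun h => h3.1 ⟨⟨h1, h2⟩, h⟩, h1⟩, ⟨fun h => h3.2 ⟨m x, ?_, hinv x⟩, h2⟩⟩
    rw [Finset.mem_filter, mem_X]
    refine ⟨⟨h2, ?_⟩, h⟩
    rw [hinv]
    exact h1

private theorem step_L (st : MStrat α V o) {s : ℕ} {m0 m : Equiv.Perm α} {L : Finset V}
    (hL : st.v s m0 ∉ L)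
    (hm0 : m0 ∈ Mat (univ : Finset α)) (hm : m ∈ st.cls s m0) :
    (st.X (s + 1) m).filter (fun x => o x ∈ L) = (st.X s m0).filter (fun x => o x ∈ L) \
      ((st.X s m0).filter (fun x => o x = st.v s m0)).image m := by
  rw [step_X st hm0 hm]
  ext x
  rw [Finset.mem_filter, Finset.mem_sdiff, Finset.mem_sdiff, Finset.mem_union, not_or,
    Finset.mem_filter, Finset.mem_filter]
  constructor
  · rintro ⟨⟨h1, h2, h3⟩, h4⟩
    exact ⟨⟨h1, h4⟩, h3⟩
  · rintro ⟨⟨h1, h2⟩, h3⟩
    exact ⟨⟨h1, fun h => hL (h.2 ▸ h2), h3⟩, h2⟩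

private theorem step_class (st : MStrat α V o) {κ : ℝ} {S0 : ℕ} (hκ : 0 ≤ κ) (hS0 : 4 ≤ S0)
    (hκ1 : κ < Real.sqrt ((S0 : ℝ) - 1)) (L : Finset V) (s : ℕ) (m0 : Equiv.Perm α)
    (hm0 : m0 ∈ Mat (univ : Finset α)) :
    ∑ m ∈ st.cls s m0, st.Phi κ S0 L (s + 1) m ≤ ∑ m ∈ st.cls s m0, st.Phi κ S0 L s m := by
  by_cases hd : Disjoint L (insert (st.v s m0) (st.R s m0))
  · rw [Finset.disjoint_insert_right] at hd
    obtain ⟨hvL, hdR⟩ := hd
    have h1 : ∀ m ∈ st.cls s m0, st.Phi κ S0 L (s + 1) m =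
        Zp κ S0 (st.X s m0 \ ((st.X s m0).filter (fun x => o x = st.v s m0) ∪
          ((st.X s m0).filter (fun x => o x = st.v s m0)).image m)).card
          ((st.X s m0).filter (fun x => o x ∈ L) \
            ((st.X s m0).filter (fun x => o x = st.v s m0)).image m).card := by
      intro m hm
      unfold Phi
      rw [R_succ, st.cls_v hm0 hm le_rfl, st.cls_R hm0 hm, step_L st hvL hm0 hm,
        step_X st hm0 hm, if_pos (Finset.disjoint_insert_right.2 ⟨hvL, hdR⟩)]
    have h2 : ∀ m ∈ st.cls s m0, st.Phi κ S0 L s m =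
        Zp κ S0 (st.X s m0).card ((st.X s m0).filter (fun x => o x ∈ L)).card := by
      intro m hm
      unfold Phi
      rw [st.cls_R hm0 hm, st.cls_X hm0 hm, if_pos hdR]
    rw [Finset.sum_congr rfl h1, Finset.sum_congr rfl h2]
    rw [st.sum_cls hm0 (fun m => Zp κ S0 (st.X s m0 \ ((st.X s m0).filter
      (fun x => o x = st.v s m0) ∪ ((st.X s m0).filter (fun x => o x = st.v s m0)).image m)).card
          ((st.X s m0).filter (fun x => o x ∈ L) \
            ((st.X s m0).filter (fun x => o x = st.v s m0)).image m).card)]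
    · rw [st.sum_cls hm0 (fun _ => Zp κ S0 (st.X s m0).card
        ((st.X s m0).filter (fun x => o x ∈ L)).card) (fun _ _ _ => rfl)]
      rw [Finset.sum_const, nsmul_eq_mul]
      refine pot_vertex hκ hS0 hκ1 (Finset.filter_subset _ _) (Finset.filter_subset _ _) ?_
      rw [Finset.disjoint_left]
      intro x hx hx2
      rw [Finset.mem_filter] at hx hx2
      exact hvL (hx.2 ▸ hx2.2)
    · intro m m' hmm
      have himg : ((st.X s m0).filter (fun x => o x = st.v s m0)).image m =
          ((st.X s m0).filter (fun x => o x = st.v s m0)).image m' := by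
        apply Finset.image_congr
        intro x hx
        have hx' := Finset.mem_coe.1 hx
        rw [Finset.mem_filter] at hx'
        exact hmm x hx'.1
      simp only [himg]
  · have h1 : ∀ m ∈ st.cls s m0, st.Phi κ S0 L (s + 1) m = 0 := by
      intro m hm
      unfold Phi
      rw [R_succ, st.cls_v hm0 hm le_rfl, st.cls_R hm0 hm, if_neg hd]
    rw [Finset.sum_congr rfl h1, Finset.sum_const_zero]
    apply Finset.sum_nonneg
    intro m _
    unfold Phi
    split_ifs
    · exact Zp_nonneg hS0 hκ1 _ _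
    · exact le_rfl

theorem process (st : MStrat α V o) {κ : ℝ} {S0 : ℕ} (hκ : 0 ≤ κ) (hS0 : 4 ≤ S0)
    (hκ1 : κ < Real.sqrt ((S0 : ℝ) - 1)) (L : Finset V) (s : ℕ) :
    ∑ m ∈ Mat (univ : Finset α), st.Phi κ S0 L s m ≤
      (Mat (univ : Finset α)).card *
        Zp κ S0 (Fintype.card α) ((univ : Finset α).filter (fun x => o x ∈ L)).card := by
  induction s with
  | zero =>
    have hR : ∀ m : Equiv.Perm α, st.R 0 m = ∅ := by
      intro m
      unfold R
      simp
    have hX : ∀ m : Equiv.Perm α, st.X 0 m = univ := by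
      intro m
      unfold X
      rw [hR]
      simp
    have h1 : ∀ m ∈ Mat (univ : Finset α), st.Phi κ S0 L 0 m =
        Zp κ S0 (Fintype.card α) ((univ : Finset α).filter (fun x => o x ∈ L)).card := by
      intro m _
      unfold Phi
      rw [hR, hX, if_pos (Finset.disjoint_empty_right L), Finset.card_univ]
    rw [Finset.sum_congr rfl h1, Finset.sum_const, nsmul_eq_mul]
  | succ s ih =>
    refine le_trans ?_ ih
    exact st.class_sum_le s _ _ (fun m0 hm0 => step_class st hκ hS0 hκ1 L s m0 hm0)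

end MStrat

end LKA
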