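import Pool.Agent.LKA.Ext
import Pool.Agent.LKA.Proc
import Pool.Agent.LKA.Cnt
import Pool.Agent.LKA.LowNum

/-!
# LKA-Low: few vertices of low residual degree

Plan. Put `d = 2M/n`, `y = η μ0 n / (6 M)`, `S0 = ⌈(μ0 n)²/(2M)⌉₊` (so
`μ0 ≤ √(2 M S)/n ↔ (μ0 n)²/(2M) ≤ S ↔ S0 ≤ S` for natural `S`), `κ = y √(2M - 1)`
(`low_num2`: `4 ≤ S0`, `κ < √(S0-1)`). Fix `D` with `∑ D = 2M` and `st` from `exists_strat`. For a
simple `m` with `Bad1 .. s (gr m)` pick `L ⊆ low`, `L.card = l`
(`Finset.exists_subset_card_eq`); then with `R = E.rv (gr m) s = st.R s m`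
(`strat_R`): `Disjoint L R`, `S := (st.X s m).card = stubs (gr m) R` (`stubs_gr`), `S0 ≤ S`, and
`r := ((st.X s m).filter (x.1 ∈ L)).card = ∑_{w ∈ L} res (gr m) R w ≤ l (1-η) √(2MS)/n` (`res_gr`).
So `Phi κ S0 L s m = (1 - κ/√(S-1))^r ≥ exp (-(1-η/4) y l d)` (`low_num`).
Hence the number of bad simple `m` is at most
`exp ((1-η/4) y l d) ∑_{L} ∑_m Phi κ S0 L s m ≤ exp (..) ∑_L card (Mat univ) * (1-y)^(∑_{v∈L} D v)`
by `MStrat.process` (`Phi ≥ 0` by `Zp_nonneg`; `Fintype.card (Stub D) = 2M`,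
`Zp κ S0 (2M) r ≤ (1 - κ/√(2M-1))^r = (1-y)^r`, because `0 ≤ 1 - y`: `y = η μ0/(3d) ≤ η/3` by `hμd`;
the number of stubs with `x.1 ∈ L` is `∑_{v ∈ L} D v`).
Then `cnt_le` with `p D = exp (..) * ∑_L (1-y)^(..)` and `sum_multinomial_low`:
`cnt * (2^M M!) ≤ exp ((1-η/4) y l d) * C(n,l) * (n - l y)^(2M)`. If `l > n` then `C(n,l) = 0`;
otherwise `0 ≤ n - l y` and `(n - l y)^(2M) ≤ n^(2M) exp (-l y d)`; `(η/4) y l d = η² μ0 l / 12`.
-/

open scoped Classical
open Finset

namespace LKA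

variable {n : ℕ}

private theorem card_stub {D : Fin n → ℕ} {M : ℕ} (hD : ∑ v, D v = 2 * M) :
    Fintype.card (Stub D) = 2 * M := by
  rw [Fintype.card_sigma, ← hD]
  exact Finset.sum_congr rfl fun v _ => Fintype.card_fin (D v)

private theorem card_filter_inst {α : Type} (t : Finset α) (p : α → Prop)
    (d1 d2 : DecidablePred p) :
    (@Finset.filter α p d1 t).card = (@Finset.filter α p d2 t).card := by
  rw [Subsingleton.elim d1 d2]

private theorem of_mem_filter {α : Type} {t : Finset α} {p : α → Prop} {d : DecidablePred p}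
    {x : α} (h : x ∈ @Finset.filter α p d t) : p x :=
  (Finset.mem_filter.1 h).2

private theorem card_stub_in (D : Fin n → ℕ) (L : Finset (Fin n)) :
    ((univ : Finset (Stub D)).filter (fun x => x.1 ∈ L)).card = ∑ v ∈ L, D v := by
  have h : (univ : Finset (Stub D)).filter (fun x => x.1 ∈ L) =
      L.sigma (fun v => (univ : Finset (Fin (D v)))) := by
    ext x
    simp
  rw [h, Finset.card_sigma]
  exact Finset.sum_congr rfl fun v _ => by rw [Finset.card_univ, Fintype.card_fin]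

private theorem phi_nonneg {D : Fin n → ℕ} (st : MStrat (Stub D) (Fin n) (fun x => x.1)) {κ : ℝ}
    {S0 : ℕ} (hS0 : 4 ≤ S0) (hκ1 : κ < Real.sqrt ((S0 : ℝ) - 1)) (L : Finset (Fin n)) (s : ℕ)
    (m : Equiv.Perm (Stub D)) : 0 ≤ st.Phi κ S0 L s m := by
  unfold MStrat.Phi
  split_ifs
  · exact Zp_nonneg hS0 hκ1 _ _
  · exact le_rfl

/-- a bad matching has a large potential for one set `L` -/
private theorem phi_lower (E : Explorer n) (M : ℕ) (η μ0 : ℝ) (l s : ℕ) (hn : 0 < n) (hM : 0 < M)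
    (hη : 0 < η) (hη1 : η ≤ 1 / 4) (hμ0 : 0 < μ0)
    (h20 : 20 / η ≤ (μ0 * n) ^ 2 / (2 * M)) (hs : s ≤ n) {D : Fin n → ℕ}
    (st : MStrat (Stub D) (Fin n) (fun x => x.1))
    (hst : ∀ m ∈ Mat (univ : Finset (Stub D)), Simp m → ∀ i < n, st.v i m = E.next (gr m) i)
    {m : Equiv.Perm (Stub D)} (hm : m ∈ Mat (univ : Finset (Stub D))) (hsi : Simp m)
    (hB : Bad1 M η μ0 l E s (gr m)) :
    ∃ L ∈ (univ : Finset (Fin n)).powersetCard l,
      Real.exp (-((1 - η / 4) * (η * μ0 * n / (6 * M) * l * (2 * M / n)))) ≤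
        st.Phi (η * μ0 * n / (6 * M) * Real.sqrt (2 * M - 1)) ⌈(μ0 * n) ^ 2 / (2 * M)⌉₊ L s m := by
  obtain ⟨hmu, hlow⟩ := hB
  obtain ⟨L, hLs, hLc⟩ := Finset.exists_subset_card_eq hlow
  have hn' : (0 : ℝ) < n := by exact_mod_cast hn
  have hM' : (0 : ℝ) < M := by exact_mod_cast hM
  have hR := strat_R E st hst hm hsi hs
  set R := E.rv (gr m) s with hRdef
  have hLR : ∀ w ∈ L, w ∉ R := by
    intro w hw
    have h1 := hLs hw
    rw [low, Finset.mem_filter] at h1
    exact Finset.mem_compl.1 h1.1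
  have hdis : Disjoint L (st.R s m) := by
    rw [hR, Finset.disjoint_left]
    exact hLR
  have hXc : (st.X s m).card = stubs (gr m) R := by
    rw [stubs_gr hm hsi, MStrat.X, hR]
    exact card_filter_inst _ _ _ _
  -- the number of stubs
  have hS : (μ0 * n) ^ 2 / (2 * M) ≤ (stubs (gr m) R : ℝ) := by
    have h1 : μ0 * n ≤ Real.sqrt (2 * M * stubs (gr m) R) := by
      rw [mu, le_div_iff₀ hn'] at hmu
      exact hmu
    have h2 : (μ0 * n) ^ 2 ≤ 2 * M * stubs (gr m) R := by
      have h3 : (0 : ℝ) ≤ 2 * M * stubs (gr m) R := by positivity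
      calc (μ0 * n) ^ 2 ≤ (Real.sqrt (2 * M * stubs (gr m) R)) ^ 2 :=
            pow_le_pow_left₀ (by positivity) h1 2
        _ = _ := Real.sq_sqrt h3
    rw [div_le_iff₀ (by positivity)]
    linarith
  have hS0S : ⌈(μ0 * n) ^ 2 / (2 * M)⌉₊ ≤ (st.X s m).card := by
    rw [hXc]
    exact Nat.ceil_le.2 hS
  -- the number of stubs in `L`
  have hr : (((st.X s m).filter (fun x => x.1 ∈ L)).card : ℝ) ≤
      l * ((1 - η) * (Real.sqrt (2 * M * (stubs (gr m) R : ℕ)) / n)) := by
    have h1 : ((st.X s m).filter (fun x => x.1 ∈ L)).card =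
        ∑ w ∈ L, (((st.X s m).filter (fun x => x.1 ∈ L)).filter (fun x => x.1 = w)).card :=
      Finset.card_eq_sum_card_fiberwise (f := fun x : Stub D => x.1)
        (fun x hx => (Finset.mem_filter.1 hx).2)
    have h2 : ∀ w ∈ L, ((((st.X s m).filter (fun x => x.1 ∈ L)).filter
        (fun x => x.1 = w)).card : ℝ) ≤ (1 - η) * mu M (gr m) R := by
      intro w hw
      have h3 : (((st.X s m).filter (fun x => x.1 ∈ L)).filter (fun x => x.1 = w)).card ≤
          res (gr m) R w := by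
        rw [res_gr hm hsi]
        refine Finset.card_le_card ?_
        intro x hx
        have hx1 := Finset.mem_filter.1 hx
        have hx2 := of_mem_filter (Finset.mem_filter.1 hx1.1).1
        have hx3 := hx2.2
        rw [hR] at hx3
        exact Finset.mem_filter.2 ⟨Finset.mem_univ _, hx1.2, hx3⟩
      have h4 := hLs hw
      rw [low, Finset.mem_filter] at h4
      calc ((((st.X s m).filter (fun x => x.1 ∈ L)).filter (fun x => x.1 = w)).card : ℝ)
          ≤ (res (gr m) R w : ℝ) := by exact_mod_cast h3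
        _ ≤ _ := h4.2
    rw [h1]
    push_cast
    calc (∑ w ∈ L, ((((st.X s m).filter (fun x => x.1 ∈ L)).filter
          (fun x => x.1 = w)).card : ℝ)) ≤ ∑ _w ∈ L, (1 - η) * mu M (gr m) R :=
          Finset.sum_le_sum h2
      _ = l * ((1 - η) * (Real.sqrt (2 * M * (stubs (gr m) R : ℕ)) / n)) := by
          rw [Finset.sum_const, nsmul_eq_mul, hLc, mu]
  refine ⟨L, Finset.mem_powersetCard.2 ⟨Finset.subset_univ _, hLc⟩, ?_⟩
  unfold MStrat.Phi
  rw [if_pos hdis, Zp, if_pos hS0S]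
  have h5 := low_num n M (stubs (gr m) R) ((st.X s m).filter (fun x => x.1 ∈ L)).card l η μ0 hn hM
    hη hη1 hμ0 h20 hS hr
  rw [hXc]
  refine h5.trans (le_of_eq ?_)
  exact congrArg _ (card_filter_inst _ _ _ _)

theorem bad1_count (E : Explorer n) (M : ℕ) (η μ0 : ℝ) (l s : ℕ) (hn : 0 < n) (hM : 0 < M)
    (hη : 0 < η) (hη1 : η ≤ 1 / 4) (hμ0 : 0 < μ0) (hμd : μ0 ≤ 2 * M / n)
    (h20 : 20 / η ≤ (μ0 * n) ^ 2 / (2 * M)) (hs : s ≤ n) :
    (cnt n M (Bad1 M η μ0 l E s) : ℝ) * (2 ^ M * M.factorial) ≤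
      (n.choose l : ℝ) * Real.exp (-(η ^ 2 * μ0 * l / 12)) * (n : ℝ) ^ (2 * M) := by
  have hn' : (0 : ℝ) < n := by exact_mod_cast hn
  have hM' : (0 : ℝ) < M := by exact_mod_cast hM
  have hM1 : (1 : ℝ) ≤ M := by exact_mod_cast hM
  obtain ⟨hS0, hκ1⟩ := low_num2 n M η μ0 hn hM hη hη1 hμ0 h20
  set y : ℝ := η * μ0 * n / (6 * M) with hy
  have hy0 : 0 ≤ y := by positivity
  have hy1 : y ≤ 1 := by
    rw [hy, div_le_one (by positivity)]
    rw [le_div_iff₀ hn'] at hμd
    nlinarith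
  set S0 : ℕ := ⌈(μ0 * n) ^ 2 / (2 * M)⌉₊ with hS0def
  have hκ : 0 ≤ y * Real.sqrt (2 * M - 1) := mul_nonneg hy0 (Real.sqrt_nonneg _)
  set a : ℝ := (1 - η / 4) * (y * l * (2 * M / n)) with ha
  have hmain : ∀ D : Fin n → ℕ, ∑ v, D v = 2 * M →
      (((Mat (univ : Finset (Stub D))).filter
        (fun m => Simp m ∧ Bad1 M η μ0 l E s (gr m))).card : ℝ) ≤
        (Real.exp a * ∑ L ∈ (univ : Finset (Fin n)).powersetCard l, (1 - y) ^ (∑ v ∈ L, D v)) *
          (Mat (univ : Finset (Stub D))).card := by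
    intro D hD
    obtain ⟨st, hst⟩ := exists_strat E D hn
    have hphi0 : ∀ L m, 0 ≤ st.Phi (y * Real.sqrt (2 * M - 1)) S0 L s m := fun L m =>
      phi_nonneg st hS0 hκ1 L s m
    -- upper bound for the sum of the potentials
    have hup : ∀ L ∈ (univ : Finset (Fin n)).powersetCard l,
        ∑ m ∈ Mat (univ : Finset (Stub D)), st.Phi (y * Real.sqrt (2 * M - 1)) S0 L s m ≤
          (Mat (univ : Finset (Stub D))).card * (1 - y) ^ (∑ v ∈ L, D v) := by
      intro L _
      refine (st.process hκ hS0 hκ1 L s).trans ?_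
      refine mul_le_mul_of_nonneg_left ?_ (Nat.cast_nonneg _)
      rw [card_stub hD]
      refine (le_of_eq (congrArg (Zp (y * Real.sqrt (2 * M - 1)) S0 (2 * M))
        ((card_filter_inst _ _ _ _).trans (card_stub_in D L)))).trans ?_
      rw [Zp]
      have hpow : 0 ≤ (1 - y) ^ (∑ v ∈ L, D v) := pow_nonneg (by linarith) _
      split_ifs with h
      · have hsq : 0 < Real.sqrt (((2 * M : ℕ) : ℝ) - 1) := by
          apply Real.sqrt_pos.2
          push_cast
          linarith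
        have h1 : y * Real.sqrt (2 * M - 1) / Real.sqrt (((2 * M : ℕ) : ℝ) - 1) = y := by
          push_cast at hsq ⊢
          rw [mul_div_assoc, div_self hsq.ne', mul_one]
        rw [h1]
      · exact hpow
    -- lower bound
    have hlo : ∀ m ∈ (Mat (univ : Finset (Stub D))).filter
        (fun m => Simp m ∧ Bad1 M η μ0 l E s (gr m)),
        Real.exp (-a) ≤ ∑ L ∈ (univ : Finset (Fin n)).powersetCard l,
          st.Phi (y * Real.sqrt (2 * M - 1)) S0 L s m := by
      intro m hm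
      rw [Finset.mem_filter] at hm
      obtain ⟨L, hL, h2⟩ := phi_lower E M η μ0 l s hn hM hη hη1 hμ0 h20 hs st hst hm.1 hm.2.1
        hm.2.2
      refine h2.trans ?_
      exact Finset.single_le_sum (f := fun L => st.Phi (y * Real.sqrt (2 * M - 1)) S0 L s m)
        (fun L _ => hphi0 L m) hL
    have h3 : ((((Mat (univ : Finset (Stub D))).filter
        (fun m => Simp m ∧ Bad1 M η μ0 l E s (gr m))).card : ℝ)) * Real.exp (-a) ≤
        (∑ L ∈ (univ : Finset (Fin n)).powersetCard l, (1 - y) ^ (∑ v ∈ L, D v)) *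
          (Mat (univ : Finset (Stub D))).card := by
      calc ((((Mat (univ : Finset (Stub D))).filter
            (fun m => Simp m ∧ Bad1 M η μ0 l E s (gr m))).card : ℝ)) * Real.exp (-a)
          = ∑ _m ∈ (Mat (univ : Finset (Stub D))).filter
              (fun m => Simp m ∧ Bad1 M η μ0 l E s (gr m)), Real.exp (-a) := by
            rw [Finset.sum_const, nsmul_eq_mul]
        _ ≤ ∑ m ∈ (Mat (univ : Finset (Stub D))).filter
              (fun m => Simp m ∧ Bad1 M η μ0 l E s (gr m)),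
              ∑ L ∈ (univ : Finset (Fin n)).powersetCard l,
                st.Phi (y * Real.sqrt (2 * M - 1)) S0 L s m := Finset.sum_le_sum hlo
        _ ≤ ∑ m ∈ Mat (univ : Finset (Stub D)),
              ∑ L ∈ (univ : Finset (Fin n)).powersetCard l,
                st.Phi (y * Real.sqrt (2 * M - 1)) S0 L s m := by
            refine Finset.sum_le_sum_of_subset_of_nonneg (Finset.filter_subset _ _) ?_
            intro m _ _
            exact Finset.sum_nonneg fun L _ => hphi0 L m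
        _ = ∑ L ∈ (univ : Finset (Fin n)).powersetCard l,
              ∑ m ∈ Mat (univ : Finset (Stub D)),
                st.Phi (y * Real.sqrt (2 * M - 1)) S0 L s m := Finset.sum_comm
        _ ≤ ∑ L ∈ (univ : Finset (Fin n)).powersetCard l,
              (Mat (univ : Finset (Stub D))).card * (1 - y) ^ (∑ v ∈ L, D v) :=
            Finset.sum_le_sum hup
        _ = _ := by
            rw [← Finset.mul_sum, mul_comm]
    have h4 : Real.exp (-a) * Real.exp a = 1 := by
      rw [← Real.exp_add, neg_add_cancel, Real.exp_zero]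
    have h5 := mul_le_mul_of_nonneg_right h3 (Real.exp_pos a).le
    rw [mul_assoc, h4, mul_one] at h5
    refine h5.trans (le_of_eq ?_)
    ring
  have h6 := cnt_le M (Bad1 M η μ0 l E s)
    (fun D => Real.exp a * ∑ L ∈ (univ : Finset (Fin n)).powersetCard l, (1 - y) ^ (∑ v ∈ L, D v))
    hmain
  refine h6.trans ?_
  have h7 : ∑ D ∈ (univ : Finset (Fin n)).piAntidiag (2 * M),
      (Nat.multinomial univ D : ℝ) * (Real.exp a *
        ∑ L ∈ (univ : Finset (Fin n)).powersetCard l, (1 - y) ^ (∑ v ∈ L, D v)) =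
      Real.exp a * ((n.choose l : ℝ) * ((n : ℝ) - l * y) ^ (2 * M)) := by
    rw [← sum_multinomial_low, Finset.mul_sum]
    refine Finset.sum_congr rfl fun D _ => ?_
    ring
  rw [h7]
  rcases Nat.lt_or_ge n l with hnl | hnl
  · rw [Nat.choose_eq_zero_of_lt hnl]
    simp
  · have hl : (l : ℝ) ≤ n := by exact_mod_cast hnl
    have hly : (l : ℝ) * y ≤ n := by
      calc (l : ℝ) * y ≤ l * 1 := mul_le_mul_of_nonneg_left hy1 (Nat.cast_nonneg l)
        _ ≤ n := by rw [mul_one]; exact hl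
    have h8 : (n : ℝ) - l * y ≤ n * Real.exp (-(l * y / n)) := by
      have h9 := Real.one_sub_le_exp_neg (l * y / n)
      calc (n : ℝ) - l * y = n * (1 - l * y / n) := by field_simp
        _ ≤ _ := mul_le_mul_of_nonneg_left h9 hn'.le
    have h10 : ((n : ℝ) - l * y) ^ (2 * M) ≤ (n : ℝ) ^ (2 * M) *
        Real.exp (-(2 * M * (l * y / n))) := by
      calc ((n : ℝ) - l * y) ^ (2 * M) ≤ (n * Real.exp (-(l * y / n))) ^ (2 * M) :=
            pow_le_pow_left₀ (by linarith) h8 _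
        _ = _ := by
            rw [mul_pow, ← Real.exp_nat_mul]
            congr 2
            push_cast
            ring
    have h11 : Real.exp a * Real.exp (-(2 * M * (l * y / n))) =
        Real.exp (-(η ^ 2 * μ0 * l / 12)) := by
      rw [← Real.exp_add]
      congr 1
      rw [ha, hy]
      field_simp
      ring
    calc Real.exp a * ((n.choose l : ℝ) * ((n : ℝ) - l * y) ^ (2 * M))
        ≤ Real.exp a * ((n.choose l : ℝ) * ((n : ℝ) ^ (2 * M) *
            Real.exp (-(2 * M * (l * y / n))))) := by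
          refine mul_le_mul_of_nonneg_left ?_ (Real.exp_pos a).le
          exact mul_le_mul_of_nonneg_left h10 (Nat.cast_nonneg _)
      _ = (n.choose l : ℝ) * (Real.exp a * Real.exp (-(2 * M * (l * y / n)))) *
            (n : ℝ) ^ (2 * M) := by ring
      _ = _ := by rw [h11]

end LKA
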