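import Pool.Agent.LKA.NumA

/-!
# LKA-NumB: numerical estimate (2)

Plan. `u = n/d`, `L = log d`, `l = pl ≤ η u + 1`, `j = pj`, `a = (1+6η)(1+1/η)`, `a u ≤ j ≤ a u + 1`,
`N0 = pN ≥ 10 e^(1/η) L² u`, `ρ = e^(-1/η)`. `C(n,j) ≤ exp (j (1+L))` (`choose_le` with `x = d`, as
`j ≥ u`), `C(N,q) ≤ exp (q (1 + 1/η))` (`choose_le` with `x = 1/ρ`), `Hm ≤ exp ((c²/2+η) L² u)`.
`(1-η)² (j - l)/u ≥ (1-2η)(a - η - 1/u) ≥ (1+η)(1+1/η)` for `u ≥ u0(η)`: indeed
`(1-2η)((1+6η)(1+1/η) - 2η) ≥ (1 + 4η - 12η²)(1+1/η) - 2η ≥ (1+3η)(1+1/η) - 2η ≥ (1+η)(1+1/η) + 2`.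
`q ≥ ρ N ≥ 10 L² u ≥ l`. So the total exponent is at most
`(c²/2+η) L² u + j (1+L) + q (1+1/η) - (1+η)(1+1/η)(q - l)
= (c²/2+η) L² u + j (1+L) - (1+η) q + (1+η)(1+1/η) l
≤ L² u + (a u + 1)(1+L) - 10 L² u + (1+η)(1+1/η)(η u + 1) ≤ - L² u` for `L ≥ L0(η)`, `u ≥ u0`.
(`u ≥ n/D` is large for `n ≥ n0(D)`.)
-/

namespace LKA

theorem num2 (η c : ℝ) (hη : 0 < η) (hη1 : η ≤ 1 / 12) (hc : 0 ≤ c) (hc1 : c < 1) :
    ∃ d0 : ℝ, 0 < d0 ∧ ∀ D : ℝ, ∃ n0 : ℕ, ∀ n : ℕ, n0 ≤ n → ∀ d : ℝ, d0 ≤ d → d ≤ D →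
      ∀ N q : ℕ, pN η (n / d) (Real.log d) ≤ N → prho η * N ≤ q →
        (pH η c (n / d) (Real.log d) : ℝ) * n.choose (pj η (n / d)) * N.choose q *
          Real.exp (-((1 - η) ^ 2 * ((pj η (n / d) : ℝ) - pl η (n / d)) *
            ((q : ℝ) - pl η (n / d)) / (n / d))) ≤
        Real.exp (-(Real.log d ^ 2 * (n / d))) := by
  refine ⟨Real.exp (3 * (1 + 1 / η)), Real.exp_pos _, ?_⟩
  intro D
  refine ⟨⌈D⌉₊, ?_⟩
  intro n hn d hd hdD N q hN hq
  have hd0 : 0 < d := lt_of_lt_of_le (Real.exp_pos _) hd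
  have hnd : d ≤ n := by
    have h1 : D ≤ (⌈D⌉₊ : ℝ) := Nat.le_ceil _
    have h2 : (⌈D⌉₊ : ℝ) ≤ n := by exact_mod_cast hn
    linarith
  have hL : 3 * (1 + 1 / η) ≤ Real.log d := by
    rw [Real.le_log_iff_exp_le hd0]
    exact hd
  have hηi : 12 ≤ 1 / η := by
    rw [le_div_iff₀ hη]
    linarith
  set A : ℝ := 1 + 1 / η with hA
  have hA13 : 13 ≤ A := by linarith
  have hηA : η * A = η + 1 := by rw [hA]; field_simp
  set L := Real.log d with hLdef
  have hL39 : 39 ≤ L := by linarith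
  set u : ℝ := (n : ℝ) / d with hu
  have hu1 : 1 ≤ u := by
    rw [hu, le_div_iff₀ hd0]
    linarith
  have hnu : (n : ℝ) = d * u := by rw [hu]; field_simp
  have hd1 : 1 ≤ d := by
    have := Real.add_one_le_exp (3 * A)
    linarith
  set l := pl η u with hl
  set j := pj η u with hj
  have hl1 : (l : ℝ) ≤ η * u + 1 := by
    have : (⌈η * u⌉₊ : ℝ) < η * u + 1 := Nat.ceil_lt_add_one (by positivity)
    exact this.le
  have hl0 : (0 : ℝ) ≤ l := Nat.cast_nonneg l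
  set a : ℝ := (1 + 6 * η) * A with ha
  have hj0 : a * u ≤ j := Nat.le_ceil _
  have hj1 : (j : ℝ) ≤ a * u + 1 := by
    have : (⌈(1 + 6 * η) * (1 + 1 / η) * u⌉₊ : ℝ) < (1 + 6 * η) * (1 + 1 / η) * u + 1 :=
      Nat.ceil_lt_add_one (by positivity)
    exact this.le
  have ha1 : A ≤ a := by rw [ha]; nlinarith
  have ha2 : a ≤ 3 / 2 * A := by rw [ha]; nlinarith
  have hju : u ≤ j := by nlinarith
  -- N and q
  have hN0 : 10 * Real.exp (1 / η) * L ^ 2 * u ≤ N := by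
    have h1 : 10 * Real.exp (1 / η) * L ^ 2 * u ≤ (pN η u L : ℝ) := Nat.le_ceil _
    have h2 : (pN η u L : ℝ) ≤ N := by exact_mod_cast hN
    linarith
  have hρ : prho η * Real.exp (1 / η) = 1 := by
    unfold prho
    rw [← Real.exp_add]
    simp
  have hρ0 : 0 < prho η := Real.exp_pos _
  have hq10 : 10 * L ^ 2 * u ≤ q := by
    have h1 : prho η * (10 * Real.exp (1 / η) * L ^ 2 * u) ≤ prho η * N :=
      mul_le_mul_of_nonneg_left hN0 hρ0.le
    have h2 : prho η * (10 * Real.exp (1 / η) * L ^ 2 * u) = 10 * L ^ 2 * u := by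
      calc prho η * (10 * Real.exp (1 / η) * L ^ 2 * u)
          = (prho η * Real.exp (1 / η)) * (10 * L ^ 2 * u) := by ring
        _ = 10 * L ^ 2 * u := by rw [hρ]; ring
    linarith
  have hNq : (N : ℝ) ≤ Real.exp (1 / η) * q := by
    have h1 : Real.exp (1 / η) * (prho η * N) ≤ Real.exp (1 / η) * q :=
      mul_le_mul_of_nonneg_left hq (Real.exp_pos _).le
    have h2 : Real.exp (1 / η) * (prho η * N) = N := by
      calc Real.exp (1 / η) * (prho η * N) = (prho η * Real.exp (1 / η)) * N := by ring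
        _ = N := by rw [hρ]; ring
    linarith
  -- binomials
  have hC1 : (n.choose j : ℝ) ≤ Real.exp (j * (1 + L)) := by
    apply choose_le n j d hd1
    rw [hnu]
    exact mul_le_mul_of_nonneg_left hju hd0.le
  have hC2 : (N.choose q : ℝ) ≤ Real.exp (q * A) := by
    have h1 : (1 : ℝ) ≤ Real.exp (1 / η) := by
      have := Real.add_one_le_exp (1 / η)
      linarith
    have := choose_le N q (Real.exp (1 / η)) h1 hNq
    rwa [Real.log_exp] at this
  have hH : (pH η c u L : ℝ) ≤ Real.exp ((c ^ 2 / 2 + η) * L ^ 2 * u) :=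
    Nat.floor_le (Real.exp_pos _).le
  -- the exponent
  set b : ℝ := (1 + η) * A with hb
  have hql : (l : ℝ) ≤ q := by
    have h1 : η * u + 1 ≤ 10 * L ^ 2 * u := by
      have h2 : η * u ≤ 1 / 12 * u := by nlinarith
      have h3 : (1 : ℝ) ≤ L ^ 2 := by nlinarith
      have h4 : 1 * u ≤ L ^ 2 * u := mul_le_mul_of_nonneg_right h3 (by linarith)
      nlinarith
    linarith
  have hmain : b * ((q : ℝ) - l) ≤ (1 - η) ^ 2 * ((j : ℝ) - l) * ((q : ℝ) - l) / u := by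
    have h0 : b * u ≤ (1 - η) ^ 2 * ((j : ℝ) - l) := by
      have h1 : a * u - (η * u + 1) ≤ (j : ℝ) - l := by linarith
      have h2 : (a - η - 1) * u ≤ a * u - (η * u + 1) := by nlinarith
      have h3 : b ≤ (1 - 2 * η) * (a - η - 1) := by
        rw [hb, ha]
        have h4 : η ^ 2 * A ≤ 1 / 12 * (η * A) := by nlinarith
        nlinarith
      have h5 : 0 ≤ a - η - 1 := by linarith
      have h6 : b * u ≤ (1 - 2 * η) * ((a - η - 1) * u) := by nlinarith
      have h7 : (1 - 2 * η) * ((a - η - 1) * u) ≤ (1 - η) ^ 2 * ((a - η - 1) * u) := by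
        apply mul_le_mul_of_nonneg_right _ (by positivity)
        nlinarith
      have h8 : (1 - η) ^ 2 * ((a - η - 1) * u) ≤ (1 - η) ^ 2 * ((j : ℝ) - l) := by
        apply mul_le_mul_of_nonneg_left _ (sq_nonneg _)
        linarith
      linarith
    have hu0 : 0 < u := by linarith
    rw [le_div_iff₀ hu0]
    have h9 : 0 ≤ (q : ℝ) - l := by linarith
    nlinarith
  have hexp : Real.exp (-((1 - η) ^ 2 * ((j : ℝ) - l) * ((q : ℝ) - l) / u)) ≤
      Real.exp (-(b * ((q : ℝ) - l))) := by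
    apply Real.exp_le_exp.mpr
    linarith
  calc (pH η c u L : ℝ) * n.choose j * N.choose q *
          Real.exp (-((1 - η) ^ 2 * ((j : ℝ) - l) * ((q : ℝ) - l) / u))
      ≤ Real.exp ((c ^ 2 / 2 + η) * L ^ 2 * u) * Real.exp (j * (1 + L)) * Real.exp (q * A) *
          Real.exp (-(b * ((q : ℝ) - l))) := by gcongr
    _ = Real.exp ((c ^ 2 / 2 + η) * L ^ 2 * u + j * (1 + L) + q * A - b * ((q : ℝ) - l)) := by
      rw [← Real.exp_add, ← Real.exp_add, ← Real.exp_add]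
      congr 1
    _ ≤ Real.exp (-(L ^ 2 * u)) := by
      apply Real.exp_le_exp.mpr
      have hu0 : 0 < u := by linarith
      have e1 : q * A - b * ((q : ℝ) - l) = -((1 + η) * q) + b * l := by
        have : b = A + (η + 1) := by rw [hb]; linarith
        rw [this]; ring
      have e2 : (c ^ 2 / 2 + η) * L ^ 2 * u ≤ 7 / 12 * (L ^ 2 * u) := by
        have h1 : c ^ 2 / 2 + η ≤ 7 / 12 := by nlinarith
        have h2 : 0 ≤ L ^ 2 * u := by positivity
        nlinarith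
      have e3 : (j : ℝ) * (1 + L) ≤ 4 / 3 * (L ^ 2 * u) := by
        have h1 : (j : ℝ) ≤ 2 * A * u := by nlinarith
        have h2 : (j : ℝ) * (1 + L) ≤ 2 * A * u * (2 * L) := by
          apply mul_le_mul h1 (by linarith) (by linarith) (by positivity)
        have h3 : 2 * A * u * (2 * L) ≤ 4 / 3 * (L ^ 2 * u) := by
          have h4 : A ≤ L / 3 := by linarith
          have h5 : 0 ≤ 4 * u * L := by positivity
          nlinarith
        linarith
      have e4 : b * (l : ℝ) ≤ L ^ 2 * u := by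
        have h1 : b ≤ 2 * A := by rw [hb]; nlinarith
        have h2 : (l : ℝ) ≤ 2 * u := by nlinarith
        have hb0 : 0 ≤ b := by rw [hb]; positivity
        have h3 : b * (l : ℝ) ≤ 2 * A * (2 * u) := by
          apply mul_le_mul h1 h2 hl0 (by positivity)
        have h4 : 2 * A * (2 * u) ≤ L ^ 2 * u := by
          have h5 : 4 * A ≤ L ^ 2 := by nlinarith
          nlinarith
        linarith
      have e5 : 10 * L ^ 2 * u ≤ (1 + η) * q := by
        have hq0 : (0 : ℝ) ≤ q := Nat.cast_nonneg q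
        nlinarith
      have e6 : 0 ≤ L ^ 2 * u := by positivity
      nlinarith

end LKA
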