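import Pool.Agent.LKA.NumA

/-!
# LKA-NumC: numerical estimate (3)

Plan. `u = n/d`, `L = log d`, `θ = 4 √η`, `κ = pk`, `(c+θ) L u ≤ κ ≤ (c+θ) L u + 1`, `l ≤ η u + 1`,
`N0 = pN ≤ 10 e^(1/η) L² u + 1`. `C(N0, κ) ≤ exp (κ (1 + log x))` with `x = 11 e^(1/η) L/θ`
(`N0 ≤ x κ`, `choose_le`); this is `exp (O(L log L) u)`.
`(1-η)² (κ - l)²/(2u) ≥ (1-2η) ((c+θ) L - 2η)² u/2 ≥ (1-2η)(c+θ)² L² u/2 - 4 η (c+θ) L u`, and
`(1-2η)(c+θ)² ≥ (1-2η)(c² + 16η) ≥ c² + 16η - 2η - 32η² ≥ c² + 6η`. So the exponent is at most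
`(c²/2+η) L² u + κ (1 + log x) + 1/2 - (c²/2 + 3η) L² u + 20 η L u ≤ - η L² u` for `L ≥ L0(η)`,
`u ≥ u0`.
-/

namespace LKA

private theorem core3 (η c L u κ l T s : ℝ) (hη : 0 < η) (hη1 : η ≤ 1 / 12) (hc : 0 ≤ c)
    (hc1 : c < 1) (hs : 0 < s) (hs2 : s ^ 2 = η) (hL : 1 ≤ L) (hu : 1 ≤ η * u)
    (hκ1 : (c + 4 * s) * L * u ≤ κ) (hκ2 : κ ≤ (c + 4 * s) * L * u + 1)
    (hl : l ≤ η * u + 1) (hT : 4 * T + 1 ≤ η * L) (hT0 : 0 ≤ T) :
    (c ^ 2 / 2 + η) * L ^ 2 * u + κ * T +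
      (1 / 2 - (1 - η) ^ 2 * (κ - l) ^ 2 / (2 * u)) ≤ -(η * L ^ 2 * u) := by
  have hu0 : 0 < u := by
    by_contra h
    have : η * u ≤ 0 := mul_nonpos_of_nonneg_of_nonpos hη.le (not_lt.1 h)
    linarith
  have hu1 : 1 ≤ u := by nlinarith
  have hs3 : s ≤ 1 / 3 := by nlinarith
  have hLu : 1 ≤ L * u := by nlinarith
  have hLu0 : 0 < L * u := by linarith
  -- bound of κ
  have hκ3 : κ ≤ 4 * (L * u) := by
    have h1 : (c + 4 * s) * L * u ≤ 3 * (L * u) := by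
      have : (c + 4 * s) * (L * u) ≤ 3 * (L * u) :=
        mul_le_mul_of_nonneg_right (by linarith) hLu0.le
      linarith
    linarith
  have hκT : κ * T ≤ 4 * (L * u) * T := mul_le_mul_of_nonneg_right hκ3 hT0
  -- lower bound of κ - l
  set a : ℝ := (c + 4 * s) * L with ha
  have ha3 : a ≤ 3 * L := by
    have : (c + 4 * s) * L ≤ 3 * L := mul_le_mul_of_nonneg_right (by linarith) (by linarith)
    exact this
  have ha1 : 2 * η ≤ a := by
    have h1 : 4 * s ≤ a := by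
      have h2 : (4 * s) * 1 ≤ (c + 4 * s) * L :=
        mul_le_mul (by linarith) hL (by norm_num) (by linarith)
      linarith
    nlinarith
  have h4 : (a - 2 * η) * u ≤ κ - l := by
    have h5 : a * u ≤ κ := hκ1
    nlinarith
  have h6 : ((a - 2 * η) * u) ^ 2 ≤ (κ - l) ^ 2 := by
    apply pow_le_pow_left₀ _ h4
    exact mul_nonneg (by linarith) hu0.le
  have h7 : (1 - 2 * η) * ((a - 2 * η) ^ 2 * u) / 2 ≤
      (1 - η) ^ 2 * (κ - l) ^ 2 / (2 * u) := by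
    rw [le_div_iff₀ (by positivity)]
    have h8 : (1 - 2 * η) * ((a - 2 * η) ^ 2 * u) / 2 * (2 * u) =
        (1 - 2 * η) * ((a - 2 * η) * u) ^ 2 := by ring
    rw [h8]
    apply mul_le_mul (by nlinarith) h6 (sq_nonneg _) (sq_nonneg _)
  have h9 : a ^ 2 - L ≤ (a - 2 * η) ^ 2 := by
    nlinarith
  have h10 : (c ^ 2 + 6 * η) * L ^ 2 ≤ (1 - 2 * η) * a ^ 2 := by
    have h11 : c ^ 2 + 6 * η ≤ (1 - 2 * η) * (c + 4 * s) ^ 2 := by
      have h12 : c ^ 2 + 16 * η ≤ (c + 4 * s) ^ 2 := by nlinarith [mul_nonneg hc hs.le]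
      have h13 : (1 - 2 * η) * (c ^ 2 + 16 * η) ≤ (1 - 2 * η) * (c + 4 * s) ^ 2 :=
        mul_le_mul_of_nonneg_left h12 (by linarith)
      have h14 : c ^ 2 ≤ 1 := by nlinarith
      nlinarith
    have h15 : (c ^ 2 + 6 * η) * L ^ 2 ≤ (1 - 2 * η) * (c + 4 * s) ^ 2 * L ^ 2 :=
      mul_le_mul_of_nonneg_right h11 (sq_nonneg _)
    calc (c ^ 2 + 6 * η) * L ^ 2 ≤ (1 - 2 * η) * (c + 4 * s) ^ 2 * L ^ 2 := h15
      _ = (1 - 2 * η) * a ^ 2 := by rw [ha]; ring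
  have h16 : (c ^ 2 + 6 * η) * L ^ 2 - L ≤ (1 - 2 * η) * (a - 2 * η) ^ 2 := by
    have h17 : (1 - 2 * η) * (a ^ 2 - L) ≤ (1 - 2 * η) * (a - 2 * η) ^ 2 :=
      mul_le_mul_of_nonneg_left h9 (by linarith)
    nlinarith
  have h18 : ((c ^ 2 + 6 * η) * L ^ 2 - L) * u / 2 ≤ (1 - 2 * η) * ((a - 2 * η) ^ 2 * u) / 2 := by
    have := mul_le_mul_of_nonneg_right h16 hu0.le
    linarith
  have h19 : 4 * (L * u) * T + L * u ≤ η * L * (L * u) := by
    have := mul_le_mul_of_nonneg_right hT hLu0.le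
    linarith
  have h20 : η * L * (L * u) = η * L ^ 2 * u := by ring
  have h21 : ((c ^ 2 + 6 * η) * L ^ 2 - L) * u / 2 =
      (c ^ 2 / 2 + 3 * η) * L ^ 2 * u - L * u / 2 := by ring
  have h22 : (c ^ 2 / 2 + η) * L ^ 2 * u = (c ^ 2 / 2 + 3 * η) * L ^ 2 * u -
      2 * (η * L ^ 2 * u) := by ring
  linarith

theorem num3 (η c : ℝ) (hη : 0 < η) (hη1 : η ≤ 1 / 12) (hc : 0 ≤ c) (hc1 : c < 1) :
    ∃ d0 : ℝ, 0 < d0 ∧ ∀ D : ℝ, ∃ n0 : ℕ, ∀ n : ℕ, n0 ≤ n → ∀ d : ℝ, d0 ≤ d → d ≤ D →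
      (pH η c (n / d) (Real.log d) : ℝ) *
        (pN η (n / d) (Real.log d)).choose (pk η c (n / d) (Real.log d)) *
        Real.exp (1 / 2 - (1 - η) ^ 2 *
          ((pk η c (n / d) (Real.log d) : ℝ) - pl η (n / d)) ^ 2 / (2 * (n / d))) ≤
        Real.exp (-(η * Real.log d ^ 2 * (n / d))) := by
  have hs : 0 < Real.sqrt η := Real.sqrt_pos.2 hη
  have hs2 : Real.sqrt η ^ 2 = η := Real.sq_sqrt hη.le
  have hs3 : Real.sqrt η ≤ 1 / 3 := by nlinarith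
  obtain ⟨x0, hx0⟩ : ∃ x0 : ℝ, x0 = 11 * Real.exp (1 / η) / (4 * Real.sqrt η) := ⟨_, rfl⟩
  have hexp : 1 ≤ Real.exp (1 / η) := Real.one_le_exp (by positivity)
  have hx01 : 1 ≤ x0 := by
    rw [hx0, le_div_iff₀ (by positivity)]
    linarith
  have hx00 : 0 < x0 := by linarith
  have hlx0 : 0 ≤ Real.log x0 := Real.log_nonneg hx01
  have h1 : ∀ᶠ L : ℝ in Filter.atTop, 4 * (1 + Real.log x0 + Real.log L) + 1 ≤ η * L := by
    have h2 := Real.isLittleO_log_id_atTop.def (show (0 : ℝ) < η / 8 by positivity)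
    have h3 : ∀ᶠ L : ℝ in Filter.atTop, (4 * (1 + Real.log x0) + 1) * (2 / η) ≤ L :=
      Filter.eventually_ge_atTop _
    filter_upwards [h2, h3, Filter.eventually_ge_atTop (1 : ℝ)] with L h4 h5 h6
    simp only [id_eq, Real.norm_eq_abs] at h4
    rw [abs_of_nonneg (Real.log_nonneg h6), abs_of_nonneg (by linarith : (0 : ℝ) ≤ L)] at h4
    have h7 : (4 * (1 + Real.log x0) + 1) ≤ η / 2 * L := by
      have h8 := mul_le_mul_of_nonneg_left h5 (show (0 : ℝ) ≤ η / 2 by positivity)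
      have h9 : η / 2 * ((4 * (1 + Real.log x0) + 1) * (2 / η)) =
          4 * (1 + Real.log x0) + 1 := by field_simp
      linarith
    linarith
  have h2 : ∀ᶠ d : ℝ in Filter.atTop,
      (4 * (1 + Real.log x0 + Real.log (Real.log d)) + 1 ≤ η * Real.log d) ∧
        1 ≤ Real.log d :=
    (Real.tendsto_log_atTop.eventually h1).and
      (Real.tendsto_log_atTop.eventually (Filter.eventually_ge_atTop (1 : ℝ)))
  obtain ⟨d1, hd1⟩ := Filter.eventually_atTop.1 h2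
  refine ⟨max d1 1, by positivity, fun D => ⟨⌈D / η⌉₊, fun n hn d hd hdD => ?_⟩⟩
  obtain ⟨hL2, hL1⟩ := hd1 d (le_trans (le_max_left _ _) hd)
  have hd0 : 0 < d := lt_of_lt_of_le one_pos (le_trans (le_max_right _ _) hd)
  have hu : 1 ≤ η * ((n : ℝ) / d) := by
    have h3 : D / η ≤ n := Nat.ceil_le.1 hn
    rw [div_le_iff₀ hη] at h3
    rw [← mul_div_assoc, le_div_iff₀ hd0]
    linarith
  set u : ℝ := (n : ℝ) / d with hudef
  set L : ℝ := Real.log d with hLdef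
  have hu0 : 0 < u := by
    by_contra h
    have : η * u ≤ 0 := mul_nonpos_of_nonneg_of_nonpos hη.le (not_lt.1 h)
    linarith
  have hu1 : 1 ≤ u := by nlinarith
  have hLu : 1 ≤ L * u := by nlinarith
  have hκ1 : (c + 4 * Real.sqrt η) * L * u ≤ (pk η c u L : ℝ) := Nat.le_ceil _
  have hκ2 : (pk η c u L : ℝ) ≤ (c + 4 * Real.sqrt η) * L * u + 1 :=
    (Nat.ceil_lt_add_one (by positivity)).le
  have hl : (pl η u : ℝ) ≤ η * u + 1 := (Nat.ceil_lt_add_one (by positivity)).le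
  have hN : (pN η u L : ℝ) ≤ x0 * L * (pk η c u L : ℝ) := by
    have h3 : (pN η u L : ℝ) ≤ 10 * Real.exp (1 / η) * L ^ 2 * u + 1 :=
      (Nat.ceil_lt_add_one (by positivity)).le
    have h4 : 1 ≤ Real.exp (1 / η) * L ^ 2 * u := by
      have h5 : 1 ≤ L ^ 2 := by nlinarith
      have h6 : 1 ≤ Real.exp (1 / η) * L ^ 2 := by nlinarith
      nlinarith
    have h7 : (4 * Real.sqrt η) * (L * u) ≤ (pk η c u L : ℝ) := by
      have : 0 ≤ c * (L * u) := by positivity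
      linarith
    have h8 : x0 * L * ((4 * Real.sqrt η) * (L * u)) ≤ x0 * L * (pk η c u L : ℝ) :=
      mul_le_mul_of_nonneg_left h7 (by positivity)
    have h9 : x0 * L * ((4 * Real.sqrt η) * (L * u)) = 11 * Real.exp (1 / η) * L ^ 2 * u := by
      rw [hx0]
      field_simp
    linarith
  have hxL : 1 ≤ x0 * L := by nlinarith
  have hC := choose_le (pN η u L) (pk η c u L) (x0 * L) hxL hN
  have hlog : Real.log (x0 * L) = Real.log x0 + Real.log L :=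
    Real.log_mul hx00.ne' (by linarith)
  have hH : (pH η c u L : ℝ) ≤ Real.exp ((c ^ 2 / 2 + η) * L ^ 2 * u) :=
    Nat.floor_le (Real.exp_pos _).le
  have hT0 : 0 ≤ 1 + Real.log x0 + Real.log L := by
    have := Real.log_nonneg hL1
    linarith
  have hcore := core3 η c L u (pk η c u L) (pl η u) (1 + Real.log x0 + Real.log L)
    (Real.sqrt η) hη hη1 hc hc1 hs hs2 hL1 hu hκ1 hκ2 hl hL2 hT0
  calc (pH η c u L : ℝ) * (pN η u L).choose (pk η c u L) *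
        Real.exp (1 / 2 - (1 - η) ^ 2 * ((pk η c u L : ℝ) - pl η u) ^ 2 / (2 * u))
      ≤ Real.exp ((c ^ 2 / 2 + η) * L ^ 2 * u) *
          Real.exp ((pk η c u L : ℝ) * (1 + Real.log (x0 * L))) *
          Real.exp (1 / 2 - (1 - η) ^ 2 * ((pk η c u L : ℝ) - pl η u) ^ 2 / (2 * u)) := by
        apply mul_le_mul_of_nonneg_right _ (Real.exp_pos _).le
        exact mul_le_mul hH hC (Nat.cast_nonneg _) (Real.exp_pos _).le
    _ = Real.exp ((c ^ 2 / 2 + η) * L ^ 2 * u +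
          (pk η c u L : ℝ) * (1 + Real.log x0 + Real.log L) +
          (1 / 2 - (1 - η) ^ 2 * ((pk η c u L : ℝ) - pl η u) ^ 2 / (2 * u))) := by
        rw [hlog, ← Real.exp_add, ← Real.exp_add]
        ring_nf
    _ ≤ Real.exp (-(η * L ^ 2 * u)) := Real.exp_le_exp.2 hcore

end LKA
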