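import Pool.Agent.LKA.NumA

/-!
# LKA-NumD: numerical estimate (5): the number of stable subsets of a buffer

Plan. `u = n/d`, `L = log d`, `γ = η/10`, `R0 = pR`, `i0 = pi0`,
`i1 := γ u/((1-3γ)(1-γ)) ≤ i0 ≤ i1 + 1`.
`choose_sum_le`: for `1 ≤ i ≤ a`: `∑_{t ≤ i} C(a,t) ≤ exp (i (1 + log (a/i)))`: multiply by
`(i/a)^i`: `∑_{t≤i} C(a,t) (i/a)^i ≤ ∑_t C(a,t) (i/a)^t ≤ (1 + i/a)^a ≤ e^i`.
For `e < Ep`: `a_e := ⌊b (1-γ)^e⌋ ≥ R0 ≥ i0 ≥ 1` (`hE`), and
`a_e / i0 ≤ b (1-γ)^e/(γ u) ≤ (B L e^(cL)/γ) e^(-γ e)`, so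
`0 ≤ 1 + log (a_e/i0) ≤ x0 - γ e` where `x0 = 1 + c L + log L + log (B/γ)`.
Hence `e ≤ x0/γ` for all `e < Ep` and the product is at most
`exp (i0 ∑_{e ≤ x0/γ} (x0 - γ e)) ≤ exp (i0 (x0²/(2γ) + x0))` (`∑_{e ≤ k} (x0 - γ e)
= (k+1)(x0 - γ k/2)` with `k = ⌊x0/γ⌋`: at most `x0²/(2γ) + x0`).
`i0 x0²/(2γ) ≤ u x0²/(2(1-3γ)(1-γ)) + x0²/(2γ)`, `1/((1-3γ)(1-γ)) ≤ 1 + 5γ`, and for `L ≥ L0`:
`x0² ≤ c² L² + (η/10) L²` (as `x0 = c L + O(log L)`), so with `c < 1`, `5 γ = η/2`: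
`(1 + η/2)(c² + η/10)/2 ≤ c²/2 + η/4 + η/10`. The rest: `2^R0 ≤ exp R0 ≤ exp (1600 L u/η² + 1)`,
`i0 x0`, `x0²/(2γ)` are `≤ (η/10) L² u` for `L ≥ L0(η, B)`, `u ≥ u0(D)`.
-/

namespace LKA

theorem choose_sum_le (a i : ℕ) (hi : 1 ≤ i) (hia : i ≤ a) :
    ∑ t ∈ Finset.range (i + 1), (a.choose t : ℝ) ≤
      Real.exp (i * (1 + Real.log ((a : ℝ) / i))) := by
  have hi0 : (0 : ℝ) < i := by exact_mod_cast hi
  have ha0 : (0 : ℝ) < a := by exact_mod_cast (lt_of_lt_of_le hi hia)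
  have hia' : (i : ℝ) ≤ a := by exact_mod_cast hia
  obtain ⟨q, hq⟩ : ∃ q : ℝ, q = (i : ℝ) / a := ⟨_, rfl⟩
  have hq0 : 0 < q := by rw [hq]; positivity
  have hq1 : q ≤ 1 := by rw [hq, div_le_one ha0]; exact hia'
  have h1 : (∑ t ∈ Finset.range (i + 1), (a.choose t : ℝ)) * q ^ i ≤ Real.exp i := by
    calc (∑ t ∈ Finset.range (i + 1), (a.choose t : ℝ)) * q ^ i
        = ∑ t ∈ Finset.range (i + 1), (a.choose t : ℝ) * q ^ i := Finset.sum_mul _ _ _
      _ ≤ ∑ t ∈ Finset.range (i + 1), (a.choose t : ℝ) * q ^ t := by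
          refine Finset.sum_le_sum (fun t ht => ?_)
          have ht' : t ≤ i := by
            have := Finset.mem_range.mp ht
            omega
          exact mul_le_mul_of_nonneg_left (pow_le_pow_of_le_one hq0.le hq1 ht')
            (Nat.cast_nonneg _)
      _ ≤ ∑ t ∈ Finset.range (a + 1), (a.choose t : ℝ) * q ^ t := by
          refine Finset.sum_le_sum_of_subset_of_nonneg ?_ (fun t _ _ => by positivity)
          intro t ht
          rw [Finset.mem_range] at ht ⊢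
          omega
      _ = (q + 1) ^ a := by
          rw [add_pow]
          refine Finset.sum_congr rfl (fun t _ => ?_)
          rw [one_pow]
          ring
      _ ≤ (Real.exp q) ^ a :=
          pow_le_pow_left₀ (by positivity) (Real.add_one_le_exp q) a
      _ = Real.exp i := by
          rw [← Real.exp_nat_mul, hq, mul_div_cancel₀ _ ha0.ne']
  have h2 : Real.exp (i * (1 + Real.log ((a : ℝ) / i))) = Real.exp i * ((a : ℝ) / i) ^ i := by
    rw [mul_add, mul_one, Real.exp_add, Real.exp_nat_mul, Real.exp_log (by positivity)]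
  have h3 : q ^ i * ((a : ℝ) / i) ^ i = 1 := by
    rw [← mul_pow, hq, div_mul_div_comm, mul_comm (a : ℝ) i, div_self (by positivity), one_pow]
  rw [h2]
  calc ∑ t ∈ Finset.range (i + 1), (a.choose t : ℝ)
      = ((∑ t ∈ Finset.range (i + 1), (a.choose t : ℝ)) * q ^ i) * ((a : ℝ) / i) ^ i := by
        rw [mul_assoc, h3, mul_one]
    _ ≤ Real.exp i * ((a : ℝ) / i) ^ i :=
        mul_le_mul_of_nonneg_right h1 (by positivity)

private theorem num5_sum (x g : ℝ) (hg : 0 < g) (k : ℕ) :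
    ∑ e ∈ Finset.range k, (x - g * e) ≤ (x + g / 2) ^ 2 / (2 * g) := by
  have h : ∑ e ∈ Finset.range k, (x - g * e) = k * x - g * (k * (k - 1) / 2) := by
    induction k with
    | zero => simp
    | succ k ih =>
      rw [Finset.sum_range_succ, ih]
      push_cast
      ring
  rw [h, le_div_iff₀ (by positivity)]
  nlinarith [sq_nonneg (x + g / 2 - g * k)]

private theorem num5_fin (η c L u : ℝ) (hη : 0 < η) (hη1 : η ≤ 1 / 12) (hc : 0 ≤ c)
    (hc1 : c < 1) (hL1 : 1 ≤ L) (hL2 : 16000 / η ^ 3 ≤ L) (hu : 100 / η ^ 2 ≤ u) :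
    (1600 / η ^ 2 * L * u + 1) +
      (((1 + η / 2) * (η / 10) * u + 1) * (((c + η / 40) * L) ^ 2 / (2 * (η / 10)))) ≤
      (c ^ 2 / 2 + η) * L ^ 2 * u := by
  have hη2 : 0 < η ^ 2 := by positivity
  have hη3 : 0 < η ^ 3 := by positivity
  have hu' : 100 ≤ u * η ^ 2 := by rwa [div_le_iff₀ hη2] at hu
  have hL' : 16000 ≤ L * η ^ 3 := by rwa [div_le_iff₀ hη3] at hL2
  have hu0 : 0 < u := by
    by_contra h
    have := mul_nonpos_of_nonpos_of_nonneg (not_lt.mp h) hη2.le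
    linarith
  have hL0 : 0 < L := by linarith
  have hA : 0 < L ^ 2 * u := by positivity
  -- the first term
  have t1 : (1 + η / 2) / 2 * (c + η / 40) ^ 2 ≤ c ^ 2 / 2 + 3 / 10 * η := by
    have e1 : (c + η / 40) ^ 2 ≤ c ^ 2 + η / 10 := by nlinarith
    have e2 : (c + η / 40) ^ 2 ≤ 11 / 10 := by nlinarith
    nlinarith
  have e2 : (c + η / 40) ^ 2 ≤ 2 := by nlinarith
  have t2 : 5 / η * ((c + η / 40) ^ 2 * L ^ 2) ≤ 1 / 10 * η * (L ^ 2 * u) := by
    rw [div_mul_eq_mul_div, div_le_iff₀ hη]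
    have e3 : 5 * ((c + η / 40) ^ 2 * L ^ 2) ≤ 10 * L ^ 2 := by nlinarith [sq_nonneg L]
    have e4 : 10 * L ^ 2 ≤ 1 / 10 * (u * η ^ 2) * L ^ 2 := by nlinarith [sq_nonneg L]
    nlinarith
  have t3 : 1600 / η ^ 2 * L * u ≤ 1 / 10 * η * (L ^ 2 * u) := by
    rw [mul_assoc, div_mul_eq_mul_div, div_le_iff₀ hη2]
    have e3 : 1600 * (L * u) ≤ 1 / 10 * (L * η ^ 3) * (L * u) := by
      nlinarith [mul_pos hL0 hu0]
    nlinarith
  have t4 : 1 ≤ 1 / 10 * η * (L ^ 2 * u) := by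
    have e3 : 100 ≤ u * η := by nlinarith
    have e4 : 1 ≤ L ^ 2 := by nlinarith
    nlinarith
  have e5 : ((1 + η / 2) * (η / 10) * u + 1) * (((c + η / 40) * L) ^ 2 / (2 * (η / 10))) =
      (1 + η / 2) / 2 * (c + η / 40) ^ 2 * (L ^ 2 * u) +
        5 / η * ((c + η / 40) ^ 2 * L ^ 2) := by
    field_simp
    ring
  rw [e5]
  have t5 := mul_le_mul_of_nonneg_right t1 hA.le
  nlinarith

private theorem num5_core (η c B L u : ℝ) (hη : 0 < η) (hη1 : η ≤ 1 / 12) (hc : 0 ≤ c)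
    (hc1 : c < 1) (hB : 1 ≤ B) (hL1 : 1 ≤ L) (hL2 : 16000 / η ^ 3 ≤ L)
    (hy : 1 + c * L + Real.log L + Real.log (B / (η / 10)) + η / 20 ≤ (c + η / 40) * L)
    (hu : 100 / η ^ 2 ≤ u) (b : ℝ) (Ep : ℕ) (hb : b ≤ B * L * Real.exp (c * L) * u)
    (hE : ∀ e < Ep, (pR η u L : ℝ) < b * (1 - η / 10) ^ e) :
    (2 : ℝ) ^ (pR η u L) * ∏ e ∈ Finset.range Ep, ∑ t ∈ Finset.range (pi0 η u + 1),
        ((⌊b * (1 - η / 10) ^ e⌋₊).choose t : ℝ) ≤
      Real.exp ((c ^ 2 / 2 + η) * L ^ 2 * u) := by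
  have hη2 : 0 < η ^ 2 := by positivity
  have hu0 : 0 < u := lt_of_lt_of_le (by positivity) hu
  have hu1 : 1 ≤ u := by
    refine le_trans ?_ hu
    rw [le_div_iff₀ hη2]
    nlinarith
  have hL0 : 0 < L := by linarith
  obtain ⟨g, hg⟩ : ∃ g : ℝ, g = η / 10 := ⟨_, rfl⟩
  have hg0 : 0 < g := by rw [hg]; positivity
  have hg1 : g ≤ 1 / 120 := by rw [hg]; linarith
  -- bounds for the parameters
  have hRn : 0 ≤ 16 / (η / 10) ^ 2 * L * u := by positivity
  have hR1 : 16 / (η / 10) ^ 2 * L * u ≤ (pR η u L : ℝ) := Nat.le_ceil _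
  have hR2 : (pR η u L : ℝ) ≤ 1600 / η ^ 2 * L * u + 1 := by
    have h := (Nat.ceil_lt_add_one hRn).le
    have e : 16 / (η / 10) ^ 2 * L * u = 1600 / η ^ 2 * L * u := by
      field_simp
      norm_num
    rw [e] at h
    unfold pR
    rw [e]
    exact h
  have hden : 0 < (1 - 3 * (η / 10)) * (1 - η / 10) := by
    apply mul_pos <;> linarith
  have hin : 0 ≤ (η / 10) * u / ((1 - 3 * (η / 10)) * (1 - η / 10)) := by positivity
  have hi1 : g * u ≤ (pi0 η u : ℝ) := by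
    refine le_trans ?_ (Nat.le_ceil _)
    rw [hg, le_div_iff₀ hden]
    have : (1 - 3 * (η / 10)) * (1 - η / 10) ≤ 1 := by nlinarith
    have h0 : 0 ≤ η / 10 * u := by positivity
    nlinarith
  have hi2 : (pi0 η u : ℝ) ≤ (1 + η / 2) * (η / 10) * u + 1 := by
    refine le_trans (Nat.ceil_lt_add_one hin).le ?_
    have : (η / 10) * u / ((1 - 3 * (η / 10)) * (1 - η / 10)) ≤ (1 + η / 2) * (η / 10) * u := by
      rw [div_le_iff₀ hden]
      have h1 : 1 ≤ (1 + η / 2) * ((1 - 3 * (η / 10)) * (1 - η / 10)) := by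
        nlinarith [mul_pos hη hη, mul_pos (mul_pos hη hη) hη]
      have h0 : 0 ≤ η / 10 * u := by positivity
      nlinarith
    linarith
  have hi3 : 1 ≤ pi0 η u := by
    have : (0 : ℝ) < pi0 η u := lt_of_lt_of_le (by positivity) hi1
    exact_mod_cast this
  have hi0pos : (0 : ℝ) < pi0 η u := by exact_mod_cast hi3
  have hiR : pi0 η u ≤ pR η u L := by
    have h1 : (pi0 η u : ℝ) ≤ 2 * u := by
      have h0 : (1 + η / 2) * (η / 10) ≤ 1 := by nlinarith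
      have : (1 + η / 2) * (η / 10) * u ≤ 1 * u := mul_le_mul_of_nonneg_right h0 hu0.le
      linarith
    have h2 : 2 * u ≤ 16 / (η / 10) ^ 2 * L * u := by
      have e1 : 2 ≤ 16 / (η / 10) ^ 2 := by
        rw [le_div_iff₀ (by positivity)]
        nlinarith
      have e2 : 2 ≤ 16 / (η / 10) ^ 2 * L := by nlinarith
      exact mul_le_mul_of_nonneg_right e2 hu0.le
    have h3 : (pi0 η u : ℝ) ≤ pR η u L := le_trans h1 (le_trans h2 hR1)
    exact_mod_cast h3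
  -- each factor
  obtain ⟨x0, hx0⟩ : ∃ x0 : ℝ, x0 = 1 + c * L + Real.log L + Real.log (B / g) := ⟨_, rfl⟩
  have hfac : ∀ e ∈ Finset.range Ep, ∑ t ∈ Finset.range (pi0 η u + 1),
      ((⌊b * (1 - η / 10) ^ e⌋₊).choose t : ℝ) ≤
      Real.exp ((pi0 η u : ℝ) * (x0 - g * e)) := by
    intro e he
    have hE' := hE e (Finset.mem_range.mp he)
    have hRa : pR η u L ≤ ⌊b * (1 - η / 10) ^ e⌋₊ := Nat.le_floor hE'.le
    have hia : pi0 η u ≤ ⌊b * (1 - η / 10) ^ e⌋₊ := le_trans hiR hRa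
    refine le_trans (choose_sum_le _ _ hi3 hia) ?_
    apply Real.exp_le_exp.mpr
    apply mul_le_mul_of_nonneg_left _ hi0pos.le
    have hbpos : 0 < b * (1 - η / 10) ^ e := lt_of_le_of_lt (Nat.cast_nonneg _) hE'
    have hfl : ((⌊b * (1 - η / 10) ^ e⌋₊ : ℕ) : ℝ) ≤ b * (1 - η / 10) ^ e :=
      Nat.floor_le hbpos.le
    have hflpos : (0 : ℝ) < ((⌊b * (1 - η / 10) ^ e⌋₊ : ℕ) : ℝ) := by
      exact_mod_cast lt_of_lt_of_le hi3 hia
    have hpow : (1 - η / 10) ^ e ≤ Real.exp (-(g * e)) := by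
      have h1 : (1 - η / 10) ≤ Real.exp (-g) := by
        have := Real.add_one_le_exp (-g)
        rw [hg] at this ⊢
        linarith
      calc (1 - η / 10) ^ e ≤ (Real.exp (-g)) ^ e :=
            pow_le_pow_left₀ (by linarith) h1 e
        _ = Real.exp (-(g * e)) := by
            rw [← Real.exp_nat_mul]
            congr 1
            ring
    have hpow0 : 0 < (1 - η / 10) ^ e := pow_pos (by linarith) e
    have hbb : b * (1 - η / 10) ^ e ≤
        (B * L * Real.exp (c * L) * u) * Real.exp (-(g * e)) := by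
      calc b * (1 - η / 10) ^ e ≤ (B * L * Real.exp (c * L) * u) * (1 - η / 10) ^ e :=
            mul_le_mul_of_nonneg_right hb hpow0.le
        _ ≤ (B * L * Real.exp (c * L) * u) * Real.exp (-(g * e)) :=
            mul_le_mul_of_nonneg_left hpow (by positivity)
    have hq : ((⌊b * (1 - η / 10) ^ e⌋₊ : ℕ) : ℝ) / (pi0 η u : ℝ) ≤
        (B / g) * L * Real.exp (c * L) * Real.exp (-(g * e)) := by
      rw [div_le_iff₀ hi0pos]
      refine le_trans (le_trans hfl hbb) ?_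
      have e1 : (B * L * Real.exp (c * L) * u) * Real.exp (-(g * e)) =
          (B / g) * L * Real.exp (c * L) * Real.exp (-(g * e)) * (g * u) := by
        field_simp
      rw [e1]
      exact mul_le_mul_of_nonneg_left hi1 (by positivity)
    have hlog : Real.log (((⌊b * (1 - η / 10) ^ e⌋₊ : ℕ) : ℝ) / (pi0 η u : ℝ)) ≤
        Real.log (B / g) + Real.log L + c * L + -(g * e) := by
      refine le_trans (Real.log_le_log (by positivity) hq) ?_
      have hBg : B / g ≠ 0 := by positivity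
      rw [Real.log_mul (by positivity) (Real.exp_pos _).ne',
        Real.log_mul (by positivity) (Real.exp_pos _).ne',
        Real.log_mul hBg hL0.ne', Real.log_exp, Real.log_exp]
    rw [hx0]
    linarith
  have hprod : ∏ e ∈ Finset.range Ep, ∑ t ∈ Finset.range (pi0 η u + 1),
      ((⌊b * (1 - η / 10) ^ e⌋₊).choose t : ℝ) ≤
      Real.exp ((pi0 η u : ℝ) * ((x0 + g / 2) ^ 2 / (2 * g))) := by
    refine le_trans (Finset.prod_le_prod (fun e _ =>
      Finset.sum_nonneg (fun t _ => Nat.cast_nonneg _)) hfac) ?_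
    rw [← Real.exp_sum, ← Finset.mul_sum]
    exact Real.exp_le_exp.mpr (mul_le_mul_of_nonneg_left (num5_sum x0 g hg0 Ep) hi0pos.le)
  have h2R : (2 : ℝ) ^ (pR η u L) ≤ Real.exp (pR η u L : ℝ) := by
    have h1 : (2 : ℝ) ≤ Real.exp 1 := by
      have := Real.add_one_le_exp (1 : ℝ)
      linarith
    calc (2 : ℝ) ^ (pR η u L) ≤ (Real.exp 1) ^ (pR η u L) :=
          pow_le_pow_left₀ (by norm_num) h1 _
      _ = Real.exp (pR η u L : ℝ) := by
          rw [← Real.exp_nat_mul, mul_one]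
  have hprod0 : 0 ≤ ∏ e ∈ Finset.range Ep, ∑ t ∈ Finset.range (pi0 η u + 1),
      ((⌊b * (1 - η / 10) ^ e⌋₊).choose t : ℝ) :=
    Finset.prod_nonneg (fun e _ => Finset.sum_nonneg (fun t _ => Nat.cast_nonneg _))
  refine le_trans (mul_le_mul h2R hprod hprod0 (Real.exp_pos _).le) ?_
  rw [← Real.exp_add]
  apply Real.exp_le_exp.mpr
  have hlogL : 0 ≤ Real.log L := Real.log_nonneg hL1
  have hlogB : 0 ≤ Real.log (B / g) := by
    apply Real.log_nonneg
    rw [le_div_iff₀ hg0]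
    linarith
  have hy0 : 0 ≤ x0 + g / 2 := by
    rw [hx0]
    have : 0 ≤ c * L := by positivity
    linarith
  have hy1 : x0 + g / 2 ≤ (c + η / 40) * L := by
    rw [hx0, hg]
    linarith
  have hy2 : (x0 + g / 2) ^ 2 ≤ ((c + η / 40) * L) ^ 2 := pow_le_pow_left₀ hy0 hy1 2
  have hfin := num5_fin η c L u hη hη1 hc hc1 hL1 hL2 hu
  have h4 : (pi0 η u : ℝ) * ((x0 + g / 2) ^ 2 / (2 * g)) ≤
      ((1 + η / 2) * (η / 10) * u + 1) * (((c + η / 40) * L) ^ 2 / (2 * (η / 10))) := by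
    rw [← hg]
    apply mul_le_mul _ _ (by positivity) _
    · rw [hg]; exact hi2
    · exact div_le_div_of_nonneg_right hy2 (by positivity)
    · have : 0 ≤ (1 + η / 2) * g * u := by positivity
      linarith
  linarith

theorem num5 (η c B : ℝ) (hη : 0 < η) (hη1 : η ≤ 1 / 12) (hc : 0 ≤ c) (hc1 : c < 1)
    (hB : 1 ≤ B) :
    ∃ d0 : ℝ, 0 < d0 ∧ ∀ D : ℝ, ∃ n0 : ℕ, ∀ n : ℕ, n0 ≤ n → ∀ d : ℝ, d0 ≤ d → d ≤ D →
      ∀ (b : ℝ) (Ep : ℕ), b ≤ B * Real.log d * Real.exp (c * Real.log d) * (n / d) →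
        (∀ e < Ep, (pR η (n / d) (Real.log d) : ℝ) < b * (1 - η / 10) ^ e) →
        (2 : ℝ) ^ (pR η (n / d) (Real.log d)) *
          ∏ e ∈ Finset.range Ep, ∑ t ∈ Finset.range (pi0 η (n / d) + 1),
            ((⌊b * (1 - η / 10) ^ e⌋₊).choose t : ℝ) ≤
          Real.exp ((c ^ 2 / 2 + η) * Real.log d ^ 2 * (n / d)) := by
  obtain ⟨C, hC⟩ : ∃ C : ℝ, C = 1 + Real.log (B / (η / 10)) + η / 20 := ⟨_, rfl⟩
  have hlog : ∀ᶠ L : ℝ in Filter.atTop, Real.log L ≤ η / 80 * L := by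
    have h := Real.isLittleO_log_id_atTop.def (show (0 : ℝ) < η / 80 by positivity)
    filter_upwards [h, Filter.eventually_ge_atTop (1 : ℝ)] with L h1 h2
    rw [Real.norm_of_nonneg (Real.log_nonneg h2), id, Real.norm_of_nonneg (by linarith)] at h1
    exact h1
  obtain ⟨L1, hL1⟩ := Filter.eventually_atTop.mp hlog
  obtain ⟨L0, hL0⟩ : ∃ L0 : ℝ, L0 = max (max L1 1) (max (16000 / η ^ 3) (80 / η * C)) :=
    ⟨_, rfl⟩
  refine ⟨Real.exp L0, Real.exp_pos _, fun D => ?_⟩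
  refine ⟨⌈|D| * (100 / η ^ 2)⌉₊, fun n hn d hd hdD b Ep hb hE => ?_⟩
  have hd0 : 0 < d := lt_of_lt_of_le (Real.exp_pos _) hd
  have hL : L0 ≤ Real.log d := by
    rw [Real.le_log_iff_exp_le hd0]
    exact hd
  have hA1 : L1 ≤ Real.log d :=
    le_trans (le_trans (le_trans (le_max_left _ _) (le_max_left _ _)) hL0.ge) hL
  have hA2 : 1 ≤ Real.log d :=
    le_trans (le_trans (le_trans (le_max_right _ _) (le_max_left _ _)) hL0.ge) hL
  have hA3 : 16000 / η ^ 3 ≤ Real.log d :=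
    le_trans (le_trans (le_trans (le_max_left _ _) (le_max_right _ _)) hL0.ge) hL
  have hA4 : 80 / η * C ≤ Real.log d :=
    le_trans (le_trans (le_trans (le_max_right _ _) (le_max_right _ _)) hL0.ge) hL
  have hy : 1 + c * Real.log d + Real.log (Real.log d) + Real.log (B / (η / 10)) + η / 20 ≤
      (c + η / 40) * Real.log d := by
    have h1 := hL1 _ hA1
    have h2 : C ≤ η / 80 * Real.log d := by
      have e : C = η / 80 * (80 / η * C) := by field_simp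
      rw [e]
      exact mul_le_mul_of_nonneg_left hA4 (by positivity)
    rw [hC] at h2
    linarith
  have hu : 100 / η ^ 2 ≤ (n : ℝ) / d := by
    rw [le_div_iff₀ hd0]
    have h1 : |D| * (100 / η ^ 2) ≤ n := le_trans (Nat.le_ceil _) (by exact_mod_cast hn)
    have h2 : d ≤ |D| := le_trans hdD (le_abs_self D)
    have h3 : 0 ≤ 100 / η ^ 2 := by positivity
    nlinarith
  exact num5_core η c B (Real.log d) (n / d) hη hη1 hc hc1 hB hA2 hA3 hy hu b Ep hb hE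

end LKA
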