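import Pool.Agent.LKA.NumA

/-!
# LKA-NumE: the remaining numerical conditions

Plan. `u = n/d ≥ n/D` is large for `n ≥ n0(D)`, `L = log d ≥ L0(η)`.
`num6`: `(Q+1) j ≤ (η L + 1)(a u + 1)`, `a = (1+6η)(1+1/η)`, `η a = (1+6η)(1+η) ≤ 1 + 8η`
(`η ≤ 1/12`), `κ ≤ (c + 4√η) L u + 1`. So the total is at most
`L u (1 + 8η + c + 4√η) + a u + η L + 3 ≤ L u (1 + c + 7√η)` for `L ≥ L0`, `u ≥ u0(D)`:
`8 η ≤ 8 √(1/12) √η ≤ 2.4 √η`.
`num7`: elementary: (a) `24 L²/η² ≤ d`; (b) `2·24 L²/η² ≤ (1-η)(N0 - l)/u` with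
`N0/u ≥ 10 e^(1/η) L²`, `l/u ≤ 2η` and `e^(1/η) ≥ 10/η²` for `η ≤ 1/12` (e.g.
`e^x ≥ x^4/24 ≥ 6 x²·..`; `Real.add_pow_le_pow_mul_pow_of_sq_le_sq` is not needed: use
`Real.pow_div_factorial_le_exp` with the exponent `4`: `e^x ≥ x^4/24 ≥ 6 x²` for `x ≥ 12`, and then
`10 e^(1/η) ≥ 60/η² `, `(1-η) (60 L²/η² - 2η) ≥ 48 L²/η²`); (c) floor; (d) `N0 ≤ n`:
`10 e^(1/η) L² u + 1 ≤ d u`; (e)-(g) monotonicity of ceilings; (h) `20/η ≤ μ0² u`; (i)
`1/n + 1/u ≤ 1/2`; (j) `exp (-(Q+1)/η) n < exp (-L) n = u ≤ N0`.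
`num8`: `exp (d + d²) (n+1) 10 ≤ exp ((η/2) L² u)` for `n ≥ n0(D)`.
-/

namespace LKA

/-- `n / D ≥ b` forces `n / d ≥ b`. -/
private lemma u_large (b D d : ℝ) (n : ℕ) (hd : 0 < d) (hdD : d ≤ D)
    (hn : ⌈D * b⌉₊ ≤ n) : b ≤ (n : ℝ) / d := by
  have hD : 0 < D := lt_of_lt_of_le hd hdD
  have h1 : D * b ≤ (n : ℝ) := le_trans (Nat.le_ceil _) (by exact_mod_cast hn)
  have h2 : b ≤ (n : ℝ) / D := by
    rw [le_div_iff₀ hD]
    linarith
  exact le_trans h2 (div_le_div_of_nonneg_left (Nat.cast_nonneg n) hd hdD)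

theorem num6 (η c : ℝ) (hη : 0 < η) (hη1 : η ≤ 1 / 12) (hc : 0 ≤ c) (hc1 : c < 1) :
    ∃ d0 : ℝ, 0 < d0 ∧ ∀ D : ℝ, ∃ n0 : ℕ, ∀ n : ℕ, n0 ≤ n → ∀ d : ℝ, d0 ≤ d → d ≤ D →
      (((pQ η (Real.log d) + 1) * pj η (n / d) + 1 + pk η c (n / d) (Real.log d) : ℕ) : ℝ) ≤
        Real.log d * (n / d) * (1 + c + 7 * Real.sqrt η) := by
  set s : ℝ := Real.sqrt η with hs
  have hs0 : 0 < s := Real.sqrt_pos.mpr hη
  have hss : s * s = η := Real.mul_self_sqrt hη.le
  have hs3 : s ≤ 3 / 10 := by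
    by_contra h
    push Not at h
    nlinarith
  set a : ℝ := (1 + 6 * η) * (1 + 1 / η) with ha
  have ha0 : 0 < a := by positivity
  have hηa : η * a ≤ 1 + 8 * η := by
    have h1 : η * a = (1 + 6 * η) * (η + 1) := by
      rw [ha]
      field_simp
    rw [h1]
    nlinarith
  refine ⟨Real.exp (1 + 5 * a / s), Real.exp_pos _, ?_⟩
  intro D
  refine ⟨⌈D * (2 + 15 / s)⌉₊, ?_⟩
  intro n hn d hd hdD
  have hd0 : 0 < d := lt_of_lt_of_le (Real.exp_pos _) hd
  have hL0 : 1 + 5 * a / s ≤ Real.log d := by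
    rw [Real.le_log_iff_exp_le hd0]
    exact hd
  have hu := u_large _ D d n hd0 hdD hn
  set L := Real.log d with hLdef
  set u : ℝ := (n : ℝ) / d with hudef
  have has : 0 < 5 * a / s := by positivity
  have h15 : 0 < 15 / s := by positivity
  have hL1 : 1 ≤ L := by linarith
  have hu2 : 2 ≤ u := by linarith
  have hLa : 5 * a ≤ s * L := by
    have h1 : 5 * a / s ≤ L := by linarith
    rw [div_le_iff₀ hs0] at h1
    linarith
  have hus : 15 ≤ s * u := by
    have h1 : 15 / s ≤ u := by linarith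
    rw [div_le_iff₀ hs0] at h1
    linarith
  have hpQ : (pQ η L : ℝ) ≤ η * L := Nat.floor_le (by positivity)
  have hpj : (pj η u : ℝ) ≤ a * u + 1 := by
    have := Nat.ceil_lt_add_one (show 0 ≤ (1 + 6 * η) * (1 + 1 / η) * u by positivity)
    exact this.le
  have hpk : (pk η c u L : ℝ) ≤ (c + 4 * s) * L * u + 1 := by
    have := Nat.ceil_lt_add_one (show 0 ≤ (c + 4 * Real.sqrt η) * L * u by positivity)
    exact this.le
  push_cast
  have hLu : 0 < L * u := by positivity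
  have h1 : ((pQ η L : ℝ) + 1) * (pj η u : ℝ) ≤ (η * L + 1) * (a * u + 1) := by
    apply mul_le_mul
    · linarith
    · exact hpj
    · exact Nat.cast_nonneg _
    · positivity
  have h2 : (η * L + 1) * (a * u + 1) = (η * a) * (L * u) + η * L + a * u + 1 := by ring
  have h3 : (η * a) * (L * u) ≤ (1 + 8 * η) * (L * u) :=
    mul_le_mul_of_nonneg_right hηa hLu.le
  have h4 : 8 * η ≤ 12 / 5 * s := by
    have h12 : s * s ≤ s * (3 / 10) := mul_le_mul_of_nonneg_left hs3 hs0.le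
    linarith
  have h5 : 8 * η * (L * u) ≤ 12 / 5 * s * (L * u) := mul_le_mul_of_nonneg_right h4 hLu.le
  have h6 : a * u ≤ 1 / 5 * (s * L) * u := by
    apply mul_le_mul_of_nonneg_right _ (by linarith)
    linarith
  have h7 : η * L ≤ 1 / 5 * s * (L * u) := by
    have h8 : η ≤ 1 / 5 * s * u := by
      have h12 : s * s ≤ s * (3 / 10) := mul_le_mul_of_nonneg_left hs3 hs0.le
      have h13 : s * 2 ≤ s * u := mul_le_mul_of_nonneg_left hu2 hs0.le
      linarith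
    calc η * L ≤ (1 / 5 * s * u) * L := mul_le_mul_of_nonneg_right h8 (by linarith)
      _ = 1 / 5 * s * (L * u) := by ring
  have h9 : 3 ≤ 1 / 5 * s * (L * u) := by
    have h12 : s * u * 1 ≤ s * u * L := mul_le_mul_of_nonneg_left hL1 (by positivity)
    linarith
  have h10 : L * u * (1 + c + 7 * s) =
      (L * u) + c * (L * u) + 4 * s * (L * u) + 12 / 5 * s * (L * u) + 1 / 5 * (s * L) * u
        + 1 / 5 * s * (L * u) + 1 / 5 * s * (L * u) := by ring
  have h11 : (c + 4 * s) * L * u = c * (L * u) + 4 * s * (L * u) := by ring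
  rw [h10]
  rw [h11] at hpk
  rw [h2] at h1
  linarith

/-- `exp x ≥ x⁴/24`. -/
private lemma exp_four (x : ℝ) (hx : 0 ≤ x) : x ^ 4 / 24 ≤ Real.exp x := by
  have h := Real.pow_div_factorial_le_exp x hx 4
  have h1 : ((Nat.factorial 4 : ℕ) : ℝ) = 24 := by
    norm_num [Nat.factorial]
  rw [h1] at h
  exact h

theorem num7 (η c : ℝ) (hη : 0 < η) (hη1 : η ≤ 1 / 12) (hc : 0 ≤ c) (hc1 : c < 1) :
    ∃ d0 : ℝ, 1 < d0 ∧ ∀ D : ℝ, ∃ n0 : ℕ, 0 < n0 ∧ ∀ n : ℕ, n0 ≤ n → ∀ d : ℝ, d0 ≤ d → d ≤ D →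
      pmu η (Real.log d) ≤ d ∧
      2 * pmu η (Real.log d) ≤
        (1 - η) * ((pN η (n / d) (Real.log d) : ℝ) - pl η (n / d)) / (n / d) ∧
      2 * (pD η (n / d) (Real.log d) : ℝ) / (n / d) ≤ 3 * pmu η (Real.log d) ^ 2 ∧
      pN η (n / d) (Real.log d) ≤ n ∧
      pl η (n / d) ≤ pN η (n / d) (Real.log d) ∧
      pl η (n / d) ≤ pj η (n / d) ∧
      pl η (n / d) ≤ pk η c (n / d) (Real.log d) ∧
      1 ≤ pj η (n / d) ∧ 1 ≤ pN η (n / d) (Real.log d) ∧
      20 / η ≤ pmu η (Real.log d) ^ 2 * (n / d) ∧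
      1 / (n : ℝ) + 1 / (n / d) ≤ 1 / 2 ∧
      prho η ^ (pQ η (Real.log d) + 1) * n < pN η (n / d) (Real.log d) ∧
      1 / (η / 10) ≤ pR η (n / d) (Real.log d) := by
  set E : ℝ := Real.exp (1 / η) with hE
  have hE0 : 0 < E := Real.exp_pos _
  have hη' : 0 < 1 / η := by positivity
  have hη12 : 12 ≤ 1 / η := by
    rw [le_div_iff₀ hη]
    linarith
  have hηη : η ^ 2 ≤ η := by
    have h1 : η * η ≤ η * 1 := mul_le_mul_of_nonneg_left (by linarith) hη.le
    have h2 : η ^ 2 = η * η := by ring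
    linarith
  have hη3 : η * η ^ 2 ≤ 1 := by
    have h1 : η * η ^ 2 ≤ 1 * 1 :=
      mul_le_mul (by linarith) (by linarith) (by positivity) (by norm_num)
    linarith
  have hE1 : 1 ≤ E := Real.one_le_exp hη'.le
  have hE6 : 6 / η ^ 2 ≤ E := by
    have h1 := exp_four (1 / η) hη'.le
    have h2 : 6 / η ^ 2 = 6 * (1 / η) ^ 2 := by
      field_simp
    rw [h2]
    have h3 : 144 ≤ (1 / η) ^ 2 := by nlinarith
    have h4 : 6 * (1 / η) ^ 2 ≤ (1 / η) ^ 4 / 24 := by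
      have h5 : 144 * (1 / η) ^ 2 ≤ (1 / η) ^ 2 * (1 / η) ^ 2 :=
        mul_le_mul_of_nonneg_right h3 (sq_nonneg _)
      have h6 : (1 / η) ^ 2 * (1 / η) ^ 2 = (1 / η) ^ 4 := by ring
      linarith
    linarith
  refine ⟨Real.exp (24 / η + 240 * E), ?_, ?_⟩
  · rw [← Real.exp_zero]
    apply Real.exp_lt_exp.mpr
    positivity
  intro D
  refine ⟨max 1 ⌈D * (4 + 1 / η)⌉₊, by omega, ?_⟩
  intro n hn d hd hdD
  have hn1 : 1 ≤ n := le_trans (le_max_left _ _) hn
  have hn2 : ⌈D * (4 + 1 / η)⌉₊ ≤ n := le_trans (le_max_right _ _) hn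
  have hnR : (1 : ℝ) ≤ n := by exact_mod_cast hn1
  have hd0 : 0 < d := lt_of_lt_of_le (Real.exp_pos _) hd
  have hL0 : 24 / η + 240 * E ≤ Real.log d := by
    rw [Real.le_log_iff_exp_le hd0]
    exact hd
  have hu := u_large _ D d n hd0 hdD hn2
  have hexpL : Real.exp (Real.log d) = d := Real.exp_log hd0
  set L := Real.log d with hLdef
  set u : ℝ := (n : ℝ) / d with hudef
  have hnu : (n : ℝ) = d * u := by rw [hudef]; field_simp
  have h24 : 24 / η = 24 * (1 / η) := by ring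
  have hL1 : 1 ≤ L := by
    rw [h24] at hL0
    linarith
  have hL24 : 24 / η ≤ L := by linarith
  have hL240 : 240 * E ≤ L := by
    rw [h24] at hL0
    linarith
  have hu4 : 4 ≤ u := by linarith
  have hu0 : 0 < u := by linarith
  have hηu : 1 ≤ η * u := by
    have h1 : 1 / η ≤ u := by linarith
    rw [div_le_iff₀ hη] at h1
    linarith
  have hd1 : 1 ≤ d := by
    rw [← hexpL]
    exact Real.one_le_exp (by linarith)
  have hL4 : L ^ 4 / 24 ≤ d := by
    have := exp_four L (by linarith)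
    rwa [hexpL] at this
  have hLsq : 1 ≤ L ^ 2 := by nlinarith
  have hLL2 : L ≤ L ^ 2 := by nlinarith
  have hL240' : 240 * E ≤ L ^ 2 := by linarith
  have hmu : 24 ≤ pmu η L := by
    unfold pmu
    have h1 : 24 ≤ 24 / η ^ 2 := by
      rw [le_div_iff₀ (by positivity)]
      nlinarith
    have h2 : 24 / η ^ 2 * 1 ≤ 24 / η ^ 2 * L ^ 2 :=
      mul_le_mul_of_nonneg_left hLsq (by positivity)
    linarith
  have hpNle : 10 * E * L ^ 2 * u ≤ (pN η u L : ℝ) := Nat.le_ceil _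
  have hEL : 1 ≤ E * L ^ 2 := by
    have h1 : E * 1 ≤ E * L ^ 2 := mul_le_mul_of_nonneg_left hLsq hE0.le
    linarith
  have hupN : u ≤ (pN η u L : ℝ) := by
    have h2 : 1 * u ≤ 10 * E * L ^ 2 * u := mul_le_mul_of_nonneg_right (by linarith) hu0.le
    linarith
  refine ⟨?_, ?_, ?_, ?_, ?_, ?_, ?_, ?_, ?_, ?_, ?_, ?_, ?_⟩
  · -- (a)
    have h1 : (24 / η) ^ 2 ≤ L ^ 2 := pow_le_pow_left₀ (by positivity) hL24 2
    have h2 : (24 / η) ^ 2 = 24 * (24 / η ^ 2) := by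
      field_simp
    have h3 : 24 / η ^ 2 * L ^ 2 ≤ L ^ 4 / 24 := by
      rw [h2] at h1
      have h4 : 24 * (24 / η ^ 2) * L ^ 2 ≤ L ^ 2 * L ^ 2 :=
        mul_le_mul_of_nonneg_right h1 (sq_nonneg L)
      have h5 : L ^ 2 * L ^ 2 = L ^ 4 := by ring
      linarith
    unfold pmu
    linarith
  · -- (b)
    have hpl : (pl η u : ℝ) ≤ η * u + 1 :=
      (Nat.ceil_lt_add_one (show 0 ≤ η * u by positivity)).le
    rw [le_div_iff₀ hu0]
    have h1 : (60 * L ^ 2 / η ^ 2) * u ≤ (pN η u L : ℝ) := by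
      have h2 : 60 * L ^ 2 / η ^ 2 = 10 * (6 / η ^ 2) * L ^ 2 := by ring
      rw [h2]
      refine le_trans ?_ hpNle
      gcongr
    have h3 : (60 * L ^ 2 / η ^ 2) * u - 2 * (η * u) ≤ (pN η u L : ℝ) - pl η u := by linarith
    have h4 : 11 / 12 * ((60 * L ^ 2 / η ^ 2) * u - 2 * (η * u)) ≤
        (1 - η) * ((pN η u L : ℝ) - pl η u) := by
      have h5 : 0 ≤ (60 * L ^ 2 / η ^ 2) * u - 2 * (η * u) := by
        have h6 : 2 * η ≤ 60 * L ^ 2 / η ^ 2 := by
          rw [le_div_iff₀ (by positivity)]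
          have h8 : 0 < η ^ 2 := by positivity
          linarith
        have h7 := mul_le_mul_of_nonneg_right h6 hu0.le
        linarith
      apply mul_le_mul
      · linarith
      · exact h3
      · exact h5
      · linarith
    have h5 : 2 * pmu η L * u ≤ 11 / 12 * ((60 * L ^ 2 / η ^ 2) * u - 2 * (η * u)) := by
      unfold pmu
      have h6 : 2 * (24 / η ^ 2 * L ^ 2) * u = 48 * (L ^ 2 / η ^ 2 * u) := by ring
      have h7 : 60 * L ^ 2 / η ^ 2 * u = 60 * (L ^ 2 / η ^ 2 * u) := by ring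
      rw [h6, h7]
      have h8 : η ≤ L ^ 2 / η ^ 2 := by
        rw [le_div_iff₀ (by positivity)]
        linarith
      have h9 := mul_le_mul_of_nonneg_right h8 hu0.le
      linarith
    linarith
  · -- (c)
    rw [div_le_iff₀ hu0]
    have h1 : (pD η u L : ℝ) ≤ pmu η L ^ 2 * u := Nat.floor_le (by positivity)
    have h2 : 0 ≤ pmu η L ^ 2 * u := by positivity
    linarith
  · -- (d)
    apply Nat.ceil_le.mpr
    rw [hnu]
    apply mul_le_mul_of_nonneg_right _ hu0.le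
    have h1 : 240 * E * L ^ 2 ≤ L ^ 2 * L ^ 2 := mul_le_mul_of_nonneg_right hL240' (sq_nonneg L)
    have h2 : L ^ 2 * L ^ 2 = L ^ 4 := by ring
    linarith
  · -- (e)
    apply Nat.ceil_mono
    apply mul_le_mul_of_nonneg_right _ hu0.le
    linarith
  · -- (f)
    apply Nat.ceil_mono
    apply mul_le_mul_of_nonneg_right _ hu0.le
    have h1 : 1 * 1 ≤ (1 + 6 * η) * (1 + 1 / η) :=
      mul_le_mul (by linarith) (by linarith) (by norm_num) (by positivity)
    linarith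
  · -- (g)
    apply Nat.ceil_mono
    apply mul_le_mul_of_nonneg_right _ hu0.le
    have hs0 : 0 < Real.sqrt η := Real.sqrt_pos.mpr hη
    have hss : Real.sqrt η * Real.sqrt η = η := Real.mul_self_sqrt hη.le
    have hs1 : Real.sqrt η ≤ 1 := Real.sqrt_le_one.mpr (by linarith)
    have h1 : η ≤ Real.sqrt η := by
      have h3 : Real.sqrt η * Real.sqrt η ≤ Real.sqrt η * 1 :=
        mul_le_mul_of_nonneg_left hs1 hs0.le
      linarith
    have h2 : Real.sqrt η * 1 ≤ Real.sqrt η * L := mul_le_mul_of_nonneg_left hL1 hs0.le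
    have h3 : 0 ≤ c * L := mul_nonneg hc (by linarith)
    have h4 : (c + 4 * Real.sqrt η) * L = c * L + 4 * (Real.sqrt η * L) := by ring
    rw [h4]
    linarith
  · -- (h)
    apply Nat.succ_le_of_lt
    apply Nat.ceil_pos.mpr
    positivity
  · -- (i)
    apply Nat.succ_le_of_lt
    apply Nat.ceil_pos.mpr
    have : 0 < L := by linarith
    positivity
  · -- (j)
    have h1 : 24 / η ≤ pmu η L := by
      unfold pmu
      have h2 : 24 / η ≤ 24 / η ^ 2 :=
        div_le_div_of_nonneg_left (by norm_num) (by positivity) hηη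
      have h3 : 24 / η ^ 2 * 1 ≤ 24 / η ^ 2 * L ^ 2 :=
        mul_le_mul_of_nonneg_left hLsq (by positivity)
      linarith
    have h2 : 20 / η ≤ 24 / η := by
      apply div_le_div_of_nonneg_right (by norm_num) hη.le
    have h3 : pmu η L ≤ pmu η L ^ 2 := by
      have h5 : pmu η L * 1 ≤ pmu η L * pmu η L :=
        mul_le_mul_of_nonneg_left (by linarith) (by linarith)
      have h6 : pmu η L ^ 2 = pmu η L * pmu η L := by ring
      linarith
    have h4 : pmu η L ^ 2 * 1 ≤ pmu η L ^ 2 * u :=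
      mul_le_mul_of_nonneg_left (by linarith) (by positivity)
    linarith
  · -- (k)
    have hun : u ≤ (n : ℝ) := by
      rw [hnu]
      have h3 : 1 * u ≤ d * u := mul_le_mul_of_nonneg_right hd1 hu0.le
      linarith
    have h1 : 1 / u ≤ 1 / 4 := one_div_le_one_div_of_le (by norm_num) hu4
    have h2 : 1 / (n : ℝ) ≤ 1 / 4 := one_div_le_one_div_of_le (by norm_num) (by linarith)
    linarith
  · -- (l)
    have h1 : η * L < (pQ η L : ℝ) + 1 := Nat.lt_floor_add_one _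
    have h2 : prho η ^ (pQ η L + 1) = Real.exp (-(((pQ η L : ℝ) + 1) / η)) := by
      unfold prho
      rw [← Real.exp_nat_mul]
      congr 1
      push_cast
      ring
    have h3 : Real.exp (-(((pQ η L : ℝ) + 1) / η)) < Real.exp (-L) := by
      apply Real.exp_lt_exp.mpr
      have : L < ((pQ η L : ℝ) + 1) / η := by
        rw [lt_div_iff₀ hη]
        linarith
      linarith
    have h4 : Real.exp (-L) = 1 / d := by
      rw [Real.exp_neg, hexpL, one_div]
    rw [h2]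
    have h5 : Real.exp (-(((pQ η L : ℝ) + 1) / η)) * n < 1 / d * n := by
      rw [← h4]
      exact mul_lt_mul_of_pos_right h3 (by linarith)
    have h6 : 1 / d * (n : ℝ) = u := by
      rw [hudef]
      ring
    linarith
  · -- (m)
    have h1 : 16 / (η / 10) ^ 2 * L * u ≤ (pR η u L : ℝ) := Nat.le_ceil _
    have hLu : 1 ≤ L * u := by
      have h5 : 1 * 1 ≤ L * u := mul_le_mul hL1 (by linarith) (by norm_num) (by linarith)
      linarith
    have h2 : 16 / (η / 10) ^ 2 * 1 ≤ 16 / (η / 10) ^ 2 * (L * u) :=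
      mul_le_mul_of_nonneg_left hLu (by positivity)
    have h3 : 1 / (η / 10) ≤ 16 / (η / 10) ^ 2 := by
      rw [div_le_div_iff₀ (by positivity) (by positivity)]
      nlinarith
    have h4 : 16 / (η / 10) ^ 2 * (L * u) = 16 / (η / 10) ^ 2 * L * u := by ring
    linarith

theorem num8 (η : ℝ) (hη : 0 < η) (hη1 : η ≤ 1 / 12) :
    ∃ d0 : ℝ, 1 < d0 ∧ ∀ D : ℝ, ∃ n0 : ℕ, ∀ n : ℕ, n0 ≤ n → ∀ d : ℝ, d0 ≤ d → d ≤ D →
      10 * ((n : ℝ) + 1) * Real.exp (d + d ^ 2) ≤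
        Real.exp (η / 2 * Real.log d ^ 2 * (n / d)) ∧
      Real.exp (2 * d - pD η (n / d) (Real.log d)) ≤
        Real.exp (-(η * Real.log d ^ 2 * (n / d))) := by
  refine ⟨Real.exp 1, by rw [← Real.exp_zero]; exact Real.exp_lt_exp.mpr (by norm_num), ?_⟩
  intro D
  refine ⟨max (max 1 ⌈160 * D ^ 2 * Real.exp (D + D ^ 2) / η ^ 2⌉₊) ⌈D * (2 * D + 1)⌉₊, ?_⟩
  intro n hn d hd hdD
  have hn1 : 1 ≤ n := le_trans (le_trans (le_max_left _ _) (le_max_left _ _)) hn
  have hn2 : ⌈160 * D ^ 2 * Real.exp (D + D ^ 2) / η ^ 2⌉₊ ≤ n :=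
    le_trans (le_trans (le_max_right _ _) (le_max_left _ _)) hn
  have hn3 : ⌈D * (2 * D + 1)⌉₊ ≤ n := le_trans (le_max_right _ _) hn
  have hnR : (1 : ℝ) ≤ n := by exact_mod_cast hn1
  have hn2R : 160 * D ^ 2 * Real.exp (D + D ^ 2) / η ^ 2 ≤ n :=
    le_trans (Nat.le_ceil _) (by exact_mod_cast hn2)
  have hd0 : 0 < d := lt_of_lt_of_le (Real.exp_pos _) hd
  have hD0 : 0 < D := lt_of_lt_of_le hd0 hdD
  have hL1 : 1 ≤ Real.log d := by
    rw [Real.le_log_iff_exp_le hd0]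
    exact hd
  have hu := u_large _ D d n hd0 hdD hn3
  have hnD : (n : ℝ) / D ≤ (n : ℝ) / d := div_le_div_of_nonneg_left (Nat.cast_nonneg n) hd0 hdD
  set L := Real.log d with hLdef
  set u : ℝ := (n : ℝ) / d with hudef
  have hLsq : 1 ≤ L ^ 2 := by nlinarith
  have hu0 : 0 < u := by positivity
  constructor
  · have h1 : Real.exp (d + d ^ 2) ≤ Real.exp (D + D ^ 2) := by
      apply Real.exp_le_exp.mpr
      have : d ^ 2 ≤ D ^ 2 := pow_le_pow_left₀ hd0.le hdD 2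
      linarith
    have h2 : η / 2 * (n / D) ≤ η / 2 * L ^ 2 * u := by
      have h3 : 1 * ((n : ℝ) / D) ≤ L ^ 2 * u :=
        mul_le_mul hLsq hnD (by positivity) (by positivity)
      have h4 : η / 2 * (1 * ((n : ℝ) / D)) ≤ η / 2 * (L ^ 2 * u) :=
        mul_le_mul_of_nonneg_left h3 (by positivity)
      linarith
    have h5 : (η / 2 * (n / D)) ^ 2 / 2 ≤ Real.exp (η / 2 * (n / D)) := by
      have := Real.pow_div_factorial_le_exp (η / 2 * ((n : ℝ) / D)) (by positivity) 2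
      simpa using this
    have h6 : 20 * n * Real.exp (D + D ^ 2) ≤ (η / 2 * (n / D)) ^ 2 / 2 := by
      have h7 : (η / 2 * ((n : ℝ) / D)) ^ 2 / 2 = n * (n * η ^ 2 / (8 * D ^ 2)) := by
        field_simp
        ring
      rw [h7]
      have h8 : 20 * Real.exp (D + D ^ 2) ≤ n * η ^ 2 / (8 * D ^ 2) := by
        rw [div_le_iff₀ (by positivity)] at hn2R
        rw [le_div_iff₀ (by positivity)]
        linarith
      have h9 := mul_le_mul_of_nonneg_left h8 (Nat.cast_nonneg (α := ℝ) n)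
      linarith
    calc 10 * ((n : ℝ) + 1) * Real.exp (d + d ^ 2)
        ≤ 20 * n * Real.exp (D + D ^ 2) := by
          apply mul_le_mul _ h1 (Real.exp_pos _).le (by positivity)
          linarith
      _ ≤ (η / 2 * (n / D)) ^ 2 / 2 := h6
      _ ≤ Real.exp (η / 2 * (n / D)) := h5
      _ ≤ Real.exp (η / 2 * L ^ 2 * u) := Real.exp_le_exp.mpr h2
  · apply Real.exp_le_exp.mpr
    have h1 : pmu η L ^ 2 * u < (pD η u L : ℝ) + 1 := Nat.lt_floor_add_one _
    have hmu : 2 * L ^ 2 ≤ pmu η L := by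
      unfold pmu
      apply mul_le_mul_of_nonneg_right _ (sq_nonneg L)
      rw [le_div_iff₀ (by positivity)]
      nlinarith
    have hmu2 : 2 * L ^ 2 ≤ pmu η L ^ 2 := by nlinarith
    have h2 : 2 * L ^ 2 * u ≤ pmu η L ^ 2 * u := mul_le_mul_of_nonneg_right hmu2 hu0.le
    have h3 : 1 * u ≤ L ^ 2 * u := mul_le_mul_of_nonneg_right hLsq hu0.le
    have h4 : η * L ^ 2 * u ≤ 1 * (L ^ 2 * u) := by
      have : 0 ≤ L ^ 2 * u := by positivity
      have h5 : η * (L ^ 2 * u) ≤ 1 * (L ^ 2 * u) :=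
        mul_le_mul_of_nonneg_right (by linarith) this
      linarith
    linarith

end LKA
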