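import Mathlib

/-!
# LKA-NumF: from `k` and `n` to the average degree

`M = ⌊(1/2 + ε) k (log k) n⌋`, `d = 2M/n`.

Plan. `(1+2ε) k log k - 2/n ≤ d ≤ (1+2ε) k log k` for `n ≥ 1`.
(a) `d0 ≤ (1+2ε) k log k - 2 ≤ d` for `k ≥ k0`; `k ≤ d` for `k ≥ k0` as `log k ≥ 3`. (b) upper bound.
(c) `L = log d ≤ log k + log log k + log (1+2ε) ≤ (1+τ') log k` for `k ≥ k0`, so
`k L (1+c+τ) ≤ (1+τ')(1+c+τ) k log k ≤ (1+2ε) k log k - 2 ≤ d` if `(1+τ')(1+c+τ) < 1 + 2ε`
(choose `τ' > 0` small, possible because `c + τ < 2ε`).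
(d) `n/k^(1-c) ≤ (1+2ε) L e^(cL) (n/d)`: `d/k^(1-c) ≤ (1+2ε) k log k · k^(c-1) = (1+2ε) k^c log k
≤ (1+2ε) d^c L` (as `1 ≤ k ≤ d`), `e^(cL) = d^c`.
(e) `n log k/k ≤ (1+2ε) L² (n/d)`: `d log k ≤ (1+2ε) k (log k)² ≤ (1+2ε) k L²`.
-/

namespace LKA

theorem num9 (ε c τ : ℝ) (hε : 0 < ε) (hc : 0 ≤ c) (hc1 : c < 1) (hτ : 0 < τ)
    (hcτ : c + τ < 2 * ε) (d0 : ℝ) :
    ∃ k0 : ℕ, 3 ≤ k0 ∧ ∀ k : ℕ, k0 ≤ k → ∀ n : ℕ, 1 ≤ n → ∀ M : ℕ,
      M = ⌊(1 / 2 + ε) * k * Real.log k * n⌋₊ →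
      d0 ≤ 2 * (M : ℝ) / n ∧
      2 * (M : ℝ) / n ≤ (1 + 2 * ε) * k * Real.log k ∧
      Real.log (2 * (M : ℝ) / n) * (n / (2 * (M : ℝ) / n)) * (1 + c + τ) ≤ (n : ℝ) / k ∧
      (n : ℝ) / (k : ℝ) ^ (1 - c) ≤
        (1 + 2 * ε) * Real.log (2 * (M : ℝ) / n) * Real.exp (c * Real.log (2 * (M : ℝ) / n)) *
          (n / (2 * (M : ℝ) / n)) ∧
      (n : ℝ) * Real.log k / k ≤
        (1 + 2 * ε) * Real.log (2 * (M : ℝ) / n) ^ 2 * (n / (2 * (M : ℝ) / n)) := by
  classical
  set b : ℝ := 1 + c + τ with hb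
  have hb1 : 1 < b := by rw [hb]; linarith
  obtain ⟨τ', hτ', hτ2⟩ : ∃ τ' : ℝ, 0 < τ' ∧ (1 + τ') * b < 1 + 2 * ε := by
    refine ⟨(2 * ε - c - τ) / (2 * b), ?_, ?_⟩
    · apply div_pos <;> linarith
    · have h1 : (1 + (2 * ε - c - τ) / (2 * b)) * b = b + (2 * ε - c - τ) / 2 := by
        have hb0 : b ≠ 0 := by linarith
        field_simp
      rw [h1, hb]
      linarith
  set s : ℝ := (1 + 2 * ε) - (1 + τ') * b with hs
  have hs0 : 0 < s := by rw [hs]; linarith
  -- limits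
  have hK : Filter.Tendsto (fun k : ℕ => (k : ℝ)) Filter.atTop Filter.atTop :=
    tendsto_natCast_atTop_atTop
  have hl : Filter.Tendsto (fun k : ℕ => Real.log (k : ℝ)) Filter.atTop Filter.atTop :=
    Real.tendsto_log_atTop.comp hK
  have hKl : Filter.Tendsto (fun k : ℕ => (k : ℝ) * Real.log (k : ℝ)) Filter.atTop
      Filter.atTop := hK.atTop_mul_atTop₀ hl
  have e1 : ∀ᶠ k : ℕ in Filter.atTop, 3 ≤ Real.log (k : ℝ) := hl.eventually_ge_atTop 3
  have e2 : ∀ᶠ k : ℕ in Filter.atTop, (d0 + 2) / (1 + 2 * ε) ≤ (k : ℝ) * Real.log (k : ℝ) :=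
    hKl.eventually_ge_atTop _
  have e3 : ∀ᶠ k : ℕ in Filter.atTop, 2 / s ≤ (k : ℝ) * Real.log (k : ℝ) :=
    hKl.eventually_ge_atTop _
  have e4 : ∀ᶠ k : ℕ in Filter.atTop,
      Real.log (Real.log (k : ℝ)) ≤ τ' / 2 * Real.log (k : ℝ) := by
    have h1 := (Real.isLittleO_log_id_atTop.bound (show 0 < τ' / 2 by linarith))
    have h2 := hl.eventually h1
    filter_upwards [h2, e1] with k hk hk1
    have h3 : |Real.log (Real.log (k : ℝ))| ≤ τ' / 2 * |Real.log (k : ℝ)| := by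
      simpa only [id, Real.norm_eq_abs] using hk
    rw [abs_of_nonneg (by linarith : (0 : ℝ) ≤ Real.log (k : ℝ))] at h3
    exact (le_abs_self _).trans h3
  have e5 : ∀ᶠ k : ℕ in Filter.atTop,
      Real.log (1 + 2 * ε) / (τ' / 2) ≤ Real.log (k : ℝ) := hl.eventually_ge_atTop _
  have e6 : ∀ᶠ k : ℕ in Filter.atTop, 3 ≤ k := Filter.eventually_ge_atTop 3
  obtain ⟨k0, hk0⟩ := Filter.eventually_atTop.1 (e1.and (e2.and (e3.and (e4.and (e5.and e6)))))
  refine ⟨max k0 3, le_max_right _ _, ?_⟩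
  intro k hk n hn M hM
  obtain ⟨a1, a2, a3, a4, a5, a6⟩ := hk0 k ((le_max_left _ _).trans hk)
  have hK3 : (3 : ℝ) ≤ k := by exact_mod_cast a6
  have hn1 : (1 : ℝ) ≤ n := by exact_mod_cast hn
  have hn0 : (0 : ℝ) < n := by linarith
  set K : ℝ := (k : ℝ) with hKdef
  set l : ℝ := Real.log K with hldef
  set X : ℝ := (1 / 2 + ε) * K * l * n with hX
  have hX0 : 0 ≤ X := by positivity
  have hM1 : (M : ℝ) ≤ X := by
    rw [hM]
    exact Nat.floor_le hX0
  have hM2 : X - 1 < M := by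
    rw [hM]
    have := Nat.lt_floor_add_one X
    linarith
  set B : ℝ := (1 + 2 * ε) * K * l with hB
  have hBX : 2 * X / n = B := by
    rw [hX, hB]
    field_simp
  set d : ℝ := 2 * (M : ℝ) / n with hd
  have hdB : d ≤ B := by
    rw [hd, ← hBX]
    exact div_le_div_of_nonneg_right (by linarith) hn0.le
  have hdB2 : B - 2 ≤ d := by
    have h1 : B - 2 ≤ 2 * X / n - 2 / n := by
      rw [hBX]
      have : 2 / (n : ℝ) ≤ 2 := by
        rw [div_le_iff₀ hn0]
        linarith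
      linarith
    have h2 : 2 * X / n - 2 / n ≤ d := by
      rw [hd, ← sub_div]
      exact div_le_div_of_nonneg_right (by linarith) hn0.le
    exact h1.trans h2
  have hKl3 : 3 * K ≤ K * l := by nlinarith
  have hBK : K * l ≤ B := by
    rw [hB]
    have : 0 ≤ 2 * ε * (K * l) := by positivity
    nlinarith
  have hKd : K ≤ d := by linarith
  have hd0' : 0 < d := by linarith
  have hlL : l ≤ Real.log d := Real.log_le_log (by linarith) hKd
  have hL1 : Real.log d ≤ (1 + τ') * l := by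
    have h1 : Real.log d ≤ Real.log B := Real.log_le_log hd0' hdB
    have h2 : Real.log B = Real.log (1 + 2 * ε) + l + Real.log l := by
      rw [hB, Real.log_mul (by positivity) (by positivity), Real.log_mul (by positivity)
        (by positivity)]
    have h3 : Real.log (1 + 2 * ε) ≤ τ' / 2 * l := by
      rw [div_le_iff₀ (by linarith)] at a5
      linarith
    rw [h2] at h1
    linarith
  set L : ℝ := Real.log d with hLdef
  have hL0 : 0 ≤ L := by linarith
  refine ⟨?_, ?_, ?_, ?_, ?_⟩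
  · have h1 : d0 + 2 ≤ B := by
      rw [div_le_iff₀ (by linarith)] at a2
      rw [hB]
      linarith
    linarith
  · exact hdB
  · have h1 : L * b * K ≤ d := by
      have h2 : L * b * K ≤ (1 + τ') * l * b * K := by
        have hbK : 0 ≤ b * K := by positivity
        nlinarith
      have h3 : (1 + τ') * l * b * K + 2 ≤ B := by
        rw [div_le_iff₀ hs0] at a3
        have h4 : B = (1 + τ') * l * b * K + K * l * s := by
          rw [hB, hs]
          ring
        rw [h4]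
        linarith
      linarith
    have hK0 : 0 < K := by linarith
    have h5 : L * (n / d) * b = n * (L * b / d) := by
      field_simp
    have h6 : (n : ℝ) / K = n * (1 / K) := by
      field_simp
    rw [h5, h6]
    refine mul_le_mul_of_nonneg_left ?_ hn0.le
    rw [div_le_div_iff₀ hd0' hK0]
    linarith
  · have hK0 : 0 < K := by linarith
    have h1 : Real.exp (c * L) = d ^ c := by
      rw [hLdef, Real.rpow_def_of_pos hd0', mul_comm]
    rw [h1]
    have h2 : K ^ c ≤ d ^ c := Real.rpow_le_rpow hK0.le hKd hc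
    have h3 : K ^ (1 - c) * K ^ c = K := by
      rw [← Real.rpow_add hK0]
      norm_num
    have h4 : 0 < K ^ (1 - c) := Real.rpow_pos_of_pos hK0 _
    have h5 : d ≤ (1 + 2 * ε) * L * d ^ c * K ^ (1 - c) := by
      calc d ≤ (1 + 2 * ε) * K * l := hdB
        _ = (1 + 2 * ε) * l * (K ^ (1 - c) * K ^ c) := by
            rw [h3]
            ring
        _ ≤ (1 + 2 * ε) * L * (K ^ (1 - c) * d ^ c) := by
            have h6 : (1 + 2 * ε) * l ≤ (1 + 2 * ε) * L := by nlinarith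
            refine mul_le_mul h6 (mul_le_mul_of_nonneg_left h2 h4.le) (by positivity)
              (by positivity)
        _ = _ := by ring
    rw [div_le_iff₀ h4]
    have h7 : (1 + 2 * ε) * L * d ^ c * (n / d) * K ^ (1 - c) =
        n * ((1 + 2 * ε) * L * d ^ c * K ^ (1 - c) / d) := by
      field_simp
    rw [h7]
    have h8 : 1 ≤ (1 + 2 * ε) * L * d ^ c * K ^ (1 - c) / d := by
      rw [le_div_iff₀ hd0']
      linarith
    nlinarith
  · have hK0 : 0 < K := by linarith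
    have h1 : d * l ≤ (1 + 2 * ε) * L ^ 2 * K := by
      calc d * l ≤ (1 + 2 * ε) * K * l * l := by
            refine mul_le_mul_of_nonneg_right hdB (by linarith)
        _ = (1 + 2 * ε) * K * (l * l) := by ring
        _ ≤ (1 + 2 * ε) * K * (L * L) := by
            refine mul_le_mul_of_nonneg_left ?_ (by positivity)
            exact mul_le_mul hlL hlL (by linarith) hL0
        _ = _ := by ring
    have h2 : (1 + 2 * ε) * L ^ 2 * (n / d) = n * ((1 + 2 * ε) * L ^ 2 / d) := by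
      field_simp
    have h3 : (n : ℝ) * l / K = n * (l / K) := by
      field_simp
    rw [h2, h3]
    refine mul_le_mul_of_nonneg_left ?_ hn0.le
    rw [div_le_div_iff₀ hK0 hd0']
    linarith

end LKA
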