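import Pool.Agent.LKA.Stage
import Pool.Agent.LKA.Low
import Pool.Agent.LKA.B2
import Pool.Agent.LKA.B3
import Pool.Agent.LKA.DMax
import Pool.Agent.LKA.Dens
import Pool.Agent.LKA.KW
import Pool.Agent.LKA.NumB
import Pool.Agent.LKA.NumC
import Pool.Agent.LKA.NumD
import Pool.Agent.LKA.NumE
import Pool.Agent.LKA.NumF

/-!
# LKA-Main: final assembly
-/

open scoped Classical
open Finset

namespace LKA

variable {n : ℕ}

/-- the explorer outputs a stable set with at least `n / k` vertices -/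
def Succeeds (E : Explorer n) (k : ℕ) (G : SimpleGraph (Fin n)) : Prop :=
  Ind G (E.out G) ∧ (n : ℝ) / k ≤ (E.out G).card

/-- the event of `dens_count` -/
def BadDens (n M R0 : ℕ) (γ : ℝ) (G : SimpleGraph (Fin n)) : Prop :=
  ∃ P : Finset (Fin n), R0 ≤ P.card ∧ ∀ v ∈ P,
    ((P.filter (fun w => G.Adj v w)).card : ℝ) < (1 - 3 * γ) * (2 * M / (n : ℝ) ^ 2) * P.card

/-- number of stable subsets of a small set -/
theorem inds_le (G : SimpleGraph (Fin n)) (M : ℕ) (hn : 0 < n) (hM : 0 < M) (η c : ℝ)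
    (hη : 0 < η) (hη1 : η ≤ 1 / 12) (b : ℝ)
    (hR : 0 < pR η (n / (2 * M / n)) (Real.log (2 * M / n)))
    (hnum : ∀ Ep : ℕ, (∀ e < Ep, (pR η (n / (2 * M / n)) (Real.log (2 * M / n)) : ℝ) <
        b * (1 - η / 10) ^ e) →
        (2 : ℝ) ^ (pR η (n / (2 * M / n)) (Real.log (2 * M / n))) *
          ∏ e ∈ Finset.range Ep, ∑ t ∈ Finset.range (pi0 η (n / (2 * M / n)) + 1),
            ((⌊b * (1 - η / 10) ^ e⌋₊).choose t : ℝ) ≤
          Real.exp ((c ^ 2 / 2 + η) * Real.log (2 * M / n) ^ 2 * (n / (2 * M / n))))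
    (hG : ¬ BadDens n M (pR η (n / (2 * M / n)) (Real.log (2 * M / n))) (η / 10) G)
    (P : Finset (Fin n)) (hP : (P.card : ℝ) ≤ b) :
    (inds G P).card ≤ pH η c (n / (2 * M / n)) (Real.log (2 * M / n)) := by
  set u : ℝ := n / (2 * M / n) with hu
  set L : ℝ := Real.log (2 * M / n) with hL
  have hn' : (0 : ℝ) < n := by exact_mod_cast hn
  have hM' : (0 : ℝ) < M := by exact_mod_cast hM
  have hupos : 0 < u := by positivity
  have hγ : 0 < η / 10 := by positivity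
  have hγ1 : η / 10 < 1 := by linarith
  have h3 : 0 < 1 - 3 * (η / 10) := by linarith
  have hinv : 2 * (M : ℝ) / (n : ℝ) ^ 2 = 1 / u := by
    rw [hu]; field_simp
  -- existence of Ep
  have hex : ∃ e : ℕ, b * (1 - η / 10) ^ e ≤ pR η u L := by
    have h1 : Filter.Tendsto (fun e : ℕ => b * (1 - η / 10) ^ e) Filter.atTop (nhds (b * 0)) :=
      (tendsto_pow_atTop_nhds_zero_of_lt_one (by linarith) (by linarith)).const_mul b
    rw [mul_zero] at h1
    have h2 : (0 : ℝ) < pR η u L := by exact_mod_cast hR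
    have h4 := h1.eventually (gt_mem_nhds h2)
    obtain ⟨e, he⟩ := h4.exists
    exact ⟨e, he.le⟩
  have hE := Nat.find_spec hex
  have hmin : ∀ e < Nat.find hex, (pR η u L : ℝ) < b * (1 - η / 10) ^ e := by
    intro e he
    exact not_le.mp (Nat.find_min hex he)
  have hβ : 0 < (1 - 3 * (η / 10)) * (2 * M / (n : ℝ) ^ 2) := by positivity
  have hdeg : ∀ P : Finset (Fin n), pR η u L ≤ P.card → ∃ v ∈ P,
      (1 - 3 * (η / 10)) * (2 * M / (n : ℝ) ^ 2) * P.card ≤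
        (P.filter (fun w => G.Adj v w)).card := by
    intro P hP
    by_contra hcon
    push Not at hcon
    exact hG ⟨P, hP, hcon⟩
  have hi : η / 10 ≤ (pi0 η u : ℝ) * ((1 - 3 * (η / 10)) * (2 * M / (n : ℝ) ^ 2) *
      (1 - η / 10)) := by
    have h5 : (η / 10) * u / ((1 - 3 * (η / 10)) * (1 - η / 10)) ≤ pi0 η u := Nat.le_ceil _
    have h6 : 0 < (1 - 3 * (η / 10)) * (1 - η / 10) := mul_pos h3 (by linarith)
    rw [div_le_iff₀ h6] at h5
    rw [hinv]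
    have h7 : (pi0 η u : ℝ) * ((1 - 3 * (η / 10)) * (1 / u) * (1 - η / 10)) =
        (pi0 η u : ℝ) * ((1 - 3 * (η / 10)) * (1 - η / 10)) / u := by
      field_simp
    rw [h7, le_div_iff₀ hupos]
    exact h5
  have hkw := kw_count G (pR η u L) (pi0 η u) (Nat.find hex) b
    ((1 - 3 * (η / 10)) * (2 * M / (n : ℝ) ^ 2)) (η / 10) hβ hγ hγ1 hdeg hi hE P hP
  have h8 := hkw.trans (hnum (Nat.find hex) hmin)
  exact Nat.le_floor h8

/-- if nothing bad happens, the output is small -/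
theorem contain (E : Explorer n) (G : SimpleGraph (Fin n)) (M : ℕ) (hn : 0 < n) (hM : 0 < M)
    (η c : ℝ) (hη : 0 < η) (hη1 : η ≤ 1 / 12) (b : ℝ) (u L : ℝ)
    (hu : u = n / (2 * M / n)) (hL : L = Real.log (2 * M / n)) (hLpos : 0 < L)
    (h7 : pmu η L ≤ 2 * M / n ∧
      2 * pmu η L ≤ (1 - η) * ((pN η u L : ℝ) - pl η u) / u ∧
      2 * (pD η u L : ℝ) / u ≤ 3 * pmu η L ^ 2 ∧
      pN η u L ≤ n ∧ pl η u ≤ pN η u L ∧ pl η u ≤ pj η u ∧ pl η u ≤ pk η c u L ∧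
      1 ≤ pj η u ∧ 1 ≤ pN η u L ∧ 20 / η ≤ pmu η L ^ 2 * u ∧
      1 / (n : ℝ) + 1 / u ≤ 1 / 2 ∧
      prho η ^ (pQ η L + 1) * n < pN η u L ∧ 1 / (η / 10) ≤ pR η u L)
    (hnum : ∀ Ep : ℕ, (∀ e < Ep, (pR η u L : ℝ) < b * (1 - η / 10) ^ e) →
        (2 : ℝ) ^ (pR η u L) *
          ∏ e ∈ Finset.range Ep, ∑ t ∈ Finset.range (pi0 η u + 1),
            ((⌊b * (1 - η / 10) ^ e⌋₊).choose t : ℝ) ≤
          Real.exp ((c ^ 2 / 2 + η) * L ^ 2 * u))
    (hund : ∀ s ≤ n, ((E.und G s).card : ℝ) ≤ b)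
    (hG : G.edgeSet.ncard = M) (hF : Ind G (E.out G))
    (hD : ¬ ∃ v, pD η u L ≤ (G.neighborSet v).ncard)
    (hDens : ¬ BadDens n M (pR η u L) (η / 10) G)
    (h1 : ∀ s ≤ n, ¬ Bad1 M η (pmu η L) (pl η u) E s G)
    (h2 : ∀ s ≤ n, ¬ Bad2 M η (pmu η L) (pl η u) (pH η c u L) (pj η u) (prho η) (pN η u L) E s G)
    (h3 : ∀ s ≤ n, ¬ Bad3 M η (pmu η L) (pl η u) (pH η c u L) (pN η u L) (pk η c u L) E s G) :
    (E.out G).card < (pQ η L + 1) * pj η u + 1 + pk η c u L := by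
  obtain ⟨ha, hb, hc', hd, he, hf, hg, hj, hN, h20, hi, hQ, hR⟩ := h7
  have hn' : (0 : ℝ) < n := by exact_mod_cast hn
  have hM' : (0 : ℝ) < M := by exact_mod_cast hM
  have hupos : 0 < u := by rw [hu]; positivity
  have hinv : 2 * (M : ℝ) / (n : ℝ) ^ 2 = 1 / u := by
    rw [hu]; field_simp
  have hRpos : 0 < pR η u L := by
    have h4 : (0 : ℝ) < pR η u L := lt_of_lt_of_le (by positivity) hR
    exact_mod_cast h4
  have hρ : 0 < prho η := Real.exp_pos _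
  have hρ1 : prho η < 1 := by
    rw [prho, Real.exp_lt_one_iff]
    have : 0 < 1 / η := by positivity
    linarith
  have hμ : 0 < pmu η L := by unfold pmu; positivity
  refine stage E G M η (pmu η L) (prho η) (pl η u) (pH η c u L) (pj η u) (pN η u L)
    (pk η c u L) (pD η u L) (pQ η L) hn hη (by linarith) hμ hρ hρ1 hj hN hd he hG hF ?_ ?_
    h1 h2 h3 ha ?_ ?_ hQ
  · intro v
    by_contra hv
    exact hD ⟨v, by omega⟩
  · intro s hs
    subst hu hL
    refine inds_le G M hn hM η c hη hη1 b hRpos hnum hDens _ ?_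
    refine le_trans ?_ (hund s hs)
    exact_mod_cast Finset.card_le_card Finset.inter_subset_left
  · have h5 : (1 - η) * ((pN η u L : ℝ) - pl η u) * (2 * M) / (n : ℝ) ^ 2 =
        (1 - η) * ((pN η u L : ℝ) - pl η u) / u := by
      have : (1 - η) * ((pN η u L : ℝ) - pl η u) * (2 * M) / (n : ℝ) ^ 2 =
        (1 - η) * ((pN η u L : ℝ) - pl η u) * (2 * M / (n : ℝ) ^ 2) := by ring
      rw [this, hinv]; ring
    rw [h5]; exact hb
  · have h6 : 2 * (M : ℝ) * (2 * (pD η u L : ℝ)) / (n : ℝ) ^ 2 = 2 * (pD η u L : ℝ) / u := by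
      have : 2 * (M : ℝ) * (2 * (pD η u L : ℝ)) / (n : ℝ) ^ 2 =
        2 * (pD η u L : ℝ) * (2 * M / (n : ℝ) ^ 2) := by ring
      rw [this, hinv]; ring
    rw [h6]; exact hc'

end LKA
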