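import Pool.Agent.LKA.Defs

/-!
# LKA-Mat: perfect matchings

Plan. (1) `mem_Mat`: unfold. (2) `sum_Mat`: the map `(b, m') ↦ swap a b * m'` is a bijection from
`Σ b ∈ X.erase a, Mat ((X.erase a).erase b)` to `Mat X`; inverse `m ↦ (m a, swap a (m a) * m)`.
(`Finset.sum_sigma'` and `Finset.sum_bij'`.) For `m' ∈ Mat ((X.erase a).erase b)`: `m'` fixes `a` and
`b`, so `swap a b * m'` maps `a ↦ b`, `b ↦ a`, and `x ↦ m' x` for the other `x` (note `m' x ≠ a, b`
because `m'` is injective and fixes `a, b`).
(3) `card_Mat`: induction on `X.card` (strong): `X = ∅`: only the identity. `X ≠ ∅`: pick `a`, use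
`sum_Mat` with `g = 1`; `X = {a}`: the sum over `X.erase a = ∅` is `0 = pm 1`. Otherwise each inner
term is `pm (X.card - 2)` and there are `X.card - 1` of them.
(4) `pm_two_mul`: induction on `M`, `(2M+2)! = (2M+2)(2M+1)(2M)!`.
-/

open scoped Classical
open Finset

namespace LKA

variable {α : Type} [Fintype α]

theorem mem_Mat {X : Finset α} {m : Equiv.Perm α} :
    m ∈ Mat X ↔ (∀ x, m (m x) = x) ∧ ∀ x, m x ≠ x ↔ x ∈ X := by
  unfold Mat
  simp only [Finset.mem_filter, Finset.mem_univ, true_and]

omit [Fintype α] in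
private theorem swapmul_other {a b x : α} {m : Equiv.Perm α} (h1 : m x ≠ a) (h2 : m x ≠ b) :
    (Equiv.swap a b * m) x = m x := by
  rw [Equiv.Perm.mul_apply]
  exact Equiv.swap_apply_of_ne_of_ne h1 h2

private theorem mat_up {X : Finset α} {a b : α} {m : Equiv.Perm α} (ha : a ∈ X)
    (hb : b ∈ X.erase a) (hm : m ∈ Mat ((X.erase a).erase b)) :
    Equiv.swap a b * m ∈ Mat X ∧ (Equiv.swap a b * m) a = b := by
  rw [mem_Mat] at hm
  obtain ⟨h1, h2⟩ := hm
  rw [Finset.mem_erase] at hb
  obtain ⟨hba, hbX⟩ := hb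
  have hma : m a = a := by
    by_contra h
    have := (h2 a).1 h
    simp at this
  have hmb : m b = b := by
    by_contra h
    have := (h2 b).1 h
    simp at this
  have pa : (Equiv.swap a b * m) a = b := by
    rw [Equiv.Perm.mul_apply, hma, Equiv.swap_apply_left]
  have pb : (Equiv.swap a b * m) b = a := by
    rw [Equiv.Perm.mul_apply, hmb, Equiv.swap_apply_right]
  have po : ∀ x, x ≠ a → x ≠ b → (Equiv.swap a b * m) x = m x ∧ m x ≠ a ∧ m x ≠ b := by
    intro x hxa hxb
    have e1 : m x ≠ a := by
      intro h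
      apply hxa
      have := h1 x
      rw [h, hma] at this
      exact this.symm
    have e2 : m x ≠ b := by
      intro h
      apply hxb
      have := h1 x
      rw [h, hmb] at this
      exact this.symm
    exact ⟨swapmul_other e1 e2, e1, e2⟩
  refine ⟨?_, pa⟩
  rw [mem_Mat]
  constructor
  · intro x
    by_cases hxa : x = a
    · subst hxa
      rw [pa, pb]
    · by_cases hxb : x = b
      · subst hxb
        rw [pb, pa]
      · obtain ⟨e0, e1, e2⟩ := po x hxa hxb
        rw [e0, (po (m x) e1 e2).1, h1]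
  · intro x
    by_cases hxa : x = a
    · subst hxa
      rw [pa]
      exact ⟨fun _ => ha, fun _ => hba⟩
    · by_cases hxb : x = b
      · subst hxb
        rw [pb]
        exact ⟨fun _ => hbX, fun _ => fun h => hba h.symm⟩
      · obtain ⟨e0, e1, e2⟩ := po x hxa hxb
        rw [e0, h2 x, Finset.mem_erase, Finset.mem_erase]
        exact ⟨fun h => h.2.2, fun h => ⟨hxb, hxa, h⟩⟩

private theorem mat_down {X : Finset α} {a : α} {m : Equiv.Perm α} (ha : a ∈ X)
    (hm : m ∈ Mat X) :
    m a ∈ X.erase a ∧ Equiv.swap a (m a) * m ∈ Mat ((X.erase a).erase (m a)) := by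
  rw [mem_Mat] at hm
  obtain ⟨h1, h2⟩ := hm
  have hne : m a ≠ a := (h2 a).2 ha
  have hmb : m (m a) = a := h1 a
  have hbX : m a ∈ X := by
    rw [← h2 (m a), hmb]
    exact fun h => hne h.symm
  refine ⟨Finset.mem_erase.2 ⟨hne, hbX⟩, ?_⟩
  have pa : (Equiv.swap a (m a) * m) a = a := by
    rw [Equiv.Perm.mul_apply, Equiv.swap_apply_right]
  have pb : (Equiv.swap a (m a) * m) (m a) = m a := by
    rw [Equiv.Perm.mul_apply, hmb, Equiv.swap_apply_left]
  have po : ∀ x, x ≠ a → x ≠ m a →
      (Equiv.swap a (m a) * m) x = m x ∧ m x ≠ a ∧ m x ≠ m a := by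
    intro x hxa hxb
    have e1 : m x ≠ a := by
      intro h
      apply hxb
      have := h1 x
      rw [h] at this
      exact this.symm
    have e2 : m x ≠ m a := fun h => hxa (m.injective h)
    exact ⟨swapmul_other e1 e2, e1, e2⟩
  rw [mem_Mat]
  constructor
  · intro x
    by_cases hxa : x = a
    · subst hxa
      rw [pa, pa]
    · by_cases hxb : x = m a
      · subst hxb
        rw [pb, pb]
      · obtain ⟨e0, e1, e2⟩ := po x hxa hxb
        rw [e0, (po (m x) e1 e2).1, h1]
  · intro x
    by_cases hxa : x = a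
    · subst hxa
      rw [pa]
      simp
    · by_cases hxb : x = m a
      · subst hxb
        rw [pb]
        simp
      · obtain ⟨e0, e1, e2⟩ := po x hxa hxb
        rw [e0, h2 x, Finset.mem_erase, Finset.mem_erase]
        exact ⟨fun h => ⟨hxb, hxa, h⟩, fun h => h.2.2⟩

theorem sum_Mat {X : Finset α} {a : α} (ha : a ∈ X) (g : Equiv.Perm α → ℝ) :
    ∑ m ∈ Mat X, g m =
      ∑ b ∈ X.erase a, ∑ m ∈ Mat ((X.erase a).erase b), g (Equiv.swap a b * m) := by
  symm
  rw [Finset.sum_sigma']
  refine Finset.sum_bij' (fun x _ => Equiv.swap a x.1 * x.2)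
    (fun m _ => ⟨m a, Equiv.swap a (m a) * m⟩) ?_ ?_ ?_ ?_ ?_
  · rintro ⟨b, m⟩ hx
    rw [Finset.mem_sigma] at hx
    exact (mat_up ha hx.1 hx.2).1
  · intro m hm
    rw [Finset.mem_sigma]
    exact mat_down ha hm
  · rintro ⟨b, m⟩ hx
    rw [Finset.mem_sigma] at hx
    have h := (mat_up ha hx.1 hx.2).2
    simp only [h]
    rw [← mul_assoc, Equiv.swap_mul_self, one_mul]
  · intro m hm
    simp only
    rw [← mul_assoc, Equiv.swap_mul_self, one_mul]
  · intro x hx
    rfl

private theorem card_Mat_aux (N : ℕ) : ∀ X : Finset α, X.card = N → (Mat X).card = pm N := by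
  induction N using Nat.strong_induction_on with
  | _ N ih =>
    intro X hX
    rcases Finset.eq_empty_or_nonempty X with h0 | ⟨a, ha⟩
    · subst h0
      have h1 : Mat (∅ : Finset α) = {1} := by
        ext m
        rw [mem_Mat, Finset.mem_singleton]
        constructor
        · rintro ⟨_, h⟩
          apply Equiv.ext
          intro x
          by_contra hx
          have h2 := (h x).1 hx
          simp at h2
        · rintro rfl
          simp
      rw [Finset.card_empty] at hX
      rw [h1, ← hX]
      rfl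
    · have h1 := sum_Mat ha (fun _ => (1 : ℝ))
      simp only [Finset.sum_const, nsmul_eq_mul, mul_one] at h1
      have h2 : (Mat X).card = ∑ b ∈ X.erase a, (Mat ((X.erase a).erase b)).card := by
        exact_mod_cast h1
      have hc : (X.erase a).card = N - 1 := by
        rw [Finset.card_erase_of_mem ha, hX]
      have hpos : 0 < N := by
        rw [← hX]
        exact Finset.card_pos.2 ⟨a, ha⟩
      rcases Nat.lt_or_ge 1 N with hN | hN
      · obtain ⟨k, rfl⟩ : ∃ k, N = k + 2 := ⟨N - 2, by omega⟩
        have h3 : ∀ b ∈ X.erase a, (Mat ((X.erase a).erase b)).card = pm k := by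
          intro b hb
          apply ih k (by omega)
          rw [Finset.card_erase_of_mem hb, hc]
          omega
        rw [h2, Finset.sum_congr rfl h3, Finset.sum_const, hc, smul_eq_mul]
        rfl
      · have hN1 : N = 1 := by omega
        subst hN1
        have h4 : X.erase a = ∅ := Finset.card_eq_zero.1 hc
        rw [h2, h4, Finset.sum_empty]
        rfl

theorem card_Mat (X : Finset α) : (Mat X).card = pm X.card :=
  card_Mat_aux X.card X rfl

theorem pm_two_mul (M : ℕ) : pm (2 * M) * (2 ^ M * M.factorial) = (2 * M).factorial := by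
  induction M with
  | zero => rfl
  | succ M ih =>
    have h1 : pm (2 * (M + 1)) = (2 * M + 1) * pm (2 * M) := rfl
    have h2 : (2 * (M + 1)).factorial = (2 * M + 2) * ((2 * M + 1) * (2 * M).factorial) := by
      rw [show 2 * (M + 1) = (2 * M + 1) + 1 by ring, Nat.factorial_succ, Nat.factorial_succ]
    rw [h1, h2, ← ih, Nat.factorial_succ, pow_succ]
    ring

end LKA
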