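import Pool.Agent.LKA.Par

/-!
# LKA-NumA: numerical estimates (1), (4) and binomial bounds

Plan. `choose_le`: `C(n,k) ≤ n^k/k!` (`Nat.choose_le_pow_div`) and `k! ≥ (k/e)^k`
(`Real.exp k ≥ k^k/k!`, `Real.pow_div_factorial_le_exp`), so `C(n,k) ≤ exp (k (1 + log x))` whenever
`n ≤ x k`, `k ≥ 1` (for `k = 0` trivially).
`num1`: `l = pl η u ≥ η u`, so `n = d u ≤ (d/η) l`; `choose_le` with `x = d/η`; exponent
`l (1 + L + log (1/η) - 2 L²) ≤ - l L² ≤ - η L² u` for `L ≥ L0(η)` (`d0 = exp L0`).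
`num4`: for `s ≥ pR`, `γ = η/10`: `s ≥ 16 L u/γ² ≥ u`, so `n ≤ d s`,
`C(n,s) ≤ exp (s (1+L))`, `γ² s²/(2u) ≥ 8 L s`; the term is at most `exp (-s (7L - 1)) ≤ exp (-6 L s)
≤ exp (-96 L² u)` and there are at most `n` of them, `n ≤ exp (95 L² u)` for `n ≥ n0(D)` because
`u ≥ n/D` and `L ≥ 1`.
-/

namespace LKA

theorem choose_le (n k : ℕ) (x : ℝ) (hx : 1 ≤ x) (h : (n : ℝ) ≤ x * k) :
    (n.choose k : ℝ) ≤ Real.exp (k * (1 + Real.log x)) := by
  have hx0 : 0 < x := by linarith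
  have h1 : (n.choose k : ℝ) ≤ (n : ℝ) ^ k / (k.factorial : ℝ) := Nat.choose_le_pow_div k n
  have hf : (0 : ℝ) < (k.factorial : ℝ) := by exact_mod_cast Nat.factorial_pos k
  have h2 : (n : ℝ) ^ k ≤ (x * k) ^ k := pow_le_pow_left₀ (Nat.cast_nonneg n) h k
  have h3 : (k : ℝ) ^ k / (k.factorial : ℝ) ≤ Real.exp k :=
    Real.pow_div_factorial_le_exp (k : ℝ) (Nat.cast_nonneg k) k
  calc (n.choose k : ℝ) ≤ (n : ℝ) ^ k / (k.factorial : ℝ) := h1
    _ ≤ (x * k) ^ k / (k.factorial : ℝ) := by gcongr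
    _ = x ^ k * ((k : ℝ) ^ k / (k.factorial : ℝ)) := by rw [mul_pow]; ring
    _ ≤ x ^ k * Real.exp k := by gcongr
    _ = Real.exp (k * (1 + Real.log x)) := by
      have : x ^ k = Real.exp (k * Real.log x) := by
        rw [mul_comm, Real.exp_mul, Real.exp_log hx0, Real.rpow_natCast]
      rw [this, ← Real.exp_add]
      congr 1
      ring

theorem num1 (η : ℝ) (hη : 0 < η) (hη1 : η ≤ 1 / 12) :
    ∃ d0 : ℝ, 0 < d0 ∧ ∀ (n : ℕ) (d : ℝ), 0 < n → d0 ≤ d →
      (n.choose (pl η (n / d)) : ℝ) *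
        Real.exp (-(η ^ 2 * pmu η (Real.log d) * pl η (n / d) / 12)) ≤
        Real.exp (-(η * Real.log d ^ 2 * (n / d))) := by
  refine ⟨Real.exp (2 + Real.log (1 / η)), Real.exp_pos _, ?_⟩
  intro n d hn hd
  have hlam : 0 ≤ Real.log (1 / η) := by
    apply Real.log_nonneg
    rw [le_div_iff₀ hη]
    linarith
  have hd0 : 0 < d := lt_of_lt_of_le (Real.exp_pos _) hd
  have hL : 2 + Real.log (1 / η) ≤ Real.log d := by
    rw [Real.le_log_iff_exp_le hd0]
    exact hd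
  have hd1 : 1 ≤ d := by
    have : Real.exp 0 ≤ Real.exp (2 + Real.log (1 / η)) := Real.exp_le_exp.mpr (by linarith)
    rw [Real.exp_zero] at this
    linarith
  set L := Real.log d with hLdef
  set l := pl η (n / d) with hl
  have hle : η * (n / d) ≤ (l : ℝ) := Nat.le_ceil _
  have hnx : (n : ℝ) ≤ (d / η) * l := by
    have h1 : (n : ℝ) = (d / η) * (η * (n / d)) := by field_simp
    have h2 : 0 ≤ d / η := by positivity
    calc (n : ℝ) = (d / η) * (η * (n / d)) := h1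
      _ ≤ (d / η) * l := mul_le_mul_of_nonneg_left hle h2
  have hx1 : 1 ≤ d / η := by
    rw [le_div_iff₀ hη]
    linarith
  have hc := choose_le n l (d / η) hx1 hnx
  have hlog : Real.log (d / η) = L + Real.log (1 / η) := by
    rw [Real.log_div hd0.ne' hη.ne', one_div, Real.log_inv]
    ring
  rw [hlog] at hc
  have hexp : η ^ 2 * pmu η L * l / 12 = 2 * L ^ 2 * l := by
    unfold pmu
    field_simp
    ring
  rw [hexp]
  calc (n.choose l : ℝ) * Real.exp (-(2 * L ^ 2 * l))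
      ≤ Real.exp (l * (1 + (L + Real.log (1 / η)))) * Real.exp (-(2 * L ^ 2 * l)) := by gcongr
    _ = Real.exp (l * (1 + (L + Real.log (1 / η))) + -(2 * L ^ 2 * l)) := by rw [Real.exp_add]
    _ ≤ Real.exp (-(η * L ^ 2 * (n / d))) := by
      apply Real.exp_le_exp.mpr
      have h1 : 1 + (L + Real.log (1 / η)) ≤ L ^ 2 := by nlinarith
      have hl0 : (0 : ℝ) ≤ l := Nat.cast_nonneg l
      have h2 : (l : ℝ) * (1 + (L + Real.log (1 / η))) ≤ l * L ^ 2 := mul_le_mul_of_nonneg_left h1 hl0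
      have h3 : (η * (n / d)) * L ^ 2 ≤ l * L ^ 2 := mul_le_mul_of_nonneg_right hle (sq_nonneg L)
      nlinarith

theorem num4 (η : ℝ) (hη : 0 < η) (hη1 : η ≤ 1 / 12) :
    ∃ d0 : ℝ, 0 < d0 ∧ ∀ D : ℝ, ∃ n0 : ℕ, ∀ n : ℕ, n0 ≤ n → ∀ d : ℝ, d0 ≤ d → d ≤ D →
      ∑ s ∈ Finset.Icc (pR η (n / d) (Real.log d)) n, (n.choose s : ℝ) *
        Real.exp (-((η / 10) ^ 2 * (s : ℝ) ^ 2 / (2 * (n / d)))) ≤
        Real.exp (-(Real.log d ^ 2 * (n / d))) := by
  refine ⟨Real.exp 1, Real.exp_pos _, ?_⟩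
  intro D
  refine ⟨max 1 ⌈D ^ 2⌉₊, ?_⟩
  intro n hn d hd hdD
  have hn1 : 1 ≤ n := le_trans (le_max_left _ _) hn
  have hnR : (1 : ℝ) ≤ n := by exact_mod_cast hn1
  have hnD : D ^ 2 ≤ n := by
    have h1 : D ^ 2 ≤ (⌈D ^ 2⌉₊ : ℝ) := Nat.le_ceil _
    have h2 : (⌈D ^ 2⌉₊ : ℝ) ≤ n := by exact_mod_cast le_trans (le_max_right _ _) hn
    linarith
  have hd0 : 0 < d := lt_of_lt_of_le (Real.exp_pos _) hd
  have hD0 : 0 < D := lt_of_lt_of_le hd0 hdD
  have hL : 1 ≤ Real.log d := by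
    rw [Real.le_log_iff_exp_le hd0]
    exact hd
  have hd1 : 1 ≤ d := by
    have := Real.add_one_le_exp (1 : ℝ)
    linarith
  set L := Real.log d with hLdef
  set u : ℝ := (n : ℝ) / d with hu
  have hu0 : 0 < u := by positivity
  have hnu : (n : ℝ) = d * u := by rw [hu]; field_simp
  have hg0 : 0 < η / 10 := by positivity
  have hg1 : (η / 10) ^ 2 ≤ 1 := by
    have : η / 10 ≤ 1 := by linarith
    nlinarith
  have hterm : ∀ s ∈ Finset.Icc (pR η u L) n, (n.choose s : ℝ) *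
        Real.exp (-((η / 10) ^ 2 * (s : ℝ) ^ 2 / (2 * u))) ≤ Real.exp (-(96 * L ^ 2 * u)) := by
    intro s hs
    rw [Finset.mem_Icc] at hs
    have hs1 : 16 / (η / 10) ^ 2 * L * u ≤ (s : ℝ) := by
      have h1 : 16 / (η / 10) ^ 2 * L * u ≤ (pR η u L : ℝ) := Nat.le_ceil _
      have h2 : (pR η u L : ℝ) ≤ s := by exact_mod_cast hs.1
      linarith
    have h16 : 16 ≤ 16 / (η / 10) ^ 2 := by
      rw [le_div_iff₀ (by positivity)]
      nlinarith
    have hLu : 0 < L * u := by positivity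
    have hsu : 16 * (L * u) ≤ (s : ℝ) := by nlinarith
    have hus : u ≤ (s : ℝ) := by nlinarith
    have hs0 : (0 : ℝ) ≤ s := Nat.cast_nonneg s
    have hns : (n : ℝ) ≤ d * s := by
      rw [hnu]
      exact mul_le_mul_of_nonneg_left hus hd0.le
    have hc := choose_le n s d hd1 hns
    have hq : 8 * L * s ≤ (η / 10) ^ 2 * (s : ℝ) ^ 2 / (2 * u) := by
      rw [le_div_iff₀ (by positivity)]
      have h1 : 16 * L * u ≤ (η / 10) ^ 2 * s := by
        have h2 : (η / 10) ^ 2 * (16 / (η / 10) ^ 2 * L * u) ≤ (η / 10) ^ 2 * s :=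
          mul_le_mul_of_nonneg_left hs1 (by positivity)
        have h3 : (η / 10) ^ 2 * (16 / (η / 10) ^ 2 * L * u) = 16 * L * u := by
          field_simp
        linarith
      nlinarith
    calc (n.choose s : ℝ) * Real.exp (-((η / 10) ^ 2 * (s : ℝ) ^ 2 / (2 * u)))
        ≤ Real.exp (s * (1 + L)) * Real.exp (-(8 * L * s)) := by
          gcongr
      _ = Real.exp (s * (1 + L) + -(8 * L * s)) := by rw [Real.exp_add]
      _ ≤ Real.exp (-(96 * L ^ 2 * u)) := by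
          apply Real.exp_le_exp.mpr
          have h1 : (s : ℝ) * (1 + L) + -(8 * L * s) ≤ -(6 * L * s) := by nlinarith
          have h2 : 6 * L * (16 * (L * u)) ≤ 6 * L * s := mul_le_mul_of_nonneg_left hsu (by linarith)
          nlinarith
  have hR1 : 1 ≤ pR η u L := by
    unfold pR
    apply Nat.one_le_iff_ne_zero.mpr
    apply Nat.pos_iff_ne_zero.mp
    apply Nat.ceil_pos.mpr
    positivity
  have hcard : ((Finset.Icc (pR η u L) n).card : ℝ) ≤ n := by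
    rw [Nat.card_Icc]
    have : n + 1 - pR η u L ≤ n := by omega
    exact_mod_cast this
  have hexpn : (n : ℝ) ≤ Real.exp (95 * L ^ 2 * u) := by
    have h1 : (95 : ℝ) * (n / D) ≤ 95 * L ^ 2 * u := by
      have h2 : (n : ℝ) / D ≤ u := by
        rw [hu]
        exact div_le_div_of_nonneg_left (Nat.cast_nonneg n) hd0 hdD
      have h3 : 1 ≤ L ^ 2 := by nlinarith
      nlinarith
    have h4 : (95 * ((n : ℝ) / D)) ^ 2 / 2 ≤ Real.exp (95 * (n / D)) := by
      have := Real.pow_div_factorial_le_exp (95 * ((n : ℝ) / D)) (by positivity) 2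
      simpa using this
    have h5 : (n : ℝ) ≤ (95 * ((n : ℝ) / D)) ^ 2 / 2 := by
      have h6 : (95 * ((n : ℝ) / D)) ^ 2 / 2 = 9025 / 2 * (n * (n / D ^ 2)) := by
        field_simp
        ring
      rw [h6]
      have h7 : 1 ≤ (n : ℝ) / D ^ 2 := by
        rw [le_div_iff₀ (by positivity)]
        linarith
      nlinarith
    calc (n : ℝ) ≤ (95 * ((n : ℝ) / D)) ^ 2 / 2 := h5
      _ ≤ Real.exp (95 * (n / D)) := h4
      _ ≤ Real.exp (95 * L ^ 2 * u) := Real.exp_le_exp.mpr h1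
  calc ∑ s ∈ Finset.Icc (pR η u L) n, (n.choose s : ℝ) *
        Real.exp (-((η / 10) ^ 2 * (s : ℝ) ^ 2 / (2 * u)))
      ≤ (Finset.Icc (pR η u L) n).card • Real.exp (-(96 * L ^ 2 * u)) :=
        Finset.sum_le_card_nsmul _ _ _ hterm
    _ = ((Finset.Icc (pR η u L) n).card : ℝ) * Real.exp (-(96 * L ^ 2 * u)) := by
        rw [nsmul_eq_mul]
    _ ≤ Real.exp (95 * L ^ 2 * u) * Real.exp (-(96 * L ^ 2 * u)) := by
        apply mul_le_mul_of_nonneg_right (le_trans hcard hexpn) (Real.exp_pos _).le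
    _ = Real.exp (-(L ^ 2 * u)) := by
        rw [← Real.exp_add]
        congr 1
        ring

end LKA
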