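import Mathlib

/-!
# Project LKA: the parameters

`u = n / d` where `d = 2M/n` is the average degree, `L = log d`.
-/

namespace LKA

noncomputable def pl (η u : ℝ) : ℕ := ⌈η * u⌉₊
noncomputable def pj (η u : ℝ) : ℕ := ⌈(1 + 6 * η) * (1 + 1 / η) * u⌉₊
noncomputable def pN (η u L : ℝ) : ℕ := ⌈10 * Real.exp (1 / η) * L ^ 2 * u⌉₊
noncomputable def pk (η c u L : ℝ) : ℕ := ⌈(c + 4 * Real.sqrt η) * L * u⌉₊
noncomputable def pH (η c u L : ℝ) : ℕ := ⌊Real.exp ((c ^ 2 / 2 + η) * L ^ 2 * u)⌋₊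
noncomputable def pmu (η L : ℝ) : ℝ := 24 / η ^ 2 * L ^ 2
noncomputable def pD (η u L : ℝ) : ℕ := ⌊pmu η L ^ 2 * u⌋₊
noncomputable def pQ (η L : ℝ) : ℕ := ⌊η * L⌋₊
noncomputable def prho (η : ℝ) : ℝ := Real.exp (-(1 / η))
noncomputable def pR (η u L : ℝ) : ℕ := ⌈16 / (η / 10) ^ 2 * L * u⌉₊
noncomputable def pi0 (η u : ℝ) : ℕ :=
  ⌈(η / 10) * u / ((1 - 3 * (η / 10)) * (1 - η / 10))⌉₊

end LKA
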