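import Pool.Agent.LKA.StageA

/-!
# LKA-Stage: deterministic part

Notation: `F = E.out G`, `R s = E.rv G s` (`s` elements for `s ≤ n`, by `next_inj`; `R n = univ`),
`A s = F ∩ R s`, `W s = live G (R s) (A s)`, `N s = (W s).card`, `f s = (A s).card`,
`H s = A s \ E.acc G s ⊆ E.und G s ∩ R s` (`out_rev`), `H s ∈ inds G (..)` as `F` is stable, and
`E.known G s (H s) = A s` (`acc_out`).
Facts: `R (s+1) = insert (E.next G s) (R s)`, `W` is decreasing in `s`, `f (s+1) ≤ f s + 1`,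
`F \ R s ⊆ W s` (`F` stable), `N 0 = n`, `N n = 0`.
(1) `stage_good` (StageA): for `s ≤ n`, if `N s' ≥ N0` for all `s' < s` then `μ0 ≤ mu M G (R s)` and
`(low ..).card < l`. Induction on `s`. `s = 0`: `stubs G ∅ = 2M` (`hM`: sum of degrees), so
`mu = 2M/n ≥ μ0`. Step: at `s` we have (by `h1`) `low.card < l`, so
`stubs ≥ ∑_{w ∈ W s \ low} res ≥ (N0 - l)(1-η) mu_s`; with `mu_s² = 2M stubs/n²` this gives
`mu_s ≥ (1-η)(N0-l) 2M/n² ≥ 2 μ0` (`hA`). Moreover
`stubs G (R (s+1)) ≥ stubs G (R s) - 2 Δ`: removing a vertex `v` costs `res v` (its own term) and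
at most `res v` more, `res v ≤ deg v ≤ Δ`. So `mu_{s+1}² ≥ 4 μ0² - 2M 2Δ/n² ≥ μ0²` (`hΔ`). The second
claim is `h1`.
(2) For `s ≤ e ≤ n` with `N s ≥ N0`, all earlier `N ≥ N0` automatically, and `ρ N s ≤ N e`:
`f e - f s < j`: otherwise `J ⊆ F ∩ (R e \ R s)` with `j` elements and `S = W e` contradict `¬ Bad2`
at `s` (`Reg` by (1) and `hH`; `S ⊆ W s`; no edges between `J ⊆ A e` and `W e`; `J ∩ W e = ∅`).
(3) For all `q : ℕ`, `s ≤ n` with `N0 ≤ N s` and `ρ^(q+1) n < N s`: `f s ≤ (q+1) j`. Induction on `q`: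
`q = 0`: (2) from time `0` (`f 0 = 0`). Step: if `ρ^(q+1) n < N s` use the hypothesis; otherwise let
`s'` be the first time with `N s' ≤ ρ^(q+1) n`: `0 < s' ≤ s`, `f (s'-1) ≤ (q+1) j`,
`f s' ≤ (q+1) j + 1`, `ρ N s' ≤ ρ^(q+2) n < N s`, so `f s ≤ f s' + (j - 1) ≤ (q+2) j`.
(4) By `hQ`: `f s ≤ (Q+1) j` whenever `N0 ≤ N s`. Let `s*` be the first time with `N s* < N0`
(exists as `N n = 0 < N0`; `s* ≥ 1` as `N 0 = n ≥ N0`). `f s* ≤ (Q+1) j + 1`, and `F \ R s*` is a stable
subset of `W s*`, so it has fewer than `κ` elements by `¬ Bad3` at `s*` (`Reg` by (1)).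
Total: `F.card = f s* + (F \ R s*).card < (Q+1) j + 1 + κ`.
-/

open scoped Classical
open Finset

namespace LKA

variable {n : ℕ}

private theorem rv_succ' (E : Explorer n) (G : SimpleGraph (Fin n)) (s : ℕ) :
    E.rv G (s + 1) = insert (E.next G s) (E.rv G s) := by
  unfold Explorer.rv
  rw [range_add_one, image_insert]

private theorem rv_mono' (E : Explorer n) (G : SimpleGraph (Fin n)) {s t : ℕ} (h : s ≤ t) :
    E.rv G s ⊆ E.rv G t := by
  unfold Explorer.rv
  exact image_subset_image (range_subset_range.2 h)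

private theorem rv_full' (E : Explorer n) (G : SimpleGraph (Fin n)) : E.rv G n = univ := by
  rw [← card_eq_iff_eq_univ]
  unfold Explorer.rv
  rw [card_image_of_injOn, card_range, Fintype.card_fin]
  intro i hi j hj hij
  exact E.next_inj G i j (mem_range.1 hi) (mem_range.1 hj) hij

private theorem live_anti' (E : Explorer n) (G : SimpleGraph (Fin n)) {s t : ℕ} (h : s ≤ t) :
    live G (E.rv G t) (E.out G ∩ E.rv G t) ⊆ live G (E.rv G s) (E.out G ∩ E.rv G s) := by
  intro w hw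
  unfold live at hw ⊢
  rw [mem_filter, mem_compl] at hw ⊢
  refine ⟨fun hws => hw.1 (rv_mono' E G h hws), fun a ha => hw.2 a ?_⟩
  rw [mem_inter] at ha ⊢
  exact ⟨ha.1, rv_mono' E G h ha.2⟩

private theorem known_eq' (E : Explorer n) (G : SimpleGraph (Fin n)) {s : ℕ} (hs : s ≤ n) :
    E.known G s ((E.out G ∩ E.rv G s) \ E.acc G s) = E.out G ∩ E.rv G s := by
  unfold Explorer.known
  ext x
  have h := E.acc_out G s hs
  simp only [mem_union, mem_inter, mem_sdiff]
  constructor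
  · rintro (⟨h1, h2⟩ | ⟨h1, -⟩)
    · exact ⟨h h1, h2⟩
    · exact h1
  · intro h1
    by_cases hx : x ∈ E.acc G s
    · exact Or.inl ⟨hx, h1.2⟩
    · exact Or.inr ⟨h1, hx⟩

private theorem H_mem' (E : Explorer n) (G : SimpleGraph (Fin n)) (hF : Ind G (E.out G)) {s : ℕ}
    (hs : s ≤ n) :
    (E.out G ∩ E.rv G s) \ E.acc G s ∈ inds G (E.und G s ∩ E.rv G s) := by
  unfold inds
  rw [mem_filter, mem_powerset]
  constructor
  · intro x hx
    rw [mem_sdiff, mem_inter] at hx
    obtain ⟨⟨h1, h2⟩, h3⟩ := hx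
    rw [mem_inter]
    refine ⟨?_, h2⟩
    have h2' := h2
    unfold Explorer.rv at h2'
    rw [mem_image] at h2'
    obtain ⟨i, hi, hix⟩ := h2'
    have h4 := E.out_rev G s hs i (mem_range.1 hi) (by rw [hix]; exact h1)
    rw [hix, mem_union] at h4
    exact h4.resolve_left h3
  · intro u hu v hv
    exact hF u (mem_inter.1 (mem_sdiff.1 hu).1).1 v (mem_inter.1 (mem_sdiff.1 hv).1).1

theorem stage (E : Explorer n) (G : SimpleGraph (Fin n)) (M : ℕ) (η μ0 ρ : ℝ)
    (l Hm j N0 κ Δ Q : ℕ) (hn : 0 < n) (hη : 0 < η) (hη1 : η ≤ 1 / 4) (hμ0 : 0 < μ0)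
    (hρ : 0 < ρ) (hρ1 : ρ < 1) (hj : 1 ≤ j) (hN0 : 1 ≤ N0) (hN0n : N0 ≤ n) (hlN : l ≤ N0)
    (hM : G.edgeSet.ncard = M) (hF : Ind G (E.out G))
    (hΔG : ∀ v, (G.neighborSet v).ncard ≤ Δ)
    (hH : ∀ s ≤ n, (inds G (E.und G s ∩ E.rv G s)).card ≤ Hm)
    (h1 : ∀ s ≤ n, ¬ Bad1 M η μ0 l E s G)
    (h2 : ∀ s ≤ n, ¬ Bad2 M η μ0 l Hm j ρ N0 E s G)
    (h3 : ∀ s ≤ n, ¬ Bad3 M η μ0 l Hm N0 κ E s G)
    (hμd : μ0 ≤ 2 * M / n)
    (hA : 2 * μ0 ≤ (1 - η) * ((N0 : ℝ) - l) * (2 * M) / (n : ℝ) ^ 2)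
    (hΔ : 2 * (M : ℝ) * (2 * Δ) / (n : ℝ) ^ 2 ≤ 3 * μ0 ^ 2)
    (hQ : ρ ^ (Q + 1) * n < N0) :
    (E.out G).card < (Q + 1) * j + 1 + κ := by
  set W : ℕ → Finset (Fin n) := fun s => live G (E.rv G s) (E.out G ∩ E.rv G s) with hW
  set f : ℕ → ℕ := fun s => (E.out G ∩ E.rv G s).card with hf
  have hWanti : ∀ {s t : ℕ}, s ≤ t → W t ⊆ W s := fun h => live_anti' E G h
  have hNanti : ∀ {s t : ℕ}, s ≤ t → (W t).card ≤ (W s).card := fun h => card_le_card (hWanti h)
  have hrv0 : E.rv G 0 = ∅ := by unfold Explorer.rv; simp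
  have hN0' : (W 0).card = n := by
    have : W 0 = univ := by
      simp only [hW, hrv0, inter_empty]
      unfold live
      ext w
      simp
    rw [this, card_univ, Fintype.card_fin]
  have hNn : (W n).card = 0 := by
    have : W n = ∅ := by
      simp only [hW, rv_full' E G]
      unfold live
      ext w
      simp
    rw [this, card_empty]
  have hf0 : f 0 = 0 := by
    simp only [hf, hrv0, inter_empty, card_empty]
  have hfs : ∀ s, f (s + 1) ≤ f s + 1 := by
    intro s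
    simp only [hf]
    have : E.out G ∩ E.rv G (s + 1) ⊆ insert (E.next G s) (E.out G ∩ E.rv G s) := by
      intro x hx
      rw [mem_inter, rv_succ', mem_insert] at hx
      rw [mem_insert, mem_inter]
      rcases hx.2 with h | h
      · exact Or.inl h
      · exact Or.inr ⟨hx.1, h⟩
    exact (card_le_card this).trans (card_insert_le _ _)
  -- (1)
  have hreg : ∀ s ≤ n, (∀ t < s, N0 ≤ (W t).card) → Reg M η μ0 l Hm E s G := by
    intro s hs hN
    have h := stage_good E G M η μ0 l N0 Δ hn hη hη1 hμ0 hlN hM hΔG h1 hμd hA hΔ s hs hN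
    exact ⟨h.1, h.2, hH s hs⟩
  -- (2)
  have step2 : ∀ s e : ℕ, s ≤ e → e ≤ n → N0 ≤ (W s).card →
      ρ * ((W s).card : ℝ) ≤ ((W e).card : ℝ) → f e < f s + j := by
    intro s e hse he hNs hρN
    by_contra hcon
    rw [not_lt] at hcon
    have hs : s ≤ n := hse.trans he
    have hsub : E.out G ∩ E.rv G s ⊆ E.out G ∩ E.rv G e :=
      inter_subset_inter_left (rv_mono' E G hse)
    have hcard : j ≤ ((E.out G ∩ E.rv G e) \ (E.out G ∩ E.rv G s)).card := by
      rw [card_sdiff_of_subset hsub]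
      simp only [hf] at hcon
      omega
    obtain ⟨J, hJ, hJc⟩ := exists_subset_card_eq hcard
    apply h2 s hs
    refine ⟨hreg s hs (fun t ht => hNs.trans (hNanti ht.le)),
      (E.out G ∩ E.rv G s) \ E.acc G s, H_mem' E G hF hs, ?_⟩
    rw [known_eq' E G hs]
    refine ⟨hNs, J, W e, ?_, hJc, ?_, hWanti hse, hρN, ?_, ?_⟩
    · intro x hx
      have hx' := hJ hx
      rw [mem_sdiff, mem_inter, mem_inter] at hx'
      rw [mem_compl]
      exact fun h => hx'.2 ⟨hx'.1.1, h⟩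
    · intro u hu v hv
      exact hF u (mem_inter.1 (mem_sdiff.1 (hJ hu)).1).1 v (mem_inter.1 (mem_sdiff.1 (hJ hv)).1).1
    · rw [disjoint_left]
      intro x hx hxW
      have hx1 := (mem_inter.1 (mem_sdiff.1 (hJ hx)).1).2
      simp only [hW] at hxW
      unfold live at hxW
      exact (mem_compl.1 (mem_filter.1 hxW).1) hx1
    · intro u hu v hv
      simp only [hW] at hv
      unfold live at hv
      exact (mem_filter.1 hv).2 u (mem_sdiff.1 (hJ hu)).1
  -- (3)
  have step3 : ∀ q s : ℕ, s ≤ n → N0 ≤ (W s).card → ρ ^ (q + 1) * (n : ℝ) < ((W s).card : ℝ) →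
      f s ≤ (q + 1) * j := by
    intro q
    induction q with
    | zero =>
      intro s hs hNs hρs
      have h := step2 0 s (Nat.zero_le s) hs (by rw [hN0']; exact hN0n)
        (by rw [hN0']; simpa using hρs.le)
      rw [hf0] at h
      omega
    | succ q ih =>
      intro s hs hNs hρs
      by_cases hcase : ρ ^ (q + 1) * (n : ℝ) < ((W s).card : ℝ)
      · have h := ih s hs hNs hcase
        exact h.trans (Nat.mul_le_mul_right _ (by omega))
      · rw [not_lt] at hcase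
        have hex : ∃ t, ((W t).card : ℝ) ≤ ρ ^ (q + 1) * (n : ℝ) := ⟨s, hcase⟩
        have hfind := Nat.find_spec hex
        have hle : Nat.find hex ≤ s := Nat.find_min' hex hcase
        have hne : Nat.find hex ≠ 0 := by
          intro h0
          rw [h0, hN0'] at hfind
          have hpow : ρ ^ (q + 1) < 1 := pow_lt_one₀ hρ.le hρ1 (by omega)
          have hn' : (0 : ℝ) < n := by exact_mod_cast hn
          nlinarith
        obtain ⟨t, ht⟩ := Nat.exists_eq_succ_of_ne_zero hne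
        rw [ht] at hfind hle
        have htlt : t < Nat.find hex := by omega
        have hmin := Nat.find_min hex htlt
        rw [not_le] at hmin
        have hts : t ≤ s := by omega
        have hft := ih t (hts.trans hs) (hNs.trans (hNanti hts)) hmin
        have hft1 := hfs t
        have h2' := step2 (t + 1) s hle hs (hNs.trans (hNanti hle)) (by
          calc ρ * ((W (t + 1)).card : ℝ) ≤ ρ * (ρ ^ (q + 1) * (n : ℝ)) :=
                mul_le_mul_of_nonneg_left hfind hρ.le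
            _ = ρ ^ (q + 1 + 1) * (n : ℝ) := by ring
            _ ≤ ((W s).card : ℝ) := hρs.le)
        have : (q + 1 + 1) * j = (q + 1) * j + j := by ring
        omega
  -- (4)
  have hQ' : ∀ s ≤ n, N0 ≤ (W s).card → f s ≤ (Q + 1) * j := by
    intro s hs hNs
    refine step3 Q s hs hNs (hQ.trans_le ?_)
    exact_mod_cast hNs
  have hex : ∃ s, (W s).card < N0 := ⟨n, by rw [hNn]; omega⟩
  have hfind := Nat.find_spec hex
  have hle : Nat.find hex ≤ n := Nat.find_min' hex (by rw [hNn]; omega)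
  have hne : Nat.find hex ≠ 0 := by
    intro h0
    rw [h0, hN0'] at hfind
    omega
  have hmin : ∀ t < Nat.find hex, N0 ≤ (W t).card := by
    intro t ht
    exact not_lt.1 (Nat.find_min hex ht)
  obtain ⟨t, ht⟩ := Nat.exists_eq_succ_of_ne_zero hne
  rw [ht] at hfind hle hmin
  have hft := hQ' t (by omega) (hmin t (Nat.lt_succ_self t))
  have hft1 := hfs t
  have hsub : E.out G \ E.rv G (t + 1) ⊆ W (t + 1) := by
    intro w hw
    rw [mem_sdiff] at hw
    simp only [hW]
    unfold live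
    rw [mem_filter, mem_compl]
    exact ⟨hw.2, fun a ha => hF a (mem_inter.1 ha).1 w hw.1⟩
  have hK : (E.out G \ E.rv G (t + 1)).card < κ := by
    by_contra hcon
    rw [not_lt] at hcon
    obtain ⟨K, hKs, hKc⟩ := exists_subset_card_eq hcon
    apply h3 (t + 1) hle
    refine ⟨hreg (t + 1) hle hmin,
      (E.out G ∩ E.rv G (t + 1)) \ E.acc G (t + 1), H_mem' E G hF hle, ?_⟩
    rw [known_eq' E G hle]
    refine ⟨hfind, K, hKs.trans hsub, hKc, ?_⟩
    intro u hu v hv
    exact hF u (mem_sdiff.1 (hKs hu)).1 v (mem_sdiff.1 (hKs hv)).1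
  have htot : (E.out G).card = (E.out G ∩ E.rv G (t + 1)).card +
      (E.out G \ E.rv G (t + 1)).card := (card_inter_add_card_sdiff _ _).symm
  have hft2 : (E.out G ∩ E.rv G (t + 1)).card = f (t + 1) := rfl
  rw [htot, hft2]
  omega

end LKA
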