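import Pool.Agent.LKA.Defs

/-!
# LKA-StageA: the regular situation persists

Notation: `R s = E.rv G s`, `F = E.out G`, `W s = live G (R s) (F ∩ R s)`.
Plan. Induction on `s ≤ n`. The second claim follows from the first by `h1`.
`s = 0`: `R 0 = ∅`, `stubs G ∅ = ∑_w deg w = 2M` (`SimpleGraph.sum_degrees_eq_twice_card_edges`, `hM`),
so `mu = √(2M·2M)/n = 2M/n ≥ μ0`. Step `s → s+1`: let `c = stubs G (R s)`, `μ = mu M G (R s) ≥ μ0 > 0`
and `low.card < l` (induction hypothesis); for `w ∉ low`, `w ∉ R s`: `res > (1-η) μ`, and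
`(W s \ low).card ≥ N0 - l`, so `c ≥ (N0 - l)(1-η) μ`; with `μ² = 2 M c/n²` this gives
`μ ≥ (1-η)(N0-l) 2M/n² ≥ 2 μ0` (`hA`).
With `v = E.next G s`, `R (s+1) = insert v (R s)`, `v ∉ R s` (`next_inj`):
`stubs G (insert v R) = stubs G R - 2 res G R v` (the term of `v` disappears, and `res` drops by one
for every neighbour `w ∉ R` of `v`), `res G R v ≤ (G.neighborSet v).ncard ≤ Δ`. So
`mu (s+1)² ≥ 4 μ0² - 2M (2Δ)/n² ≥ μ0²` (`hΔ`).
-/

open scoped Classical
open Finset

namespace LKA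

variable {n : ℕ}

theorem stubs_insert (G : SimpleGraph (Fin n)) (R : Finset (Fin n)) {v : Fin n} (hv : v ∉ R) :
    stubs G (insert v R) + 2 * res G R v = stubs G R := by
  have h1 : (insert v R)ᶜ = (Rᶜ).erase v := by
    ext w
    simp only [mem_compl, mem_insert, mem_erase]
    tauto
  have hv' : v ∈ Rᶜ := mem_compl.2 hv
  have h2 : ∀ w ∈ (Rᶜ).erase v, res G R w = res G (insert v R) w + if G.Adj w v then 1 else 0 := by
    intro w _
    unfold res
    by_cases hwv : G.Adj w v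
    · rw [if_pos hwv]
      have h3 : univ.filter (fun u => u ∉ R ∧ G.Adj w u) =
          insert v (univ.filter (fun u => u ∉ insert v R ∧ G.Adj w u)) := by
        ext u
        simp only [mem_filter, mem_univ, true_and, mem_insert, not_or]
        constructor
        · rintro ⟨h4, h5⟩
          by_cases h6 : u = v
          · exact Or.inl h6
          · exact Or.inr ⟨⟨h6, h4⟩, h5⟩
        · rintro (rfl | ⟨⟨_, h4⟩, h5⟩)
          · exact ⟨hv, hwv⟩
          · exact ⟨h4, h5⟩
      rw [h3, card_insert_of_notMem]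
      simp
    · rw [if_neg hwv, add_zero]
      congr 1
      ext u
      simp only [mem_filter, mem_univ, true_and, mem_insert, not_or]
      constructor
      · rintro ⟨h4, h5⟩
        refine ⟨⟨?_, h4⟩, h5⟩
        rintro rfl
        exact hwv h5
      · rintro ⟨⟨_, h4⟩, h5⟩
        exact ⟨h4, h5⟩
  have h4 : ∑ w ∈ (Rᶜ).erase v, (if G.Adj w v then 1 else 0) = res G R v := by
    rw [← card_filter]
    unfold res
    congr 1
    ext w
    simp only [mem_filter, mem_erase, mem_compl, mem_univ, true_and]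
    constructor
    · rintro ⟨⟨_, h5⟩, h6⟩
      exact ⟨h5, h6.symm⟩
    · rintro ⟨h5, h6⟩
      exact ⟨⟨h6.ne.symm, h5⟩, h6.symm⟩
  have h5 : stubs G R = res G R v + ∑ w ∈ (Rᶜ).erase v, res G R w := by
    unfold stubs
    rw [add_sum_erase _ _ hv']
  rw [h5, sum_congr rfl h2, sum_add_distrib, h4]
  unfold stubs
  rw [h1]
  ring

theorem stubs_empty (G : SimpleGraph (Fin n)) : stubs G ∅ = 2 * G.edgeSet.ncard := by
  have h1 : G.edgeSet.ncard = G.edgeFinset.card := by
    rw [Set.ncard_eq_toFinset_card']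
    rfl
  rw [h1, ← SimpleGraph.sum_degrees_eq_twice_card_edges]
  unfold stubs
  rw [compl_empty]
  refine sum_congr rfl fun w _ => ?_
  unfold res
  rw [← SimpleGraph.card_neighborFinset_eq_degree]
  congr 1
  ext u
  simp

private theorem stageA_step (M : ℕ) (G : SimpleGraph (Fin n)) (η μ0 : ℝ) (l N0 Δ : ℕ) (hn : 0 < n)
    (hη : 0 < η) (hη1 : η ≤ 1 / 4) (hμ0 : 0 < μ0) (hlN : l ≤ N0)
    (hΔG : ∀ v, (G.neighborSet v).ncard ≤ Δ)
    (hA : 2 * μ0 ≤ (1 - η) * ((N0 : ℝ) - l) * (2 * M) / (n : ℝ) ^ 2)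
    (hΔ : 2 * (M : ℝ) * (2 * Δ) / (n : ℝ) ^ 2 ≤ 3 * μ0 ^ 2) (R : Finset (Fin n))
    (h1 : μ0 ≤ mu M G R) (h2 : (low M η G R).card < l) (hN : N0 ≤ (Rᶜ).card) (v : Fin n)
    (hv : v ∉ R) : μ0 ≤ mu M G (insert v R) := by
  have hn' : (0 : ℝ) < n := by exact_mod_cast hn
  have hsq : ∀ R' : Finset (Fin n), mu M G R' ^ 2 = 2 * M * stubs G R' / (n : ℝ) ^ 2 := by
    intro R'
    unfold mu
    rw [div_pow, Real.sq_sqrt (by positivity)]
  have hμ : 0 < mu M G R := lt_of_lt_of_le hμ0 h1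
  -- lower bound for the stubs
  have hc : ((N0 : ℝ) - l) * ((1 - η) * mu M G R) ≤ stubs G R := by
    have h3 : low M η G R ⊆ Rᶜ := filter_subset _ _
    have h4 : (((Rᶜ \ low M η G R).card : ℝ)) * ((1 - η) * mu M G R) ≤ stubs G R := by
      unfold stubs
      push_cast
      rw [← nsmul_eq_mul]
      refine (card_nsmul_le_sum _ (fun w => (res G R w : ℝ)) _ ?_).trans ?_
      · intro w hw
        rw [mem_sdiff] at hw
        by_contra h5
        apply hw.2
        unfold low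
        rw [mem_filter]
        exact ⟨hw.1, (not_le.1 h5).le⟩
      · refine sum_le_sum_of_subset_of_nonneg sdiff_subset fun w _ _ => ?_
        positivity
    have h5 : ((N0 : ℝ) - l) ≤ ((Rᶜ \ low M η G R).card : ℝ) := by
      have h6 : (Rᶜ \ low M η G R).card + (low M η G R).card = (Rᶜ).card :=
        card_sdiff_add_card_eq_card h3
      have h7 : N0 ≤ (Rᶜ \ low M η G R).card + l := by omega
      have h8 : (N0 : ℝ) ≤ ((Rᶜ \ low M η G R).card : ℝ) + l := by exact_mod_cast h7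
      linarith
    refine le_trans ?_ h4
    refine mul_le_mul_of_nonneg_right h5 ?_
    have : 0 ≤ 1 - η := by linarith
    positivity
  -- `μ ≥ 2 μ0`
  have h2μ : 2 * μ0 ≤ mu M G R := by
    have h3 : (2 * μ0) * mu M G R ≤ mu M G R ^ 2 := by
      rw [hsq R]
      calc (2 * μ0) * mu M G R ≤
          ((1 - η) * ((N0 : ℝ) - l) * (2 * M) / (n : ℝ) ^ 2) * mu M G R :=
            mul_le_mul_of_nonneg_right hA hμ.le
        _ = (2 * M) / (n : ℝ) ^ 2 * (((N0 : ℝ) - l) * ((1 - η) * mu M G R)) := by ring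
        _ ≤ (2 * M) / (n : ℝ) ^ 2 * stubs G R := mul_le_mul_of_nonneg_left hc (by positivity)
        _ = 2 * M * stubs G R / (n : ℝ) ^ 2 := by ring
    nlinarith
  -- the next step
  have hres : (res G R v : ℝ) ≤ Δ := by
    have h3 : res G R v ≤ (G.neighborSet v).ncard := by
      unfold res
      rw [← Set.ncard_coe_finset]
      refine Set.ncard_le_ncard ?_ (Set.toFinite _)
      intro u hu
      simp only [coe_filter, mem_univ, true_and, Set.mem_setOf_eq] at hu
      exact hu.2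
    exact_mod_cast h3.trans (hΔG v)
  have hst : (stubs G (insert v R) : ℝ) + 2 * res G R v = stubs G R := by
    exact_mod_cast stubs_insert G R hv
  have h3 : μ0 ^ 2 ≤ mu M G (insert v R) ^ 2 := by
    have h4 : mu M G (insert v R) ^ 2 = mu M G R ^ 2 - 2 * (M : ℝ) * (2 * res G R v) / (n : ℝ) ^ 2 := by
      rw [hsq, hsq, ← hst]
      ring
    have h5 : 2 * (M : ℝ) * (2 * res G R v) / (n : ℝ) ^ 2 ≤ 2 * (M : ℝ) * (2 * Δ) / (n : ℝ) ^ 2 := by
      gcongr
    nlinarith
  have h6 : 0 ≤ mu M G (insert v R) := by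
    unfold mu
    positivity
  exact le_of_sq_le_sq h3 h6

theorem stage_good (E : Explorer n) (G : SimpleGraph (Fin n)) (M : ℕ) (η μ0 : ℝ)
    (l N0 Δ : ℕ) (hn : 0 < n) (hη : 0 < η) (hη1 : η ≤ 1 / 4) (hμ0 : 0 < μ0) (hlN : l ≤ N0)
    (hM : G.edgeSet.ncard = M) (hΔG : ∀ v, (G.neighborSet v).ncard ≤ Δ)
    (h1 : ∀ s ≤ n, ¬ Bad1 M η μ0 l E s G)
    (hμd : μ0 ≤ 2 * M / n)
    (hA : 2 * μ0 ≤ (1 - η) * ((N0 : ℝ) - l) * (2 * M) / (n : ℝ) ^ 2)
    (hΔ : 2 * (M : ℝ) * (2 * Δ) / (n : ℝ) ^ 2 ≤ 3 * μ0 ^ 2) (s : ℕ) (hs : s ≤ n)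
    (hN : ∀ t < s, N0 ≤ (live G (E.rv G t) (E.out G ∩ E.rv G t)).card) :
    μ0 ≤ mu M G (E.rv G s) ∧ (low M η G (E.rv G s)).card < l := by
  have hlow : ∀ t ≤ n, μ0 ≤ mu M G (E.rv G t) → (low M η G (E.rv G t)).card < l := by
    intro t ht h
    by_contra h2
    exact h1 t ht ⟨h, not_lt.1 h2⟩
  have key : ∀ t ≤ s, μ0 ≤ mu M G (E.rv G t) := by
    intro t
    induction t with
    | zero =>
      intro _
      have h2 : E.rv G 0 = ∅ := by
        unfold Explorer.rv
        rw [range_zero, image_empty]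
      rw [h2]
      unfold mu
      rw [stubs_empty, hM]
      have h3 : 2 * (M : ℝ) * ((2 * M : ℕ) : ℝ) = (2 * M) ^ 2 := by
        push_cast
        ring
      rw [h3, Real.sqrt_sq (by positivity)]
      exact hμd
    | succ t ih =>
      intro ht
      have h2 := ih (by omega)
      have h3 : E.rv G (t + 1) = insert (E.next G t) (E.rv G t) := by
        unfold Explorer.rv
        rw [range_add_one, image_insert]
      rw [h3]
      refine stageA_step M G η μ0 l N0 Δ hn hη hη1 hμ0 hlN hΔG hA hΔ _ h2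
        (hlow t (by omega) h2) ?_ _ ?_
      · refine (hN t (by omega)).trans (card_le_card ?_)
        unfold live
        exact filter_subset _ _
      · intro h4
        unfold Explorer.rv at h4
        rw [mem_image] at h4
        obtain ⟨i, hi, h5⟩ := h4
        rw [mem_range] at hi
        have := E.next_inj G i t (by omega) (by omega) h5
        omega
  exact ⟨key s le_rfl, hlow s hs (key s le_rfl)⟩

end LKA
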