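import Pool.Agent.LKA.Ext

/-!
# LKA-StatC: everything relevant is constant on a class

Plan. `m ∈ cls s m0`, both simple. `SameInfo E.next s (gr m0) (gr m)` by `strat_same`.
`rv`: `strat_R` and `MStrat.cls_R`. `und`, `acc`: `E.causal_und`, `E.causal_acc`. With `R` the
common revealed set: for `w ∉ R` `res (gr m) R w = #{x : x.1 = w, (m x).1 ∉ R}` (`res_gr`), and for
`x.1 ∉ R`: `(m x).1 ∈ R ↔ (m0 x).1 ∈ R` (as in `MStrat.cls_X`, or use `cls_X` itself), so `res` and
`stubs` (definition: the sum over `Rᶜ`) agree, hence `mu` and `low`. For `a ∈ R`: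
`(gr m).Adj a w ↔ (gr m0).Adj a w` (`gr_adj`, `m x = m0 x` on the stubs of `a`); this gives the
statements on `inds` and `live`.
-/

open scoped Classical
open Finset

namespace LKA

variable {n : ℕ}

private lemma statC_X {α V : Type} [Fintype α] {o : α → V} (st : MStrat α V o) (s : ℕ)
    (m : Equiv.Perm α) (x : α) :
    x ∈ st.X s m ↔ o x ∉ st.R s m ∧ o (m x) ∉ st.R s m := by
  unfold MStrat.X
  rw [mem_filter]
  exact ⟨fun h => h.2, fun h => ⟨mem_univ _, h⟩⟩

private lemma statC_cls {α V : Type} [Fintype α] {o : α → V} (st : MStrat α V o) (s : ℕ)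
    (m0 m : Equiv.Perm α) (h : m ∈ st.cls s m0) :
    m ∈ Mat (univ : Finset α) ∧ ∀ x, o x ∈ st.R s m0 → m x = m0 x := by
  unfold MStrat.cls at h
  rwa [mem_filter] at h

theorem class_const (E : Explorer n) (M : ℕ) (η : ℝ) (s : ℕ) {D : Fin n → ℕ}
    (st : MStrat (Stub D) (Fin n) (fun x => x.1))
    (hst : ∀ m ∈ Mat (univ : Finset (Stub D)), Simp m → ∀ i < n, st.v i m = E.next (gr m) i)
    {m0 m : Equiv.Perm (Stub D)} (hm0 : m0 ∈ Mat (univ : Finset (Stub D))) (hs0 : Simp m0)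
    (hsn : s ≤ n) (hm : m ∈ st.cls s m0) (hs : Simp m) :
    E.rv (gr m) s = E.rv (gr m0) s ∧ mu M (gr m) (E.rv (gr m) s) = mu M (gr m0) (E.rv (gr m0) s) ∧
    low M η (gr m) (E.rv (gr m) s) = low M η (gr m0) (E.rv (gr m0) s) ∧
    E.und (gr m) s = E.und (gr m0) s ∧ E.acc (gr m) s = E.acc (gr m0) s ∧
    (∀ P ⊆ E.rv (gr m0) s, inds (gr m) P = inds (gr m0) P) ∧
    (∀ A ⊆ E.rv (gr m0) s, live (gr m) (E.rv (gr m) s) A = live (gr m0) (E.rv (gr m0) s) A) := by
  have hmm : m ∈ Mat (univ : Finset (Stub D)) ∧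
      ∀ x : Stub D, x.1 ∈ st.R s m0 → m x = m0 x := statC_cls st s m0 m hm
  obtain ⟨hm1, hm2⟩ := hmm
  have hR0 : st.R s m0 = E.rv (gr m0) s := strat_R E st hst hm0 hs0 hsn
  have hRm : st.R s m = E.rv (gr m) s := strat_R E st hst hm1 hs hsn
  have hR : st.R s m = st.R s m0 := st.cls_R hm0 hm
  have hrv : E.rv (gr m) s = E.rv (gr m0) s := by rw [← hRm, hR, hR0]
  have hsame := strat_same E st hst hm0 hs0 hs hsn hm
  have hX := st.cls_X hm0 hm
  have hXi : ∀ x : Stub D, x.1 ∉ E.rv (gr m0) s →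
      ((m x).1 ∉ E.rv (gr m0) s ↔ (m0 x).1 ∉ E.rv (gr m0) s) := by
    intro x hx
    have h1 : x ∈ st.X s m ↔ x ∈ st.X s m0 := by rw [hX]
    rw [statC_X, statC_X, hR, hR0] at h1
    constructor
    · intro h
      exact (h1.1 ⟨hx, h⟩).2
    · intro h
      exact (h1.2 ⟨hx, h⟩).2
  have hadj : ∀ a ∈ E.rv (gr m0) s, ∀ w, (gr m).Adj a w ↔ (gr m0).Adj a w := by
    intro a ha w
    rw [gr_adj hm1 hs, gr_adj hm0 hs0]
    constructor
    · rintro ⟨x, hx, hw⟩
      refine ⟨x, hx, ?_⟩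
      rw [← hm2 x (by rw [hR0, hx]; exact ha)]
      exact hw
    · rintro ⟨x, hx, hw⟩
      refine ⟨x, hx, ?_⟩
      rw [hm2 x (by rw [hR0, hx]; exact ha)]
      exact hw
  have hres : ∀ w, w ∉ E.rv (gr m0) s →
      res (gr m) (E.rv (gr m0) s) w = res (gr m0) (E.rv (gr m0) s) w := by
    intro w hw
    rw [res_gr hm1 hs, res_gr hm0 hs0]
    congr 1
    ext x
    simp only [mem_filter, mem_univ, true_and]
    constructor
    · rintro ⟨h1, h2⟩
      exact ⟨h1, (hXi x (by rw [h1]; exact hw)).1 h2⟩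
    · rintro ⟨h1, h2⟩
      exact ⟨h1, (hXi x (by rw [h1]; exact hw)).2 h2⟩
  have hstubs : stubs (gr m) (E.rv (gr m0) s) = stubs (gr m0) (E.rv (gr m0) s) := by
    unfold stubs
    exact sum_congr rfl fun w hw => hres w (mem_compl.1 hw)
  have hmu : mu M (gr m) (E.rv (gr m0) s) = mu M (gr m0) (E.rv (gr m0) s) := by
    unfold mu
    rw [hstubs]
  refine ⟨hrv, by rw [hrv, hmu], ?_, (E.causal_und _ _ s hsn hsame).symm,
    (E.causal_acc _ _ s hsn hsame).symm, ?_, ?_⟩
  · rw [hrv]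
    unfold low
    refine filter_congr fun w hw => ?_
    rw [hres w (mem_compl.1 hw), hmu]
  · intro P hP
    unfold inds
    refine filter_congr fun A hA => ?_
    rw [mem_powerset] at hA
    unfold Ind
    constructor
    · intro h u hu v hv huv
      exact h u hu v hv ((hadj u (hP (hA hu)) v).2 huv)
    · intro h u hu v hv huv
      exact h u hu v hv ((hadj u (hP (hA hu)) v).1 huv)
  · intro A hA
    rw [hrv]
    unfold live
    refine filter_congr fun w _ => ?_
    constructor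
    · intro h a ha haw
      exact h a ha ((hadj a (hA ha) w).2 haw)
    · intro h a ha haw
      exact h a ha ((hadj a (hA ha) w).1 haw)

end LKA
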